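import Pool.Agent.Helper44.RED.StF

/-!
# Project CMF (MP_1dc56d): definitions

Rationality = isogeny, rationality = complex multiplication.
-/

set_option autoImplicit false

open Polynomial

namespace Pool.Agent.Helper44.CMF

open Pool.Agent.Helper44.RED

/-- the characteristic of `k` is `0` or at least `P` -/
def Big (k : Type) [Field k] (P : ℕ) : Prop := ∀ n : ℕ, 0 < n → n < P → (n : k) ≠ 0

/-! ## the equations over a commutative ring -/

/-- the equations of `RED` over a commutative ring (see `eqn`) -/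
noncomputable def eqR {R : Type} [CommRing R] {t n s M : ℕ} (b : Fin s → MvPolynomial (Fin t) R)
    (σ : Fin M → Matrix (Fin t) (Fin t) R) (p : Fin M × Fin s) : MvPolynomial (VI t n s M) R :=
  MvPolynomial.X (Sum.inr (Sum.inr (Sum.inr p))) ^ 2 -
    bs b (σ p.1) (fun j => (MvPolynomial.X (Sum.inl j) : MvPolynomial (VI t n s M) R)) p.2 *
    (gd (ppf (fun j : Fin n => (MvPolynomial.X (Sum.inr (Sum.inl j)) : MvPolynomial (VI t n s M) R)))
        (ext0 (fun l S => MvPolynomial.X (Sum.inr (Sum.inr (Sum.inl (p.1, l, S)))))) p.2 *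
     gd (ppf (fun j : Fin n => (MvPolynomial.X (Sum.inr (Sum.inl j)) : MvPolynomial (VI t n s M) R)))
        (ext0 (fun l S => MvPolynomial.X (Sum.inr (Sum.inr (Sum.inl (p.1, l, S)))))) (p.2 + 1))

/-- homogenisation in degree `2 D` over a commutative ring (see `hzD`) -/
noncomputable def hzR {R : Type} [CommRing R] {m : ℕ} (D : ℕ) (c : MvPolynomial (Fin m) R) :
    MvPolynomial (Fin (m + 1)) R :=
  ∑ d ∈ Finset.range (D + 1), MvPolynomial.X 0 ^ (2 * D - d) *
    MvPolynomial.rename Fin.succ (MvPolynomial.homogeneousComponent d c)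

/-- the translations over a commutative ring (see `sgx`) -/
def sgR (R : Type) [CommRing R] (t B M : ℕ) (q : Fin M) : Matrix (Fin t) (Fin t) R :=
  Matrix.of fun i j => (((M + 2 + q.1) ^ (B ^ i.1 * (j.1 + 1)) : ℕ) : R)

/-- the variety `X` attached to the finite family `g` of polynomials over `R` and `φ : R → k`: its ideal -/
noncomputable def spI {R k : Type} [CommRing R] [Field k] {v q : ℕ} (φ : R →+* k)
    (g : Fin q → MvPolynomial (Fin v) R) : Ideal (MvPolynomial (Fin v) k) :=
  Ideal.span (Set.range fun j => MvPolynomial.map φ (g j))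

/-- the conclusion of all theorems: the ideal is prime, and its variety is rational iff it is stably
rational iff `S` holds -/
def Good {R k : Type} [CommRing R] [Field k] {v q : ℕ} (φ : R →+* k)
    (g : Fin q → MvPolynomial (Fin v) R) (S : Prop) : Prop :=
  (spI φ g).IsPrime ∧ (Rational k (MvPolynomial (Fin v) k ⧸ spI φ g) ↔ S) ∧
    (StRational k (MvPolynomial (Fin v) k ⧸ spI φ g) ↔ S)

/-! ## the curves -/

/-- the curve `y² = (x - e₀)(x - e₁)(x - e₂)` -/
def W {K : Type} [Field K] (e : Fin 3 → K) : WeierstrassCurve.Affine K where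
  a₁ := 0
  a₂ := -(e 0 + e 1 + e 2)
  a₃ := 0
  a₄ := e 0 * e 1 + e 0 * e 2 + e 1 * e 2
  a₆ := -(e 0 * e 1 * e 2)

/-- the 2-descent map: `x - e_i`, corrected at `x = e_i`, and `1` at infinity -/
def dl {K : Type} [Field K] [DecidableEq K] (e : Fin 3 → K) (i : Fin 3) : (W e).Point → K
  | .zero => 1
  | .some x _ _ => if x = e i then (e i - e (i + 1)) * (e i - e (i + 2)) else x - e i

/-- `t - r` in `k(t)` -/
noncomputable def tm {k : Type} [Field k] (r : k) : RatFunc k := RatFunc.X - RatFunc.C r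

/-- the three roots `0, 1, l` -/
def rt {k : Type} [Field k] (l : k) : Fin 3 → k := ![0, 1, l]

/-- `f = t (t - 1) (t - l)` -/
noncomputable def ff {k : Type} [Field k] (l : k) : RatFunc k := ∏ j, tm (rt l j)

/-- the square classes `∏ (t - r_j)^(m_j)` -/
noncomputable def dm {k : Type} [Field k] (l : k) (m : Fin 3 → Bool) : RatFunc k :=
  ∏ j, if m j then tm (rt l j) else 1

/-- the roots `0, f, m f` of the twisted curve -/
noncomputable def ee {k : Type} [Field k] (l m : k) : Fin 3 → RatFunc k :=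
  fun i => RatFunc.C (rt m i) * ff l

/-- degree of a rational function -/
noncomputable def rdeg {k : Type} [Field k] (u : RatFunc k) : ℕ := max u.num.natDegree u.denom.natDegree

/-- height of a point of the twisted curve: degree of `X / f` -/
noncomputable def ht {k : Type} [Field k] (l m : k) : (W (ee l m)).Point → ℕ
  | .zero => 0
  | .some x _ _ => rdeg (x / ff l)

/-- `P` has the class `M` -/
def HasClass {k : Type} [Field k] [DecidableEq (RatFunc k)] (l m : k) (P : (W (ee l m)).Point)
    (M : Fin 3 → Fin 3 → Bool) : Prop :=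
  ∀ i, IsSquare (ff l * dl (ee l m) i P * dm l (M i))

/-- the first quadratic form of the covering of class `M`: `d₀ u² - d₁ v² - z²` -/
noncomputable def qa {k : Type} [Field k] (l : k) (M : Fin 3 → Fin 3 → Bool) : Fin 4 → RatFunc k :=
  ![dm l (M 0), - dm l (M 1), 0, -1]

/-- the second quadratic form: `d₀ u² - d₂ w² - m z²` -/
noncomputable def qb {k : Type} [Field k] (l m : k) (M : Fin 3 → Fin 3 → Bool) : Fin 4 → RatFunc k :=
  ![dm l (M 0), 0, - dm l (M 2), - RatFunc.C m]

/-- all column sums are odd -/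
def OddCol (M : Fin 3 → Fin 3 → Bool) : Prop := ∀ j, xor (xor (M 0 j) (M 1 j)) (M 2 j) = true

/-- constant rows -/
def RowConst (M : Fin 3 → Fin 3 → Bool) : Prop := ∀ i j, M i j = M i 0

/-- the classes of `ℤ I + E[2]` -/
def Spec8 (M : Fin 3 → Fin 3 → Bool) : Prop := M 0 1 = M 0 2 ∧ M 1 0 = M 1 2 ∧ M 2 0 = M 2 1

/-- abstract properties of height and class map on the group `G` of points -/
structure Dat {G : Type} [AddCommGroup G] (h : G → ℕ) (c : G → Fin 3 → Fin 3 → Bool) : Prop where
  par : ∀ P Q, h (P + Q) + h (P - Q) = 2 * h P + 2 * h Q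
  tor : ∀ P, h P = 0 → P + P = 0
  zer : ∀ P, h P = 0 → RowConst (c P)
  odd : ∀ P, OddCol (c P)
  add : ∀ P Q i j, c (P + Q) i j = !(xor (c P i j) (c Q i j))
  dbl : ∀ P, (∀ i j, c P i j = true) → ∃ R, P = R + R
  two : ∀ M, OddCol M → RowConst M → ∃ P, h P = 0 ∧ c P = M

/-! ## primitive vectors of polynomials -/

/-- up to a factor in `k(t)`, the vector `v` is a vector of polynomials without common zero (also at
infinity) of degree `d` -/
def PD {k : Type} [Field k] {n : ℕ} (v : Fin n → RatFunc k) (d : ℕ) : Prop :=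
  ∃ c : RatFunc k, c ≠ 0 ∧ ∃ p : Fin n → k[X], (∀ i, c * v i = algebraMap k[X] (RatFunc k) (p i)) ∧
    (∀ z : k, ∃ i, (p i).eval z ≠ 0) ∧ (∀ i, (p i).natDegree ≤ d) ∧ ∃ i, (p i).coeff d ≠ 0

/-- symmetric product of two vectors `(a : b)` -/
def sm2 {R : Type} [CommRing R] (u v : Fin 2 → R) : Fin 3 → R :=
  ![u 1 * v 1, u 0 * v 1 + u 1 * v 0, u 0 * v 0]

/-- addition and subtraction on pairs of `x`-coordinates of `y² = x (x - 1) (x - m)` -/
def sgm {R : Type} [CommRing R] (m : R) (v : Fin 3 → R) : Fin 3 → R :=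
  ![v 1 ^ 2 - 4 * (v 0 * v 2), 2 * (v 1 * (v 2 + m * v 0)) - 4 * ((1 + m) * (v 0 * v 2)),
    (v 2 - m * v 0) ^ 2]

/-- the `x`-coordinate `(X / f : 1)` of a point of the twisted curve, `(1 : 0)` at infinity -/
noncomputable def xx {k : Type} [Field k] (l m : k) : (W (ee l m)).Point → Fin 2 → RatFunc k
  | .zero => ![1, 0]
  | .some x _ _ => ![x / ff l, 1]

/-! ## the final conditions -/

/-- `E_l : y² = x (x-1)(x-l)` and `E_m` are isogenous: there is a nonconstant morphism
`(t, y) ↦ (u(t), y w(t))` -/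
def Isog {k : Type} [Field k] (l m : k) : Prop :=
  ∃ u w : RatFunc k, ff l * w ^ 2 = u * (u - 1) * (u - RatFunc.C m) ∧ ∀ c : k, u ≠ RatFunc.C c

/-- `E_m` has an endomorphism `(t, y) ↦ (u(t), y w(t))` whose degree is not a square -/
def HasCM {k : Type} [Field k] (m : k) : Prop :=
  ∃ u w : RatFunc k, ff m * w ^ 2 = u * (u - 1) * (u - RatFunc.C m) ∧ ¬ IsSquare (rdeg u)

end Pool.Agent.Helper44.CMF
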