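import Pool.Agent.Helper44.CMF.St

/-!
# Project CMF, part N (MP_1dc56d): double covers of affine space and maps to an elliptic curve

Definitions for the general version of `T3`: `K = k(t_1, …, t_n)`, `F = p_1 ⋯ p_s` with pairwise
nonassociated irreducible polynomials.
-/

set_option autoImplicit false

open MvPolynomial

namespace Pool.Agent.Helper44.CMF

open Pool.Agent.Helper44.RED

/-- the roots `0, F, m F` of the twisted curve over an arbitrary field -/
def eK {K : Type} [Field K] (F m : K) : Fin 3 → K := ![0, F, m * F]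

/-- the `x`-coordinate `(x / F : 1)` of a point of the twisted curve, `(1 : 0)` at infinity -/
def xK {K : Type} [Field K] (F m : K) : (W (eK F m)).Point → Fin 2 → K
  | .zero => ![1, 0]
  | .some x _ _ => ![x / F, 1]

/-- `k[t_1, …, t_n]` -/
abbrev AN (n : ℕ) (k : Type) [Field k] : Type := MvPolynomial (Fin n) k

/-- `k(t_1, …, t_n)` -/
abbrev KN (n : ℕ) (k : Type) [Field k] : Type := FractionRing (MvPolynomial (Fin n) k)

/-- the constant `c` in `k(t_1, …, t_n)` -/
noncomputable def cN (n : ℕ) {k : Type} [Field k] (c : k) : KN n k := algebraMap (AN n k) (KN n k) (C c)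

/-- the product of the `p_j` -/
noncomputable def fN {n s : ℕ} {k : Type} [Field k] (p : Fin s → AN n k) : KN n k :=
  ∏ j, algebraMap (AN n k) (KN n k) (p j)

/-- the product of the `p_j` with `r j = true` -/
noncomputable def dN {n s : ℕ} {k : Type} [Field k] (p : Fin s → AN n k) (r : Fin s → Bool) : KN n k :=
  ∏ j, if r j then algebraMap (AN n k) (KN n k) (p j) else 1

/-- the `p_j` are irreducible and pairwise not associated -/
def Irr {n s : ℕ} {k : Type} [Field k] (p : Fin s → AN n k) : Prop :=
  (∀ j, Irreducible (p j)) ∧ ∀ i j, i ≠ j → ¬ Associated (p i) (p j)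

/-- degree of an element of `k(t_1, …, t_n)` in lowest terms -/
noncomputable def degN {n : ℕ} {k : Type} [Field k] (u : KN n k) : ℕ :=
  max (IsFractionRing.num (AN n k) u).totalDegree
    ((IsFractionRing.den (AN n k) u : AN n k)).totalDegree

/-- height of a point of the twisted curve -/
noncomputable def htN {n : ℕ} {k : Type} [Field k] (F m : KN n k) : (W (eK F m)).Point → ℕ
  | .zero => 0
  | .some x _ _ => degN (x / F)

/-- `P` has the class `M` -/
def ClassN {n s : ℕ} {k : Type} [Field k] [DecidableEq (KN n k)] (p : Fin s → AN n k) (m : k)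
    (P : (W (eK (fN p) (cN n m))).Point) (M : Fin 3 → Fin s → Bool) : Prop :=
  ∀ i, IsSquare (fN p * dl (eK (fN p) (cN n m)) i P * dN p (M i))

/-- all column sums are odd -/
def OddN {s : ℕ} (M : Fin 3 → Fin s → Bool) : Prop := ∀ j, xor (xor (M 0 j) (M 1 j)) (M 2 j) = true

/-- constant rows -/
def RowN {s : ℕ} (M : Fin 3 → Fin s → Bool) : Prop := ∀ i j j', M i j = M i j'

/-- abstract properties of height and class map on the group `G` of points -/
structure DatN {G : Type} [AddCommGroup G] (s : ℕ) (h : G → ℕ) (c : G → Fin 3 → Fin s → Bool) :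
    Prop where
  par : ∀ P Q, h (P + Q) + h (P - Q) = 2 * h P + 2 * h Q
  tor : ∀ P, h P = 0 → P + P = 0
  zer : ∀ P, h P = 0 → RowN (c P)
  odd : ∀ P, OddN (c P)
  add : ∀ P Q i j, c (P + Q) i j = !(xor (c P i j) (c Q i j))
  dbl : ∀ P, (∀ i j, c P i j = true) → ∃ R, P = R + R
  two : ∀ M, OddN M → RowN M → ∃ P, h P = 0 ∧ c P = M

/-- up to a factor in `k(t_1, …, t_n)`, the vector `v` is a vector of polynomials without common prime
factor, of total degree `d` -/
def PDN {n : ℕ} {k : Type} [Field k] {r : ℕ} (v : Fin r → KN n k) (d : ℕ) : Prop :=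
  ∃ c : KN n k, c ≠ 0 ∧ ∃ p : Fin r → AN n k, (∀ i, c * v i = algebraMap (AN n k) (KN n k) (p i)) ∧
    (∀ π : AN n k, Prime π → ∃ i, ¬ π ∣ p i) ∧ (∀ i, (p i).totalDegree ≤ d) ∧
    ∃ i, homogeneousComponent d (p i) ≠ 0

end Pool.Agent.Helper44.CMF
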