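import Pool.Agent.Helper44.CMF.St

/-!
# Project CMF: module Bru (Brumer theorem, two diagonal forms)
-/

set_option autoImplicit false

open Polynomial

namespace Pool.Agent.Helper44.CMF

open Pool.Agent.Helper44.RED

private lemma coeff_sq_Bru {K : Type} [Field K] (p : K[X]) (n : ℕ) (hp : p.natDegree ≤ n + 1) :
    (p ^ 2).coeff (2 * n + 1) = 2 * (p.coeff (n + 1) * p.coeff n) := by
  set r : K[X] := p - C (p.coeff (n + 1)) * X ^ (n + 1) with hr
  have hrd : r.natDegree ≤ n := by
    rw [natDegree_le_iff_coeff_eq_zero]
    intro N hN
    rw [hr, coeff_sub, coeff_C_mul, coeff_X_pow]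
    by_cases h : N = n + 1
    · subst h; simp
    · rw [if_neg h, mul_zero, sub_zero]
      exact coeff_eq_zero_of_natDegree_lt (by omega)
  have hp2 : p = C (p.coeff (n + 1)) * X ^ (n + 1) + r := by rw [hr]; ring
  have hrn : r.coeff n = p.coeff n := by
    rw [hr, coeff_sub, coeff_C_mul, coeff_X_pow, if_neg (by omega), mul_zero, sub_zero]
  have h2 : p ^ 2 = C (p.coeff (n + 1) ^ 2) * X ^ (2 * n + 2) +
      C (2 * p.coeff (n + 1)) * (r * X ^ (n + 1)) + r ^ 2 := by
    have e : p ^ 2 = (C (p.coeff (n + 1)) * X ^ (n + 1) + r) ^ 2 := by rw [← hp2]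
    rw [e, C_pow, C_mul]
    have : (C (2 : K) : K[X]) = 2 := map_ofNat C 2
    rw [this]
    ring
  have h3 : (r ^ 2).coeff (2 * n + 1) = 0 := by
    refine coeff_eq_zero_of_natDegree_lt ?_
    have := natDegree_pow_le_of_le 2 hrd
    omega
  have h4 : (r * X ^ (n + 1)).coeff (2 * n + 1) = p.coeff n := by
    rw [show 2 * n + 1 = n + (n + 1) by ring, coeff_mul_X_pow, hrn]
  rw [h2, coeff_add, coeff_add, coeff_C_mul, coeff_C_mul, h3, h4, coeff_X_pow, if_neg (by omega)]
  ring

private lemma coeff_sq_top_Bru {K : Type} [Field K] (p : K[X]) (m : ℕ) (hp : p.natDegree ≤ m) :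
    (p ^ 2).coeff (2 * m) = p.coeff m ^ 2 := by
  rw [sq, two_mul, coeff_mul_add_eq_of_natDegree_le hp hp, sq]

private lemma coeff_sq_big_Bru {K : Type} [Field K] (p : K[X]) (m : ℕ) (hp : p.natDegree ≤ m) :
    (p ^ 2).coeff (2 * m + 1) = 0 := by
  refine coeff_eq_zero_of_natDegree_lt ?_
  have := natDegree_pow_le_of_le 2 hp
  omega

private lemma main_Bru {K ι : Type} [Field K] [Fintype ι] (h2 : (2 : K) ≠ 0) (a b : ι → K)
    (hab : ∀ x : ι → K, qf a x = 0 → qf b x = 0 → x = 0) :
    ∀ (m : ℕ) (v : ι → K[X]), (∀ i N, m ≤ N → (v i).coeff N = 0) →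
      qf (fun i => C (b i) + X * C (a i)) v = 0 → v = 0 := by
  intro m
  induction m with
  | zero =>
    intro v hv _
    funext i
    exact Polynomial.ext fun N => by rw [hv i N (Nat.zero_le _)]; simp
  | succ m ih =>
    intro v hv hq
    set q : ι → K[X] := fun i => C (b i) + X * C (a i) with hqdef
    set w : ι → K := fun i => (v i).coeff m with hw
    have hdeg : ∀ i, (v i).natDegree ≤ m := fun i => by
      rw [natDegree_le_iff_coeff_eq_zero]
      intro N hN
      exact hv i N hN
    by_cases hw0 : w = 0
    · refine ih v (fun i N hN => ?_) hq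
      rcases hN.lt_or_eq with h | h
      · exact hv i N h
      · rw [← h]
        exact congrFun hw0 i
    exfalso
    -- coefficient formula
    have hco : ∀ N : ℕ, ∑ i, (b i * (v i ^ 2).coeff (N + 1) + a i * (v i ^ 2).coeff N) = 0 := by
      intro N
      have h := congrArg (fun p : K[X] => p.coeff (N + 1)) hq
      simp only [qf, finsetSum_coeff, coeff_zero] at h
      rw [← h]
      refine Finset.sum_congr rfl fun i _ => ?_
      rw [hqdef]
      simp only
      rw [add_mul, coeff_add, coeff_C_mul, mul_assoc, coeff_X_mul, coeff_C_mul]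
    have haw : qf a w = 0 := by
      have h := hco (2 * m)
      rw [← h, qf]
      refine Finset.sum_congr rfl fun i _ => ?_
      rw [coeff_sq_big_Bru _ _ (hdeg i), coeff_sq_top_Bru _ _ (hdeg i), mul_zero, zero_add]
    rcases m with _ | n
    · -- m = 0
      have hbw : qf b w = 0 := by
        have h := congrArg (fun p : K[X] => p.coeff 0) hq
        simp only [qf, finsetSum_coeff, coeff_zero] at h
        rw [← h, qf]
        refine Finset.sum_congr rfl fun i _ => ?_
        rw [hqdef]
        simp only
        rw [add_mul, coeff_add, coeff_C_mul, mul_assoc, mul_coeff_zero X, coeff_X_zero, zero_mul,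
          add_zero]
        have := coeff_sq_top_Bru (v i) 0 (hdeg i)
        rw [mul_zero] at this
        rw [this]
      exact hw0 (hab w haw hbw)
    · have hbv : qf b w + 2 * bf a w (fun i => (v i).coeff n) = 0 := by
        have h := hco (2 * n + 1)
        rw [← h, qf, bf, Finset.mul_sum, ← Finset.sum_add_distrib]
        refine Finset.sum_congr rfl fun i _ => ?_
        rw [coeff_sq_Bru _ _ (hdeg i), show 2 * n + 1 + 1 = 2 * (n + 1) by ring,
          coeff_sq_top_Bru _ _ (hdeg i)]
        simp only [hw]
        ring
      set c : K := qf b w with hc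
      by_cases hc0 : c = 0
      · exact hw0 (hab w haw hc0)
      set W : ι → K[X] := fun i => C (w i) with hWdef
      have hqW : qf q W = C c := by
        have e : qf q W = C (qf b w) + X * C (qf a w) := by
          simp only [qf, map_sum, Finset.mul_sum, ← Finset.sum_add_distrib]
          refine Finset.sum_congr rfl fun i _ => ?_
          simp only [hqdef, hWdef, C_mul, C_pow]
          ring
        rw [e, haw, C_0, mul_zero, add_zero]
      set B : K[X] := bf q v W with hB
      set v' : ι → K[X] := v - (C (2 / c) * B) • W with hv'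
      have hcc : C (2 / c) * C c = (2 : K[X]) := by
        rw [← C_mul, div_mul_cancel₀ _ hc0]
        exact map_ofNat C 2
      have hqv' : qf q v' = 0 := by
        have hbs : bf q v ((C (2 / c) * B) • W) = (C (2 / c) * B) * B := by
          rw [hB, bf_smul_right]
        rw [hv', qf_sub, qf_smul, hq, hbs, hqW]
        have : (C (2 / c) * B) ^ 2 * C c = (C (2 / c) * C c) * (C (2 / c) * B ^ 2) := by ring
        rw [this, hcc]
        ring
      have hBco : ∀ N, B.coeff (N + 1) = ∑ i, (b i * ((v i).coeff (N + 1) * w i) +
          a i * ((v i).coeff N * w i)) := by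
        intro N
        rw [hB, bf, finsetSum_coeff]
        refine Finset.sum_congr rfl fun i _ => ?_
        simp only [hqdef, hWdef]
        rw [add_mul, coeff_add, coeff_C_mul, coeff_mul_C, mul_assoc, coeff_X_mul, coeff_C_mul,
          coeff_mul_C]
      have hv'0 : v' = 0 := by
        refine ih v' (fun i N hN => ?_) hqv'
        obtain ⟨N', rfl⟩ : ∃ N', N = N' + 1 := ⟨N - 1, by omega⟩
        have e : (v' i).coeff (N' + 1) = (v i).coeff (N' + 1) - 2 / c * (B.coeff (N' + 1) * w i) := by
          simp only [hv', Pi.sub_apply, Pi.smul_apply, smul_eq_mul, hWdef, coeff_sub]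
          rw [mul_assoc, coeff_C_mul, coeff_mul_C]
        rw [e, hBco]
        have hN' : n ≤ N' := by omega
        rcases hN'.lt_or_eq with h | h
        · -- N' ≥ n + 1
          have hz : (v i).coeff (N' + 1) = 0 := hv i _ (by omega)
          have hs : ∑ i, (b i * ((v i).coeff (N' + 1) * w i) + a i * ((v i).coeff N' * w i)) = 0 := by
            have h1 : ∀ i, (v i).coeff (N' + 1) = 0 := fun i => hv i _ (by omega)
            rcases (show n + 1 ≤ N' from h).lt_or_eq with h3 | h3
            · have h4 : ∀ i, (v i).coeff N' = 0 := fun i => hv i _ (by omega)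
              simp [h1, h4]
            · rw [← haw, qf]
              refine Finset.sum_congr rfl fun i _ => ?_
              rw [h1 i, ← h3]
              simp only [hw]
              ring
          rw [hz, hs]
          ring
        · -- N' = n
          subst h
          have hs : ∑ i, (b i * ((v i).coeff (n + 1) * w i) + a i * ((v i).coeff n * w i)) =
              c + bf a w (fun i => (v i).coeff n) := by
            rw [hc, qf, bf, ← Finset.sum_add_distrib]
            refine Finset.sum_congr rfl fun i _ => ?_
            simp only [hw]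
            ring
          rw [hs]
          have hh : bf a w (fun i => (v i).coeff n) = - c / 2 := by
            field_simp
            linear_combination hbv
          rw [hh]
          have : (v i).coeff (n + 1) = w i := rfl
          rw [this]
          field_simp
          ring
      have hvv : v = (C (2 / c) * B) • W := by
        rw [hv', sub_eq_zero] at hv'0
        exact hv'0
      have hB0 : B = 0 := by
        rw [hvv, qf_smul, hqW] at hq
        have h5 : (C (2 / c) * B) ^ 2 = 0 := by
          rcases mul_eq_zero.mp hq with h | h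
          · exact h
          · exact absurd (C_eq_zero.mp h) hc0
        have h6 := pow_eq_zero_iff (two_ne_zero) |>.mp h5
        rcases mul_eq_zero.mp h6 with h | h
        · exact absurd (C_eq_zero.mp h) (div_ne_zero h2 hc0)
        · exact h
      apply hw0
      funext i
      simp only [hw]
      rw [hvv, hB0, mul_zero, zero_smul]
      simp

theorem pBru : StBru := by
  intro K ι _ _ h2 a b
  constructor
  · intro h x hx1 hx2
    have h3 : qf (fun i => RatFunc.C (b i) + RatFunc.X * RatFunc.C (a i))
        (fun i => RatFunc.C (x i)) = 0 := by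
      have e : qf (fun i => RatFunc.C (b i) + RatFunc.X * RatFunc.C (a i))
          (fun i => RatFunc.C (x i)) = RatFunc.C (qf b x) + RatFunc.X * RatFunc.C (qf a x) := by
        simp only [qf, map_sum, Finset.mul_sum, ← Finset.sum_add_distrib]
        refine Finset.sum_congr rfl fun i _ => ?_
        rw [map_mul, map_mul, map_pow]
        ring
      rw [e, hx1, hx2, map_zero, mul_zero, add_zero]
    have h4 := h _ h3
    funext i
    have h5 := congrFun h4 i
    simp only [Pi.zero_apply] at h5 ⊢
    exact (map_eq_zero (RatFunc.C : K →+* RatFunc K)).mp h5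
  · intro hab y hy
    -- clear denominators
    classical
    set d : K[X] := ∏ i, (y i).denom with hd
    have hd0 : d ≠ 0 := Finset.prod_ne_zero_iff.mpr fun i _ => RatFunc.denom_ne_zero _
    have hp : ∀ i, ∃ p : K[X], algebraMap K[X] (RatFunc K) p = algebraMap K[X] (RatFunc K) d * y i := by
      intro i
      obtain ⟨e, he⟩ := Finset.dvd_prod_of_mem (fun i => (y i).denom) (Finset.mem_univ i)
      refine ⟨e * (y i).num, ?_⟩
      have h6 : algebraMap K[X] (RatFunc K) (y i).denom ≠ 0 := by
        rw [Ne, map_eq_zero_iff _ (RatFunc.algebraMap_injective K)]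
        exact RatFunc.denom_ne_zero _
      have h7 : d = (y i).denom * e := he
      have h10 : algebraMap K[X] (RatFunc K) (y i).num =
          y i * algebraMap K[X] (RatFunc K) (y i).denom := by
        have h11 := RatFunc.num_div_denom (y i)
        rw [div_eq_iff h6] at h11
        exact h11
      rw [h7, map_mul, map_mul, h10]
      ring
    choose p hp using hp
    have hq : qf (fun i => C (b i) + X * C (a i)) p = 0 := by
      apply RatFunc.algebraMap_injective K
      rw [map_zero]
      have e : algebraMap K[X] (RatFunc K) (qf (fun i => C (b i) + X * C (a i)) p) =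
          algebraMap K[X] (RatFunc K) d ^ 2 *
            qf (fun i => RatFunc.C (b i) + RatFunc.X * RatFunc.C (a i)) y := by
        simp only [qf, map_sum, Finset.mul_sum]
        refine Finset.sum_congr rfl fun i _ => ?_
        rw [map_mul, map_pow, hp, map_add, map_mul, RatFunc.algebraMap_C, RatFunc.algebraMap_C,
          RatFunc.algebraMap_X]
        ring
      rw [e, hy, mul_zero]
    have hp0 : p = 0 := by
      refine main_Bru h2 a b hab (∑ i, (p i).natDegree + 1) p (fun i N hN => ?_) hq
      refine coeff_eq_zero_of_natDegree_lt ?_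
      have := Finset.single_le_sum (f := fun i => (p i).natDegree) (fun _ _ => Nat.zero_le _)
        (Finset.mem_univ i)
      omega
    funext i
    have h8 := hp i
    rw [hp0, Pi.zero_apply, map_zero] at h8
    rw [Pi.zero_apply]
    have h9 : algebraMap K[X] (RatFunc K) d ≠ 0 := by
      rw [Ne, map_eq_zero_iff _ (RatFunc.algebraMap_injective K)]
      exact hd0
    exact (mul_eq_zero.mp h8.symm).resolve_left h9

end Pool.Agent.Helper44.CMF
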