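import Pool.Agent.Helper44.CMF.St

/-!
# Project CMF, module IND: the elements `t, t - 1, t - l` are independent modulo squares
-/

set_option autoImplicit false

open Polynomial

namespace Pool.Agent.Helper44.CMF

open Pool.Agent.Helper44.RED

/-- exponent of the `j`-th factor -/
private def nn_Ind (m1 m2 m3 m4 : Fin 3 → Bool) (j : Fin 3) : ℕ :=
  (m1 j).toNat + (m2 j).toNat + (m3 j).toNat + (m4 j).toNat

private theorem even_Ind (a b c d : Bool) :
    Even (a.toNat + b.toNat + c.toNat + d.toNat) ↔ xor (xor a b) (xor c d) = false := by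
  revert a b c d
  decide

private theorem dm_pow_Ind {k : Type} [Field k] (l : k) (m : Fin 3 → Bool) :
    dm l m = ∏ j, tm (rt l j) ^ (m j).toNat := by
  unfold dm
  refine Finset.prod_congr rfl (fun j _ => ?_)
  cases m j <;> simp

private theorem prod_Ind {k : Type} [Field k] (l : k) (m1 m2 m3 m4 : Fin 3 → Bool) :
    dm l m1 * dm l m2 * dm l m3 * dm l m4 = ∏ j, tm (rt l j) ^ (nn_Ind m1 m2 m3 m4 j) := by
  simp only [dm_pow_Ind, ← Finset.prod_mul_distrib, nn_Ind, pow_add]

private theorem rt_inj_Ind {k : Type} [Field k] (l : k) (h0 : l ≠ 0) (h1 : l ≠ 1) :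
    Function.Injective (rt l) := by
  intro i j h
  fin_cases i <;> fin_cases j <;> simp [rt] at h ⊢
  · exact (h0 h.symm).elim
  · exact (h1 h.symm).elim
  · exact (h0 h).elim
  · exact (h1 h).elim

private theorem tm_eq_Ind {k : Type} [Field k] (r : k) :
    tm r = algebraMap k[X] (RatFunc k) (X - C r) := by
  unfold tm
  rw [map_sub, RatFunc.algebraMap_X, RatFunc.algebraMap_C]

private theorem mult_Ind {k : Type} [Field k] (l : k) (h0 : l ≠ 0) (h1 : l ≠ 1) (n : Fin 3 → ℕ) (i : Fin 3) :
    (∏ j, (X - C (rt l j)) ^ n j : k[X]).rootMultiplicity (rt l i) = n i := by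
  classical
  have hne : ∀ j ∈ (Finset.univ : Finset (Fin 3)), ((X - C (rt l j)) ^ n j : k[X]) ≠ 0 :=
    fun j _ => pow_ne_zero _ (X_sub_C_ne_zero _)
  rw [← count_roots, roots_prod _ _ (Finset.prod_ne_zero_iff.2 hne), Multiset.count_bind]
  simp only [roots_pow, roots_X_sub_C, Multiset.count_nsmul, Multiset.count_singleton]
  have : ∀ j : Fin 3, (n j * if rt l i = rt l j then 1 else 0) = if i = j then n j else 0 := by
    intro j
    by_cases h : i = j
    · subst h; simp
    · rw [if_neg h, if_neg (fun h' => h (rt_inj_Ind l h0 h1 h')), mul_zero]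
  have hs : (Multiset.map (fun j : Fin 3 => n j * if rt l i = rt l j then 1 else 0) Finset.univ.val).sum =
      ∑ j : Fin 3, (n j * if rt l i = rt l j then 1 else 0) := rfl
  rw [hs, Finset.sum_congr rfl (fun j _ => this j)]
  simp

theorem pInd : StInd := by
  intro k _ l h0 h1 m1 m2 m3 m4
  classical
  rw [prod_Ind]
  have hev : (∀ j, xor (xor (m1 j) (m2 j)) (xor (m3 j) (m4 j)) = false) ↔
      ∀ j, Even (nn_Ind m1 m2 m3 m4 j) := by
    refine forall_congr' (fun j => ?_)
    rw [nn_Ind, even_Ind]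
  rw [hev]
  constructor
  · rintro ⟨s, hs⟩ j
    set n := nn_Ind m1 m2 m3 m4 with hn
    have hd : algebraMap k[X] (RatFunc k) s.denom ≠ 0 := by
      have := s.denom_ne_zero
      exact (map_ne_zero_iff _ (RatFunc.algebraMap_injective k)).2 this
    have hsd : s = algebraMap k[X] (RatFunc k) s.num / algebraMap k[X] (RatFunc k) s.denom :=
      (RatFunc.num_div_denom s).symm
    have h2 : algebraMap k[X] (RatFunc k) ((∏ j, (X - C (rt l j)) ^ n j) * s.denom ^ 2) =
        algebraMap k[X] (RatFunc k) (s.num ^ 2) := by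
      rw [map_mul, map_pow, map_pow, map_prod]
      have h3 : (∏ j, algebraMap k[X] (RatFunc k) ((X - C (rt l j)) ^ n j)) = s * s := by
        rw [← hs]
        refine Finset.prod_congr rfl (fun j _ => ?_)
        rw [map_pow, tm_eq_Ind]
      rw [h3]
      have h4 : algebraMap k[X] (RatFunc k) s.num = s * algebraMap k[X] (RatFunc k) s.denom := by
        conv_rhs => rw [hsd]
        rw [RatFunc.num_div_denom, ← div_mul_cancel₀ (algebraMap k[X] (RatFunc k) s.num) hd,
          RatFunc.num_div_denom]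
      rw [h4]
      ring
    have h5 := RatFunc.algebraMap_injective k h2
    have hP : (∏ j, (X - C (rt l j)) ^ n j : k[X]) ≠ 0 :=
      Finset.prod_ne_zero_iff.2 fun j _ => pow_ne_zero _ (X_sub_C_ne_zero _)
    have hD : (s.denom ^ 2 : k[X]) ≠ 0 := pow_ne_zero _ s.denom_ne_zero
    have hM : ((∏ j, (X - C (rt l j)) ^ n j) * s.denom ^ 2 : k[X]) ≠ 0 := mul_ne_zero hP hD
    have hN : s.num ≠ 0 := by
      intro h
      rw [h5, h] at hM
      simp at hM
    have h6 : ((∏ j, (X - C (rt l j)) ^ n j) * s.denom ^ 2 : k[X]).rootMultiplicity (rt l j) =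
        (s.num ^ 2).rootMultiplicity (rt l j) := by rw [h5]
    rw [rootMultiplicity_mul hM, mult_Ind l h0 h1, sq, rootMultiplicity_mul (by rw [← sq]; exact hD), sq,
      rootMultiplicity_mul (mul_ne_zero hN hN)] at h6
    rw [Nat.even_iff]
    omega
  · intro h
    choose r hr using h
    refine ⟨∏ j, tm (rt l j) ^ r j, ?_⟩
    rw [← Finset.prod_mul_distrib]
    refine Finset.prod_congr rfl (fun j _ => ?_)
    rw [hr j, pow_add]

end Pool.Agent.Helper44.CMF
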