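import Pool.Agent.Helper44.CMF.M_CovK
import Pool.Agent.Helper44.CMF.M_Ind

/-!
# CMF: COV from COVK
-/

set_option autoImplicit false

namespace Pool.Agent.Helper44.CMF

open Pool.Agent.Helper44.RED

theorem ee_eq_eK {k : Type} [Field k] (l m : k) : ee l m = eK (ff l) (RatFunc.C m) := by
  funext i
  fin_cases i <;> simp [ee, eK, rt]

private theorem transport_CovB {K : Type} [Field K] [DecidableEq K] (e e' : Fin 3 → K) (h : e = e')
    (F : K) (d : Fin 3 → K) :
    (∃ P : (W e).Point, ∀ i, IsSquare (F * dl e i P * d i)) ↔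
      ∃ P : (W e').Point, ∀ i, IsSquare (F * dl e' i P * d i) := by
  subst h
  rfl

theorem pCovB : StInd → StCovK → StCov := by
  intro hInd hCov k _ _ h2 l m hl0 hl1 hm0 hm1 M hM
  have hC0 : (RatFunc.C m : RatFunc k) ≠ 0 := by
    intro h
    exact hm0 ((RatFunc.C : k →+* RatFunc k).injective (by rw [h, map_zero]))
  have hC1 : (RatFunc.C m : RatFunc k) ≠ 1 := by
    intro h
    exact hm1 ((RatFunc.C : k →+* RatFunc k).injective (by rw [h, map_one]))
  have hsq : IsSquare (ff l * dm l (M 0) * dm l (M 1) * dm l (M 2)) := by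
    rw [ff_eq_dm]
    refine (hInd k l hl0 hl1 _ _ _ _).2 fun j => ?_
    have := hM j
    revert this
    cases M 0 j <;> cases M 1 j <;> cases M 2 j <;> decide
  have key := hCov (RatFunc k) (two_ne_rat h2) (ff l) (RatFunc.C m) (ff_ne l) hC0 hC1
    (fun i => dm l (M i)) (fun i => dm_ne l _) hsq
  unfold HasClass
  rw [transport_CovB (ee l m) _ (ee_eq_eK l m) (ff l) (fun i => dm l (M i))]
  exact key

end Pool.Agent.Helper44.CMF
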