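import Pool.Agent.Helper44.CMF.St

set_option autoImplicit false

open Polynomial

namespace Pool.Agent.Helper44.CMF

open Pool.Agent.Helper44.RED

private theorem sq_cancel_Dat {F : Type} [Field F] {a b : F} (ha : a ≠ 0) (h : IsSquare (a ^ 2 * b)) :
    IsSquare b := by
  obtain ⟨r, hr⟩ := h
  refine ⟨r / a, ?_⟩
  field_simp
  linear_combination hr

private theorem sq_cancel'_Dat {F : Type} [Field F] {a b : F} (ha : a ≠ 0) (hs : IsSquare a)
    (h : IsSquare (a * b)) : IsSquare b := by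
  obtain ⟨s, rfl⟩ := hs
  have hs0 : s ≠ 0 := fun h0 => ha (by rw [h0, mul_zero])
  refine sq_cancel_Dat hs0 ?_
  rw [pow_two]
  exact h

theorem pDat : StSup → StInd → StPar → StHze → StPrd → StHom → StKer → StDat := by
  intro hSup hInd hPar hHze hPrd hHom hKer k _ _ _ h2 l m hl0 hl1 hm0 hm1
  have h2K : (2 : RatFunc k) ≠ 0 := two_ne_rat h2
  have hinj : Function.Injective (ee l m) := ee_inj hm0 hm1
  have hne : ∀ (P : (W (ee l m)).Point) (i : Fin 3), dl (ee l m) i P ≠ 0 :=
    fun P i => (hPrd (RatFunc k) (ee l m) hinj P).1 i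
  have hf : ff l ≠ 0 := ff_ne l
  choose c hc using fun P i => hSup k h2 l m hl0 hl1 hm0 hm1 P i
  have huniq : ∀ (P : (W (ee l m)).Point) (M : Fin 3 → Fin 3 → Bool), HasClass l m P M → c P = M := by
    intro P M hM
    funext i j
    have h1 := hM i
    have h3 := hc P i
    have h4 : IsSquare ((ff l * dl (ee l m) i P) ^ 2 * (dm l (M i) * dm l (c P i))) := by
      have := h1.mul h3
      have e : ff l * dl (ee l m) i P * dm l (M i) * (ff l * dl (ee l m) i P * dm l (c P i)) =
          (ff l * dl (ee l m) i P) ^ 2 * (dm l (M i) * dm l (c P i)) := by ring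
      rwa [e] at this
    have h5 := sq_cancel_Dat (mul_ne_zero hf (hne P i)) h4
    have h6 := (hInd k l hl0 hl1 (M i) (c P i) (fun _ => false) (fun _ => false)).1
      (by rw [dm_false, mul_one, mul_one]; exact h5) j
    revert h6
    cases M i j <;> cases c P i j <;> simp
  refine ⟨c, ⟨?_, ?_, ?_, ?_, ?_, ?_, ?_⟩, ?_⟩
  · intro P Q
    exact hPar k h2 l m hm0 hm1 P Q
  · intro P hP
    exact ((hHze k h2 l m hl0 hl1 hm0 hm1).1 P hP).1
  · intro P hP
    obtain ⟨-, M, hR, -, hM⟩ := (hHze k h2 l m hl0 hl1 hm0 hm1).1 P hP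
    rw [huniq P M hM]
    exact hR
  · intro P j
    obtain ⟨-, hs⟩ := hPrd (RatFunc k) (ee l m) hinj P
    rw [Fin.prod_univ_three] at hs
    have h1 := ((hc P 0).mul (hc P 1)).mul (hc P 2)
    have e : ff l * dl (ee l m) 0 P * dm l (c P 0) * (ff l * dl (ee l m) 1 P * dm l (c P 1)) *
        (ff l * dl (ee l m) 2 P * dm l (c P 2)) =
        (ff l) ^ 2 * ((dl (ee l m) 0 P * dl (ee l m) 1 P * dl (ee l m) 2 P) *
          (ff l * dm l (c P 0) * dm l (c P 1) * dm l (c P 2))) := by ring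
    rw [e] at h1
    have h3 := sq_cancel_Dat hf h1
    have h4 := sq_cancel'_Dat (mul_ne_zero (mul_ne_zero (hne P 0) (hne P 1)) (hne P 2)) hs h3
    rw [ff_eq_dm] at h4
    have h6 := (hInd k l hl0 hl1 (fun _ => true) (c P 0) (c P 1) (c P 2)).1 h4 j
    revert h6
    show _ → xor (xor (c P 0 j) (c P 1 j)) (c P 2 j) = true
    cases c P 0 j <;> cases c P 1 j <;> cases c P 2 j <;> simp
  · intro P Q i j
    have hs := hHom (RatFunc k) h2K (ee l m) hinj i P Q
    have h1 := ((hc P i).mul (hc Q i)).mul (hc (P + Q) i)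
    have e : ff l * dl (ee l m) i P * dm l (c P i) * (ff l * dl (ee l m) i Q * dm l (c Q i)) *
        (ff l * dl (ee l m) i (P + Q) * dm l (c (P + Q) i)) =
        (ff l) ^ 2 * ((dl (ee l m) i P * dl (ee l m) i Q * dl (ee l m) i (P + Q)) *
          (ff l * dm l (c P i) * dm l (c Q i) * dm l (c (P + Q) i))) := by ring
    rw [e] at h1
    have h3 := sq_cancel_Dat hf h1
    have h4 := sq_cancel'_Dat (mul_ne_zero (mul_ne_zero (hne P i) (hne Q i)) (hne (P + Q) i)) hs h3
    rw [ff_eq_dm] at h4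
    have h6 := (hInd k l hl0 hl1 (fun _ => true) (c P i) (c Q i) (c (P + Q) i)).1 h4 j
    revert h6
    cases c P i j <;> cases c Q i j <;> cases c (P + Q) i j <;> simp
  · intro P hP
    refine hKer (RatFunc k) h2K (ee l m) hinj P fun i => ?_
    have h1 := hc P i
    have h3 : c P i = fun _ => true := funext fun j => hP i j
    rw [h3, ← ff_eq_dm] at h1
    have e : ff l * dl (ee l m) i P * ff l = (ff l) ^ 2 * dl (ee l m) i P := by ring
    rw [e] at h1
    exact sq_cancel_Dat hf h1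
  · intro M hO hR
    obtain ⟨P, hP, hM⟩ := (hHze k h2 l m hl0 hl1 hm0 hm1).2 M hR hO
    exact ⟨P, hP, huniq P M hM⟩
  · intro P M
    exact ⟨fun h => huniq P M h, fun h => h ▸ fun i => hc P i⟩

end Pool.Agent.Helper44.CMF
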