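import Pool.Agent.Helper44.CMF.St
import Pool.Agent.Helper44.RED.Spec

/-! # Project CMF, module EqM: the equations commute with ring homomorphisms -/

set_option autoImplicit false

namespace Pool.Agent.Helper44.CMF

open Pool.Agent.Helper44.RED

private lemma bs_map_EqM {R k ι : Type} [CommRing R] [Field k] (φ : R →+* k) {t s : ℕ}
    (b : Fin s → MvPolynomial (Fin t) R) (A : Matrix (Fin t) (Fin t) R) (e : Fin t → ι) (l : Fin s) :
    MvPolynomial.map φ (bs b A (fun j => (MvPolynomial.X (e j) : MvPolynomial ι R)) l) =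
      bs (fun l => MvPolynomial.map φ (b l)) (A.map φ)
        (fun j => (MvPolynomial.X (e j) : MvPolynomial ι k)) l := by
  unfold bs
  rw [MvPolynomial.map_aeval, MvPolynomial.aeval_def, MvPolynomial.eval₂_map, MvPolynomial.coe_eval₂Hom]
  have h1 : (MvPolynomial.map φ : MvPolynomial ι R →+* MvPolynomial ι k).comp
      (algebraMap R (MvPolynomial ι R)) = (algebraMap k (MvPolynomial ι k)).comp φ := by
    ext r
    simp [MvPolynomial.algebraMap_eq]
  rw [h1]
  congr 1
  funext j
  unfold lin
  rw [map_sum]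
  refine Finset.sum_congr rfl (fun i _ => ?_)
  rw [map_mul, MvPolynomial.map_X, MvPolynomial.algebraMap_eq, MvPolynomial.algebraMap_eq,
    MvPolynomial.map_C, Matrix.map_apply]

theorem pEqM : StEqM := by
  intro R k _ _ φ t n s M b σ p
  unfold eqR eqn
  rw [map_sub, map_pow, MvPolynomial.map_X, map_mul, map_mul, bs_map_EqM, gd_map_Sp, gd_map_Sp]
  have h1 : (fun S : Pu n => MvPolynomial.map φ
      (ppf (fun j : Fin n => (MvPolynomial.X (Sum.inr (Sum.inl j)) : MvPolynomial (VI t n s M) R)) S)) =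
      ppf (fun j : Fin n => (MvPolynomial.X (Sum.inr (Sum.inl j)) : MvPolynomial (VI t n s M) k)) := by
    funext S
    rw [ppf_map_Sp]
    simp only [MvPolynomial.map_X]
  have h2 : (fun (q : ℕ) (S : Pu n) => MvPolynomial.map φ
      (ext0 (fun (l : Fin s) (S : Pu n) =>
        (MvPolynomial.X (Sum.inr (Sum.inr (Sum.inl (p.1, l, S)))) : MvPolynomial (VI t n s M) R)) q S)) =
      ext0 (fun (l : Fin s) (S : Pu n) =>
        (MvPolynomial.X (Sum.inr (Sum.inr (Sum.inl (p.1, l, S)))) : MvPolynomial (VI t n s M) k)) := by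
    funext q S
    rw [ext0_map_Sp]
    simp only [MvPolynomial.map_X]
  rw [h1, h2]

end Pool.Agent.Helper44.CMF
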