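import Pool.Agent.Helper44.CMF.St

/-! # Project CMF, module Fam: the uniform family theorem -/

set_option autoImplicit false

namespace Pool.Agent.Helper44.CMF

open Pool.Agent.Helper44.RED

private lemma toKT_one_Fam {k : Type} [Field k] {m N : ℕ} (e : Fin (N + 1) → MvPolynomial (Fin m) k) :
    (fun l : Fin N => toKT e 0 * toKT e l.succ) = toKT (fun l : Fin N => e 0 * e l.succ) := by
  funext l
  simp [toKT]

/-- transport of the conclusion along a renumbering of the variables -/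
private lemma good_Fam (hTrans : StTrans) {R k : Type} [CommRing R] [Field k] (φ : R →+* k)
    {t n s M v q : ℕ} (b : Fin s → MvPolynomial (Fin t) R) (σ : Fin M → Matrix (Fin t) (Fin t) R)
    (b' : Fin s → MvPolynomial (Fin t) k) (σ' : Fin M → Matrix (Fin t) (Fin t) k)
    (α : VI t n s M ≃ Fin v) (β : (Fin M × Fin s) ≃ Fin q) (S : Prop)
    (h : ∀ p, MvPolynomial.map φ (eqR (n := n) b σ p) = eqn b' σ' p)
    (h1 : (XI n b' σ').IsPrime)
    (h2 : Rational k (MvPolynomial (VI t n s M) k ⧸ XI n b' σ') ↔ S)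
    (h3 : StRational k (MvPolynomial (VI t n s M) k ⧸ XI n b' σ') ↔ S) :
    Good φ (fun j => MvPolynomial.rename α (eqR (n := n) b σ (β.symm j))) S := by
  have hI : spI φ (fun j => MvPolynomial.rename α (eqR (n := n) b σ (β.symm j))) =
      (XI n b' σ').map (MvPolynomial.renameEquiv k α : MvPolynomial (VI t n s M) k →+*
        MvPolynomial (Fin v) k) := by
    unfold spI XI
    rw [Ideal.map_span]
    congr 1
    ext g
    constructor
    · rintro ⟨j, rfl⟩
      refine ⟨eqn b' σ' (β.symm j), ⟨_, rfl⟩, ?_⟩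
      change MvPolynomial.rename α _ = _
      dsimp only
      rw [MvPolynomial.map_rename, h]
    · rintro ⟨_, ⟨p, rfl⟩, rfl⟩
      refine ⟨β p, ?_⟩
      change _ = MvPolynomial.rename α _
      dsimp only
      rw [MvPolynomial.map_rename, h, Equiv.symm_apply_apply]
  have hq : (MvPolynomial (VI t n s M) k ⧸ XI n b' σ') ≃ₐ[k]
      (MvPolynomial (Fin v) k ⧸
        spI φ (fun j => MvPolynomial.rename α (eqR (n := n) b σ (β.symm j)))) :=
    Ideal.quotientEquivAlg _ _ (MvPolynomial.renameEquiv k α) hI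
  obtain ⟨t1, t2⟩ := hTrans k _ _ hq
  refine ⟨?_, t1.symm.trans h2, t2.symm.trans h3⟩
  rw [hI]
  exact Ideal.map_isPrime_of_equiv (MvPolynomial.renameEquiv k α)

theorem pFam : StSigB → StFinB → StEqM → StHzM → StSca → StHomD → StTrans → StFam := by
  intro hSig hFin hEqM hHzM hSca hHomD hTrans R _ m N e
  set c : Fin N → MvPolynomial (Fin m) R := fun l => e 0 * e l.succ with hc
  set D : Fin N → ℕ := fun l => (c l).totalDegree with hD
  set C : Fin N → MvPolynomial (Fin (m + 1)) R := fun l => hzR (D l) (c l) with hC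
  set e' : ℕ := 2 ^ (N + 2) - N with he'
  set B : ℕ := (∑ l, 2 * D l) + 2 * e' + 1 with hB
  set M : ℕ := ((∑ l, 2 * D l) + 2 * e') * (m + 1 + e') * B ^ (m + 1 + e') + 1 with hM
  obtain ⟨P0, hP0⟩ := hSig m e' B M
  have hpow : N < 2 ^ N := Nat.lt_two_pow_self
  have hp2 : 2 ^ (N + 2) = 4 * 2 ^ N := by rw [pow_add]; ring
  have hp1 : 2 ^ (N + 1) = 2 * 2 ^ N := by rw [pow_add]; ring
  have he1 : 1 ≤ e' := by omega
  have hNe : N + e' = 2 ^ (N + 2) := by omega
  refine ⟨max 3 P0, _, _, fun j => MvPolynomial.rename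
    (Fintype.equivFin (VI (m + 1 + e') (N + 3) (N + e') M))
    (eqR (n := N + 3) (bfam e' C) (sgR R (m + 1 + e') B M)
      ((Fintype.equivFin (Fin M × Fin (N + e'))).symm j)), le_max_left _ _, ?_⟩
  intro k _ _ hk φ hφ
  have h2 : (2 : k) ≠ 0 := hk.two (le_max_left _ _)
  obtain ⟨m1, m2, m3⟩ := hHzM R k φ
  have hck : ∀ l : Fin N, MvPolynomial.map φ (c l) =
      MvPolynomial.map φ (e 0) * MvPolynomial.map φ (e l.succ) := fun l => map_mul _ _ _
  have hc0 : ∀ l : Fin N, MvPolynomial.map φ (c l) ≠ 0 := fun l => by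
    rw [hck]; exact mul_ne_zero (hφ _) (hφ _)
  obtain ⟨a1, a2⟩ := hHomD k h2 m N (fun l => MvPolynomial.map φ (c l)) D hc0
    (fun l => Finset.sup_mono (MvPolynomial.support_map_subset _ _))
  have hCk : ∀ l, MvPolynomial.map φ (C l) = hzD (D l) (MvPolynomial.map φ (c l)) :=
    fun l => m1 m (D l) (c l)
  set C' : Fin N → MvPolynomial (Fin (m + 1)) k :=
    fun l => hzD (D l) (MvPolynomial.map φ (c l)) with hC'
  have hS : ¬ Aniso (one (toKT C')) ↔ ¬ Aniso (toKT fun i => MvPolynomial.map φ (e i)) := by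
    rw [a2, hSca (KT k m) N (toKT fun i => MvPolynomial.map φ (e i)) (fun i => by
      unfold toKT
      exact (map_ne_zero_iff _ (IsFractionRing.injective (MvPolynomial (Fin m) k) (KT k m))).2
        (hφ i)), toKT_one_Fam]
    have : (fun l : Fin N => MvPolynomial.map φ (e 0) * MvPolynomial.map φ (e l.succ)) =
        fun l => MvPolynomial.map φ (c l) := funext fun l => (hck l).symm
    rw [this]
  obtain ⟨s1, s2, s3⟩ := hP0 k (hk.mono (le_max_right _ _)) N C' D he1 (fun l => (a1 l).1)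
    (fun l => (a1 l).2) (by omega) (by omega)
  obtain ⟨f1, f2, f3⟩ := hFin k h2 m N e' (N + 3) M (by omega)
    (by rw [hNe]; rfl) (by change N ≤ 2 ^ (N + 1); omega) C' (sgx k (m + 1 + e') B M)
    (fun l => (a1 l).1) (fun l => ⟨_, (a1 l).2⟩) s1 s2 s3
  refine good_Fam hTrans φ (bfam e' C) (sgR R (m + 1 + e') B M) (bfam e' C')
    (sgx k (m + 1 + e') B M) _ _ _ (fun p => ?_) f1 (f2.trans hS) (f3.trans hS)
  rw [hEqM R k φ]
  congr 1
  · funext l
    rw [m2]
    congr 1
    funext j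
    exact hCk j
  · funext q
    exact m3 _ _ _ q

end Pool.Agent.Helper44.CMF
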