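import Pool.Agent.Helper44.CMF.St

/-!
# Project CMF: module FamT (helper16)
-/

set_option autoImplicit false

namespace Pool.Agent.Helper44.CMF

open Pool.Agent.Helper44.RED

/-- anisotropy is not changed by field isomorphisms and reindexing -/
theorem aniso_equiv_FamT {F F' ι ι' : Type} [Field F] [Field F'] [Fintype ι] [Fintype ι']
    (Θ : F ≃+* F') (ε : ι' ≃ ι) (a : ι → F) (b : ι' → F') (h : ∀ i, b i = Θ (a (ε i))) :
    Aniso b ↔ Aniso a := by
  have key : ∀ x : ι → F, qf b (fun i => Θ (x (ε i))) = Θ (qf a x) := by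
    intro x
    unfold qf
    rw [map_sum]
    rw [← Equiv.sum_comp ε]
    refine Finset.sum_congr rfl fun i _ => ?_
    rw [map_mul, map_pow, h i]
  constructor
  · intro hb x hx
    have h1 := hb (fun i => Θ (x (ε i))) (by rw [key, hx, map_zero])
    funext i
    have h2 := congrFun h1 (ε.symm i)
    simpa using h2
  · intro ha y hy
    have h1 := key (fun i => Θ.symm (y (ε.symm i)))
    have h2 : (fun i => Θ ((fun i => Θ.symm (y (ε.symm i))) (ε i))) = y := by
      funext i
      simp
    rw [h2, hy] at h1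
    have h3 := ha _ (Θ.map_eq_zero_iff.1 h1.symm)
    funext i
    have h4 := congrFun h3 (ε i)
    simp only [Equiv.symm_apply_apply, Pi.zero_apply] at h4
    exact Θ.symm.map_eq_zero_iff.1 h4

theorem pFamT : StFam → StFamT := by
  intro hF R ι κ _ _ _ _ e
  obtain ⟨N, hN⟩ : ∃ N, Fintype.card ι = N + 1 := ⟨Fintype.card ι - 1, by
    have := Fintype.card_pos (α := ι)
    omega⟩
  have ε : Fin (N + 1) ≃ ι := (finCongr hN.symm).trans (Fintype.equivFin ι).symm
  have η : κ ≃ Fin (Fintype.card κ) := Fintype.equivFin κ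
  obtain ⟨P, v, q, g, hP, hg⟩ := hF R (Fintype.card κ) N
    (fun i => MvPolynomial.rename η (e (ε i)))
  refine ⟨P, v, q, g, hP, fun k _ _ hk φ he => ?_⟩
  have h1 : ∀ i, MvPolynomial.map φ (MvPolynomial.rename η (e (ε i))) =
      MvPolynomial.rename η (MvPolynomial.map φ (e (ε i))) := fun i => MvPolynomial.map_rename _ _ _
  have h2 := hg k hk φ (fun i => by
    rw [h1]
    intro h
    exact he (ε i) (MvPolynomial.rename_injective η η.injective (by rw [h, map_zero])))
  have h3 : Aniso (toKT fun i => MvPolynomial.map φ (MvPolynomial.rename η (e (ε i)))) ↔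
      Aniso (fun i => algebraMap (MvPolynomial κ k) (FractionRing (MvPolynomial κ k))
        (MvPolynomial.map φ (e i))) := by
    refine aniso_equiv_FamT (F := FractionRing (MvPolynomial κ k))
      (IsFractionRing.ringEquivOfRingEquiv (MvPolynomial.renameEquiv k η).toRingEquiv) ε _ _ ?_
    intro i
    rw [IsFractionRing.ringEquivOfRingEquiv_algebraMap]
    exact congrArg (algebraMap (MvPolynomial (Fin (Fintype.card κ)) k) (KT k (Fintype.card κ)))
      (h1 i)
  rw [h3] at h2
  exact h2

end Pool.Agent.Helper44.CMF
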