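import Pool.Agent.Helper44.CMF.St

/-!
# Module HOM of project CMF (helper17)
-/

set_option autoImplicit false

open Polynomial

namespace Pool.Agent.Helper44.CMF

open Pool.Agent.Helper44.RED

/-- the value of the descent map at the abscissa `x` -/
private def dv_Hom {K : Type} [Field K] [DecidableEq K] (a b c x : K) : K :=
  if x = a then (a - b) * (a - c) else x - a

private theorem key_Hom {K : Type} [Field K] [DecidableEq K] (a b c x1 x2 x3 s r : K)
    (h2 : s ^ 2 + (a + b + c) = x1 + x2 + x3)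
    (h1 : 2 * s * r - (a * b + a * c + b * c) = -(x1 * x2 + x1 * x3 + x2 * x3))
    (h0 : r ^ 2 + a * b * c = x1 * x2 * x3) (hab : a ≠ b) (hac : a ≠ c) :
    IsSquare (dv_Hom a b c x1 * dv_Hom a b c x2 * dv_Hom a b c x3) := by
  have hv : (s * a + r) ^ 2 = (x1 - a) * (x2 - a) * (x3 - a) := by
    linear_combination a ^ 2 * h2 + a * h1 + h0
  have hd : (a - b) * (a - c) - 2 * s * (s * a + r) =
      (a - x2) * (a - x3) + (a - x1) * (a - x3) + (a - x1) * (a - x2) := by
    linear_combination (-2 * a) * h2 - h1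
  have hne : (a - b) * (a - c) ≠ 0 := mul_ne_zero (sub_ne_zero.2 hab) (sub_ne_zero.2 hac)
  unfold dv_Hom
  by_cases c1 : x1 = a
  · have hz : s * a + r = 0 := by
      have : (s * a + r) ^ 2 = 0 := by rw [hv, c1]; ring
      exact pow_eq_zero_iff (two_ne_zero) |>.1 this
    rw [hz] at hd
    subst c1
    by_cases c2 : x2 = x1
    · subst c2
      exact absurd (by linear_combination hd) hne
    · by_cases c3 : x3 = x1
      · subst c3
        exact absurd (by linear_combination hd) hne
      · rw [if_pos rfl, if_neg c2, if_neg c3]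
        exact ⟨(x1 - b) * (x1 - c), by linear_combination (-((x1 - b) * (x1 - c))) * hd⟩
  · by_cases c2 : x2 = a
    · have hz : s * a + r = 0 := by
        have : (s * a + r) ^ 2 = 0 := by rw [hv, c2]; ring
        exact pow_eq_zero_iff (two_ne_zero) |>.1 this
      rw [hz] at hd
      subst c2
      by_cases c3 : x3 = x2
      · subst c3
        exact absurd (by linear_combination hd) hne
      · rw [if_neg c1, if_pos rfl, if_neg c3]
        exact ⟨(x2 - b) * (x2 - c), by linear_combination (-((x2 - b) * (x2 - c))) * hd⟩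
    · by_cases c3 : x3 = a
      · have hz : s * a + r = 0 := by
          have : (s * a + r) ^ 2 = 0 := by rw [hv, c3]; ring
          exact pow_eq_zero_iff (two_ne_zero) |>.1 this
        rw [hz] at hd
        subst c3
        rw [if_neg c1, if_neg c2, if_pos rfl]
        exact ⟨(x3 - b) * (x3 - c), by linear_combination (-((x3 - b) * (x3 - c))) * hd⟩
      · rw [if_neg c1, if_neg c2, if_neg c3]
        exact ⟨s * a + r, by rw [← hv]; ring⟩

private theorem line_Hom {K : Type} [Field K] [DecidableEq K] (h2' : (2 : K) ≠ 0) (e : Fin 3 → K)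
    {x1 x2 y1 y2 : K} (q1 : y1 ^ 2 = (x1 - e 0) * (x1 - e 1) * (x1 - e 2))
    (q2 : y2 ^ 2 = (x2 - e 0) * (x2 - e 1) * (x2 - e 2)) (hxy : ¬(x1 = x2 ∧ y1 = (W e).negY x2 y2)) :
    ∃ s r x3 : K, x3 = (W e).addX x1 x2 ((W e).slope x1 x2 y1 y2) ∧
      s ^ 2 + (e 0 + e 1 + e 2) = x1 + x2 + x3 ∧
      2 * s * r - (e 0 * e 1 + e 0 * e 2 + e 1 * e 2) = -(x1 * x2 + x1 * x3 + x2 * x3) ∧
      r ^ 2 + e 0 * e 1 * e 2 = x1 * x2 * x3 := by
  obtain ⟨s, hs⟩ : ∃ s, s = (W e).slope x1 x2 y1 y2 := ⟨_, rfl⟩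
  obtain ⟨x3, hx3⟩ : ∃ x3, x3 = s ^ 2 + (e 0 + e 1 + e 2) - x1 - x2 := ⟨_, rfl⟩
  have hadd : x3 = (W e).addX x1 x2 ((W e).slope x1 x2 y1 y2) := by
    rw [← hs, hx3]
    simp only [WeierstrassCurve.Affine.addX, W]
    ring
  have hF1 : ((e 0 * e 1 + e 0 * e 2 + e 1 * e 2) - 2 * s * (y1 - s * x1) -
      (x1 * x2 + x1 * x3 + x2 * x3)) * x1 +
      (x1 * x2 * x3 - (y1 - s * x1) ^ 2 - e 0 * e 1 * e 2) = 0 := by
    rw [hx3]; linear_combination (-1) * q1
  have hA : (e 0 * e 1 + e 0 * e 2 + e 1 * e 2) - 2 * s * (y1 - s * x1) -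
      (x1 * x2 + x1 * x3 + x2 * x3) = 0 := by
    by_cases hx : x1 = x2
    · have hy : y1 ≠ (W e).negY x2 y2 := fun h => hxy ⟨hx, h⟩
      have hyn : y1 ≠ -y2 := by rwa [W_neg] at hy
      have hyy : y1 = y2 := by
        have h3 : (y1 - y2) * (y1 + y2) = 0 := by
          rw [hx] at q1; linear_combination q1 - q2
        rcases mul_eq_zero.1 h3 with h | h
        · exact sub_eq_zero.1 h
        · exact absurd (eq_neg_of_add_eq_zero_left h) hyn
      have hy0 : y1 ≠ 0 := by
        intro h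
        apply hyn
        rw [← hyy, h, neg_zero]
      rw [WeierstrassCurve.Affine.slope_of_Y_ne hx hy, W_neg] at hs
      simp only [W] at hs
      have h2y : y1 - -y1 ≠ 0 := by
        have : y1 - -y1 = 2 * y1 := by ring
        rw [this]; exact mul_ne_zero h2' hy0
      have hs' := (eq_div_iff h2y).1 hs
      rw [hx3, ← hx]
      linear_combination (-1) * hs'
    · rw [WeierstrassCurve.Affine.slope_of_X_ne hx] at hs
      have hsub : x1 - x2 ≠ 0 := sub_ne_zero.2 hx
      have hs' := (eq_div_iff hsub).1 hs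
      have hF2 : ((e 0 * e 1 + e 0 * e 2 + e 1 * e 2) - 2 * s * (y1 - s * x1) -
          (x1 * x2 + x1 * x3 + x2 * x3)) * x2 +
          (x1 * x2 * x3 - (y1 - s * x1) ^ 2 - e 0 * e 1 * e 2) = 0 := by
        rw [hx3]; linear_combination (-1) * q2 + (s * x2 + (y1 - s * x1) + y2) * hs'
      have h4 : ((e 0 * e 1 + e 0 * e 2 + e 1 * e 2) - 2 * s * (y1 - s * x1) -
          (x1 * x2 + x1 * x3 + x2 * x3)) * (x1 - x2) = 0 := by
        linear_combination hF1 - hF2
      exact (mul_eq_zero.1 h4).resolve_right hsub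
  refine ⟨s, y1 - s * x1, x3, hadd, ?_, ?_, ?_⟩
  · rw [hx3]; ring
  · linear_combination (-1) * hA
  · rw [hA, zero_mul, zero_add] at hF1
    linear_combination (-1) * hF1

theorem pHom : StHom := by
  intro K _ _ h2 e he i P Q
  have hab : e i ≠ e (i + 1) := fun h => by
    have := he h
    revert this; fin_cases i <;> decide
  have hac : e i ≠ e (i + 2) := fun h => by
    have := he h
    revert this; fin_cases i <;> decide
  have s1 : e i + e (i + 1) + e (i + 2) = e 0 + e 1 + e 2 := by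
    fin_cases i
    · rfl
    · show e 1 + e 2 + e 0 = _; ring
    · show e 2 + e 0 + e 1 = _; ring
  have s2 : e i * e (i + 1) + e i * e (i + 2) + e (i + 1) * e (i + 2)
      = e 0 * e 1 + e 0 * e 2 + e 1 * e 2 := by
    fin_cases i
    · rfl
    · show e 1 * e 2 + e 1 * e 0 + e 2 * e 0 = _; ring
    · show e 2 * e 0 + e 2 * e 1 + e 0 * e 1 = _; ring
  have s3 : e i * e (i + 1) * e (i + 2) = e 0 * e 1 * e 2 := by
    fin_cases i
    · rfl
    · show e 1 * e 2 * e 0 = _; ring
    · show e 2 * e 0 * e 1 = _; ring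
  cases P with
  | zero =>
    have : (WeierstrassCurve.Affine.Point.zero : (W e).Point) + Q = Q := zero_add Q
    rw [this]
    exact ⟨dl e i Q, by simp [dl]⟩
  | some x1 y1 n1 =>
    cases Q with
    | zero =>
      have : WeierstrassCurve.Affine.Point.some x1 y1 n1 +
        (WeierstrassCurve.Affine.Point.zero : (W e).Point) = .some x1 y1 n1 := add_zero _
      rw [this]
      exact ⟨dl e i (.some x1 y1 n1), by simp only [dl]; ring⟩
    | some x2 y2 n2 =>
      have q1 := (W_equation e x1 y1).1 n1.1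
      have q2 := (W_equation e x2 y2).1 n2.1
      by_cases hxy : x1 = x2 ∧ y1 = (W e).negY x2 y2
      · rw [WeierstrassCurve.Affine.Point.add_of_Y_eq hxy.1 hxy.2]
        have hx := hxy.1
        subst hx
        refine ⟨dl e i (.some x1 y1 n1), ?_⟩
        show _ * _ * dl e i (WeierstrassCurve.Affine.Point.zero : (W e).Point) = _
        simp only [dl, mul_one]
      · rw [WeierstrassCurve.Affine.Point.add_some hxy]
        obtain ⟨s, r, x3, hx3, e2, e1, e0⟩ := line_Hom h2 e q1 q2 hxy
        rw [← s1] at e2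
        rw [← s2] at e1
        rw [← s3] at e0
        have := key_Hom (e i) (e (i + 1)) (e (i + 2)) x1 x2 x3 s r e2 e1 e0 hab hac
        show IsSquare (dv_Hom (e i) (e (i + 1)) (e (i + 2)) x1 * dv_Hom (e i) (e (i + 1)) (e (i + 2)) x2
          * dv_Hom (e i) (e (i + 1)) (e (i + 2)) ((W e).addX x1 x2 ((W e).slope x1 x2 y1 y2)))
        rw [← hx3]
        exact this

end Pool.Agent.Helper44.CMF
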