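import Pool.Agent.Helper44.CMF.St

set_option autoImplicit false

open Polynomial

namespace Pool.Agent.Helper44.CMF

open Pool.Agent.Helper44.RED

private theorem map_hc_HzM {R S σ : Type} [CommSemiring R] [CommSemiring S] (φ : R →+* S) (d : ℕ)
    (c : MvPolynomial σ R) :
    MvPolynomial.map φ (MvPolynomial.homogeneousComponent d c) =
      MvPolynomial.homogeneousComponent d (MvPolynomial.map φ c) := by
  ext m
  rw [MvPolynomial.coeff_map, MvPolynomial.coeff_homogeneousComponent,
    MvPolynomial.coeff_homogeneousComponent, MvPolynomial.coeff_map]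
  split_ifs
  · rfl
  · exact map_zero φ

theorem pHzM : StHzM := by
  intro R k _ _ φ
  refine ⟨?_, ?_, ?_⟩
  · intro m D c
    unfold hzR hzD
    rw [map_sum]
    refine Finset.sum_congr rfl fun d _ => ?_
    rw [map_mul, map_pow, MvPolynomial.map_X, MvPolynomial.map_rename, map_hc_HzM]
  · intro t' c e C l
    unfold bfam
    refine Fin.addCases (fun j => ?_) (fun j => ?_) l
    · rw [Fin.append_left, Fin.append_left, MvPolynomial.map_rename]
    · rw [Fin.append_right, Fin.append_right, map_mul, MvPolynomial.map_X, MvPolynomial.map_X]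
  · intro t B M q
    ext i j
    unfold sgR sgx
    rw [Matrix.map_apply, Matrix.of_apply, Matrix.of_apply, map_natCast]

end Pool.Agent.Helper44.CMF
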