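import Pool.Agent.Helper44.CMF.St

/-!
# Project CMF, module HZE
-/

set_option autoImplicit false

namespace Pool.Agent.Helper44.CMF

open Pool.Agent.Helper44.RED

variable {k : Type} [Field k]

private theorem csq_Hze [IsAlgClosed k] (c : k) : ∃ s : RatFunc k, RatFunc.C c = s * s := by
  obtain ⟨z, hz⟩ := IsAlgClosed.exists_pow_nat_eq c (n := 2) (by norm_num)
  exact ⟨RatFunc.C z, by rw [← map_mul, ← hz, sq]⟩

private theorem prod0_Hze (e : Fin 3 → RatFunc k) (i : Fin 3) :
    (e i - e 0) * (e i - e 1) * (e i - e 2) = 0 := by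
  fin_cases i <;> simp

private theorem ns_Hze {l m : k} (h2 : (2 : k) ≠ 0) (h0 : m ≠ 0) (h1 : m ≠ 1) (i : Fin 3) :
    (W (ee l m)).Nonsingular (ee l m i) 0 :=
  (W_nonsingular (two_ne_rat h2) _ (ee_inj h0 h1) _ 0).2 (by
    rw [prod0_Hze]; ring)

/-- class of a point of order two -/
private theorem cls_Hze [IsAlgClosed k] [DecidableEq (RatFunc k)] {l m : k} (h0 : m ≠ 0)
    (h1 : m ≠ 1) (i : Fin 3) (y : RatFunc k) (hn : (W (ee l m)).Nonsingular (ee l m i) y) :
    HasClass l m (.some (ee l m i) y hn) (fun a _ => decide (a = i)) := by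
  intro a
  by_cases ha : a = i
  · subst ha
    have e1 : dl (ee l m) a (.some (ee l m a) y hn) =
        RatFunc.C ((rt m a - rt m (a + 1)) * (rt m a - rt m (a + 2))) * ff l ^ 2 := by
      show (if ee l m a = ee l m a then _ else _) = _
      rw [if_pos rfl]
      simp only [ee, map_mul, map_sub]
      ring
    have e2 : dm l (fun _ => decide (a = a)) = ff l := by
      rw [decide_eq_true rfl]
      exact (ff_eq_dm l).symm
    rw [e1, e2]
    obtain ⟨s, hs⟩ := csq_Hze ((rt m a - rt m (a + 1)) * (rt m a - rt m (a + 2)))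
    rw [hs]
    exact ⟨s * ff l ^ 2, by ring⟩
  · have hne : ee l m i ≠ ee l m a := fun h => ha (ee_inj h0 h1 h).symm
    have e1 : dl (ee l m) a (.some (ee l m i) y hn) =
        RatFunc.C (rt m i - rt m a) * ff l := by
      show (if ee l m i = ee l m a then _ else _) = _
      rw [if_neg hne]
      simp only [ee, map_sub]
      ring
    have e2 : dm l (fun _ => decide (a = i)) = 1 := by
      rw [decide_eq_false ha]
      exact dm_false l
    rw [e1, e2]
    obtain ⟨s, hs⟩ := csq_Hze (rt m i - rt m a)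
    rw [hs]
    exact ⟨s * ff l, by ring⟩

private theorem cls0_Hze [DecidableEq (RatFunc k)] (l m : k) :
    HasClass l m (0 : (W (ee l m)).Point) (fun _ _ => true) := by
  intro i
  have e1 : dl (ee l m) i (0 : (W (ee l m)).Point) = 1 := rfl
  rw [e1, ← ff_eq_dm l]
  exact ⟨ff l, by ring⟩

private theorem mat_Hze (i : Fin 3) : RowConst (fun (a : Fin 3) (_ : Fin 3) => decide (a = i)) ∧
    OddCol (fun (a : Fin 3) (_ : Fin 3) => decide (a = i)) := by
  refine ⟨fun _ _ => rfl, fun _ => ?_⟩
  show xor (xor (decide (0 = i)) (decide (1 = i))) (decide (2 = i)) = true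
  revert i
  decide

private theorem mat2_Hze (M : Fin 3 → Fin 3 → Bool) (hr : RowConst M) (ho : OddCol M) :
    M = (fun _ _ => true) ∨ ∃ i : Fin 3, M = fun a _ => decide (a = i) := by
  have hM : M = fun a _ => M a 0 := by
    funext a b
    exact hr a b
  have ho0 := ho 0
  have key : ∀ v : Fin 3 → Bool, xor (xor (v 0) (v 1)) (v 2) = true →
      v = (fun _ => true) ∨ ∃ i : Fin 3, v = fun a => decide (a = i) := by decide
  rcases key (fun a => M a 0) ho0 with h | ⟨i, h⟩
  · left
    rw [hM]
    funext a b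
    exact congrFun h a
  · right
    refine ⟨i, ?_⟩
    rw [hM]
    funext a b
    exact congrFun h a

theorem pHze : StInd → StRdeg → StHze := by
  intro hInd hRdeg k _ _ _ h2 l m hl0 hl1 hm0 hm1
  constructor
  · intro P hP
    rcases P with _ | ⟨x, y, hn⟩
    · refine ⟨add_zero _, fun _ _ => true, fun _ _ => rfl, fun _ => rfl, cls0_Hze l m⟩
    · obtain ⟨c, hc⟩ := (hRdeg k (x / ff l)).1 hP
      have hx : x = RatFunc.C c * ff l := by
        rw [← hc, div_mul_cancel₀ _ (ff_ne l)]
      have heq := (W_nonsingular (two_ne_rat h2) _ (ee_inj hm0 hm1) x y).1 hn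
      have hcr : ∃ i, c = rt m i := by
        by_contra hcon
        push Not at hcon
        have hκ : (c - rt m 0) * (c - rt m 1) * (c - rt m 2) ≠ 0 :=
          mul_ne_zero (mul_ne_zero (sub_ne_zero.2 (hcon 0)) (sub_ne_zero.2 (hcon 1)))
            (sub_ne_zero.2 (hcon 2))
        obtain ⟨s, hs⟩ := csq_Hze ((c - rt m 0) * (c - rt m 1) * (c - rt m 2))
        have hs0 : s ≠ 0 := by
          rintro rfl
          rw [mul_zero] at hs
          exact hκ ((RatFunc.C : k →+* RatFunc k).injective (by rw [hs, map_zero]))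
        have hy : y ^ 2 = s * s * ff l ^ 3 := by
          rw [heq, ← hs, hx]
          simp only [ee, map_mul, map_sub]
          ring
        have hsq : IsSquare (ff l) := by
          refine ⟨y / (s * ff l), ?_⟩
          have hf := ff_ne l
          field_simp
          rw [hy]
          ring
        have h3 := (hInd k l hl0 hl1 (fun _ => true) (fun _ => false) (fun _ => false)
          (fun _ => false)).1 (by
            rw [dm_false, ← ff_eq_dm, mul_one, mul_one, mul_one]
            exact hsq)
        exact absurd (h3 0) (by decide)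
      obtain ⟨i, rfl⟩ := hcr
      have hxe : x = ee l m i := hx
      subst hxe
      have hy : y = 0 := by
        rw [prod0_Hze] at heq
        exact pow_eq_zero_iff (two_ne_zero) |>.1 heq
      subst hy
      refine ⟨?_, _, (mat_Hze i).1, (mat_Hze i).2, cls_Hze hm0 hm1 i 0 hn⟩
      rw [add_eq_zero_iff_eq_neg, WeierstrassCurve.Affine.Point.neg_some]
      congr 1
      rw [W_neg, neg_zero]
  · intro M hr ho
    rcases mat2_Hze M hr ho with rfl | ⟨i, rfl⟩
    · exact ⟨0, rfl, cls0_Hze l m⟩
    · refine ⟨.some (ee l m i) 0 (ns_Hze h2 hm0 hm1 i), ?_, cls_Hze hm0 hm1 i 0 _⟩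
      show rdeg (ee l m i / ff l) = 0
      refine (hRdeg k _).2 ⟨rt m i, ?_⟩
      unfold ee
      rw [mul_div_cancel_right₀ _ (ff_ne l)]

end Pool.Agent.Helper44.CMF
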