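import Pool.Agent.Helper44.CMF.St

set_option autoImplicit false

open Polynomial

namespace Pool.Agent.Helper44.CMF

open Pool.Agent.Helper44.RED

theorem rdeg_X_Idt (k : Type) [Field k] : rdeg (RatFunc.X : RatFunc k) = 1 := by
  unfold rdeg
  rw [RatFunc.num_X, RatFunc.denom_X, natDegree_X, natDegree_one]
  rfl

theorem dm_single_Idt {k : Type} [Field k] (m : k) (i : Fin 3) :
    dm m (fun j => decide (i = j)) = tm (rt m i) := by
  unfold dm
  have h : ∀ j : Fin 3, (if decide (i = j) = true then tm (rt m j) else (1 : RatFunc k)) =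
      if i = j then tm (rt m j) else 1 := by
    intro j
    by_cases hij : i = j <;> simp [hij]
  rw [Finset.prod_congr rfl fun j _ => h j, Finset.prod_ite_eq]
  simp

theorem eqn_Idt {k : Type} [Field k] (m : k) :
    (ff m ^ 2) ^ 2 = ff m * RatFunc.X * (ff m * RatFunc.X - ff m) *
      (ff m * RatFunc.X - RatFunc.C m * ff m) := by
  have h := ff_eq m
  calc (ff m ^ 2) ^ 2 = ff m ^ 3 * ff m := by ring
    _ = ff m ^ 3 * (RatFunc.X * (RatFunc.X - 1) * (RatFunc.X - RatFunc.C m)) := by
        conv_lhs => rw [h]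
        conv_rhs => rw [h]
    _ = _ := by ring

theorem pIdt : StIdt := by
  intro k _ _ h2 m h0 h1
  refine ⟨mkP h2 h0 h1 (ff m * RatFunc.X) (ff m ^ 2) (eqn_Idt m), ?_, ?_⟩
  · change rdeg (ff m * RatFunc.X / ff m) = 1
    rw [mul_div_cancel_left₀ _ (ff_ne m)]
    exact rdeg_X_Idt k
  · intro i
    have hne : ff m * RatFunc.X ≠ ee m m i := by
      intro h
      unfold ee at h
      rw [mul_comm (RatFunc.C (rt m i))] at h
      have h3 := mul_left_cancel₀ (ff_ne m) h
      exact tm_ne (rt m i) (by unfold tm; rw [h3, sub_self])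
    have hdl : dl (ee m m) i (mkP h2 h0 h1 (ff m * RatFunc.X) (ff m ^ 2) (eqn_Idt m)) =
        ff m * RatFunc.X - ee m m i := by
      change (if ff m * RatFunc.X = ee m m i then _ else ff m * RatFunc.X - ee m m i) = _
      rw [if_neg hne]
    rw [hdl, dm_single_Idt]
    refine ⟨ff m * tm (rt m i), ?_⟩
    unfold ee tm
    ring

end Pool.Agent.Helper44.CMF
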