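import Pool.Agent.Helper44.CMF.St

/-!
# Project CMF: the kernel of the 2-descent map
-/

set_option autoImplicit false

namespace Pool.Agent.Helper44.CMF

open Pool.Agent.Helper44.RED

private theorem core_Ker {K : Type} [Field K] [DecidableEq K] (h2 : (2 : K) ≠ 0) (e : Fin 3 → K)
    (he : Function.Injective e) (x y : K) (hn : (W e).Nonsingular x y) (r0 r1 r2 : K)
    (h0 : x - e 0 = r0 ^ 2) (h1 : x - e 1 = r1 ^ 2) (h2' : x - e 2 = r2 ^ 2) (hy : y = r0 * r1 * r2) :
    ∃ Q : (W e).Point, (WeierstrassCurve.Affine.Point.some x y hn : (W e).Point) = Q + Q := by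
  have e01 : e 1 - e 0 ≠ 0 := sub_ne_zero.2 fun h => absurd (he h) (by decide)
  have e02 : e 2 - e 0 ≠ 0 := sub_ne_zero.2 fun h => absurd (he h) (by decide)
  have e12 : e 2 - e 1 ≠ 0 := sub_ne_zero.2 fun h => absurd (he h) (by decide)
  have s01 : r0 + r1 ≠ 0 := by
    intro h
    apply e01
    have : e 1 - e 0 = (r0 + r1) * (r0 - r1) := by linear_combination h0 - h1
    rw [this, h, zero_mul]
  have s02 : r0 + r2 ≠ 0 := by
    intro h
    apply e02
    have : e 2 - e 0 = (r0 + r2) * (r0 - r2) := by linear_combination h0 - h2'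
    rw [this, h, zero_mul]
  have s12 : r1 + r2 ≠ 0 := by
    intro h
    apply e12
    have : e 2 - e 1 = (r1 + r2) * (r1 - r2) := by linear_combination h1 - h2'
    rw [this, h, zero_mul]
  obtain ⟨E0, hE0⟩ : ∃ E0, E0 = e 0 := ⟨_, rfl⟩
  obtain ⟨E1, hE1⟩ : ∃ E1, E1 = e 1 := ⟨_, rfl⟩
  obtain ⟨E2, hE2⟩ : ∃ E2, E2 = e 2 := ⟨_, rfl⟩
  have g0 : e 0 = x - r0 ^ 2 := by linear_combination -h0
  have g1 : e 1 = x - r1 ^ 2 := by linear_combination -h1
  have g2 : e 2 = x - r2 ^ 2 := by linear_combination -h2'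
  set X : K := x + r0 * r1 + r0 * r2 + r1 * r2 with hX
  set Y : K := (r0 + r1) * (r0 + r2) * (r1 + r2) with hY
  have hY0 : Y ≠ 0 := mul_ne_zero (mul_ne_zero s01 s02) s12
  have hQ : (W e).Nonsingular X Y := by
    rw [W_nonsingular h2 e he, g0, g1, g2, hX, hY]
    ring
  have hne : Y ≠ (W e).negY X Y := by
    rw [W_neg]
    intro h
    have : 2 * Y = 0 := by linear_combination h
    exact (mul_ne_zero h2 hY0) this
  have hs : (W e).slope X X Y Y = r0 + r1 + r2 := by
    rw [WeierstrassCurve.Affine.slope_of_Y_ne rfl hne, W_neg]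
    have hd : Y - -Y ≠ 0 := by
      have : Y - -Y = 2 * Y := by ring
      rw [this]
      exact mul_ne_zero h2 hY0
    rw [div_eq_iff hd]
    simp only [W]
    rw [g0, g1, g2, hX, hY]
    ring
  refine ⟨WeierstrassCurve.Affine.Point.some X Y hQ, ?_⟩
  rw [WeierstrassCurve.Affine.Point.add_self_of_Y_ne hne]
  simp only [WeierstrassCurve.Affine.Point.some.injEq]
  have hax : (W e).addX X X ((W e).slope X X Y Y) = x := by
    rw [hs]
    simp only [WeierstrassCurve.Affine.addX, W]
    rw [g0, g1, g2, hX]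
    ring
  refine ⟨hax.symm, ?_⟩
  unfold WeierstrassCurve.Affine.addY WeierstrassCurve.Affine.negAddY
  rw [W_neg, hax, hs, hy, hX, hY]
  ring

theorem pKer : StKer := by
  intro K _ _ h2 e he P hP
  rcases P with _ | ⟨x, y, hn⟩
  · exact ⟨0, by rw [add_zero]; rfl⟩
  · have hr : ∀ i, ∃ r, x - e i = r ^ 2 := by
      intro i
      by_cases hx : x = e i
      · exact ⟨0, by rw [hx]; ring⟩
      · obtain ⟨r, hr⟩ := hP i
        refine ⟨r, ?_⟩
        simp only [dl, if_neg hx] at hr
        rw [hr]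
        ring
    obtain ⟨r0, h0⟩ := hr 0
    obtain ⟨r1, h1⟩ := hr 1
    obtain ⟨r2, h2'⟩ := hr 2
    have hy := (W_nonsingular h2 e he x y).1 hn
    have hz : (y - r0 * r1 * r2) * (y + r0 * r1 * r2) = 0 := by
      rw [h0, h1, h2'] at hy
      linear_combination hy
    rcases mul_eq_zero.1 hz with h | h
    · exact core_Ker h2 e he x y hn r0 r1 r2 h0 h1 h2' (by linear_combination h)
    · exact core_Ker h2 e he x y hn (-r0) r1 r2 (by rw [h0]; ring) h1 h2' (by linear_combination h)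

end Pool.Agent.Helper44.CMF
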