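import Pool.Agent.Helper44.CMF.St

/-!
# Project CMF, module NSQ
-/

set_option autoImplicit false

namespace Pool.Agent.Helper44.CMF

private theorem gap_Nsq (m r : ℤ) (hm : 0 ≤ m) (h1 : m ^ 2 < r ^ 2) (h2 : r ^ 2 < (m + 1) ^ 2) : False := by
  have h3 : |m| < |r| := sq_lt_sq.1 h1
  have h4 : |r| < |m + 1| := sq_lt_sq.1 h2
  rw [abs_of_nonneg hm] at h3
  rw [abs_of_nonneg (by omega : 0 ≤ m + 1)] at h4
  omega

theorem pNsq : StNsq := by
  intro τ N h
  obtain ⟨j, hj⟩ := Int.even_or_odd' τ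
  rcases hj with hj | hj
  · refine ⟨j, hj, ?_⟩
    by_contra hN
    subst hj
    -- take m = n + j large
    have key := h (|N - j ^ 2| + 1 - j)
    obtain ⟨r, hr⟩ := key
    rcases lt_or_gt_of_ne hN with hlt | hgt
    · have habs : |N - j ^ 2| = j ^ 2 - N := by
        rw [abs_of_neg (by linarith)]; ring
      rw [habs] at hr
      refine gap_Nsq (j ^ 2 - N) r (by linarith) ?_ ?_
      · nlinarith
      · nlinarith
    · have habs : |N - j ^ 2| = N - j ^ 2 := abs_of_pos (by linarith)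
      rw [habs] at hr
      refine gap_Nsq (N - j ^ 2 + 1) r (by linarith) ?_ ?_
      · nlinarith
      · nlinarith
  · exfalso
    subst hj
    obtain ⟨r, hr⟩ := h (|N - j ^ 2| + |N - (j + 1) ^ 2| + |j| + 1)
    have a1 := abs_nonneg (N - j ^ 2)
    have a2 := abs_nonneg (N - (j + 1) ^ 2)
    have a3 := neg_abs_le j
    have a4 := neg_abs_le (N - j ^ 2)
    have a5 := le_abs_self (N - (j + 1) ^ 2)
    set n := |N - j ^ 2| + |N - (j + 1) ^ 2| + |j| + 1 with hn
    have a6 := abs_nonneg j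
    have e1 : r ^ 2 = (n + j) ^ 2 + (n + (N - j ^ 2)) := by linear_combination -hr
    have e2 : (n + j + 1) ^ 2 = r ^ 2 + (n - (N - (j + 1) ^ 2)) := by linear_combination hr
    refine gap_Nsq (n + j) r (by linarith) ?_ ?_
    · linarith
    · linarith

end Pool.Agent.Helper44.CMF
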