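import Pool.Agent.Helper44.CMF.St
import Pool.Agent.Helper44.RED.Fld

/-!
# Project CMF, module Ort: orthogonal sums with independent coefficients
-/

set_option autoImplicit false

namespace Pool.Agent.Helper44.CMF

open Pool.Agent.Helper44.RED MvPolynomial
open scoped MonomialOrder

/-- the polynomial version -/
theorem poly_Ort {E Ξ ι : Type} [Field E] [Fintype Ξ] [Fintype ι] (m : MonomialOrder Ξ)
    (q : Ξ → ι → E) (hq : ∀ ξ, Aniso (q ξ)) (P : Ξ → ι → MvPolynomial Ξ E)
    (h : ∑ ξ, X ξ * ∑ i, C (q ξ i) * P ξ i ^ 2 = 0) : ∀ ξ i, P ξ i = 0 := by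
  classical
  by_contra hcon
  push Not at hcon
  obtain ⟨ξ₁, i₁, hne⟩ := hcon
  -- the leading exponents
  have hex : ∀ ξ, (∃ i, P ξ i ≠ 0) → ∃ a : Ξ →₀ ℕ, (∀ i, m.degree (P ξ i) ≼[m] a) ∧
      ∃ i, (P ξ i).coeff a ≠ 0 := by
    intro ξ hξ
    have hne' : (Finset.univ.filter (fun i => P ξ i ≠ 0)).Nonempty := by
      obtain ⟨i, hi⟩ := hξ
      exact ⟨i, by simp [hi]⟩
    obtain ⟨i₀, hi₀, hmax⟩ := Finset.exists_max_image _ (fun i => m.toSyn (m.degree (P ξ i))) hne'
    rw [Finset.mem_filter] at hi₀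
    refine ⟨m.degree (P ξ i₀), fun i => ?_, i₀, ?_⟩
    · by_cases hi : P ξ i = 0
      · rw [hi, m.degree_zero, map_zero]
        exact bot_le
      · exact hmax i (by simp [hi])
    · exact m.coeff_degree_ne_zero_iff.2 hi₀.2
  set S : Finset Ξ := Finset.univ.filter (fun ξ => ∃ i, P ξ i ≠ 0) with hS
  have hSne : S.Nonempty := ⟨ξ₁, by rw [hS, Finset.mem_filter]; exact ⟨Finset.mem_univ _, i₁, hne⟩⟩
  have hex2 : ∀ ξ, ∃ a : Ξ →₀ ℕ, ξ ∈ S → (∀ i, m.degree (P ξ i) ≼[m] a) ∧
      ∃ i, (P ξ i).coeff a ≠ 0 := by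
    intro ξ
    by_cases hξ : ξ ∈ S
    · obtain ⟨a, ha⟩ := hex ξ (Finset.mem_filter.1 hξ).2
      exact ⟨a, fun _ => ha⟩
    · exact ⟨0, fun h' => absurd h' hξ⟩
  choose a ha using hex2
  obtain ⟨ξ₀, hξ₀, hmax⟩ := Finset.exists_max_image S
    (fun ξ => m.toSyn (Finsupp.single ξ 1 + (a ξ + a ξ))) hSne
  -- the degree of the inner sums
  have hsq : ∀ ξ ∈ S, ∀ i, m.degree (C (q ξ i) * P ξ i ^ 2) ≼[m] a ξ + a ξ := by
    intro ξ hξ i
    have h1 : m.degree (P ξ i) ≼[m] a ξ := (ha ξ hξ).1 i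
    have h2 : m.degree (P ξ i * P ξ i) ≼[m] a ξ + a ξ := by
      refine (m.degree_mul_le).trans ?_
      rw [map_add, map_add]
      exact add_le_add h1 h1
    rw [pow_two]
    refine (m.degree_mul_le).trans ?_
    rw [m.degree_C, zero_add]
    exact h2
  have hA : ∀ ξ ∈ S, m.degree (∑ i, C (q ξ i) * P ξ i ^ 2) ≼[m] a ξ + a ξ := by
    intro ξ hξ
    refine (m.degree_sum_le).trans ?_
    exact Finset.sup_le (fun i _ => hsq ξ hξ i)
  have hX : ∀ ξ : Ξ, m.degree (X ξ : MvPolynomial Ξ E) ≼[m] Finsupp.single ξ 1 :=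
    fun ξ => m.degree_X_le_single
  -- the coefficient at the largest exponent
  have hc := congrArg (fun p : MvPolynomial Ξ E =>
    p.coeff (Finsupp.single ξ₀ 1 + (a ξ₀ + a ξ₀))) h
  simp only [MvPolynomial.coeff_sum, MvPolynomial.coeff_zero] at hc
  rw [Finset.sum_eq_single ξ₀] at hc
  · rw [m.coeff_mul_of_add_of_degree_le (hX ξ₀) (hA ξ₀ hξ₀), MvPolynomial.coeff_sum] at hc
    have h1 : (X ξ₀ : MvPolynomial Ξ E).coeff (Finsupp.single ξ₀ 1) = 1 := by
      rw [MvPolynomial.coeff_X, if_pos rfl]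
    rw [h1, one_mul] at hc
    have h2 : qf (q ξ₀) (fun i => (P ξ₀ i).coeff (a ξ₀)) = 0 := by
      rw [← hc]
      unfold qf
      refine Finset.sum_congr rfl fun i _ => ?_
      rw [MvPolynomial.coeff_C_mul, pow_two, pow_two,
        m.coeff_mul_of_add_of_degree_le ((ha ξ₀ hξ₀).1 i) ((ha ξ₀ hξ₀).1 i)]
    have h3 := hq ξ₀ _ h2
    obtain ⟨i, hi⟩ := (ha ξ₀ hξ₀).2
    exact hi (congrFun h3 i)
  · intro ξ _ hξ
    by_cases hξS : ξ ∈ S
    · by_contra hcne
      have h1 : Finsupp.single ξ₀ 1 + (a ξ₀ + a ξ₀) ≼[m]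
          m.degree (X ξ * ∑ i, C (q ξ i) * P ξ i ^ 2) :=
        m.le_degree (MvPolynomial.mem_support_iff.2 hcne)
      have h2 : m.degree (X ξ * ∑ i, C (q ξ i) * P ξ i ^ 2) ≼[m]
          Finsupp.single ξ 1 + (a ξ + a ξ) := by
        refine (m.degree_mul_le).trans ?_
        rw [map_add, map_add]
        exact add_le_add (hX ξ) (hA ξ hξS)
      have h3 := hmax ξ hξS
      have h4 : m.toSyn (Finsupp.single ξ 1 + (a ξ + a ξ)) =
          m.toSyn (Finsupp.single ξ₀ 1 + (a ξ₀ + a ξ₀)) :=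
        le_antisymm h3 (h1.trans h2)
      have h5 := m.toSyn.injective h4
      have h6 := DFunLike.congr_fun h5 ξ₀
      simp only [Finsupp.add_apply, Finsupp.single_eq_same] at h6
      rw [Finsupp.single_eq_of_ne (by exact fun h => hξ h.symm)] at h6
      omega
    · have hz : ∀ i, P ξ i = 0 := by
        intro i
        by_contra hi
        exact hξS (Finset.mem_filter.2 ⟨Finset.mem_univ _, i, hi⟩)
      simp [hz]
  · intro h'
    exact absurd (Finset.mem_univ _) h'

theorem pOrt : StOrt := by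
  classical
  intro E F Ξ ι _ _ _ _ φ T hT hgen q
  constructor
  · intro hA ξ x hx
    have h1 := hA (fun p => if p.1 = ξ then φ (x p.2) else 0) (by
      unfold qf at hx ⊢
      rw [Fintype.sum_prod_type, Finset.sum_eq_single ξ]
      · simp only [if_true]
        have h2 := congrArg φ hx
        rw [map_sum, map_zero] at h2
        have h3 : ∀ i, T ξ * φ (q ξ i) * φ (x i) ^ 2 = T ξ * φ (q ξ i * x i ^ 2) := by
          intro i
          rw [map_mul, map_pow]
          ring
        rw [Finset.sum_congr rfl (fun i _ => h3 i), ← Finset.mul_sum, h2, mul_zero]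
      · intro ξ' _ hne
        simp [hne]
      · intro h'
        exact absurd (Finset.mem_univ _) h')
    funext i
    have h2 := congrFun h1 (ξ, i)
    simp only [if_true, Pi.zero_apply] at h2
    exact hT.inj (by rw [h2, Pi.zero_apply, map_zero])
  · intro hq x hx
    obtain ⟨j, hj1, hj2, hj3⟩ := hT.iso hgen
    obtain ⟨d, hd⟩ := IsLocalization.exist_integer_multiples_of_finite
      (nonZeroDivisors (MvPolynomial Ξ E)) (fun p : Ξ × ι => j.symm (x p))
    choose g hg using hd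
    have hinj : Function.Injective
        (algebraMap (MvPolynomial Ξ E) (FractionRing (MvPolynomial Ξ E))) :=
      IsFractionRing.injective _ _
    have hd0 : algebraMap (MvPolynomial Ξ E) (FractionRing (MvPolynomial Ξ E))
        (d : MvPolynomial Ξ E) ≠ 0 := by
      intro h0
      rw [map_eq_zero_iff _ hinj] at h0
      exact nonZeroDivisors.ne_zero d.2 h0
    have hgx : ∀ p, algebraMap (MvPolynomial Ξ E) (FractionRing (MvPolynomial Ξ E)) (g p) =
        algebraMap (MvPolynomial Ξ E) (FractionRing (MvPolynomial Ξ E))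
          (d : MvPolynomial Ξ E) * j.symm (x p) := by
      intro p
      rw [hg p, Algebra.smul_def]
    have hpoly : ∑ ξ, X ξ * ∑ i, C (q ξ i) * g (ξ, i) ^ 2 = 0 := by
      apply hinj
      apply j.injective
      rw [map_zero, map_zero, map_sum, map_sum]
      have h1 : ∀ ξ, j (algebraMap (MvPolynomial Ξ E) (FractionRing (MvPolynomial Ξ E))
          (X ξ * ∑ i, C (q ξ i) * g (ξ, i) ^ 2)) =
          j (algebraMap (MvPolynomial Ξ E) (FractionRing (MvPolynomial Ξ E))
            (d : MvPolynomial Ξ E)) ^ 2 *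
            ∑ i, T ξ * φ (q ξ i) * x (ξ, i) ^ 2 := by
        intro ξ
        rw [map_mul, map_mul, hj2, map_sum, map_sum, Finset.mul_sum, Finset.mul_sum]
        refine Finset.sum_congr rfl fun i _ => ?_
        have h2 : j (algebraMap (MvPolynomial Ξ E) (FractionRing (MvPolynomial Ξ E))
            (C (q ξ i))) = φ (q ξ i) := by
          rw [hj3]
          simp
        rw [map_mul, map_mul, map_pow, map_pow, h2, hgx, map_mul, j.apply_symm_apply]
        ring
      rw [Finset.sum_congr rfl (fun ξ _ => h1 ξ), ← Finset.mul_sum]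
      have h3 : ∑ ξ, ∑ i, T ξ * φ (q ξ i) * x (ξ, i) ^ 2 = 0 := by
        rw [← hx]
        unfold qf
        rw [Fintype.sum_prod_type]
      rw [h3, mul_zero]
    let _ : LinearOrder Ξ := LinearOrder.lift' (Fintype.equivFin Ξ) (Fintype.equivFin Ξ).injective
    have h0 := poly_Ort (MonomialOrder.lex) q hq (fun ξ i => g (ξ, i)) hpoly
    funext p
    have h1 := hgx p
    rw [h0 p.1 p.2, map_zero] at h1
    rcases mul_eq_zero.1 h1.symm with h | h
    · exact absurd h hd0
    · rw [← j.apply_symm_apply (x p), h, map_zero]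
      rfl

end Pool.Agent.Helper44.CMF
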