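import Pool.Agent.Helper44.CMF.St

/-!
# Project CMF, module PD1: the degree of a vector of rational functions is well defined
-/

set_option autoImplicit false

open Polynomial

namespace Pool.Agent.Helper44.CMF

open Pool.Agent.Helper44.RED

private theorem const_of_no_root_PD1 {k : Type} [Field k] [IsAlgClosed k] (A : k[X]) (hA : A ≠ 0)
    (h : ∀ z : k, A.eval z ≠ 0) : ∃ α : k, α ≠ 0 ∧ A = C α := by
  by_cases hd : A.degree = 0
  · obtain h1 := Polynomial.eq_C_of_degree_eq_zero hd
    refine ⟨A.coeff 0, ?_, h1⟩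
    intro h0
    rw [h0, C_0] at h1
    exact hA h1
  · obtain ⟨z, hz⟩ := IsAlgClosed.exists_root A hd
    exact absurd hz (h z)

private theorem le_PD1 {k : Type} [Field k] {n : ℕ} (p p' : Fin n → k[X]) (d d' : ℕ) (α β : k)
    (hα : α ≠ 0) (h : ∀ i, C β * p' i = C α * p i)
    (hd' : ∀ i, (p' i).natDegree ≤ d') (i : Fin n) (hi : (p i).coeff d ≠ 0) : d ≤ d' := by
  have h1 : β * (p' i).coeff d = α * (p i).coeff d := by
    rw [← coeff_C_mul, h i, coeff_C_mul]
  have h2 : (p' i).coeff d ≠ 0 := by
    intro h0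
    rw [h0, mul_zero] at h1
    exact mul_ne_zero hα hi h1.symm
  exact (le_natDegree_of_ne_zero h2).trans (hd' i)

theorem pPD1 : StPD1 := by
  rintro k _ _ n v d ⟨c, hc, p, hp, hz, hd, i0, hi0⟩
  refine ⟨?_, ?_⟩
  · rintro d' ⟨c', hc', p', hp', hz', hd', i1, hi1⟩
    have hr : c' / c ≠ 0 := div_ne_zero hc' hc
    have hAB : IsCoprime (c' / c).num (c' / c).denom := RatFunc.isCoprime_num_denom _
    have hA0 : (c' / c).num ≠ 0 := RatFunc.num_ne_zero hr
    have hB0 : (c' / c).denom ≠ 0 := RatFunc.denom_ne_zero _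
    have hB1 : algebraMap k[X] (RatFunc k) (c' / c).denom ≠ 0 := RatFunc.algebraMap_ne_zero hB0
    have hcr : algebraMap k[X] (RatFunc k) (c' / c).denom * c' =
        algebraMap k[X] (RatFunc k) (c' / c).num * c := by
      have h1 := RatFunc.num_div_denom (c' / c)
      rw [div_eq_div_iff hB1 hc] at h1
      rw [h1, mul_comm]
    have key : ∀ i, (c' / c).denom * p' i = (c' / c).num * p i := by
      intro i
      apply RatFunc.algebraMap_injective k
      rw [map_mul, map_mul, ← hp' i, ← hp i, ← mul_assoc, ← mul_assoc, hcr]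
    obtain ⟨s, t, hst⟩ := hAB
    obtain ⟨α, hα, hAα⟩ := const_of_no_root_PD1 (c' / c).num hA0 (by
      intro z hzA
      obtain ⟨i, hi⟩ := hz' z
      have h1 := congrArg (eval z) hst
      have h2 := congrArg (eval z) (key i)
      rw [eval_add, eval_mul, eval_mul, hzA, mul_zero, zero_add, eval_one] at h1
      rw [eval_mul, eval_mul, hzA, zero_mul] at h2
      rcases mul_eq_zero.1 h2 with h3 | h3
      · rw [h3, mul_zero] at h1
        exact zero_ne_one h1
      · exact hi h3)
    obtain ⟨β, hβ, hBβ⟩ := const_of_no_root_PD1 (c' / c).denom hB0 (by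
      intro z hzB
      obtain ⟨i, hi⟩ := hz z
      have h1 := congrArg (eval z) hst
      have h2 := congrArg (eval z) (key i)
      rw [eval_add, eval_mul, eval_mul, hzB, mul_zero, add_zero, eval_one] at h1
      rw [eval_mul, eval_mul, hzB, zero_mul] at h2
      rcases mul_eq_zero.1 h2.symm with h3 | h3
      · rw [h3, mul_zero] at h1
        exact zero_ne_one h1
      · exact hi h3)
    rw [hAα, hBβ] at key
    exact le_antisymm (le_PD1 p p' d d' α β hα key hd' i0 hi0)
      (le_PD1 p' p d' d β α hβ (fun i => (key i).symm) hd i1 hi1)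
  · intro a ha
    refine ⟨c / a, div_ne_zero hc ha, p, fun i => ?_, hz, hd, i0, hi0⟩
    rw [← hp i]
    field_simp

end Pool.Agent.Helper44.CMF
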