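import Pool.Agent.Helper44.CMF.St

/-!
# Project CMF (MP_1dc56d), module PD2: the degree of the vector of the `x`-coordinate
-/

set_option autoImplicit false

open Polynomial

namespace Pool.Agent.Helper44.CMF

open Pool.Agent.Helper44.RED

private theorem pd_u_PD2 {k : Type} [Field k] (u : RatFunc k) :
    PD (![u, 1] : Fin 2 → RatFunc k) (rdeg u) := by
  have hd0 : algebraMap k[X] (RatFunc k) u.denom ≠ 0 := by
    rw [Ne, map_eq_zero_iff _ (RatFunc.algebraMap_injective k)]
    exact u.denom_ne_zero
  refine ⟨algebraMap k[X] (RatFunc k) u.denom, hd0, ![u.num, u.denom], ?_, ?_, ?_, ?_⟩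
  · intro i
    fin_cases i
    · change algebraMap k[X] (RatFunc k) u.denom * u = algebraMap k[X] (RatFunc k) u.num
      conv_lhs => rw [← RatFunc.num_div_denom u]
      rw [RatFunc.num_div_denom u]
      have h := RatFunc.num_div_denom u
      rw [div_eq_iff hd0] at h
      rw [h]
      ring
    · change algebraMap k[X] (RatFunc k) u.denom * 1 = algebraMap k[X] (RatFunc k) u.denom
      rw [mul_one]
  · intro z
    by_contra hcon
    push Not at hcon
    have h0 : u.num.eval z = 0 := hcon 0
    have h1 : u.denom.eval z = 0 := hcon 1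
    obtain ⟨a, b, hab⟩ := u.isCoprime_num_denom
    have h2 := congrArg (Polynomial.eval z) hab
    rw [eval_add, eval_mul, eval_mul, h0, h1, mul_zero, mul_zero, add_zero, eval_one] at h2
    exact zero_ne_one h2
  · intro i
    fin_cases i
    · exact le_max_left _ _
    · exact le_max_right _ _
  · by_cases h : u.num.natDegree ≤ u.denom.natDegree
    · refine ⟨1, ?_⟩
      change u.denom.coeff (max u.num.natDegree u.denom.natDegree) ≠ 0
      rw [max_eq_right h, coeff_natDegree, Ne, leadingCoeff_eq_zero]
      exact u.denom_ne_zero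
    · refine ⟨0, ?_⟩
      change u.num.coeff (max u.num.natDegree u.denom.natDegree) ≠ 0
      rw [max_eq_left (by omega), coeff_natDegree, Ne, leadingCoeff_eq_zero]
      intro h0
      rw [h0, natDegree_zero] at h
      omega

theorem pPD2 : StPD2 := by
  intro k _ l m P
  cases P with
  | zero =>
    refine ⟨1, one_ne_zero, ![1, 0], ?_, ?_, ?_, ?_⟩
    · intro i
      fin_cases i
      · change (1 : RatFunc k) * 1 = algebraMap k[X] (RatFunc k) 1
        rw [map_one, mul_one]
      · change (1 : RatFunc k) * 0 = algebraMap k[X] (RatFunc k) 0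
        rw [map_zero, mul_zero]
    · intro z
      refine ⟨0, ?_⟩
      change (1 : k[X]).eval z ≠ 0
      rw [eval_one]
      exact one_ne_zero
    · intro i
      fin_cases i
      · change (1 : k[X]).natDegree ≤ 0
        rw [natDegree_one]
      · change (0 : k[X]).natDegree ≤ 0
        rw [natDegree_zero]
    · refine ⟨0, ?_⟩
      change (1 : k[X]).coeff 0 ≠ 0
      rw [coeff_one_zero]
      exact one_ne_zero
  | some x y h => exact pd_u_PD2 (x / ff l)

end Pool.Agent.Helper44.CMF
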