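import Pool.Agent.Helper44.CMF.St

set_option autoImplicit false

open Polynomial

namespace Pool.Agent.Helper44.CMF

open Pool.Agent.Helper44.RED

private theorem key_PD3 {k : Type} [Field k] (a b : Fin 2 → k) (ha : ∃ i, a i ≠ 0)
    (hb : ∃ i, b i ≠ 0) : ∃ i, sm2 a b i ≠ 0 := by
  by_contra hc
  push Not at hc
  have h0 : a 1 * b 1 = 0 := by simpa [sm2] using hc 0
  have h1 : a 0 * b 1 + a 1 * b 0 = 0 := by simpa [sm2] using hc 1
  have h2 : a 0 * b 0 = 0 := by simpa [sm2] using hc 2
  have ha' : a 0 ≠ 0 ∨ a 1 ≠ 0 := by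
    obtain ⟨i, hi⟩ := ha
    fin_cases i
    · exact Or.inl hi
    · exact Or.inr hi
  have hb' : b 0 ≠ 0 ∨ b 1 ≠ 0 := by
    obtain ⟨i, hi⟩ := hb
    fin_cases i
    · exact Or.inl hi
    · exact Or.inr hi
  rcases mul_eq_zero.1 h0 with h | h
  · rcases ha' with h' | h'
    · rcases mul_eq_zero.1 h2 with h3 | h3
      · exact h' h3
      · rw [h, h3, zero_mul, add_zero] at h1
        rcases mul_eq_zero.1 h1 with h4 | h4
        · exact h' h4
        · rcases hb' with h5 | h5
          · exact h5 h3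
          · exact h5 h4
    · exact h' h
  · rcases hb' with h' | h'
    · rcases mul_eq_zero.1 h2 with h3 | h3
      · rw [h, mul_zero, zero_add] at h1
        rcases mul_eq_zero.1 h1 with h4 | h4
        · rcases ha' with h5 | h5
          · exact h5 h3
          · exact h5 h4
        · exact h' h4
      · exact h' h3
    · exact h' h

theorem pPD3 : StPD3 := by
  intro k _ u v d d' hu hv
  obtain ⟨c, hc, p, hp, hpz, hpd, hpt⟩ := hu
  obtain ⟨c', hc', p', hp', hpz', hpd', hpt'⟩ := hv
  have cf : ∀ i j, (p i * p' j).coeff (d + d') = (p i).coeff d * (p' j).coeff d' := fun i j =>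
    coeff_mul_add_eq_of_natDegree_le (hpd i) (hpd' j)
  have dg : ∀ i j, (p i * p' j).natDegree ≤ d + d' := fun i j =>
    natDegree_mul_le.trans (add_le_add (hpd i) (hpd' j))
  refine ⟨c * c', mul_ne_zero hc hc', sm2 p p', ?_, ?_, ?_, ?_⟩
  · intro i
    fin_cases i
    · simp only [sm2, Fin.zero_eta, Matrix.cons_val_zero, map_mul, ← hp, ← hp']
      ring
    · simp only [sm2, Fin.mk_one, Matrix.cons_val_one, Matrix.cons_val_zero, map_mul, map_add,
        ← hp, ← hp']
      ring
    · simp only [sm2, Fin.reduceFinMk, Matrix.cons_val, map_mul, ← hp, ← hp']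
      ring
  · intro z
    obtain ⟨i, hi⟩ := key_PD3 (fun i => (p i).eval z) (fun i => (p' i).eval z) (hpz z) (hpz' z)
    refine ⟨i, ?_⟩
    have : (sm2 p p' i).eval z = sm2 (fun i => (p i).eval z) (fun i => (p' i).eval z) i := by
      fin_cases i <;> simp [sm2]
    rw [this]
    exact hi
  · intro i
    fin_cases i
    · exact dg 1 1
    · exact natDegree_add_le_of_degree_le (dg 0 1) (dg 1 0)
    · exact dg 0 0
  · obtain ⟨i, hi⟩ := key_PD3 (fun i => (p i).coeff d) (fun i => (p' i).coeff d') hpt hpt'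
    refine ⟨i, ?_⟩
    have : (sm2 p p' i).coeff (d + d') =
        sm2 (fun i => (p i).coeff d) (fun i => (p' i).coeff d') i := by
      fin_cases i
      · simpa [sm2] using cf 1 1
      · simp only [sm2, Fin.mk_one, Matrix.cons_val_one, Matrix.cons_val_zero, coeff_add, cf]
      · simpa [sm2] using cf 0 0
    rw [this]
    exact hi

end Pool.Agent.Helper44.CMF
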