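import Pool.Agent.Helper44.CMF.St

set_option autoImplicit false

open Polynomial

namespace Pool.Agent.Helper44.CMF

open Pool.Agent.Helper44.RED

private theorem key_PD4 {k : Type} [Field k] (h2 : (2 : k) ≠ 0) (m : k) (h0 : m ≠ 0) (h1 : m ≠ 1)
    (v : Fin 3 → k) (hv : ∀ i, sgm m v i = 0) : ∀ i, v i = 0 := by
  have e0 := hv 0
  have e1 := hv 1
  have e2 := hv 2
  simp only [sgm, Matrix.cons_val_zero, Matrix.cons_val_one, Matrix.cons_val] at e0 e1 e2
  have e3 : v 2 = m * v 0 := by
    have := pow_eq_zero_iff (two_ne_zero) |>.1 e2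
    linear_combination this
  have h4 : (4 : k) ≠ 0 := by
    have : (4 : k) = 2 * 2 := by norm_num
    rw [this]; exact mul_ne_zero h2 h2
  have hv0 : v 0 = 0 := by
    by_contra hne
    rw [e3] at e0 e1
    have e4 : (4 * m * v 0) * (v 1 - (1 + m) * v 0) = 0 := by linear_combination e1
    have e5 : v 1 - (1 + m) * v 0 = 0 :=
      (mul_eq_zero.1 e4).resolve_left (mul_ne_zero (mul_ne_zero h4 h0) hne)
    have e6 : v 1 = (1 + m) * v 0 := by linear_combination e5
    rw [e6] at e0
    have e7 : (v 0) ^ 2 * (1 - m) ^ 2 = 0 := by linear_combination e0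
    rcases mul_eq_zero.1 e7 with h | h
    · exact hne (pow_eq_zero_iff (two_ne_zero) |>.1 h)
    · exact h1 (by
        have := pow_eq_zero_iff (two_ne_zero) |>.1 h
        linear_combination -this)
  have hv2 : v 2 = 0 := by rw [e3, hv0, mul_zero]
  have hv1 : v 1 = 0 := by
    rw [hv0, hv2] at e0
    have : v 1 ^ 2 = 0 := by linear_combination e0
    exact pow_eq_zero_iff (two_ne_zero) |>.1 this
  intro i
  fin_cases i
  · exact hv0
  · exact hv1
  · exact hv2

private theorem map_PD4 {R S : Type} [CommRing R] [CommRing S] (f : R →+* S) (m : R)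
    (v : Fin 3 → R) (i : Fin 3) : f (sgm m v i) = sgm (f m) (fun j => f (v j)) i := by
  have e2 : f 2 = 2 := map_ofNat f 2
  have e4 : f 4 = 4 := map_ofNat f 4
  fin_cases i <;> simp [sgm, e2, e4]

private theorem deg_PD4 {k : Type} [Field k] (m : k) (p : Fin 3 → k[X]) (d : ℕ)
    (hp : ∀ i, (p i).natDegree ≤ d) (i : Fin 3) : (sgm (C m) p i).natDegree ≤ 2 * d := by
  have hm : ∀ i j, (p i * p j).natDegree ≤ 2 * d := fun i j =>
    natDegree_mul_le.trans (by have := hp i; have := hp j; omega)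
  have hC : ∀ (c : k) (q : k[X]), q.natDegree ≤ 2 * d → (C c * q).natDegree ≤ 2 * d :=
    fun c q hq => (natDegree_C_mul_le c q).trans hq
  have hadd : ∀ (a b : k[X]), a.natDegree ≤ 2 * d → b.natDegree ≤ 2 * d →
      (a + b).natDegree ≤ 2 * d := fun a b ha hb => natDegree_add_le_of_degree_le ha hb
  have hsub : ∀ (a b : k[X]), a.natDegree ≤ 2 * d → b.natDegree ≤ 2 * d →
      (a - b).natDegree ≤ 2 * d := fun a b ha hb => (natDegree_sub_le_of_le ha hb).trans (by simp)
  fin_cases i
  · have : sgm (C m) p (0 : Fin 3) = p 1 * p 1 - C 4 * (p 0 * p 2) := by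
      simp only [sgm, Matrix.cons_val_zero, map_ofNat]
      ring
    show (sgm (C m) p 0).natDegree ≤ _
    rw [this]
    exact hsub _ _ (hm _ _) (hC _ _ (hm _ _))
  · have : sgm (C m) p (1 : Fin 3) = C 2 * (p 1 * p 2) + C (2 * m) * (p 1 * p 0)
        - C (4 * (1 + m)) * (p 0 * p 2) := by
      simp only [sgm, Matrix.cons_val_one, Matrix.cons_val_zero, map_ofNat, map_mul, map_add, map_one]
      ring
    show (sgm (C m) p 1).natDegree ≤ _
    rw [this]
    exact hsub _ _ (hadd _ _ (hC _ _ (hm _ _)) (hC _ _ (hm _ _))) (hC _ _ (hm _ _))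
  · have : sgm (C m) p (2 : Fin 3) = p 2 * p 2 - C (2 * m) * (p 2 * p 0) + C (m ^ 2) * (p 0 * p 0) := by
      simp only [sgm, Matrix.cons_val, map_ofNat, map_mul, map_pow]
      ring
    show (sgm (C m) p 2).natDegree ≤ _
    rw [this]
    exact hadd _ _ (hsub _ _ (hm _ _) (hC _ _ (hm _ _))) (hC _ _ (hm _ _))

private theorem coeff_PD4 {k : Type} [Field k] (m : k) (p : Fin 3 → k[X]) (d : ℕ)
    (hp : ∀ i, (p i).natDegree ≤ d) (i : Fin 3) :
    (sgm (C m) p i).coeff (2 * d) = sgm m (fun j => (p j).coeff d) i := by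
  have hm : ∀ i j, (p i * p j).coeff (2 * d) = (p i).coeff d * (p j).coeff d := fun i j => by
    rw [two_mul]
    exact coeff_mul_add_eq_of_natDegree_le (hp i) (hp j)
  fin_cases i
  · have : sgm (C m) p (0 : Fin 3) = p 1 * p 1 - C 4 * (p 0 * p 2) := by
      simp only [sgm, Matrix.cons_val_zero, map_ofNat]
      ring
    show (sgm (C m) p 0).coeff (2 * d) = sgm m (fun j => (p j).coeff d) 0
    rw [this, coeff_sub, coeff_C_mul, hm, hm]
    simp only [sgm, Matrix.cons_val_zero]
    ring
  · have : sgm (C m) p (1 : Fin 3) = C 2 * (p 1 * p 2) + C (2 * m) * (p 1 * p 0)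
        - C (4 * (1 + m)) * (p 0 * p 2) := by
      simp only [sgm, Matrix.cons_val_one, Matrix.cons_val_zero, map_ofNat, map_mul, map_add, map_one]
      ring
    show (sgm (C m) p 1).coeff (2 * d) = sgm m (fun j => (p j).coeff d) 1
    rw [this, coeff_sub, coeff_add, coeff_C_mul, coeff_C_mul, coeff_C_mul, hm, hm, hm]
    simp only [sgm, Matrix.cons_val_one, Matrix.cons_val_zero]
    ring
  · have : sgm (C m) p (2 : Fin 3) = p 2 * p 2 - C (2 * m) * (p 2 * p 0) + C (m ^ 2) * (p 0 * p 0) := by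
      simp only [sgm, Matrix.cons_val, map_ofNat, map_mul, map_pow]
      ring
    show (sgm (C m) p 2).coeff (2 * d) = sgm m (fun j => (p j).coeff d) 2
    rw [this, coeff_add, coeff_sub, coeff_C_mul, coeff_C_mul, hm, hm, hm]
    simp only [sgm, Matrix.cons_val]
    ring

private theorem smul_PD4 {R : Type} [CommRing R] (m c : R) (v : Fin 3 → R) (i : Fin 3) :
    c ^ 2 * sgm m v i = sgm m (fun j => c * v j) i := by
  fin_cases i
  · show c ^ 2 * sgm m v 0 = sgm m (fun j => c * v j) 0
    simp only [sgm, Matrix.cons_val_zero]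
    ring
  · show c ^ 2 * sgm m v 1 = sgm m (fun j => c * v j) 1
    simp only [sgm, Matrix.cons_val_one, Matrix.cons_val_zero]
    ring
  · show c ^ 2 * sgm m v 2 = sgm m (fun j => c * v j) 2
    simp only [sgm, Matrix.cons_val]
    ring

theorem pPD4 : StPD4 := by
  intro k _ h2 m h0 h1 v d ⟨c, hc, p, hp, hz, hd, i0, hi0⟩
  refine ⟨c ^ 2, pow_ne_zero _ hc, fun i => sgm (C m) p i, fun i => ?_, fun z => ?_,
    fun i => deg_PD4 m p d hd i, ?_⟩
  · rw [smul_PD4, map_PD4, RatFunc.algebraMap_C]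
    congr 1
    funext j
    exact hp j
  · by_contra hcon
    push Not at hcon
    have h3 : ∀ i, sgm m (fun j => (p j).eval z) i = 0 := by
      intro i
      have := hcon i
      have h4 := map_PD4 (evalRingHom z) (C m) p i
      simp only [coe_evalRingHom, eval_C] at h4
      rw [← h4]
      exact this
    obtain ⟨j, hj⟩ := hz z
    exact hj (key_PD4 h2 m h0 h1 _ h3 j)
  · by_contra hcon
    push Not at hcon
    have h3 : ∀ i, sgm m (fun j => (p j).coeff d) i = 0 := by
      intro i
      rw [← coeff_PD4 m p d hd i]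
      exact hcon i
    exact hi0 (key_PD4 h2 m h0 h1 _ h3 i0)

end Pool.Agent.Helper44.CMF
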