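import Pool.Agent.Helper44.CMF.St

/-!
# Project CMF: module Pairs
-/

set_option autoImplicit false

open Polynomial

namespace Pool.Agent.Helper44.CMF

open Pool.Agent.Helper44.RED

private lemma map_aeval_Pairs {R k σ : Type} [CommRing R] [CommRing k] (φ : R →+* k) (i : σ)
    (p : R[X]) :
    MvPolynomial.map φ (Polynomial.aeval (MvPolynomial.X i : MvPolynomial σ R) p) =
      Polynomial.aeval (MvPolynomial.X i : MvPolynomial σ k) (p.map φ) := by
  rw [Polynomial.aeval_def, Polynomial.aeval_def, Polynomial.hom_eval₂, Polynomial.eval₂_map,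
    MvPolynomial.map_X]
  congr 1
  ext r
  simp [MvPolynomial.algebraMap_eq]

private lemma lin_ne_Pairs {K : Type} [Field K] {a b : K} (h : a ≠ 0 ∨ b ≠ 0) :
    (RatFunc.C b + RatFunc.X * RatFunc.C a : RatFunc K) ≠ 0 := by
  intro h0
  have h1 : (algebraMap K[X] (RatFunc K)) (C b + X * C a) = 0 := by
    rw [map_add, map_mul, RatFunc.algebraMap_C, RatFunc.algebraMap_C, RatFunc.algebraMap_X]
    exact h0
  have h2 : (C b + X * C a : K[X]) = 0 :=
    (map_eq_zero_iff _ (RatFunc.algebraMap_injective K)).1 h1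
  have hb : b = 0 := by
    have := congrArg (fun p : K[X] => p.coeff 0) h2
    simpa using this
  have ha : a = 0 := by
    have := congrArg (fun p : K[X] => p.coeff 1) h2
    simpa [Polynomial.coeff_X_mul, Polynomial.coeff_C] using this
  rcases h with h | h
  · exact h ha
  · exact h hb

theorem pPairs : StFamT → StOrt → StBru → StTrk → StPairs := by
  intro hF hO hB hT R Ξ ι _ _ _ _ _ a b
  obtain ⟨P, v, q, g, hP, hg⟩ := hF R (Ξ × ι) (Fin 2 ⊕ Ξ)
    (fun p => MvPolynomial.X (Sum.inr p.1) *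
      (Polynomial.aeval (MvPolynomial.X (Sum.inl 0)) (b p.1 p.2) +
        MvPolynomial.X (Sum.inl 1) * Polynomial.aeval (MvPolynomial.X (Sum.inl 0)) (a p.1 p.2)))
  refine ⟨P, v, q, g, hP, ?_⟩
  intro k _ _ hBig φ hab
  have h2 : (2 : k) ≠ 0 := Big.two hBig hP
  obtain ⟨ψ, hψ1, hψ2, hψ3, hψ4⟩ := hT k Ξ
  set T : Ξ → FractionRing (MvPolynomial (Fin 2 ⊕ Ξ) k) := fun ξ : Ξ =>
    algebraMap (MvPolynomial (Fin 2 ⊕ Ξ) k)
      (FractionRing (MvPolynomial (Fin 2 ⊕ Ξ) k)) (MvPolynomial.X (Sum.inr ξ)) with hTdef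
  set qq : Ξ → ι → RatFunc (RatFunc k) := fun ξ i =>
    RatFunc.C (algebraMap k[X] (RatFunc k) ((b ξ i).map φ)) +
      RatFunc.X * RatFunc.C (algebraMap k[X] (RatFunc k) ((a ξ i).map φ)) with hqq
  have hmap : ∀ p : Ξ × ι, MvPolynomial.map φ (MvPolynomial.X (Sum.inr p.1) *
      (Polynomial.aeval (MvPolynomial.X (Sum.inl 0)) (b p.1 p.2) +
        MvPolynomial.X (Sum.inl 1) * Polynomial.aeval (MvPolynomial.X (Sum.inl 0)) (a p.1 p.2)) :
          MvPolynomial (Fin 2 ⊕ Ξ) R) =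
      MvPolynomial.X (Sum.inr p.1) *
      (Polynomial.aeval (MvPolynomial.X (Sum.inl 0)) ((b p.1 p.2).map φ) +
        MvPolynomial.X (Sum.inl 1) *
          Polynomial.aeval (MvPolynomial.X (Sum.inl 0)) ((a p.1 p.2).map φ)) := by
    intro p
    rw [map_mul, map_add, map_mul, map_aeval_Pairs, map_aeval_Pairs, MvPolynomial.map_X,
      MvPolynomial.map_X]
  have hval : ∀ p : Ξ × ι, algebraMap (MvPolynomial (Fin 2 ⊕ Ξ) k)
      (FractionRing (MvPolynomial (Fin 2 ⊕ Ξ) k))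
      (MvPolynomial.map φ (MvPolynomial.X (Sum.inr p.1) *
      (Polynomial.aeval (MvPolynomial.X (Sum.inl 0)) (b p.1 p.2) +
        MvPolynomial.X (Sum.inl 1) * Polynomial.aeval (MvPolynomial.X (Sum.inl 0)) (a p.1 p.2)) :
          MvPolynomial (Fin 2 ⊕ Ξ) R)) = T p.1 * ψ (qq p.1 p.2) := by
    intro p
    rw [hmap p]
    simp only [map_mul, map_add, hTdef, hqq, hψ1, hψ2]
  have hTne : ∀ ξ, T ξ ≠ 0 := fun ξ => by
    rw [hTdef]
    simp only [ne_eq]
    rw [map_eq_zero_iff _ (IsFractionRing.injective (MvPolynomial (Fin 2 ⊕ Ξ) k)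
      (FractionRing (MvPolynomial (Fin 2 ⊕ Ξ) k)))]
    exact MvPolynomial.X_ne_zero _
  have hαβ : ∀ (p : k[X]), p ≠ 0 → algebraMap k[X] (RatFunc k) p ≠ 0 := fun p hp h =>
    hp ((map_eq_zero_iff _ (RatFunc.algebraMap_injective k)).1 h)
  have hqne : ∀ p : Ξ × ι, qq p.1 p.2 ≠ 0 := by
    intro p
    refine lin_ne_Pairs ?_
    rcases hab p.1 p.2 with h | h
    · exact Or.inl (hαβ _ h)
    · exact Or.inr (hαβ _ h)
  have hgood := hg k hBig φ (by
    intro p h0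
    have h1 := hval p
    rw [h0, map_zero] at h1
    have h3 : ψ (qq p.1 p.2) ≠ 0 := by
      rw [ne_eq, map_eq_zero_iff _ ψ.injective]
      exact hqne p
    exact (mul_ne_zero (hTne p.1) h3) h1.symm)
  have hfun : (fun p : Ξ × ι => algebraMap (MvPolynomial (Fin 2 ⊕ Ξ) k)
      (FractionRing (MvPolynomial (Fin 2 ⊕ Ξ) k))
      (MvPolynomial.map φ (MvPolynomial.X (Sum.inr p.1) *
      (Polynomial.aeval (MvPolynomial.X (Sum.inl 0)) (b p.1 p.2) +
        MvPolynomial.X (Sum.inl 1) * Polynomial.aeval (MvPolynomial.X (Sum.inl 0)) (a p.1 p.2)) :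
          MvPolynomial (Fin 2 ⊕ Ξ) R))) = fun p : Ξ × ι => T p.1 * ψ (qq p.1 p.2) :=
    funext hval
  have hiff : (¬ Aniso (fun p : Ξ × ι => algebraMap (MvPolynomial (Fin 2 ⊕ Ξ) k)
      (FractionRing (MvPolynomial (Fin 2 ⊕ Ξ) k))
      (MvPolynomial.map φ (MvPolynomial.X (Sum.inr p.1) *
      (Polynomial.aeval (MvPolynomial.X (Sum.inl 0)) (b p.1 p.2) +
        MvPolynomial.X (Sum.inl 1) * Polynomial.aeval (MvPolynomial.X (Sum.inl 0)) (a p.1 p.2)) :
          MvPolynomial (Fin 2 ⊕ Ξ) R)))) ↔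
      (∃ ξ, ∃ x : ι → RatFunc k, x ≠ 0 ∧
        qf (fun i => algebraMap k[X] (RatFunc k) ((a ξ i).map φ)) x = 0 ∧
        qf (fun i => algebraMap k[X] (RatFunc k) ((b ξ i).map φ)) x = 0) := by
    rw [hfun, hO (RatFunc (RatFunc k)) _ Ξ ι ψ T hψ3 hψ4 qq]
    have hbru : ∀ ξ, Aniso (qq ξ) ↔ ∀ x : ι → RatFunc k,
        qf (fun i => algebraMap k[X] (RatFunc k) ((a ξ i).map φ)) x = 0 →
        qf (fun i => algebraMap k[X] (RatFunc k) ((b ξ i).map φ)) x = 0 → x = 0 := fun ξ =>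
      hB (RatFunc k) ι (two_ne_rat h2)
        (fun i => algebraMap k[X] (RatFunc k) ((a ξ i).map φ))
        (fun i => algebraMap k[X] (RatFunc k) ((b ξ i).map φ))
    constructor
    · intro h
      push Not at h
      obtain ⟨ξ, hξ⟩ := h
      rw [hbru ξ] at hξ
      push Not at hξ
      obtain ⟨x, h3, h4, h5⟩ := hξ
      exact ⟨ξ, x, h5, h3, h4⟩
    · rintro ⟨ξ, x, h3, h4, h5⟩ h
      exact h3 ((hbru ξ).1 (h ξ) x h4 h5)
  exact ⟨hgood.1, hgood.2.1.trans hiff, hgood.2.2.trans hiff⟩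

end Pool.Agent.Helper44.CMF
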