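import Pool.Agent.Helper44.CMF.St

/-!
# Project CMF, module PAR: the exact parallelogram law
-/

set_option autoImplicit false

open Polynomial

namespace Pool.Agent.Helper44.CMF

open Pool.Agent.Helper44.RED

theorem pPar : StPD1 → StPD2 → StPD3 → StPD4 → StAds → StPar := by
  intro h1 h2 h3 h4 hads k _ _ _ hk2 l m hm0 hm1 P Q
  obtain ⟨c, hc, hcs⟩ := hads k hk2 l m hm0 hm1 P Q
  have e1 : PD (sgm (RatFunc.C m) (sm2 (xx l m P) (xx l m Q))) (2 * (ht l m P + ht l m Q)) :=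
    h4 k hk2 m hm0 hm1 _ _ (h3 k _ _ _ _ (h2 k l m P) (h2 k l m Q))
  have e2 : PD (fun i => c * sm2 (xx l m (P + Q)) (xx l m (P - Q)) i)
      (ht l m (P + Q) + ht l m (P - Q)) :=
    (h1 k 3 _ _ (h3 k _ _ _ _ (h2 k l m (P + Q)) (h2 k l m (P - Q)))).2 c hc
  have e3 : (fun i => c * sm2 (xx l m (P + Q)) (xx l m (P - Q)) i) =
      sgm (RatFunc.C m) (sm2 (xx l m P) (xx l m Q)) := by
    funext i; exact (hcs i).symm
  rw [e3] at e2
  have := (h1 k 3 _ _ e2).1 _ e1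
  omega

end Pool.Agent.Helper44.CMF
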