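import Pool.Agent.Helper44.CMF.St

/-!
# Module PRD of project CMF (helper17)
-/

set_option autoImplicit false

open Polynomial

namespace Pool.Agent.Helper44.CMF

open Pool.Agent.Helper44.RED

private theorem sub_ne_Prd {K : Type} [Field K] {e : Fin 3 → K} (he : Function.Injective e)
    {i j : Fin 3} (h : i ≠ j) : e i - e j ≠ 0 := sub_ne_zero.2 fun h' => h (he h')

theorem pPrd : StPrd := by
  intro K _ _ e he P
  cases P with
  | zero =>
    refine ⟨fun i => ?_, ?_⟩
    · simp [dl]
    · simp [dl]
  | some x y h =>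
    have heq : y ^ 2 = (x - e 0) * (x - e 1) * (x - e 2) := (W_equation e x y).1 h.1
    refine ⟨fun i => ?_, ?_⟩
    · simp only [dl]
      split
      · refine mul_ne_zero (sub_ne_Prd he ?_) (sub_ne_Prd he ?_)
        · fin_cases i <;> decide
        · fin_cases i <;> decide
      · rename_i hx
        exact sub_ne_zero.2 hx
    · rw [Fin.prod_univ_three]
      simp only [dl]
      have a1 : (0 : Fin 3) + 1 = 1 := rfl
      have a2 : (0 : Fin 3) + 2 = 2 := rfl
      have a3 : (1 : Fin 3) + 1 = 2 := rfl
      have a4 : (1 : Fin 3) + 2 = 0 := rfl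
      have a5 : (2 : Fin 3) + 1 = 0 := rfl
      have a6 : (2 : Fin 3) + 2 = 1 := rfl
      rw [a1, a2, a3, a4, a5, a6]
      have n01 : e 0 ≠ e 1 := fun h => absurd (he h) (by decide)
      have n02 : e 0 ≠ e 2 := fun h => absurd (he h) (by decide)
      have n12 : e 1 ≠ e 2 := fun h => absurd (he h) (by decide)
      by_cases h0 : x = e 0
      · subst h0
        rw [if_pos rfl, if_neg n01, if_neg n02]
        exact ⟨(e 0 - e 1) * (e 0 - e 2), by ring⟩
      · by_cases h1 : x = e 1
        · subst h1
          rw [if_neg h0, if_pos rfl, if_neg n12]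
          exact ⟨(e 1 - e 0) * (e 1 - e 2), by ring⟩
        · by_cases h2 : x = e 2
          · subst h2
            rw [if_neg h0, if_neg h1, if_pos rfl]
            exact ⟨(e 2 - e 0) * (e 2 - e 1), by ring⟩
          · rw [if_neg h0, if_neg h1, if_neg h2]
            exact ⟨y, by rw [← heq]; ring⟩

end Pool.Agent.Helper44.CMF
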