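import Pool.Agent.Helper44.CMF.St

/-! # Project CMF, module Rdeg -/

set_option autoImplicit false

open Polynomial

namespace Pool.Agent.Helper44.CMF

open Pool.Agent.Helper44.RED

theorem pRdeg : StRdeg := by
  intro k _ u
  unfold rdeg
  constructor
  · intro h
    have h1 : u.num.natDegree = 0 := by
      have := le_max_left u.num.natDegree u.denom.natDegree
      omega
    have h2 : u.denom.natDegree = 0 := by
      have := le_max_right u.num.natDegree u.denom.natDegree
      omega
    have h3 : u.denom = 1 := by
      have hm := RatFunc.monic_denom u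
      exact hm.natDegree_eq_zero.mp h2
    refine ⟨u.num.coeff 0, ?_⟩
    have h4 : u = algebraMap k[X] (RatFunc k) u.num / algebraMap k[X] (RatFunc k) u.denom :=
      (RatFunc.num_div_denom u).symm
    have h5 : u.num = C (u.num.coeff 0) := Polynomial.eq_C_of_natDegree_eq_zero h1
    rw [h3, map_one, div_one] at h4
    calc u = algebraMap k[X] (RatFunc k) u.num := h4
      _ = algebraMap k[X] (RatFunc k) (C (u.num.coeff 0)) := by rw [← h5]
      _ = RatFunc.C (u.num.coeff 0) := RatFunc.algebraMap_C _
  · rintro ⟨c, rfl⟩
    rw [RatFunc.num_C, RatFunc.denom_C]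
    simp

end Pool.Agent.Helper44.CMF
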