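import Pool.Agent.Helper44.CMF.St

set_option autoImplicit false

namespace Pool.Agent.Helper44.CMF

open Pool.Agent.Helper44.RED

private theorem qf_one_Sca {F : Type} [Field F] {N : ℕ} (c : Fin N → F) (y : Fin (N + 1) → F) :
    qf (one c) y = y 0 ^ 2 + ∑ l, c l * y l.succ ^ 2 := by
  unfold qf one
  rw [Fin.sum_univ_succ]
  simp

private theorem qf_succ_Sca {F : Type} [Field F] {N : ℕ} (e : Fin (N + 1) → F) (x : Fin (N + 1) → F) :
    qf e x = e 0 * x 0 ^ 2 + ∑ l : Fin N, e l.succ * x l.succ ^ 2 := by
  unfold qf
  rw [Fin.sum_univ_succ]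

theorem pSca : StSca := by
  intro F _ N e he
  constructor
  · intro h y hy
    rw [qf_one_Sca] at hy
    have h1 : qf e (Fin.cons (y 0 / e 0) (fun l : Fin N => y l.succ)) = 0 := by
      rw [qf_succ_Sca]
      simp only [Fin.cons_zero, Fin.cons_succ]
      have h2 : e 0 * (e 0 * (y 0 / e 0) ^ 2 + ∑ l : Fin N, e l.succ * y l.succ ^ 2) = 0 := by
        rw [mul_add, Finset.mul_sum, ← hy]
        congr 1
        · have := he 0
          field_simp
        · exact Finset.sum_congr rfl fun l _ => by ring
      exact (mul_eq_zero.1 h2).resolve_left (he 0)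
    have h3 := h _ h1
    funext i
    refine Fin.cases ?_ (fun l => ?_) i
    · have := congrFun h3 0
      simp only [Fin.cons_zero, Pi.zero_apply] at this
      simpa [he 0] using this
    · have := congrFun h3 l.succ
      simpa using this
  · intro h x hx
    rw [qf_succ_Sca] at hx
    have h1 : qf (one (fun l : Fin N => e 0 * e l.succ))
        (Fin.cons (e 0 * x 0) (fun l : Fin N => x l.succ)) = 0 := by
      rw [qf_one_Sca]
      simp only [Fin.cons_zero, Fin.cons_succ]
      have h2 : (e 0 * x 0) ^ 2 + ∑ l : Fin N, e 0 * e l.succ * x l.succ ^ 2 =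
          e 0 * (e 0 * x 0 ^ 2 + ∑ l : Fin N, e l.succ * x l.succ ^ 2) := by
        rw [mul_add, Finset.mul_sum]
        congr 1
        · ring
        · exact Finset.sum_congr rfl fun l _ => by ring
      rw [h2, hx, mul_zero]
    have h3 := h _ h1
    funext i
    refine Fin.cases ?_ (fun l => ?_) i
    · have := congrFun h3 0
      simp only [Fin.cons_zero, Pi.zero_apply] at this
      simpa [he 0] using this
    · have := congrFun h3 l.succ
      simpa using this

end Pool.Agent.Helper44.CMF
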