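import Pool.Agent.Helper44.CMF.St

/-!
# Project CMF: module SigB (explicit translations, large characteristic)
-/

set_option autoImplicit false

namespace Pool.Agent.Helper44.CMF

open Pool.Agent.Helper44.RED

section

variable {k : Type} [Field k] {t s : ℕ}

private lemma lin_mulVec_SigB (A : Matrix (Fin t) (Fin t) k) (u : Fin t → k) :
    lin A u = A.mulVec u := by
  funext j; simp [lin, Matrix.mulVec, dotProduct]

private lemma bs_map_SigB {F F' : Type} [CommRing F] [Algebra k F] [CommRing F'] [Algebra k F']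
    (f : F →ₐ[k] F') (b : Fin s → MvPolynomial (Fin t) k) (A : Matrix (Fin t) (Fin t) k)
    (τ : Fin t → F) (l : Fin s) : f (bs b A τ l) = bs b A (fun j => f (τ j)) l := by
  unfold bs
  have h1 : (fun j => f (lin A τ j)) = lin A (fun j => f (τ j)) := by
    funext j
    simp only [lin, map_sum, map_mul, AlgHom.commutes]
  have h2 := MvPolynomial.comp_aeval_apply (lin A τ) f (b l)
  rw [h2]
  congr 1
  rw [← h1]

private lemma prod_bs_SigB (b : Fin s → MvPolynomial (Fin t) k) (A : Matrix (Fin t) (Fin t) k)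
    (τ : Fin t → k) : ∏ l, bs b A τ l = MvPolynomial.aeval (lin A τ) (∏ l, b l) := by
  rw [map_prod]; rfl

/-- the polynomial `∑ z_j X^{j+1}` -/
private noncomputable def fz_SigB (z : Fin t → k) : Polynomial k :=
  ∑ j : Fin t, Polynomial.C (z j) * Polynomial.X ^ (j.1 + 1)

private lemma coeff0_SigB (z : Fin t → k) : (fz_SigB z).coeff 0 = 0 := by
  unfold fz_SigB
  rw [Polynomial.finsetSum_coeff]
  refine Finset.sum_eq_zero fun j _ => ?_
  rw [Polynomial.coeff_C_mul, Polynomial.coeff_X_pow, if_neg (by omega), mul_zero]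

private lemma coeffS_SigB (z : Fin t → k) (n : ℕ) :
    (fz_SigB z).coeff (n + 1) = if h : n < t then z ⟨n, h⟩ else 0 := by
  unfold fz_SigB
  rw [Polynomial.finsetSum_coeff]
  split_ifs with h
  · rw [Finset.sum_eq_single (⟨n, h⟩ : Fin t)]
    · rw [Polynomial.coeff_C_mul, Polynomial.coeff_X_pow, if_pos rfl, mul_one]
    · intro j _ hj
      rw [Polynomial.coeff_C_mul, Polynomial.coeff_X_pow, if_neg, mul_zero]
      intro h1
      apply hj
      apply Fin.ext
      simp only
      omega
    · intro h1
      exact absurd (Finset.mem_univ _) h1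
  · refine Finset.sum_eq_zero fun j _ => ?_
    rw [Polynomial.coeff_C_mul, Polynomial.coeff_X_pow, if_neg, mul_zero]
    have := j.2
    omega

private lemma eval_SigB (z : Fin t → k) (x : k) :
    (fz_SigB z).eval x = ∑ j : Fin t, z j * x ^ (j.1 + 1) := by
  unfold fz_SigB
  rw [Polynomial.eval_finsetSum]
  simp

private lemma fz_ne_zero_SigB {z : Fin t → k} (hz : z ≠ 0) : fz_SigB z ≠ 0 := by
  intro h
  apply hz
  funext j
  have := coeffS_SigB z j.1
  rw [h, Polynomial.coeff_zero, dif_pos j.2] at this
  exact this.symm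

private lemma natDegree_fz_le_SigB (z : Fin t → k) : (fz_SigB z).natDegree ≤ t := by
  unfold fz_SigB
  refine Polynomial.natDegree_sum_le_of_forall_le _ _ fun j _ => ?_
  refine (Polynomial.natDegree_C_mul_X_pow_le _ _).trans ?_
  exact j.2

private lemma natDegree_fz_pos_SigB {z : Fin t → k} (hz : z ≠ 0) :
    1 ≤ (fz_SigB z).natDegree := by
  by_contra h
  have h0 : (fz_SigB z).natDegree = 0 := by omega
  apply fz_ne_zero_SigB hz
  rw [Polynomial.eq_C_of_natDegree_eq_zero h0, coeff0_SigB, Polynomial.C_0]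

private lemma fz_of_coeff_SigB (f : Polynomial k) (hf0 : f.coeff 0 = 0)
    (hft : f.natDegree ≤ t) : fz_SigB (fun j : Fin t => f.coeff (j.1 + 1)) = f := by
  ext n
  cases n with
  | zero => rw [coeff0_SigB, hf0]
  | succ n =>
    rw [coeffS_SigB]
    split_ifs with h
    · rfl
    · exact (Polynomial.coeff_eq_zero_of_natDegree_lt (by omega)).symm

private lemma sum_pow_inj_SigB {B : ℕ} {m m' : Fin t → ℕ} (hm : ∀ i, m i < B)
    (hm' : ∀ i, m' i < B) (h : ∑ i : Fin t, m i * B ^ i.1 = ∑ i : Fin t, m' i * B ^ i.1) :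
    m = m' := by
  have h1 : finFunctionFinEquiv (fun i : Fin t => (⟨m i, hm i⟩ : Fin B))
      = finFunctionFinEquiv (fun i : Fin t => (⟨m' i, hm' i⟩ : Fin B)) := by
    apply Fin.ext
    rw [finFunctionFinEquiv_apply, finFunctionFinEquiv_apply]
    exact h
  have h2 := finFunctionFinEquiv.injective h1
  funext i
  have := congrFun h2 i
  exact congrArg Fin.val this

private lemma aeval_expand_SigB {B d : ℕ} (P : MvPolynomial (Fin t) k) (hP0 : P ≠ 0)
    (hPh : P.IsHomogeneous d) (hdB : d < B) (f : Polynomial k) (hf : f ≠ 0)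
    (hfd : 1 ≤ f.natDegree) :
    MvPolynomial.aeval (fun i : Fin t => Polynomial.expand k (B ^ i.1) f) P ≠ 0 ∧
    (MvPolynomial.aeval (fun i : Fin t => Polynomial.expand k (B ^ i.1) f) P).natDegree
      ≤ f.natDegree * (d * B ^ t) := by
  classical
  have hB : 0 < B := by omega
  set v : Fin t → Polynomial k := fun i => Polynomial.expand k (B ^ i.1) f with hv
  have hv0 : ∀ i, v i ≠ 0 := fun i =>
    (Polynomial.expand_ne_zero (Nat.pow_pos hB)).2 hf
  have hvd : ∀ i, (v i).natDegree = f.natDegree * B ^ i.1 := fun i =>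
    Polynomial.natDegree_expand _ _
  set T : (Fin t →₀ ℕ) → Polynomial k := fun m =>
    Polynomial.C (MvPolynomial.coeff m P) * ∏ i, v i ^ m i with hT
  have hsum : MvPolynomial.aeval v P = ∑ m ∈ P.support, T m := by
    rw [MvPolynomial.aeval_def, MvPolynomial.eval₂_eq']
    rfl
  have hT0 : ∀ m ∈ P.support, T m ≠ 0 := by
    intro m hm
    have h1 : MvPolynomial.coeff m P ≠ 0 := MvPolynomial.mem_support_iff.1 hm
    refine mul_ne_zero (Polynomial.C_ne_zero.2 h1) (Finset.prod_ne_zero_iff.2 fun i _ => ?_)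
    exact pow_ne_zero _ (hv0 i)
  have hTd : ∀ m ∈ P.support, (T m).natDegree = f.natDegree * ∑ i, m i * B ^ i.1 := by
    intro m hm
    have h1 : MvPolynomial.coeff m P ≠ 0 := MvPolynomial.mem_support_iff.1 hm
    rw [hT]
    simp only
    rw [Polynomial.natDegree_C_mul h1, Polynomial.natDegree_prod _ _
      (fun i _ => pow_ne_zero _ (hv0 i)), Finset.mul_sum]
    refine Finset.sum_congr rfl fun i _ => ?_
    rw [Polynomial.natDegree_pow, hvd]
    ring
  have hdeg : ∀ m ∈ P.support, ∑ i, m i = d := by
    intro m hm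
    have h1 := hPh (MvPolynomial.mem_support_iff.1 hm)
    rw [← h1, Finsupp.weight_apply, Finsupp.sum_fintype _ _ (by simp)]
    simp
  have hlt : ∀ m ∈ P.support, ∀ i, m i < B := by
    intro m hm i
    have h1 := hdeg m hm
    have h2 : m i ≤ ∑ i, m i := Finset.single_le_sum (fun i _ => Nat.zero_le _)
      (Finset.mem_univ i)
    omega
  rw [hsum]
  constructor
  · have hdis : Set.Pairwise {m | m ∈ P.support ∧ T m ≠ 0}
        (Function.onFun Ne (Polynomial.degree ∘ T)) := by
      intro m hm m' hm' hne h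
      apply hne
      have h1 : (T m).natDegree = (T m').natDegree := by
        have h' : (T m).degree = (T m').degree := h
        exact Polynomial.natDegree_eq_of_degree_eq h'
      rw [hTd m hm.1, hTd m' hm'.1] at h1
      have h2 := Nat.eq_of_mul_eq_mul_left (by omega) h1
      have h3 := sum_pow_inj_SigB (hlt m hm.1) (hlt m' hm'.1) h2
      exact Finsupp.ext fun i => congrFun h3 i
    have hd := Polynomial.degree_sum_eq_of_disjoint T P.support hdis
    obtain ⟨m₀, hm₀⟩ := MvPolynomial.support_nonempty.2 hP0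
    intro h0
    rw [h0, Polynomial.degree_zero] at hd
    have h1 : (T m₀).degree ≤ P.support.sup fun i => (T i).degree :=
      Finset.le_sup (f := fun i => (T i).degree) hm₀
    rw [← hd, le_bot_iff, Polynomial.degree_eq_bot] at h1
    exact hT0 m₀ hm₀ h1
  · refine Polynomial.natDegree_sum_le_of_forall_le _ _ fun m hm => ?_
    rw [hTd m hm]
    refine Nat.mul_le_mul_left _ ?_
    rw [← hdeg m hm, Finset.sum_mul]
    refine Finset.sum_le_sum fun i _ => ?_
    exact Nat.mul_le_mul_left _ (Nat.pow_le_pow_right hB i.2.le)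

private lemma sgx_mulVec_SigB (B M : ℕ) (q : Fin M) (z : Fin t → k) (i : Fin t) :
    (sgx k t B M q).mulVec z i =
      (fz_SigB z).eval (((M + 2 + q.1 : ℕ) : k) ^ (B ^ i.1)) := by
  rw [eval_SigB]
  simp only [Matrix.mulVec, dotProduct, sgx, Matrix.of_apply]
  refine Finset.sum_congr rfl fun j _ => ?_
  rw [mul_comm, Nat.cast_pow, pow_mul]

/-- the nodes are different -/
private lemma node_ne_SigB {B M q r i i' : ℕ} (hB : 2 ≤ B) (hq : q < M) (hr : r < M)
    (h : (M + 2 + q) ^ (B ^ i) = (M + 2 + r) ^ (B ^ i')) : i = i' ∧ q = r := by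
  have hB0 : ∀ j, B ^ j ≠ 0 := fun j => (Nat.pow_pos (by omega)).ne'
  -- an auxiliary statement for `a < b`
  have aux : ∀ q r a b : ℕ, q < M → r < M → a < b →
      (M + 2 + q) ^ (B ^ a) = (M + 2 + r) ^ (B ^ b) → False := by
    intro q r a b hq hr hab h
    have h1 : B ^ b = B ^ (b - a) * B ^ a := by
      rw [← pow_add]
      congr 1
      omega
    rw [h1, pow_mul] at h
    have h2 := Nat.pow_left_injective (hB0 a) h
    have h3 : 2 ≤ B ^ (b - a) := by
      calc 2 ≤ B := hB
        _ = B ^ 1 := (pow_one B).symm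
        _ ≤ B ^ (b - a) := Nat.pow_le_pow_right (by omega) (by omega)
    have h4 : (M + 2 + r) ^ 2 ≤ (M + 2 + r) ^ B ^ (b - a) :=
      Nat.pow_le_pow_right (by omega) h3
    have h5 : (M + 2) ^ 2 ≤ (M + 2 + r) ^ 2 := Nat.pow_le_pow_left (by omega) 2
    have h6 : (M + 2) ^ 2 ≤ M + 2 + q := by
      calc (M + 2) ^ 2 ≤ (M + 2 + r) ^ 2 := h5
        _ ≤ _ := h4
        _ = M + 2 + q := h2.symm
    nlinarith
  rcases lt_trichotomy i i' with hii | hii | hii
  · exact (aux q r i i' hq hr hii h).elim
  · subst hii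
    refine ⟨rfl, ?_⟩
    have := Nat.pow_left_injective (hB0 i) h
    omega
  · exact (aux r q i' i hr hq hii h.symm).elim

private lemma cast_inj_SigB {P a b : ℕ} (hBig : Big k P) (ha : a < P) (hb : b < P)
    (h : (a : k) = (b : k)) : a = b := by
  by_contra hne
  rcases Nat.lt_or_gt_of_ne hne with hlt | hlt
  · have h1 := hBig (b - a) (by omega) (by omega)
    rw [Nat.cast_sub hlt.le, h, sub_self] at h1
    exact h1 rfl
  · have h1 := hBig (a - b) (by omega) (by omega)
    rw [Nat.cast_sub hlt.le, h, sub_self] at h1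
    exact h1 rfl

/-- a nonzero form of small degree has a nonzero value -/
private lemma exists_eval_ne_SigB {P B d m : ℕ} (hBig : Big k P) (hBP : B ≤ P)
    {C : MvPolynomial (Fin m) k} (hC : C ≠ 0) (hCh : C.IsHomogeneous d) (hdB : d < B) :
    ∃ a : Fin m → k, MvPolynomial.eval a C ≠ 0 := by
  classical
  by_contra h
  push Not at h
  apply hC
  refine MvPolynomial.eq_zero_of_eval_zero_at_prod_finset C
    (fun _ => (Finset.range B).image (fun a : ℕ => (a : k))) (fun i => ?_) (fun x _ => h x)
  rw [Finset.card_image_of_injOn, Finset.card_range]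
  · exact lt_of_le_of_lt ((MvPolynomial.degreeOf_le_totalDegree C i).trans
      hCh.totalDegree_le) hdB
  · intro a ha b hb hab
    simp only [Finset.coe_range, Set.mem_Iio] at ha hb
    exact cast_inj_SigB hBig (lt_of_lt_of_le ha hBP) (lt_of_lt_of_le hb hBP) hab

end

theorem pSigB : StSigB := by
  intro t' e B M
  refine ⟨(2 * M + 3) ^ (B ^ (t' + 1 + e)) + 2 * M + B + 3, ?_⟩
  intro k _ hBig c C D he hC0 hCh hB hM
  have hB2 : 2 ≤ B := by omega
  have hB0 : 0 < B := by omega
  -- the images of small natural numbers are different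
  have hinj : ∀ a b : ℕ, a < (2 * M + 3) ^ (B ^ (t' + 1 + e)) + 2 * M + B + 3 →
      b < (2 * M + 3) ^ (B ^ (t' + 1 + e)) + 2 * M + B + 3 → (a : k) = (b : k) → a = b :=
    fun a b ha hb h => cast_inj_SigB hBig ha hb h
  have hsm : ∀ (q : Fin M) (i : Fin (t' + 1 + e)), (M + 2 + q.1) ^ (B ^ i.1) <
      (2 * M + 3) ^ (B ^ (t' + 1 + e)) + 2 * M + B + 3 := by
    intro q i
    have h1 : (M + 2 + q.1) ^ (B ^ i.1) ≤ (2 * M + 3) ^ (B ^ i.1) :=
      Nat.pow_le_pow_left (by have := q.2; omega) _
    have h2 : (2 * M + 3) ^ (B ^ i.1) ≤ (2 * M + 3) ^ (B ^ (t' + 1 + e)) :=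
      Nat.pow_le_pow_right (by omega) (Nat.pow_le_pow_right hB0 i.2.le)
    omega
  have hqs : ∀ q : Fin M, M + 2 + q.1 < (2 * M + 3) ^ (B ^ (t' + 1 + e)) + 2 * M + B + 3 := by
    intro q
    have := q.2
    omega
  -- nodes
  set x : Fin M → Fin (t' + 1 + e) → k := fun q i => ((M + 2 + q.1 : ℕ) : k) ^ (B ^ i.1) with hx
  have hxne : ∀ q r : Fin M, ∀ i i' : Fin (t' + 1 + e), x q i = x r i' → i = i' ∧ q = r := by
    intro q r i i' h
    have h1 : ((M + 2 + q.1) ^ (B ^ i.1) : ℕ) = (M + 2 + r.1) ^ (B ^ i'.1) := by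
      have : (((M + 2 + q.1) ^ (B ^ i.1) : ℕ) : k) = (((M + 2 + r.1) ^ (B ^ i'.1) : ℕ) : k) := by
        rw [Nat.cast_pow, Nat.cast_pow]
        exact h
      exact hinj _ _ (hsm q i) (hsm r i') this
    obtain ⟨h2, h3⟩ := node_ne_SigB hB2 q.2 r.2 h1
    exact ⟨Fin.ext h2, Fin.ext h3⟩
  have hx0 : ∀ q i, x q i ≠ 0 := by
    intro q i
    apply pow_ne_zero
    exact hBig _ (by omega) (hqs q)
  -- determinant
  have hdet : ∀ q, (sgx k (t' + 1 + e) B M q).det ≠ 0 := by
    intro q
    have h1 : sgx k (t' + 1 + e) B M q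
        = Matrix.diagonal (x q) * Matrix.vandermonde (x q) := by
      ext i j
      rw [Matrix.diagonal_mul, Matrix.vandermonde_apply]
      simp only [sgx, Matrix.of_apply, hx]
      rw [Nat.cast_pow, pow_mul, pow_succ, mul_comm]
    rw [h1, Matrix.det_mul, Matrix.det_diagonal]
    refine mul_ne_zero (Finset.prod_ne_zero_iff.2 fun i _ => hx0 q i) ?_
    exact Matrix.det_vandermonde_ne_zero_iff.2 fun i i' h => (hxne q q i i' h).1
  refine ⟨hdet, ?_, ?_⟩
  · -- general position
    intro q r hqr
    -- the key statement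
    have key : ∀ (l : Fin (c + e)) (g : Polynomial k), g.natDegree ≤ t' →
        MvPolynomial.aeval (fun i => (Polynomial.X * (∏ i' : Fin e,
          (Polynomial.X - Polynomial.C (x r (Fin.natAdd (t' + 1) i')))) * g).eval (x q i))
          (bfam e C l) ≠ (0 : k) →
        bs (bfam e C) (sgx k (t' + 1 + e) B M q * (sgx k (t' + 1 + e) B M r)⁻¹)
          (Fin.append (fun a : Fin (t' + 1) => (MvPolynomial.X a : MvPolynomial (Fin (t' + 1)) k))
            (fun _ : Fin e => 0)) l ≠ 0 := by
      intro l g hg hne h0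
      apply hne
      set f : Polynomial k := Polynomial.X * (∏ i' : Fin e,
          (Polynomial.X - Polynomial.C (x r (Fin.natAdd (t' + 1) i')))) * g with hf
      have hf0 : f.coeff 0 = 0 := by
        rw [hf, mul_assoc, Polynomial.coeff_X_mul_zero]
      have hfd : f.natDegree ≤ t' + 1 + e := by
        have h1 : (∏ i' : Fin e, (Polynomial.X - Polynomial.C
            (x r (Fin.natAdd (t' + 1) i')))).natDegree ≤ e := by
          refine (Polynomial.natDegree_prod_le _ _).trans ?_
          simp only [Polynomial.natDegree_X_sub_C]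
          simp
        have h2 : f.natDegree ≤ (Polynomial.X * (∏ i' : Fin e,
          (Polynomial.X - Polynomial.C (x r (Fin.natAdd (t' + 1) i'))))).natDegree
            + g.natDegree := Polynomial.natDegree_mul_le
        have h3 := Polynomial.natDegree_mul_le (p := (Polynomial.X : Polynomial k))
          (q := ∏ i' : Fin e, (Polynomial.X - Polynomial.C (x r (Fin.natAdd (t' + 1) i'))))
        have h4 : (Polynomial.X : Polynomial k).natDegree = 1 := Polynomial.natDegree_X
        omega
      set z : Fin (t' + 1 + e) → k := fun j => f.coeff (j.1 + 1) with hz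
      have hfz : fz_SigB z = f := fz_of_coeff_SigB f hf0 hfd
      set τ : Fin (t' + 1) → k := fun a => f.eval (x r (Fin.castAdd e a)) with hτ
      have h1 : (sgx k (t' + 1 + e) B M r).mulVec z = Fin.append τ (fun _ : Fin e => 0) := by
        funext i
        rw [sgx_mulVec_SigB, hfz]
        refine Fin.addCases (fun a => ?_) (fun a => ?_) i
        · rw [Fin.append_left]
        · rw [Fin.append_right, hf, Polynomial.eval_mul, Polynomial.eval_mul,
            Polynomial.eval_prod]
          have : ∏ j : Fin e, Polynomial.eval (((M + 2 + r.1 : ℕ) : k) ^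
              B ^ (Fin.natAdd (t' + 1) a).1) (Polynomial.X - Polynomial.C
              (x r (Fin.natAdd (t' + 1) j))) = 0 := by
            refine Finset.prod_eq_zero (Finset.mem_univ a) ?_
            simp [hx]
          rw [this, mul_zero, zero_mul]
      have h2 : lin (sgx k (t' + 1 + e) B M q * (sgx k (t' + 1 + e) B M r)⁻¹)
          (Fin.append τ (fun _ : Fin e => 0)) = fun i => f.eval (x q i) := by
        rw [lin_mulVec_SigB, ← h1, Matrix.mulVec_mulVec, Matrix.mul_assoc,
          Matrix.nonsing_inv_mul _ (isUnit_iff_ne_zero.2 (hdet r)), Matrix.mul_one]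
        funext i
        rw [sgx_mulVec_SigB, hfz]
      have h3 := bs_map_SigB (MvPolynomial.aeval τ : MvPolynomial (Fin (t' + 1)) k →ₐ[k] k)
        (bfam e C) (sgx k (t' + 1 + e) B M q * (sgx k (t' + 1 + e) B M r)⁻¹)
        (Fin.append (fun a : Fin (t' + 1) => (MvPolynomial.X a : MvPolynomial (Fin (t' + 1)) k))
            (fun _ : Fin e => 0)) l
      rw [h0, map_zero] at h3
      have h4 : (fun j => (MvPolynomial.aeval τ : MvPolynomial (Fin (t' + 1)) k →ₐ[k] k)
          (Fin.append (fun a : Fin (t' + 1) =>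
            (MvPolynomial.X a : MvPolynomial (Fin (t' + 1)) k)) (fun _ : Fin e => 0) j))
          = Fin.append τ (fun _ : Fin e => 0) := by
        funext j
        refine Fin.addCases (fun a => ?_) (fun a => ?_) j
        · simp
        · simp
      rw [h4] at h3
      unfold bs at h3
      rw [h2] at h3
      exact h3.symm
    set hh : Fin (t' + 1 + e) → k := fun i => (Polynomial.X * (∏ i' : Fin e,
          (Polynomial.X - Polynomial.C (x r (Fin.natAdd (t' + 1) i'))))).eval (x q i) with hhh
    have hh0 : ∀ i, hh i ≠ 0 := by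
      intro i
      rw [hhh]
      simp only
      rw [Polynomial.eval_mul, Polynomial.eval_prod, Polynomial.eval_X]
      refine mul_ne_zero (hx0 q i) (Finset.prod_ne_zero_iff.2 fun i' _ => ?_)
      rw [Polynomial.eval_sub, Polynomial.eval_X, Polynomial.eval_C, sub_ne_zero]
      intro h
      exact hqr (hxne q r _ _ h).2
    intro l
    refine Fin.addCases (fun j => ?_) (fun j => ?_) l
    · -- `C_j`
      obtain ⟨a, ha⟩ : ∃ a : Fin (t' + 1) → k, MvPolynomial.eval a (C j) ≠ 0 := by
        refine exists_eval_ne_SigB (B := B) hBig (by omega) (hC0 j) (hCh j) ?_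
        have h1 : 2 * D j ≤ ∑ l, 2 * D l := Finset.single_le_sum
          (f := fun l => 2 * D l) (fun _ _ => Nat.zero_le _) (Finset.mem_univ j)
        omega
      set y : Fin (t' + 1) → k := fun a => x q (Fin.castAdd e a) with hy
      have hyi : Function.Injective y := by
        intro a a' h
        have := (hxne q q _ _ h).1
        exact Fin.castAdd_injective _ _ this
      set g : Polynomial k := Lagrange.interpolate Finset.univ y
        (fun i => a i / hh (Fin.castAdd e i)) with hg
      have hgd : g.natDegree ≤ t' := by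
        have h1 := Lagrange.degree_interpolate_lt (fun i => a i / hh (Fin.castAdd e i))
          (hyi.injOn (s := (Finset.univ : Finset (Fin (t' + 1)))))
        rw [Finset.card_univ, Fintype.card_fin] at h1
        have h2 : g.natDegree < t' + 1 := by
          by_cases hg0 : g = 0
          · rw [hg0, Polynomial.natDegree_zero]
            omega
          · exact (Polynomial.natDegree_lt_iff_degree_lt hg0).2 h1
        omega
      have hge : ∀ i, g.eval (y i) = a i / hh (Fin.castAdd e i) := fun i =>
        Lagrange.eval_interpolate_at_node _ hyi.injOn (Finset.mem_univ i)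
      refine key _ g hgd ?_
      have h1 : bfam e C (Fin.castAdd e j) = MvPolynomial.rename (Fin.castAdd e) (C j) := by
        unfold bfam
        rw [Fin.append_left]
      rw [h1, MvPolynomial.aeval_rename]
      have h2 : (fun i => (Polynomial.X * (∏ i' : Fin e,
          (Polynomial.X - Polynomial.C (x r (Fin.natAdd (t' + 1) i')))) * g).eval (x q i))
            ∘ Fin.castAdd e = a := by
        funext i
        rw [Function.comp_apply, Polynomial.eval_mul]
        have h3 := hge i
        have h4 := hh0 (Fin.castAdd e i)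
        change hh (Fin.castAdd e i) * g.eval (y i) = a i
        rw [h3]
        field_simp
      rw [h2]
      exact ha
    · -- `τ₀ s_j`
      refine key _ 1 (by simp) ?_
      have h1 : bfam e C (Fin.natAdd c j) = MvPolynomial.X (Fin.castAdd e 0) *
          MvPolynomial.X (Fin.natAdd (t' + 1) j) := by
        unfold bfam
        rw [Fin.append_right]
      rw [h1, map_mul, MvPolynomial.aeval_X, MvPolynomial.aeval_X, mul_one]
      exact mul_ne_zero (hh0 _) (hh0 _)
  · -- no common zero
    intro z hz
    by_contra hz0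
    set P : MvPolynomial (Fin (t' + 1 + e)) k := ∏ l, bfam e C l with hP
    have hb1 : ∀ j, bfam e C (Fin.castAdd e j) = MvPolynomial.rename (Fin.castAdd e) (C j) := by
      intro j
      unfold bfam
      rw [Fin.append_left]
    have hb2 : ∀ j : Fin e, bfam e C (Fin.natAdd c j) = MvPolynomial.X (Fin.castAdd e 0) *
          MvPolynomial.X (Fin.natAdd (t' + 1) j) := by
      intro j
      unfold bfam
      rw [Fin.append_right]
    have hPsplit : P = (∏ j : Fin c, MvPolynomial.rename (Fin.castAdd e) (C j)) *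
        ∏ j : Fin e, (MvPolynomial.X (Fin.castAdd e 0) *
          MvPolynomial.X (Fin.natAdd (t' + 1) j)) := by
      rw [hP, Fin.prod_univ_add]
      congr 1
      · exact Finset.prod_congr rfl fun j _ => hb1 j
      · exact Finset.prod_congr rfl fun j _ => hb2 j
    have hP0 : P ≠ 0 := by
      rw [hPsplit]
      refine mul_ne_zero (Finset.prod_ne_zero_iff.2 fun j _ => ?_)
        (Finset.prod_ne_zero_iff.2 fun j _ => ?_)
      · intro h
        apply hC0 j
        have h' : MvPolynomial.rename (Fin.castAdd e) (C j)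
            = MvPolynomial.rename (Fin.castAdd e) 0 := by rw [h, map_zero]
        exact MvPolynomial.rename_injective _ (Fin.castAdd_injective _ _) h'
      · exact mul_ne_zero (MvPolynomial.X_ne_zero _) (MvPolynomial.X_ne_zero _)
    have hPh : P.IsHomogeneous ((∑ l, 2 * D l) + 2 * e) := by
      rw [hPsplit]
      refine MvPolynomial.IsHomogeneous.mul ?_ ?_
      · exact MvPolynomial.IsHomogeneous.prod _ _ _ fun j _ => (hCh j).rename_isHomogeneous
      · have h1 : (2 * e : ℕ) = ∑ _j : Fin e, 2 := by simp [mul_comm]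
        rw [h1]
        refine MvPolynomial.IsHomogeneous.prod _ _ _ fun j _ => ?_
        exact (MvPolynomial.isHomogeneous_X k _).mul (MvPolynomial.isHomogeneous_X k _)
    obtain ⟨hQ0, hQd⟩ := aeval_expand_SigB P hP0 hPh hB (fz_SigB z) (fz_ne_zero_SigB hz0)
      (natDegree_fz_pos_SigB hz0)
    apply hQ0
    refine Polynomial.eq_zero_of_natDegree_lt_card_of_eval_eq_zero _
      (f := fun q : Fin M => ((M + 2 + q.1 : ℕ) : k)) ?_ ?_ ?_
    · intro q r h
      have h1 : M + 2 + q.1 = M + 2 + r.1 := hinj _ _ (hqs q) (hqs r) h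
      exact Fin.ext (by omega)
    · intro q
      have h1 := MvPolynomial.comp_aeval_apply
        (fun i : Fin (t' + 1 + e) => Polynomial.expand k (B ^ i.1) (fz_SigB z))
        (Polynomial.aeval ((M + 2 + q.1 : ℕ) : k) : Polynomial k →ₐ[k] k) P
      have h2 : (fun i : Fin (t' + 1 + e) => (Polynomial.aeval ((M + 2 + q.1 : ℕ) : k))
          (Polynomial.expand k (B ^ i.1) (fz_SigB z)))
          = lin (sgx k (t' + 1 + e) B M q) z := by
        rw [lin_mulVec_SigB]
        funext i
        rw [sgx_mulVec_SigB, Polynomial.coe_aeval_eq_eval, Polynomial.expand_eval]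
      rw [h2] at h1
      rw [← Polynomial.coe_aeval_eq_eval]
      refine h1.trans ?_
      rw [hP, ← prod_bs_SigB]
      exact hz q
    · rw [Fintype.card_fin]
      refine lt_of_le_of_lt hQd (lt_of_le_of_lt ?_ hM)
      calc (fz_SigB z).natDegree * (((∑ l, 2 * D l) + 2 * e) * B ^ (t' + 1 + e))
          ≤ (t' + 1 + e) * (((∑ l, 2 * D l) + 2 * e) * B ^ (t' + 1 + e)) :=
            Nat.mul_le_mul_right _ (natDegree_fz_le_SigB z)
        _ = ((∑ l, 2 * D l) + 2 * e) * (t' + 1 + e) * B ^ (t' + 1 + e) := by ring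

end Pool.Agent.Helper44.CMF
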