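import Pool.Agent.Helper44.CMF.St

/-! Module SOL of project CMF: points and solutions. -/

set_option autoImplicit false

open Polynomial

namespace Pool.Agent.Helper44.CMF

open Pool.Agent.Helper44.RED

theorem pSol : StSol := by
  intro k _ _ h2 l m hm0 hm1 n hn
  have hf : ff l ≠ 0 := ff_ne l
  constructor
  · rintro ⟨P, hP⟩
    rcases P with _ | ⟨x, y, h⟩
    · exact absurd hP.symm hn
    · have he := (W_nonsingular (two_ne_rat h2) _ (ee_inj (l := l) hm0 hm1) x y).1 h
      rw [ee0, ee1, ee2, sub_zero] at he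
      refine ⟨x / ff l, y / ff l ^ 2, ?_, hP⟩
      field_simp
      linear_combination he
  · rintro ⟨u, w, he, hn'⟩
    refine ⟨mkP h2 hm0 hm1 (ff l * u) (ff l ^ 2 * w) ?_, ?_⟩
    · linear_combination ff l ^ 3 * he
    · unfold mkP
      show rdeg (ff l * u / ff l) = n
      rw [mul_div_cancel_left₀ u hf]
      exact hn'

end Pool.Agent.Helper44.CMF
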