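import Pool.Agent.Helper44.CMF.St

/-! # Project CMF, module Sq -/

set_option autoImplicit false

open Polynomial

namespace Pool.Agent.Helper44.CMF

open Pool.Agent.Helper44.RED

private theorem dm_split_Sq {k : Type} [Field k] (l : k) (m : Fin 3 → Bool) (j : Fin 3) :
    dm l m = (if m j then tm (rt l j) else 1) *
      ∏ i ∈ Finset.univ.erase j, (if m i then tm (rt l i) else 1) := by
  unfold dm
  rw [Finset.mul_prod_erase Finset.univ (fun i => if m i then tm (rt l i) else 1)
    (Finset.mem_univ j)]

private theorem flip_Sq {k : Type} [Field k] (l : k) (m : Fin 3 → Bool) (j : Fin 3) (g : RatFunc k)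
    (h : IsSquare (g * dm l m)) :
    IsSquare (tm (rt l j) * g * dm l (Function.update m j (!(m j)))) := by
  have h1 : ∏ i ∈ Finset.univ.erase j,
      (if (Function.update m j (!(m j))) i then tm (rt l i) else 1) =
      ∏ i ∈ Finset.univ.erase j, (if m i then tm (rt l i) else 1) := by
    refine Finset.prod_congr rfl fun i hi => ?_
    rw [Function.update_of_ne (Finset.ne_of_mem_erase hi)]
  rw [dm_split_Sq l _ j, h1, Function.update_self]
  rw [dm_split_Sq l m j] at h
  obtain ⟨r, hr⟩ := h
  cases hm : m j
  · rw [hm] at hr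
    refine ⟨tm (rt l j) * r, ?_⟩
    simp only [Bool.false_eq_true, if_false, one_mul] at hr
    simp only [Bool.not_false, if_true]
    linear_combination (tm (rt l j)) ^ 2 * hr
  · rw [hm] at hr
    refine ⟨r, ?_⟩
    simp only [if_true] at hr
    simp only [Bool.not_true, Bool.false_eq_true, if_false, one_mul]
    linear_combination hr

private theorem map_Sq {k : Type} [Field k] (c : k) :
    algebraMap k[X] (RatFunc k) (X - C c) = tm c := by
  rw [map_sub, RatFunc.algebraMap_X, RatFunc.algebraMap_C]; rfl

theorem pSq : StSq := by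
  intro k _ _ l G hG h
  obtain ⟨n, hn⟩ : ∃ n, G.natDegree = n := ⟨_, rfl⟩
  induction n using Nat.strong_induction_on generalizing G with
  | _ n ih =>
    rcases Nat.eq_zero_or_pos n with h0 | h0
    · -- constant
      rw [h0] at hn
      rw [Polynomial.eq_C_of_natDegree_eq_zero hn]
      obtain ⟨b, hb⟩ := IsAlgClosed.exists_pow_nat_eq (G.coeff 0) (n := 2) (by norm_num)
      refine ⟨fun _ => false, RatFunc.C b, ?_⟩
      rw [dm_false, mul_one, RatFunc.algebraMap_C, ← map_mul, ← hb, sq]
    · have hdeg : G.degree ≠ 0 := by
        intro h1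
        rw [Polynomial.degree_eq_natDegree hG, hn] at h1
        have : n = 0 := by exact_mod_cast h1
        omega
      obtain ⟨c, hc⟩ := IsAlgClosed.exists_root G hdeg
      obtain ⟨G', rfl⟩ := Polynomial.dvd_iff_isRoot.2 hc
      have hXc : (X - C c : k[X]) ≠ 0 := Polynomial.X_sub_C_ne_zero c
      have hG' : G' ≠ 0 := right_ne_zero_of_mul hG
      have hn' : G'.natDegree + 1 = n := by
        rw [Polynomial.natDegree_mul hXc hG', Polynomial.natDegree_X_sub_C] at hn
        omega
      by_cases hcj : ∃ j, c = rt l j
      · obtain ⟨j, hj⟩ := hcj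
        have h' : ∀ c' : k, c' ≠ 0 → c' ≠ 1 → c' ≠ l → Even (G'.rootMultiplicity c') := by
          intro c' h1 h2 h3
          have h4 := h c' h1 h2 h3
          rw [Polynomial.rootMultiplicity_mul hG] at h4
          have h5 : rootMultiplicity c' (X - C c) = 0 := by
            apply Polynomial.rootMultiplicity_eq_zero
            simp only [Polynomial.IsRoot, Polynomial.eval_sub, Polynomial.eval_X,
              Polynomial.eval_C]
            rw [sub_eq_zero]
            rintro rfl
            fin_cases j
            · exact h1 hj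
            · exact h2 hj
            · exact h3 hj
          rwa [h5, zero_add] at h4
        obtain ⟨m, hm⟩ := ih G'.natDegree (by omega) G' hG' h' rfl
        refine ⟨Function.update m j (!(m j)), ?_⟩
        rw [map_mul, map_Sq, hj]
        exact flip_Sq l m j _ hm
      · have hc0 : c ≠ 0 := fun h1 => hcj ⟨0, by rw [h1]; rfl⟩
        have hc1 : c ≠ 1 := fun h1 => hcj ⟨1, by rw [h1]; rfl⟩
        have hcl : c ≠ l := fun h1 => hcj ⟨2, by rw [h1]; rfl⟩
        have h4 := h c hc0 hc1 hcl
        rw [Polynomial.rootMultiplicity_mul hG, Polynomial.rootMultiplicity_X_sub_C_self] at h4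
        have h5 : 0 < rootMultiplicity c G' := by
          rcases Nat.eq_zero_or_pos (rootMultiplicity c G') with h6 | h6
          · rw [h6] at h4
            exact absurd h4 (by decide)
          · exact h6
        have h6 : G'.IsRoot c := (Polynomial.rootMultiplicity_pos hG').1 h5
        obtain ⟨G2, rfl⟩ := Polynomial.dvd_iff_isRoot.2 h6
        have hG2 : G2 ≠ 0 := right_ne_zero_of_mul hG'
        have hn2 : G2.natDegree + 2 = n := by
          rw [Polynomial.natDegree_mul hXc hG2, Polynomial.natDegree_X_sub_C] at hn'
          omega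
        have h' : ∀ c' : k, c' ≠ 0 → c' ≠ 1 → c' ≠ l → Even (G2.rootMultiplicity c') := by
          intro c' h1 h2 h3
          have h7 := h c' h1 h2 h3
          rw [Polynomial.rootMultiplicity_mul hG, Polynomial.rootMultiplicity_mul hG'] at h7
          rw [← add_assoc, Nat.even_add] at h7
          exact h7.1 ⟨_, rfl⟩
        obtain ⟨m, hm⟩ := ih G2.natDegree (by omega) G2 hG2 h' rfl
        refine ⟨m, ?_⟩
        obtain ⟨r, hr⟩ := hm
        refine ⟨tm c * r, ?_⟩
        rw [map_mul, map_mul, map_Sq]
        linear_combination (tm c) ^ 2 * hr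

end Pool.Agent.Helper44.CMF
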