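import Pool.Agent.Helper44.CMF.St

/-! # Project CMF, module Sup -/

set_option autoImplicit false

open Polynomial

namespace Pool.Agent.Helper44.CMF

open Pool.Agent.Helper44.RED

/-- the polynomial `X (X - 1) (X - l)` -/
private noncomputable def Fp_Sup {k : Type} [Field k] (l : k) : k[X] := X * (X - 1) * (X - C l)

private theorem map_Fp_Sup {k : Type} [Field k] (l : k) :
    algebraMap k[X] (RatFunc k) (Fp_Sup l) = ff l := by
  rw [ff_eq]
  simp only [Fp_Sup, map_mul, map_sub, map_one, RatFunc.algebraMap_X, RatFunc.algebraMap_C]

private theorem Fp_ne_Sup {k : Type} [Field k] (l : k) : Fp_Sup l ≠ 0 := by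
  intro h
  apply ff_ne l
  rw [← map_Fp_Sup, h, map_zero]

private theorem Fp_eval_Sup {k : Type} [Field k] {l c : k} (h0 : c ≠ 0) (h1 : c ≠ 1) (h2 : c ≠ l) :
    (Fp_Sup l).eval c ≠ 0 := by
  simp only [Fp_Sup, eval_mul, eval_X, eval_sub, eval_one, eval_C]
  exact mul_ne_zero (mul_ne_zero h0 (sub_ne_zero.2 h1)) (sub_ne_zero.2 h2)

/-- constants are squares -/
private theorem const_Sup {k : Type} [Field k] [IsAlgClosed k] (c : k) :
    IsSquare (RatFunc.C c : RatFunc k) := by
  obtain ⟨b, hb⟩ := IsAlgClosed.exists_pow_nat_eq c (n := 2) (by norm_num)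
  exact ⟨RatFunc.C b, by rw [← hb, sq, map_mul]⟩

/-- a polynomial which is a square of a rational function has even root multiplicities -/
private theorem even_Sup {k : Type} [Field k] (H : k[X]) (hH : H ≠ 0) (z : RatFunc k)
    (h : z * z = algebraMap k[X] (RatFunc k) H) (c : k) : Even (H.rootMultiplicity c) := by
  have hz : z ≠ 0 := by
    rintro rfl
    rw [mul_zero] at h
    exact hH (RatFunc.algebraMap_injective k (by rw [← h, map_zero]))
  have hd : algebraMap k[X] (RatFunc k) z.denom ≠ 0 := by
    intro h0
    exact z.denom_ne_zero (RatFunc.algebraMap_injective k (by rw [h0, map_zero]))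
  have hn : z.num ≠ 0 := RatFunc.num_ne_zero hz
  have h1 : z.num * z.num = H * (z.denom * z.denom) := by
    apply RatFunc.algebraMap_injective k
    have h2 := RatFunc.num_div_denom z
    have h3 : algebraMap k[X] (RatFunc k) z.num = z * algebraMap k[X] (RatFunc k) z.denom :=
      (div_eq_iff hd).1 h2
    rw [map_mul, map_mul, map_mul, h3, ← h]
    ring
  have h2 := congrArg (Polynomial.rootMultiplicity c) h1
  rw [Polynomial.rootMultiplicity_mul (mul_ne_zero hn hn),
    Polynomial.rootMultiplicity_mul (mul_ne_zero hH (mul_ne_zero z.denom_ne_zero z.denom_ne_zero)),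
    Polynomial.rootMultiplicity_mul (mul_ne_zero z.denom_ne_zero z.denom_ne_zero)] at h2
  exact ⟨Polynomial.rootMultiplicity c z.num - Polynomial.rootMultiplicity c z.denom, by omega⟩

private theorem rm0_Sup {k : Type} [Field k] {G : k[X]} {c : k} (h : G.eval c ≠ 0) :
    G.rootMultiplicity c = 0 := Polynomial.rootMultiplicity_eq_zero h

theorem pSup : StSq → StSup := by
  intro hSq k _ _ _ h2 l m hl0 hl1 hm0 hm1 P i
  cases P with
  | zero =>
    refine ⟨fun _ => true, ff l, ?_⟩
    rw [← ff_eq_dm]
    show ff l * 1 * ff l = ff l * ff l
    ring
  | some x y hxy =>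
    have hns := (W_nonsingular (two_ne_rat h2) _ (ee_inj hm0 hm1) x y).1 hxy
    have hdl : dl (ee l m) i (.some x y hxy) =
      if x = ee l m i then (ee l m i - ee l m (i + 1)) * (ee l m i - ee l m (i + 2))
      else x - ee l m i := rfl
    rw [hdl]
    by_cases hxi : x = ee l m i
    · rw [if_pos hxi]
      obtain ⟨b, hb⟩ := const_Sup ((rt m i - rt m (i + 1)) * (rt m i - rt m (i + 2)))
      refine ⟨fun _ => true, b * ff l ^ 2, ?_⟩
      rw [← ff_eq_dm]
      simp only [ee]
      rw [map_mul, map_sub, map_sub] at hb
      linear_combination ff l ^ 4 * hb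
    · rw [if_neg hxi]
      by_cases hxj : ∃ j, x = ee l m j
      · obtain ⟨j, hj⟩ := hxj
        obtain ⟨b, hb⟩ := const_Sup (rt m j - rt m i)
        refine ⟨fun _ => false, b * ff l, ?_⟩
        rw [dm_false, hj]
        simp only [ee]
        rw [map_sub] at hb
        linear_combination ff l ^ 2 * hb
      · push Not at hxj
        set A := x.num with hA
        set B := x.denom with hB
        have hB0 : B ≠ 0 := x.denom_ne_zero
        have hBm : algebraMap k[X] (RatFunc k) B ≠ 0 := by
          intro h0
          exact hB0 (RatFunc.algebraMap_injective k (by rw [h0, map_zero]))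
        have hcop : IsCoprime A B := RatFunc.isCoprime_num_denom x
        have hxA : algebraMap k[X] (RatFunc k) A = x * algebraMap k[X] (RatFunc k) B := by
          have h3 := RatFunc.num_div_denom x
          rw [eq_comm, ← hA, ← hB, eq_div_iff hBm] at h3
          exact h3.symm
        let G : Fin 3 → k[X] := fun j => A - C (rt m j) * Fp_Sup l * B
        have hG : ∀ j, algebraMap k[X] (RatFunc k) (G j) =
            (x - ee l m j) * algebraMap k[X] (RatFunc k) B := by
          intro j
          simp only [G, map_sub, map_mul, hxA, map_Fp_Sup, RatFunc.algebraMap_C, ee]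
          ring
        have hG0 : ∀ j, G j ≠ 0 := by
          intro j h0
          have h1 := hG j
          rw [h0, map_zero] at h1
          exact mul_ne_zero (sub_ne_zero.2 (hxj j)) hBm h1.symm
        have hH0 : B * (G 0 * (G 1 * G 2)) ≠ 0 :=
          mul_ne_zero hB0 (mul_ne_zero (hG0 0) (mul_ne_zero (hG0 1) (hG0 2)))
        have hev : ∀ c, Even ((B * (G 0 * (G 1 * G 2))).rootMultiplicity c) := by
          intro c
          refine even_Sup _ hH0 (y * algebraMap k[X] (RatFunc k) B ^ 2) ?_ c
          rw [map_mul, map_mul, map_mul, hG, hG, hG]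
          linear_combination (algebraMap k[X] (RatFunc k) B) ^ 4 * hns
        have hev2 : ∀ c, Even (B.rootMultiplicity c + ((G 0).rootMultiplicity c +
            ((G 1).rootMultiplicity c + (G 2).rootMultiplicity c))) := by
          intro c
          have h3 := hev c
          rw [Polynomial.rootMultiplicity_mul hH0,
            Polynomial.rootMultiplicity_mul (mul_ne_zero (hG0 0) (mul_ne_zero (hG0 1) (hG0 2))),
            Polynomial.rootMultiplicity_mul (mul_ne_zero (hG0 1) (hG0 2))] at h3
          exact h3
        have key : ∀ c : k, c ≠ 0 → c ≠ 1 → c ≠ l →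
            Even ((Fp_Sup l * G i * B).rootMultiplicity c) := by
          intro c hc0 hc1 hcl
          have hF := Fp_eval_Sup hc0 hc1 hcl
          have hFG : Fp_Sup l * G i * B ≠ 0 := mul_ne_zero (mul_ne_zero (Fp_ne_Sup l) (hG0 i)) hB0
          rw [Polynomial.rootMultiplicity_mul hFG,
            Polynomial.rootMultiplicity_mul (mul_ne_zero (Fp_ne_Sup l) (hG0 i)), rm0_Sup hF, zero_add]
          have hGe : ∀ j, (G j).eval c = A.eval c - rt m j * (Fp_Sup l).eval c * B.eval c := by
            intro j
            simp only [G, eval_sub, eval_mul, eval_C]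
          by_cases hBc : B.eval c = 0
          · have hAc : A.eval c ≠ 0 := by
              intro hAc
              obtain ⟨u, v, huv⟩ := hcop
              have h4 := congrArg (Polynomial.eval c) huv
              rw [eval_add, eval_mul, eval_mul, hAc, hBc, eval_one] at h4
              simp at h4
            have hGj : ∀ j, (G j).rootMultiplicity c = 0 := by
              intro j
              apply rm0_Sup
              rw [hGe, hBc, mul_zero, sub_zero]
              exact hAc
            have h5 := hev2 c
            rw [hGj, hGj, hGj] at h5
            rw [hGj, zero_add]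
            simpa using h5
          · rw [rm0_Sup hBc, add_zero]
            by_cases hGi : (G i).eval c = 0
            · have hGj : ∀ j, j ≠ i → (G j).rootMultiplicity c = 0 := by
                intro j hj
                apply rm0_Sup
                intro h6
                have h7 : (rt m i - rt m j) * (Fp_Sup l).eval c * B.eval c = 0 := by
                  rw [hGe] at h6 hGi
                  linear_combination h6 - hGi
                have h8 : rt m i - rt m j ≠ 0 :=
                  sub_ne_zero.2 fun h => hj (rt_inj hm0 hm1 h).symm
                exact mul_ne_zero (mul_ne_zero h8 hF) hBc h7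
              have h5 := hev2 c
              rw [rm0_Sup hBc, zero_add] at h5
              fin_cases i
              · have h10 := hGj 1 (by decide)
                have h11 := hGj 2 (by decide)
                rw [h10, h11] at h5
                simpa using h5
              · have h10 := hGj 0 (by decide)
                have h11 := hGj 2 (by decide)
                rw [h10, h11] at h5
                simpa using h5
              · have h10 := hGj 0 (by decide)
                have h11 := hGj 1 (by decide)
                rw [h10, h11] at h5
                simpa using h5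
            · rw [rm0_Sup hGi]
              exact ⟨0, rfl⟩
        obtain ⟨r, z, hz⟩ := hSq k l (Fp_Sup l * G i * B)
          (mul_ne_zero (mul_ne_zero (Fp_ne_Sup l) (hG0 i)) hB0) key
        refine ⟨r, z / algebraMap k[X] (RatFunc k) B, ?_⟩
        rw [map_mul, map_mul, hG, map_Fp_Sup] at hz
        rw [div_mul_div_comm, ← hz]
        field_simp

end Pool.Agent.Helper44.CMF
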