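import Pool.Agent.Helper45.CMF.Fam

/-! # Project CMF: module T1 (the family with complex multiplication), by helper45 -/

set_option autoImplicit false

open Polynomial

namespace Pool.Agent.Helper44.CMF

open Pool.Agent.Helper44.RED

theorem pT1 : StPairs → StCov → StDat → StT1A → StSol → StIdt → StT1 := by
  intro hPairs hCov hDat hT1A hSol hIdt
  classical
  obtain ⟨P, v, q, g, hP, h⟩ := fam45 hPairs hCov ℤ[X] X X (fun M => ¬ Spec8 M) MX45_spec
  refine ⟨P, v, q, g, hP, ?_⟩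
  intro k _ _ hB m hm0 hm1
  have e0 : (Polynomial.eval₂RingHom (Int.castRingHom k) m) (X : ℤ[X]) = m := by simp
  have h1 := h k hB (Polynomial.eval₂RingHom (Int.castRingHom k) m)
  rw [e0] at h1
  have h2 := h1 hm0 hm1 hm0 hm1
  have h2k : (2 : k) ≠ 0 := hB.two hP
  obtain ⟨c, hc, hcM⟩ := hDat k h2k m m hm0 hm1 hm0 hm1
  obtain ⟨I, hI1, hI2⟩ := hIdt k h2k m hm0 hm1
  have hcI : ∀ i j, c I i j = decide (i = j) := by
    intro i j
    rw [(hcM I _).1 hI2]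
  have key := hT1A _ (ht m m) c hc I hI1 hcI
  have h3 : (∃ M, OddCol M ∧ ¬ Spec8 M ∧ ∃ Q, HasClass m m Q M) ↔ HasCM m := by
    constructor
    · rintro ⟨M, -, hM, Q, hQ⟩
      have hcQ : c Q = M := (hcM Q M).1 hQ
      obtain ⟨R, hR⟩ := key.2 ⟨Q, by rw [hcQ]; exact hM⟩
      have hR0 : ht m m R ≠ 0 := by
        intro h0
        rw [h0] at hR
        exact hR ⟨0, rfl⟩
      obtain ⟨u, w, huw, hu⟩ := (hSol k h2k m m hm0 hm1 (ht m m R) hR0).1 ⟨R, rfl⟩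
      exact ⟨u, w, huw, by rw [hu]; exact hR⟩
    · rintro ⟨u, w, huw, hu⟩
      have hu0 : rdeg u ≠ 0 := by
        intro h0
        rw [h0] at hu
        exact hu ⟨0, rfl⟩
      obtain ⟨R, hR⟩ := (hSol k h2k m m hm0 hm1 (rdeg u) hu0).2 ⟨u, w, huw, rfl⟩
      obtain ⟨Q, hQ⟩ := key.1 ⟨R, by rw [hR]; exact hu⟩
      exact ⟨c Q, hc.odd Q, hQ, Q, (hcM Q (c Q)).2 rfl⟩
  rw [← propext h3]
  exact h2

end Pool.Agent.Helper44.CMF
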