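import Pool.Agent.Helper44.CMF.St

/-!
# Project CMF, module T1A
-/

set_option autoImplicit false

namespace Pool.Agent.Helper44.CMF

open Pool.Agent.Helper44.RED

private theorem bool1_T1A (M : Fin 3 → Fin 3 → Bool) (h8 : Spec8 M) (ho : OddCol M) :
    RowConst M ∨ (RowConst (fun i j => !(xor (M i j) (decide (i = j)))) ∧
      OddCol (fun i j => !(xor (M i j) (decide (i = j))))) := by
  obtain ⟨h1, h2, h3⟩ := h8
  have o0 := ho 0
  have o1 := ho 1
  have o2 := ho 2
  clear ho
  simp only [RowConst, OddCol, Fin.forall_fin_succ, Fin.isValue, Fin.succ_zero_eq_one,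
    Fin.succ_one_eq_two, IsEmpty.forall_iff, and_true]
  rw [← h1] at o2 ⊢
  rw [← h2] at o2 ⊢
  rw [← h3] at o1 ⊢
  clear h1 h2 h3
  revert o0 o1 o2
  generalize M 0 0 = a
  generalize M 0 1 = b
  generalize M 1 0 = c
  generalize M 1 1 = d
  generalize M 2 0 = e
  generalize M 2 2 = f
  intro o0 o1 o2
  cases a <;> cases b <;> cases c <;> cases d <;> cases e <;> cases f <;> simp_all

private theorem bool2_T1A (M : Fin 3 → Fin 3 → Bool) (hr : RowConst M) : Spec8 M :=
  ⟨(hr 0 1).trans (hr 0 2).symm, (hr 1 2).symm, (hr 2 1).symm⟩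

private theorem bool3_T1A (M : Fin 3 → Fin 3 → Bool) (hr : RowConst M) :
    Spec8 (fun i j => !(xor (M i j) (decide (i = j)))) := by
  refine ⟨?_, ?_, ?_⟩
  · have h1 := hr 0 1
    have h2 := hr 0 2
    simp [h1, h2]
  · have h2 := hr 1 2
    simp [h2]
  · have h2 := hr 2 1
    simp [h2]

variable {G : Type} [AddCommGroup G] {h : G → ℕ} {c : G → Fin 3 → Fin 3 → Bool}

private theorem h0_T1A (D : Dat h c) : h 0 = 0 := by
  have := D.par 0 0
  simp only [add_zero, sub_zero] at this
  omega

private theorem hneg_T1A (D : Dat h c) (P : G) : h (-P) = h P := by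
  have := D.par 0 P
  rw [zero_add, zero_sub, h0_T1A D] at this
  omega

private theorem c0_T1A (D : Dat h c) (i j : Fin 3) : c 0 i j = true := by
  have := D.add 0 0 i j
  rw [add_zero] at this
  rw [this]
  cases c 0 i j <;> rfl

private theorem hdbl_T1A (D : Dat h c) (R : G) : h (R + R) = 4 * h R := by
  have := D.par R R
  rw [sub_self, h0_T1A D] at this
  omega

private theorem neg_T1A (D : Dat h c) {T : G} (hT : h T = 0) : -T = T :=
  neg_eq_of_add_eq_zero_left (D.tor T hT)

private theorem hT_T1A (D : Dat h c) (P : G) {T : G} (hT : h T = 0) : h (P + T) = h P := by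
  have h1 := D.par P T
  rw [sub_eq_add_neg, neg_T1A D hT, hT] at h1
  omega

private theorem cneg_T1A (D : Dat h c) (P : G) (i j : Fin 3) : c (-P) i j = c P i j := by
  have h1 := D.add P (-P) i j
  rw [add_neg_cancel, c0_T1A D] at h1
  revert h1
  generalize c P i j = a
  generalize c (-P) i j = b
  revert a b
  decide

private theorem cdbl_T1A (D : Dat h c) (P : G) (i j : Fin 3) : c (P + P) i j = true := by
  rw [D.add]
  cases c P i j <;> rfl

/-- second difference -/
private theorem step_T1A (D : Dat h c) {I : G} (hI : h I = 1) (P : G) (n : ℤ) :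
    (h (P + (n + 1) • I) : ℤ) + h (P + (n - 1) • I) = 2 * h (P + n • I) + 2 := by
  have h1 := D.par (P + n • I) I
  rw [hI] at h1
  have e1 : P + n • I + I = P + (n + 1) • I := by rw [add_smul, one_smul]; abel
  have e2 : P + n • I - I = P + (n - 1) • I := by rw [sub_smul, one_smul]; abel
  rw [e1, e2] at h1
  exact_mod_cast h1

private theorem quad_T1A (D : Dat h c) {I : G} (hI : h I = 1) (P : G) :
    ∀ n : ℤ, (h (P + n • I) : ℤ) = n ^ 2 + ((h (P + (1 : ℤ) • I) : ℤ) - h P - 1) * n + h P := by
  set τ : ℤ := (h (P + (1 : ℤ) • I) : ℤ) - h P - 1 with hτ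
  have base0 : (h (P + (0 : ℤ) • I) : ℤ) = h P := by rw [zero_smul, add_zero]
  have base1 : (h (P + (1 : ℤ) • I) : ℤ) = τ + h P + 1 := by rw [hτ]; ring
  -- two consecutive values
  have up : ∀ n : ℕ, (h (P + (n : ℤ) • I) : ℤ) = (n : ℤ) ^ 2 + τ * n + h P ∧
      (h (P + ((n : ℤ) + 1) • I) : ℤ) = ((n : ℤ) + 1) ^ 2 + τ * ((n : ℤ) + 1) + h P := by
    intro n
    induction n with
    | zero =>
      refine ⟨?_, ?_⟩
      · rw [Nat.cast_zero, base0]; ring
      · rw [Nat.cast_zero, zero_add, base1]; ring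
    | succ n ih =>
      obtain ⟨ih1, ih2⟩ := ih
      refine ⟨?_, ?_⟩
      · push_cast
        exact ih2
      · have h1 := step_T1A D hI P ((n : ℤ) + 1)
        rw [add_sub_cancel_right, ih1, ih2] at h1
        push_cast
        linarith
  have down : ∀ n : ℕ, (h (P + (-(n : ℤ)) • I) : ℤ) = (n : ℤ) ^ 2 - τ * n + h P ∧
      (h (P + (-(n : ℤ) + 1) • I) : ℤ) = (-(n : ℤ) + 1) ^ 2 + τ * (-(n : ℤ) + 1) + h P := by
    intro n
    induction n with
    | zero =>
      refine ⟨?_, ?_⟩
      · rw [Nat.cast_zero, neg_zero, base0]; ring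
      · rw [Nat.cast_zero, neg_zero, zero_add, base1]; ring
    | succ n ih =>
      obtain ⟨ih1, ih2⟩ := ih
      have e1 : (-((n + 1 : ℕ) : ℤ)) = -(n : ℤ) - 1 := by push_cast; ring
      refine ⟨?_, ?_⟩
      · have h1 := step_T1A D hI P (-(n : ℤ))
        rw [ih1, ih2] at h1
        rw [e1]
        push_cast
        linarith
      · rw [e1, sub_add_cancel, ih1]
        ring
  intro n
  obtain ⟨m, rfl | rfl⟩ := n.eq_nat_or_neg
  · exact (up m).1
  · rw [(down m).1]; ring

private theorem hnI_T1A (D : Dat h c) {I : G} (hI : h I = 1) (n : ℤ) : (h (n • I) : ℤ) = n ^ 2 := by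
  have h1 := quad_T1A D hI 0 n
  rw [zero_add, zero_add, one_smul, hI, h0_T1A D] at h1
  rw [h1]
  push_cast
  ring

private theorem ceven_T1A (D : Dat h c) (I : G) (n : ℤ) (hn : Even n) (i j : Fin 3) :
    c (n • I) i j = true := by
  obtain ⟨m, rfl⟩ := hn
  rw [add_smul]
  exact cdbl_T1A D _ i j

private theorem codd_T1A (D : Dat h c) (I : G) (n : ℤ) (hn : Odd n) (i j : Fin 3) :
    c (n • I) i j = c I i j := by
  obtain ⟨m, rfl⟩ := hn
  rw [add_smul, one_smul, D.add, ceven_T1A D I (2 * m) ⟨m, by ring⟩]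
  cases c I i j <;> rfl

/-- membership in `ℤ I + E[2]` -/
private def In_T1A (h : G → ℕ) (I P : G) : Prop := ∃ n : ℤ, h (P - n • I) = 0

private theorem In_sq_T1A (D : Dat h c) {I : G} (hI : h I = 1) {P : G} (hP : In_T1A h I P) :
    IsSquare (h P) := by
  obtain ⟨n, hn⟩ := hP
  have h1 : h P = h (n • I) := by
    have := hT_T1A D (n • I) hn
    rw [← this]
    congr 1
    abel
  have h2 := hnI_T1A D hI n
  rw [← h1] at h2
  refine ⟨n.natAbs, ?_⟩
  have h3 : ((n.natAbs * n.natAbs : ℕ) : ℤ) = n ^ 2 := by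
    rw [Nat.cast_mul, Int.natAbs_mul_self' n]; ring
  rw [← h3] at h2
  exact_mod_cast h2

theorem pT1A : StNsq → StT1A := by
  intro hNsq G _ h c D I hI hcI
  have hcI' : ∀ P : G, (fun i j => !(xor (c P i j) (c I i j))) =
      (fun i j => !(xor (c P i j) (decide (i = j)))) := by
    intro P
    funext i j
    rw [hcI]
  constructor
  · rintro ⟨P0, hP0⟩
    by_contra hcon
    push Not at hcon
    -- minimal element outside of `ℤ I + E[2]`
    have hex : ∃ n : ℕ, ∃ P : G, ¬ In_T1A h I P ∧ h P = n :=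
      ⟨h P0, P0, fun h1 => hP0 (In_sq_T1A D hI h1), rfl⟩
    classical
    obtain ⟨P, hP, hPn⟩ := Nat.find_spec hex
    have hmin : ∀ Q : G, ¬ In_T1A h I Q → h P ≤ h Q := by
      intro Q hQ
      rw [hPn]
      exact Nat.find_min' hex ⟨Q, hQ, rfl⟩
    have hpos : 0 < h P := by
      rcases Nat.eq_zero_or_pos (h P) with h1 | h1
      · exact absurd ⟨0, by rw [zero_smul, sub_zero]; exact h1⟩ hP
      · exact h1
    -- doubling an element of the subgroup
    have hdd : ∀ (R T : G) (m : ℤ), h T = 0 → P + T + m • I = R + R → ¬ In_T1A h I R := by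
      rintro R T m hT hR ⟨n, hn⟩
      apply hP
      refine ⟨2 * n - m, ?_⟩
      have h1 : (R - n • I) + (R - n • I) = 0 := D.tor _ hn
      have h2 : P - (2 * n - m) • I = -T := by
        have h3 : R + R = (2 * n) • I := by
          have : R + R - (2 * n) • I = 0 := by
            rw [← h1, two_mul, add_smul]
            abel
          exact sub_eq_zero.1 this
        rw [h3] at hR
        rw [sub_smul, ← hR]
        abel
      rw [h2, hneg_T1A D]
      exact hT
    rcases bool1_T1A (c P) (hcon P) (D.odd P) with hr | ⟨hr, ho⟩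
    · obtain ⟨T, hT, hcT⟩ := D.two (c P) (D.odd P) hr
      have hall : ∀ i j, c (P + T) i j = true := by
        intro i j
        rw [D.add, hcT]
        cases c P i j <;> rfl
      obtain ⟨R, hR⟩ := D.dbl _ hall
      have h1 := hmin R (hdd R T 0 hT (by rw [zero_smul, add_zero]; exact hR))
      have h2 := hT_T1A D P hT
      rw [hR, hdbl_T1A D] at h2
      omega
    · rw [← hcI' P] at hr ho
      obtain ⟨T, hT, hcT⟩ := D.two _ ho hr
      have hall : ∀ i j, c (P + T + I) i j = true := by
        intro i j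
        rw [D.add, D.add, hcT]
        show (!(xor (!(xor (c P i j) (!(xor (c P i j) (c I i j))))) (c I i j))) = true
        generalize c P i j = x
        generalize c I i j = y
        revert x y
        decide
      obtain ⟨R, hR⟩ := D.dbl _ hall
      have hR1 := hmin R (hdd R T 1 hT (by rw [one_smul]; exact hR))
      have hR' : P + T + (-1 : ℤ) • I = (R - I) + (R - I) := by
        have : (R - I) + (R - I) = (R + R) - I - I := by abel
        rw [this, ← hR, neg_smul, one_smul]
        abel
      have hR2 := hmin (R - I) (hdd (R - I) T (-1) hT hR')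
      have h3 := D.par (P + T) I
      have h4 : P + T - I = (R - I) + (R - I) := by
        rw [← hR', neg_smul, one_smul]
        abel
      rw [hR, h4, hdbl_T1A D, hdbl_T1A D, hT_T1A D P hT, hI] at h3
      omega
  · rintro ⟨P, hP⟩
    by_contra hcon
    push Not at hcon
    apply hP
    obtain ⟨j, hj1, hj2⟩ := hNsq ((h (P + (1 : ℤ) • I) : ℤ) - h P - 1) (h P) (by
      intro n
      rw [← quad_T1A D hI P n]
      obtain ⟨r, hr⟩ := hcon (P + n • I)
      exact ⟨(r : ℤ), by rw [hr]; push_cast; ring⟩)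
    have hT : h (P + (-j) • I) = 0 := by
      have h1 := quad_T1A D hI P (-j)
      rw [hj1, hj2] at h1
      have h2 : (h (P + (-j) • I) : ℤ) = 0 := by rw [h1]; ring
      exact_mod_cast h2
    have hPT : P = (P + (-j) • I) + j • I := by rw [neg_smul]; abel
    have hrc := D.zer _ hT
    rcases Int.even_or_odd j with he | ho
    · have : c P = c (P + (-j) • I) := by
        funext i' j'
        conv_lhs => rw [hPT]
        rw [D.add, ceven_T1A D I j he]
        cases c (P + (-j) • I) i' j' <;> rfl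
      rw [this]
      exact bool2_T1A _ hrc
    · have : c P = fun i' j' => !(xor (c (P + (-j) • I) i' j') (decide (i' = j'))) := by
        funext i' j'
        conv_lhs => rw [hPT]
        rw [D.add, codd_T1A D I j ho, hcI]
      rw [this]
      exact bool3_T1A _ hrc

end Pool.Agent.Helper44.CMF
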