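import Pool.Agent.Helper45.CMF.Fam

/-! # Project CMF: module T3 (the isogeny family), by helper45 -/

set_option autoImplicit false

open Polynomial

namespace Pool.Agent.Helper44.CMF

open Pool.Agent.Helper44.RED

theorem pT3 : StPairs → StCov → StDat → StT3A → StSol → StRdeg → StT3 := by
  intro hPairs hCov hDat hT3A hSol hRdeg
  classical
  obtain ⟨P, v, q, g, hP, h⟩ := fam45 hPairs hCov (MvPolynomial (Fin 2) ℤ) (MvPolynomial.X 0)
    (MvPolynomial.X 1) (fun M => ¬ RowConst M) MX45_row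
  refine ⟨P, v, q, g, hP, ?_⟩
  intro k _ _ hB l m hl0 hl1 hm0 hm1
  have e0 : (MvPolynomial.eval₂Hom (Int.castRingHom k) ![l, m])
      (MvPolynomial.X 0 : MvPolynomial (Fin 2) ℤ) = l := by simp
  have e1 : (MvPolynomial.eval₂Hom (Int.castRingHom k) ![l, m])
      (MvPolynomial.X 1 : MvPolynomial (Fin 2) ℤ) = m := by simp
  have h1 := h k hB (MvPolynomial.eval₂Hom (Int.castRingHom k) ![l, m])
  rw [e0, e1] at h1
  have h2 := h1 hl0 hl1 hm0 hm1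
  have h2k : (2 : k) ≠ 0 := hB.two hP
  obtain ⟨c, hc, hcM⟩ := hDat k h2k l m hl0 hl1 hm0 hm1
  have h3 : (∃ M, OddCol M ∧ ¬ RowConst M ∧ ∃ Q, HasClass l m Q M) ↔ Isog l m := by
    constructor
    · rintro ⟨M, -, hM, Q, hQ⟩
      have hcQ : c Q = M := (hcM Q M).1 hQ
      obtain ⟨R, hR⟩ := (hT3A _ (ht l m) c hc).2 ⟨Q, by rw [hcQ]; exact hM⟩
      obtain ⟨u, w, huw, hu⟩ := (hSol k h2k l m hm0 hm1 (ht l m R) hR).1 ⟨R, rfl⟩
      refine ⟨u, w, huw, fun r hr => hR ?_⟩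
      rw [← hu]
      exact (hRdeg k u).2 ⟨r, hr⟩
    · rintro ⟨u, w, huw, hu⟩
      have hu0 : rdeg u ≠ 0 := by
        intro h0
        obtain ⟨r, hr⟩ := (hRdeg k u).1 h0
        exact hu r hr
      obtain ⟨R, hR⟩ := (hSol k h2k l m hm0 hm1 (rdeg u) hu0).2 ⟨u, w, huw, rfl⟩
      obtain ⟨Q, hQ⟩ := (hT3A _ (ht l m) c hc).1 ⟨R, by rw [hR]; exact hu0⟩
      exact ⟨c Q, hc.odd Q, hQ, Q, (hcM Q (c Q)).2 rfl⟩
  rw [← propext h3]
  exact h2

end Pool.Agent.Helper44.CMF
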