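import Pool.Agent.Helper44.CMF.St

/-!
# Project CMF: module T3A
-/

set_option autoImplicit false

namespace Pool.Agent.Helper44.CMF

open Pool.Agent.Helper44.RED

private theorem zero_T3A {G : Type} [AddCommGroup G] {h : G → ℕ} {c : G → Fin 3 → Fin 3 → Bool}
    (D : Dat h c) : h 0 = 0 := by
  have h1 := D.par 0 0
  rw [add_zero, sub_zero] at h1
  omega

theorem pT3A : StT3A := by
  intro G _ h c D
  constructor
  · rintro ⟨P₀, hP₀⟩
    by_contra hall
    push Not at hall
    have key : ∀ n : ℕ, ∀ P, h P = n → h P = 0 := by
      intro n
      induction n using Nat.strong_induction_on with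
      | _ n ih =>
        intro P hP
        obtain ⟨T, hT, hcT⟩ := D.two (c P) (D.odd P) (hall P)
        have h1 : ∀ i j, c (P + T) i j = true := by
          intro i j
          rw [D.add, hcT]
          cases c P i j <;> rfl
        obtain ⟨R, hR⟩ := D.dbl (P + T) h1
        have h2 := D.tor T hT
        have h3 : P - T = P + T := by
          rw [sub_eq_add_neg, neg_eq_of_add_eq_zero_left h2]
        have h4 := D.par P T
        rw [h3, hT] at h4
        have h5 := D.par R R
        rw [sub_self, zero_T3A D, ← hR] at h5
        by_contra hne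
        have h6 : h R = 0 := ih (h R) (by omega) R rfl
        omega
    exact hP₀ (key _ P₀ rfl)
  · rintro ⟨P, hP⟩
    exact ⟨P, fun h0 => hP (D.zer P h0)⟩

end Pool.Agent.Helper44.CMF
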