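import Pool.Agent.Helper44.RED.All
import Pool.Agent.Helper44.RED.M_HomD
import Pool.Agent.Helper44.RED.M_Trans
import Pool.Agent.Helper44.CMF.M_SigB
import Pool.Agent.Helper44.CMF.M_FinB
import Pool.Agent.Helper44.CMF.M_EqM
import Pool.Agent.Helper44.CMF.M_HzM
import Pool.Agent.Helper44.CMF.M_Sca
import Pool.Agent.Helper44.CMF.M_Fam
import Pool.Agent.Helper44.CMF.M_FamT
import Pool.Agent.Helper44.CMF.M_Ort
import Pool.Agent.Helper44.CMF.M_Bru
import Pool.Agent.Helper44.CMF.M_Trk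
import Pool.Agent.Helper44.CMF.M_Pairs
import Pool.Agent.Helper44.CMF.M_Hom
import Pool.Agent.Helper44.CMF.M_Ker
import Pool.Agent.Helper44.CMF.M_Prd
import Pool.Agent.Helper44.CMF.M_Ind
import Pool.Agent.Helper44.CMF.M_Sq
import Pool.Agent.Helper44.CMF.M_Sup
import Pool.Agent.Helper44.CMF.M_CovB
import Pool.Agent.Helper44.CMF.M_PD1
import Pool.Agent.Helper44.CMF.M_PD2
import Pool.Agent.Helper44.CMF.M_PD3
import Pool.Agent.Helper44.CMF.M_PD4
import Pool.Agent.Helper44.CMF.M_Ads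
import Pool.Agent.Helper44.CMF.M_Par
import Pool.Agent.Helper44.CMF.M_Rdeg
import Pool.Agent.Helper44.CMF.M_Hze
import Pool.Agent.Helper44.CMF.M_Dat
import Pool.Agent.Helper44.CMF.M_T3A
import Pool.Agent.Helper44.CMF.M_Nsq
import Pool.Agent.Helper44.CMF.M_T1A
import Pool.Agent.Helper44.CMF.M_Sol
import Pool.Agent.Helper44.CMF.M_Idt
import Pool.Agent.Helper44.CMF.M_T3
import Pool.Agent.Helper44.CMF.M_T1

/-!
# Project CMF: assembly
-/

set_option autoImplicit false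

namespace Pool.Agent.Helper44.CMF

open Pool.Agent.Helper44.RED

theorem aPairs : StPairs := pPairs (pFamT (pFam pSigB (pFinB aXVar aXRat aXNot aPureIso) pEqM pHzM
  pSca (pHomD aPT) pTrans)) pOrt pBru pTrk

theorem aDat : StDat := pDat (pSup pSq) pInd (pPar pPD1 pPD2 pPD3 pPD4 pAds) (pHze pInd pRdeg)
  pPrd pHom pKer

theorem aT3 : StT3 := pT3 aPairs (pCovB pInd pCovK) aDat pT3A pSol pRdeg

theorem aT1 : StT1 := pT1 aPairs (pCovB pInd pCovK) aDat (pT1A pNsq) pSol pIdt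

end Pool.Agent.Helper44.CMF
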