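import Pool.Agent.Helper44.CMF.Defs

/-!
# Project CMF: first lemmas on the curve `y² = (x - e₀)(x - e₁)(x - e₂)`
-/

set_option autoImplicit false

open Polynomial

namespace Pool.Agent.Helper44.CMF

open Pool.Agent.Helper44.RED

variable {K : Type} [Field K]

theorem W_equation (e : Fin 3 → K) (x y : K) :
    (W e).Equation x y ↔ y ^ 2 = (x - e 0) * (x - e 1) * (x - e 2) := by
  rw [WeierstrassCurve.Affine.equation_iff]
  simp only [W]
  constructor
  · intro h
    linear_combination h
  · intro h
    linear_combination h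

theorem W_nonsingular (h2 : (2 : K) ≠ 0) (e : Fin 3 → K) (he : Function.Injective e) (x y : K) :
    (W e).Nonsingular x y ↔ y ^ 2 = (x - e 0) * (x - e 1) * (x - e 2) := by
  rw [WeierstrassCurve.Affine.nonsingular_iff]
  constructor
  · rintro ⟨h, -⟩
    exact (W_equation e x y).1 h
  · intro h
    refine ⟨(W_equation e x y).2 h, ?_⟩
    by_contra hc
    push Not at hc
    obtain ⟨hx, hy⟩ := hc
    simp only [W] at hx hy
    have hy0 : y = 0 := by
      have : 2 * y = 0 := by linear_combination hy
      exact (mul_eq_zero.1 this).resolve_left h2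
    subst hy0
    have e01 : e 0 - e 1 ≠ 0 := sub_ne_zero.2 fun h => absurd (he h) (by decide)
    have e02 : e 0 - e 2 ≠ 0 := sub_ne_zero.2 fun h => absurd (he h) (by decide)
    have e12 : e 1 - e 2 ≠ 0 := sub_ne_zero.2 fun h => absurd (he h) (by decide)
    have h0 : (x - e 0) * (x - e 1) * (x - e 2) = 0 := by rw [← h]; ring
    rcases mul_eq_zero.1 h0 with h1 | h1
    · rcases mul_eq_zero.1 h1 with h1 | h1
      · have hxe : x = e 0 := by linear_combination h1
        subst hxe
        have : (e 0 - e 1) * (e 0 - e 2) = 0 := by linear_combination -hx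
        exact (mul_ne_zero e01 e02) this
      · have hxe : x = e 1 := by linear_combination h1
        subst hxe
        have : (e 0 - e 1) * (e 1 - e 2) = 0 := by linear_combination hx
        exact (mul_ne_zero e01 e12) this
    · have hxe : x = e 2 := by linear_combination h1
      subst hxe
      have : (e 0 - e 2) * (e 1 - e 2) = 0 := by linear_combination -hx
      exact (mul_ne_zero e02 e12) this

theorem W_neg (e : Fin 3 → K) (x y : K) : (W e).negY x y = - y := by
  simp [WeierstrassCurve.Affine.negY, W]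

variable {k : Type} [Field k]

theorem tm_ne (r : k) : tm r ≠ 0 := by
  unfold tm
  rw [sub_ne_zero]
  intro h
  have h1 : (algebraMap k[X] (RatFunc k) X) = algebraMap k[X] (RatFunc k) (C r) := by
    rw [RatFunc.algebraMap_X, RatFunc.algebraMap_C]; exact h
  exact X_ne_C r (RatFunc.algebraMap_injective k h1)

theorem ff_ne (l : k) : ff l ≠ 0 := Finset.prod_ne_zero_iff.2 fun _ _ => tm_ne _

theorem dm_ne (l : k) (m : Fin 3 → Bool) : dm l m ≠ 0 := by
  unfold dm
  refine Finset.prod_ne_zero_iff.2 fun j _ => ?_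
  split
  · exact tm_ne _
  · exact one_ne_zero

theorem ff_eq_dm (l : k) : ff l = dm l (fun _ => true) := by simp [ff, dm]

theorem dm_false (l : k) : dm l (fun _ => false) = 1 := by simp [dm]

theorem ff_eq (l : k) : ff l = RatFunc.X * (RatFunc.X - 1) * (RatFunc.X - RatFunc.C l) := by
  simp [ff, tm, rt, Fin.prod_univ_three]

theorem rt_inj {m : k} (h0 : m ≠ 0) (h1 : m ≠ 1) : Function.Injective (rt m) := by
  intro i j h
  fin_cases i <;> fin_cases j <;> simp_all [rt]

theorem ee_inj {l m : k} (h0 : m ≠ 0) (h1 : m ≠ 1) : Function.Injective (ee l m) := by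
  intro i j h
  unfold ee at h
  have h2 := mul_right_cancel₀ (ff_ne l) h
  exact rt_inj h0 h1 ((RatFunc.C : k →+* RatFunc k).injective h2)

theorem ee0 (l m : k) : ee l m 0 = 0 := by simp [ee, rt]
theorem ee1 (l m : k) : ee l m 1 = ff l := by simp [ee, rt]
theorem ee2 (l m : k) : ee l m 2 = RatFunc.C m * ff l := by simp [ee, rt]

theorem two_ne_rat (h2 : (2 : k) ≠ 0) : (2 : RatFunc k) ≠ 0 := by
  intro h
  apply h2
  apply (RatFunc.C : k →+* RatFunc k).injective
  rw [map_zero, map_ofNat]
  exact h

/-- a point of the twisted curve from a solution of its equation -/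
noncomputable def mkP {l m : k} (h2 : (2 : k) ≠ 0) (h0 : m ≠ 0) (h1 : m ≠ 1) (x y : RatFunc k)
    (h : y ^ 2 = x * (x - ff l) * (x - RatFunc.C m * ff l)) : (W (ee l m)).Point :=
  .some x y ((W_nonsingular (two_ne_rat h2) _ (ee_inj h0 h1) x y).2
    (by rw [ee0, ee1, ee2, sub_zero]; exact h))

theorem Big.two {k : Type} [Field k] {P : ℕ} (h : Big k P) (hP : 3 ≤ P) : (2 : k) ≠ 0 := by
  have := h 2 (by omega) (by omega)
  simpa using this

theorem Big.mono {k : Type} [Field k] {P Q : ℕ} (h : Big k P) (hQ : Q ≤ P) : Big k Q :=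
  fun n h1 h2 => h n h1 (by omega)

end Pool.Agent.Helper44.CMF
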