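import Pool.Agent.Helper44.CMF.DefsN

/-!
# Project CMF, part N: statements with complete proofs

Every statement is a `def St… : Prop`; a module proves one of them from the others (as hypotheses). Most are
copies of the modules of part 1 (files `M_….lean` in this directory) with `k[X]`, `RatFunc k`, evaluation at
points replaced by `AN n k = MvPolynomial (Fin n) k`, its fraction field `KN n k`, reduction modulo primes.
-/

set_option autoImplicit false

open MvPolynomial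

namespace Pool.Agent.Helper44.CMF

open Pool.Agent.Helper44.RED

/-- TRKN. The field `k(t, s, T)` as a rational function field over `k(t)(s)` (copy of TRK, `t = (t_1, …, t_n)`). -/
def StTrkN : Prop := ∀ (k Ξ : Type) [Field k] [Finite Ξ] (n : ℕ),
  ∃ ψ : RatFunc (KN n k) →+* FractionRing (MvPolynomial ((Fin n ⊕ Unit) ⊕ Ξ) k),
    (∀ p : AN n k, ψ (RatFunc.C (algebraMap (AN n k) (KN n k) p)) =
      algebraMap (MvPolynomial ((Fin n ⊕ Unit) ⊕ Ξ) k) _
        (rename (fun i => Sum.inl (Sum.inl i)) p)) ∧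
    ψ RatFunc.X = algebraMap (MvPolynomial ((Fin n ⊕ Unit) ⊕ Ξ) k) _ (X (Sum.inl (Sum.inr ()))) ∧
    Indep ψ (fun ξ : Ξ => algebraMap (MvPolynomial ((Fin n ⊕ Unit) ⊕ Ξ) k)
      (FractionRing (MvPolynomial ((Fin n ⊕ Unit) ⊕ Ξ) k)) (X (Sum.inr ξ))) ∧
    GenBy ψ (Set.range fun ξ : Ξ => algebraMap (MvPolynomial ((Fin n ⊕ Unit) ⊕ Ξ) k)
      (FractionRing (MvPolynomial ((Fin n ⊕ Unit) ⊕ Ξ) k)) (X (Sum.inr ξ)))

/-- PAIRSN. Families of pairs of diagonal quadratic forms over `k(t_1, …, t_n)` (copy of PAIRS). -/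
def StPairsN : Prop := ∀ (R Ξ ι : Type) [CommRing R] [Fintype Ξ] [Nonempty Ξ] [Fintype ι] [Nonempty ι]
  (n : ℕ) (a b : Ξ → ι → MvPolynomial (Fin n) R),
  ∃ (P v q : ℕ) (g : Fin q → MvPolynomial (Fin v) R), 3 ≤ P ∧
    ∀ (k : Type) [Field k] [IsAlgClosed k], Big k P → ∀ φ : R →+* k,
      (∀ ξ i, map φ (a ξ i) ≠ 0 ∨ map φ (b ξ i) ≠ 0) →
      Good φ g (∃ ξ, ∃ x : ι → KN n k, x ≠ 0 ∧
        qf (fun i => algebraMap (AN n k) (KN n k) (map φ (a ξ i))) x = 0 ∧
        qf (fun i => algebraMap (AN n k) (KN n k) (map φ (b ξ i))) x = 0)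

/-- INDN. The `p_j` are independent modulo squares. PROOF. `AN n k` is a UFD (`UniqueFactorizationMonoid`),
its irreducible elements are prime; compare the multiplicity (`emultiplicity`, `multiplicity`) of `p_j` on
both sides of `v² ∏ p_j^{n_j} = u²`. -/
def StIndN : Prop := ∀ (k : Type) [Field k] (n s : ℕ) (p : Fin s → AN n k), Irr p →
  ∀ m1 m2 m3 m4 : Fin s → Bool, IsSquare (dN p m1 * dN p m2 * dN p m3 * dN p m4) ↔
    ∀ j, xor (xor (m1 j) (m2 j)) (xor (m3 j) (m4 j)) = false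

/-- SQN. PROOF. Induction on the factorisation of `G` (`WfDvdMonoid`, `UniqueFactorizationMonoid`, or on the
total degree): if a prime not associated to a `p_j` divides `G`, its square divides `G`; if `p_j²` divides
`G`, divide; otherwise `G` is a unit times distinct `p_j`; units of `AN n k` are constants, which are squares. -/
def StSqN : Prop := ∀ (k : Type) [Field k] [IsAlgClosed k] (n s : ℕ) (p : Fin s → AN n k), Irr p →
  ∀ G : AN n k, G ≠ 0 →
  (∀ π : AN n k, Prime π → (∀ j, ¬ Associated π (p j)) → Even (multiplicity π G)) →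
  ∃ r : Fin s → Bool, IsSquare (algebraMap (AN n k) (KN n k) G * dN p r)

/-- SUPN. Every point has a class. PROOF. As SUP: `x = A/B` with `A, B` coprime (`IsFractionRing.num, den`),
`F₀ = ∏ p_j`; a prime `π` not associated to a `p_j` divides at most one of `A, A - F₀ B, A - m F₀ B, B` (if it
divides two of them it divides `A` and `B`, as `π ∤ F₀`), the product of the four is a square in `AN n k`
(integrally closed), so each has even multiplicity at `π`. SQN. -/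
def StSupN : Prop := ∀ (k : Type) [Field k] [IsAlgClosed k] (n s : ℕ) [DecidableEq (KN n k)],
  (2 : k) ≠ 0 → ∀ (p : Fin s → AN n k), Irr p → ∀ m : k, m ≠ 0 → m ≠ 1 →
    ∀ (P : (W (eK (fN p) (cN n m))).Point) (i : Fin 3),
      ∃ r : Fin s → Bool, IsSquare (fN p * dl (eK (fN p) (cN n m)) i P * dN p r)

/-- COVK. The coverings over an arbitrary field (proof as COV, with `F d₀ d₁ d₂` a square instead of `OddCol`).
Note `d i ≠ 0`. -/
def StCovK : Prop := ∀ (K : Type) [Field K] [DecidableEq K], (2 : K) ≠ 0 → ∀ F m : K, F ≠ 0 → m ≠ 0 →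
  m ≠ 1 → ∀ d : Fin 3 → K, (∀ i, d i ≠ 0) → IsSquare (F * d 0 * d 1 * d 2) →
    ((∃ x : Fin 4 → K, x ≠ 0 ∧ qf ![d 0, - d 1, 0, -1] x = 0 ∧ qf ![d 0, 0, - d 2, - m] x = 0) ↔
      ∃ P : (W (eK F m)).Point, ∀ i, IsSquare (F * dl (eK F m) i P * d i))

/-- ADSK. Addition and subtraction over an arbitrary field (proof as ADS). -/
def StAdsK : Prop := ∀ (K : Type) [Field K] [DecidableEq K], (2 : K) ≠ 0 → ∀ F m : K, F ≠ 0 → m ≠ 0 →
  m ≠ 1 → ∀ P Q : (W (eK F m)).Point, ∃ c : K, c ≠ 0 ∧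
    ∀ i, sgm m (sm2 (xK F m P) (xK F m Q)) i = c * sm2 (xK F m (P + Q)) (xK F m (P - Q)) i

/-- PD1N. PROOF. `c v = p`, `c' v = p'`, `c'/c = A/B` coprime: `B p' = A p`. A prime factor of `A` divides
`B p'_i`, hence all `p'_i`: contradiction; so `A` is a unit, and so is `B`; units are constants. -/
def StPD1N : Prop := ∀ (k : Type) [Field k] (n r : ℕ) (v : Fin r → KN n k) (d : ℕ),
  PDN v d → (∀ d', PDN v d' → d = d') ∧ ∀ a : KN n k, a ≠ 0 → PDN (fun i => a * v i) d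

/-- PD2N. The vector `xK P` has degree `htN P`. PROOF. `![u, 1]`: multiplier `den u`, vector `(num u, den u)`,
coprime. Total degree `d` of a nonzero polynomial `f`: `homogeneousComponent d f ≠ 0`. -/
def StPD2N : Prop := ∀ (k : Type) [Field k] (n : ℕ) (F m : KN n k) (P : (W (eK F m)).Point),
  PDN (xK F m P) (htN F m P)

/-- PD3N. PROOF. As PD3: a prime `π` dividing `sm2 p p'` divides `p` or `p'` (in a domain
`sm2 (a,b) (a',b') = 0` implies `(a,b) = 0` or `(a',b') = 0`; apply it in `AN n k ⧸ (π)`, or by divisibility); the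
homogeneous component of degree `d + d'` of `sm2 p p'` is `sm2` of the components of degree `d`, `d'`
(polynomials of total degree `≤ d`, `≤ d'`), nonzero since `AN n k` is a domain. -/
def StPD3N : Prop := ∀ (k : Type) [Field k] (n : ℕ) (u v : Fin 2 → KN n k) (d d' : ℕ),
  PDN u d → PDN v d' → PDN (sm2 u v) (d + d')

/-- PD4N. PROOF. As PD4, over the domains `AN n k ⧸ (π)` and `AN n k` (`m` a constant, `m ≠ 0, 1`, `2 ≠ 0`: these
are units). -/
def StPD4N : Prop := ∀ (k : Type) [Field k] (n : ℕ), (2 : k) ≠ 0 → ∀ m : k, m ≠ 0 → m ≠ 1 →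
  ∀ (v : Fin 3 → KN n k) (d : ℕ), PDN v d → PDN (sgm (cN n m) v) (2 * d)

/-- PARN. The exact parallelogram law. PROOF. PD2N, PD3N, PD4N, ADSK, PD1N. -/
def StParN : Prop := ∀ (k : Type) [Field k] (n : ℕ) [DecidableEq (KN n k)], (2 : k) ≠ 0 →
  ∀ (F : KN n k) (m : k), F ≠ 0 → m ≠ 0 → m ≠ 1 → ∀ P Q : (W (eK F (cN n m))).Point,
    htN F (cN n m) (P + Q) + htN F (cN n m) (P - Q) = 2 * htN F (cN n m) P + 2 * htN F (cN n m) Q

/-- RDEGN. PROOF. `totalDegree = 0` means constant (`totalDegree_eq_zero_iff_eq_C`). -/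
def StRdegN : Prop := ∀ (k : Type) [Field k] (n : ℕ) (u : KN n k), degN u = 0 ↔ ∃ c : k, u = cN n c

/-- HZEN. Points of height zero (proof as HZE; `s ≥ 1` so `fN p` is not a square by INDN). -/
def StHzeN : Prop := ∀ (k : Type) [Field k] [IsAlgClosed k] (n s : ℕ) [DecidableEq (KN n k)],
  (2 : k) ≠ 0 → 1 ≤ s → ∀ (p : Fin s → AN n k), Irr p → ∀ m : k, m ≠ 0 → m ≠ 1 →
    (∀ P : (W (eK (fN p) (cN n m))).Point, htN (fN p) (cN n m) P = 0 → P + P = 0 ∧
      ∃ M, RowN M ∧ OddN M ∧ ClassN p m P M) ∧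
    ∀ M, RowN M → OddN M → ∃ P : (W (eK (fN p) (cN n m))).Point,
      htN (fN p) (cN n m) P = 0 ∧ ClassN p m P M

/-- DATN. Assembly (proof as DAT). -/
def StDatN : Prop := ∀ (k : Type) [Field k] [IsAlgClosed k] (n s : ℕ) [DecidableEq (KN n k)],
  (2 : k) ≠ 0 → 1 ≤ s → ∀ (p : Fin s → AN n k), Irr p → ∀ m : k, m ≠ 0 → m ≠ 1 →
    ∃ c : (W (eK (fN p) (cN n m))).Point → Fin 3 → Fin s → Bool,
      DatN s (htN (fN p) (cN n m)) c ∧ ∀ P M, ClassN p m P M ↔ c P = M

/-- T3AN. PROOF. As T3A. -/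
def StT3AN : Prop := ∀ (G : Type) [AddCommGroup G] (s : ℕ) (h : G → ℕ) (c : G → Fin 3 → Fin s → Bool),
  DatN s h c → ((∃ P, h P ≠ 0) ↔ ∃ P, ¬ RowN (c P))

/-- the double cover `y² = p_1 ⋯ p_s` has a nonconstant rational map `(t, y) ↦ (u(t), y w(t))` to the elliptic
curve `y² = x (x - 1) (x - m)` -/
def MapN {n s : ℕ} {k : Type} [Field k] (p : Fin s → AN n k) (m : k) : Prop :=
  ∃ u w : KN n k, fN p * w ^ 2 = u * (u - 1) * (u - cN n m) ∧ ∀ c : k, u ≠ cN n c

/-- SOLN. PROOF. `P = (x, y)`: `u = x/F`, `w = y/F²`; conversely `x = F u`, `y = F² w`; RDEGN. -/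
def StSolN : Prop := ∀ (k : Type) [Field k] (n s : ℕ) [DecidableEq (KN n k)], (2 : k) ≠ 0 →
  ∀ (p : Fin s → AN n k), Irr p → ∀ m : k, m ≠ 0 → m ≠ 1 →
    ((∃ P, htN (fN p) (cN n m) P ≠ 0) ↔ MapN p m)

/-- T3N. The final theorem. PROOF. As T3: PAIRSN for `Ξ = {M : Fin 3 → Fin s → Bool // OddN M ∧ ¬ RowN M}`
(nonempty as `s ≥ 2`), `ι = Fin 4`, `a M = ![d₀, -d₁, 0, -1]`, `b M = ![d₀, 0, -d₂, -C μ]`,
`d_i = ∏_j if M i j then p j else 1`. Over `k`: COVK with `F = fN (map φ ∘ p)` (`F d₀ d₁ d₂` is a square by `OddN`,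
INDN), DATN, T3AN, SOLN. -/
def StT3N : Prop := ∀ (R : Type) [CommRing R] (n s : ℕ), 2 ≤ s → ∀ (p : Fin s → MvPolynomial (Fin n) R)
  (μ : R), ∃ (P v q : ℕ) (g : Fin q → MvPolynomial (Fin v) R), 3 ≤ P ∧
    ∀ (k : Type) [Field k] [IsAlgClosed k], Big k P → ∀ φ : R →+* k,
      Irr (fun j => map φ (p j)) → φ μ ≠ 0 → φ μ ≠ 1 →
      Good φ g (MapN (fun j => map φ (p j)) (φ μ))

end Pool.Agent.Helper44.CMF
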