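import Mathlib
import Pool.Agent.Helper44.CMF.StN

/-!
# Project CMF, module CovK
-/

set_option autoImplicit false

namespace Pool.Agent.Helper44.CMF

open Pool.Agent.Helper44.RED

private theorem eK_inj_CovK {K : Type} [Field K] {F m : K} (hF : F ≠ 0) (h0 : m ≠ 0) (h1 : m ≠ 1) :
    Function.Injective (eK F m) := by
  have h2 : m * F ≠ F := by
    intro h
    apply h1
    have : (m - 1) * F = 0 := by linear_combination h
    rcases mul_eq_zero.1 this with h | h
    · linear_combination h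
    · exact absurd h hF
  have h3 : m * F ≠ 0 := mul_ne_zero h0 hF
  intro i j h
  fin_cases i <;> fin_cases j <;> simp [eK] at h ⊢ <;> first | exact absurd h.symm hF | exact absurd h hF | exact absurd h h2 | exact absurd h.symm h2 | skip
  all_goals tauto

/-- a point from a solution -/
private theorem mkPt_CovK {K : Type} [Field K] [DecidableEq K] (hc : (2 : K) ≠ 0) {F m : K} (hF : F ≠ 0)
    (h0 : m ≠ 0) (h1 : m ≠ 1) (d : Fin 3 → K) (hd : ∀ i, d i ≠ 0) (g : K) (hg : F * d 0 * d 1 * d 2 = g * g)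
    (u v w : K) (e1 : d 0 * u ^ 2 - d 1 * v ^ 2 = 1) (e2 : d 0 * u ^ 2 - d 2 * w ^ 2 = m) :
    ∃ P : (W (eK F m)).Point, ∀ i, IsSquare (F * dl (eK F m) i P * d i) := by
  have hns : (W (eK F m)).Nonsingular (F * d 0 * u ^ 2) (F * g * u * v * w) := by
    rw [W_nonsingular hc _ (eK_inj_CovK hF h0 h1)]
    have a0 : eK F m 0 = 0 := rfl
    have a1 : eK F m 1 = F := rfl
    have a2 : eK F m 2 = m * F := rfl
    rw [a0, a1, a2]
    have b1 : F * d 0 * u ^ 2 - F = F * d 1 * v ^ 2 := by linear_combination F * e1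
    have b2 : F * d 0 * u ^ 2 - m * F = F * d 2 * w ^ 2 := by linear_combination F * e2
    rw [b1, b2]
    linear_combination (- F ^ 2 * (u * v * w) ^ 2) * hg
  refine ⟨.some _ _ hns, fun i => ?_⟩
  have a0 : eK F m 0 = 0 := rfl
  have a1 : eK F m 1 = F := rfl
  have a2 : eK F m 2 = m * F := rfl
  fin_cases i
  · show IsSquare (F * dl (eK F m) 0 _ * d 0)
    simp only [dl]
    split
    · rename_i hx
      have hu : u = 0 := by
        rw [a0] at hx
        have : u ^ 2 = 0 := by
          rcases mul_eq_zero.1 hx with h | h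
          · exact absurd h (mul_ne_zero hF (hd 0))
          · exact h
        exact pow_eq_zero_iff (two_ne_zero) |>.1 this
      subst hu
      refine ⟨F * g * v * w, ?_⟩
      show F * ((eK F m 0 - eK F m 1) * (eK F m 0 - eK F m 2)) * d 0 = _
      rw [a0, a1, a2]
      have c1 : d 1 * v ^ 2 = -1 := by linear_combination - e1
      have c2 : d 2 * w ^ 2 = -m := by linear_combination - e2
      linear_combination (F ^ 2 * v ^ 2 * w ^ 2) * hg - F ^ 3 * d 0 * (d 2 * w ^ 2 * c1 - c2)
    · refine ⟨F * d 0 * u, ?_⟩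
      rw [a0]; ring
  · show IsSquare (F * dl (eK F m) 1 _ * d 1)
    simp only [dl]
    split
    · rename_i hx
      have hv : v = 0 := by
        rw [a1] at hx
        have : F * d 1 * v ^ 2 = 0 := by linear_combination hx - F * e1
        have : v ^ 2 = 0 := by
          rcases mul_eq_zero.1 this with h | h
          · exact absurd h (mul_ne_zero hF (hd 1))
          · exact h
        exact pow_eq_zero_iff (two_ne_zero) |>.1 this
      subst hv
      refine ⟨F * g * u * w, ?_⟩
      show F * ((eK F m 1 - eK F m 2) * (eK F m 1 - eK F m 0)) * d 1 = _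
      rw [a0, a1, a2]
      have c1 : d 0 * u ^ 2 = 1 := by linear_combination e1
      have c2 : d 2 * w ^ 2 = 1 - m := by linear_combination - e2 + c1
      linear_combination (F ^ 2 * u ^ 2 * w ^ 2) * hg - F ^ 3 * d 1 * (d 2 * w ^ 2 * c1 + c2)
    · refine ⟨F * d 1 * v, ?_⟩
      rw [a1]
      linear_combination F ^ 2 * d 1 * e1
  · show IsSquare (F * dl (eK F m) 2 _ * d 2)
    simp only [dl]
    split
    · rename_i hx
      have hw : w = 0 := by
        rw [a2] at hx
        have : F * d 2 * w ^ 2 = 0 := by linear_combination hx - F * e2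
        have : w ^ 2 = 0 := by
          rcases mul_eq_zero.1 this with h | h
          · exact absurd h (mul_ne_zero hF (hd 2))
          · exact h
        exact pow_eq_zero_iff (two_ne_zero) |>.1 this
      subst hw
      refine ⟨F * g * u * v, ?_⟩
      show F * ((eK F m 2 - eK F m 0) * (eK F m 2 - eK F m 1)) * d 2 = _
      rw [a0, a1, a2]
      have c1 : d 0 * u ^ 2 = m := by linear_combination e2
      have c2 : d 1 * v ^ 2 = m - 1 := by linear_combination - e1 + c1
      linear_combination (F ^ 2 * u ^ 2 * v ^ 2) * hg - F ^ 3 * d 2 * (d 1 * v ^ 2 * c1 + m * c2)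
    · refine ⟨F * d 2 * w, ?_⟩
      rw [a2]
      linear_combination F ^ 2 * d 2 * e2

private theorem qf4_CovK {K : Type} [Field K] (a b c e : K) (x : Fin 4 → K) :
    qf ![a, b, c, e] x = a * x 0 ^ 2 + b * x 1 ^ 2 + c * x 2 ^ 2 + e * x 3 ^ 2 := by
  simp [qf, Fin.sum_univ_four]

private theorem sq_ne_CovK {K : Type} [Field K] {a g : K} (h : a = g * g) (ha : a ≠ 0) : g ≠ 0 := by
  rintro rfl
  apply ha
  rw [h]; ring

theorem pCovK : StCovK := by
  intro K _ _ hc F m hF h0 h1 d hd hg
  obtain ⟨g, hg⟩ := hg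
  have a0 : eK F m 0 = 0 := rfl
  have a1 : eK F m 1 = F := rfl
  have a2 : eK F m 2 = m * F := rfl
  have h1' : (1 - m) ≠ 0 := sub_ne_zero.2 (Ne.symm h1)
  have h1'' : (m - 1) ≠ 0 := sub_ne_zero.2 h1
  constructor
  · rintro ⟨x, hx, e1, e2⟩
    rw [qf4_CovK] at e1 e2
    by_cases hz : x 3 = 0
    · have e1' : d 0 * x 0 ^ 2 = d 1 * x 1 ^ 2 := by rw [hz] at e1; linear_combination e1
      have e2' : d 0 * x 0 ^ 2 = d 2 * x 2 ^ 2 := by rw [hz] at e2; linear_combination e2
      have key : ∀ (a b : K), a ≠ 0 → a * b ^ 2 = 0 → b = 0 := by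
        intro a b ha hb
        rcases mul_eq_zero.1 hb with h | h
        · exact absurd h ha
        · exact pow_eq_zero_iff (two_ne_zero) |>.1 h
      have hu : x 0 ≠ 0 := by
        intro hu
        have hv : x 1 = 0 := key _ _ (hd 1) (by rw [← e1', hu]; ring)
        have hw : x 2 = 0 := key _ _ (hd 2) (by rw [← e2', hu]; ring)
        apply hx
        funext i
        fin_cases i <;> assumption
      have hv : x 1 ≠ 0 := by
        intro hv
        exact hu (key _ _ (hd 0) (by rw [e1', hv]; ring))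
      have hw : x 2 ≠ 0 := by
        intro hw
        exact hu (key _ _ (hd 0) (by rw [e2', hw]; ring))
      refine ⟨.zero, fun i => ?_⟩
      have f1 : d 1 = d 0 * x 0 ^ 2 / x 1 ^ 2 := by
        rw [eq_div_iff (pow_ne_zero 2 hv)]; exact e1'.symm
      have f2 : d 2 = d 0 * x 0 ^ 2 / x 2 ^ 2 := by
        rw [eq_div_iff (pow_ne_zero 2 hw)]; exact e2'.symm
      have hd0 := hd 0
      have q0 : F * d 0 = (g * x 1 * x 2 / (d 0 * x 0 ^ 2)) * (g * x 1 * x 2 / (d 0 * x 0 ^ 2)) := by
        have : (g * x 1 * x 2 / (d 0 * x 0 ^ 2)) * (g * x 1 * x 2 / (d 0 * x 0 ^ 2)) =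
          (g * g) * (x 1 ^ 2 * x 2 ^ 2) / (d 0 * x 0 ^ 2) ^ 2 := by field_simp
        rw [this, ← hg, f1, f2]
        field_simp
      have q : ∀ i, IsSquare (F * d i) := by
        intro i
        fin_cases i
        · exact ⟨_, q0⟩
        · refine ⟨(g * x 1 * x 2 / (d 0 * x 0 ^ 2)) * (x 0 / x 1), ?_⟩
          show F * d 1 = _
          have : (g * x 1 * x 2 / (d 0 * x 0 ^ 2)) * (x 0 / x 1) * ((g * x 1 * x 2 / (d 0 * x 0 ^ 2)) * (x 0 / x 1)) =
            ((g * x 1 * x 2 / (d 0 * x 0 ^ 2)) * (g * x 1 * x 2 / (d 0 * x 0 ^ 2))) * (x 0 ^ 2 / x 1 ^ 2) := by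
            ring
          rw [this, ← q0, f1]
          ring
        · refine ⟨(g * x 1 * x 2 / (d 0 * x 0 ^ 2)) * (x 0 / x 2), ?_⟩
          show F * d 2 = _
          have : (g * x 1 * x 2 / (d 0 * x 0 ^ 2)) * (x 0 / x 2) * ((g * x 1 * x 2 / (d 0 * x 0 ^ 2)) * (x 0 / x 2)) =
            ((g * x 1 * x 2 / (d 0 * x 0 ^ 2)) * (g * x 1 * x 2 / (d 0 * x 0 ^ 2))) * (x 0 ^ 2 / x 2 ^ 2) := by
            ring
          rw [this, ← q0, f2]
          ring
      show IsSquare (F * 1 * d i)
      rw [mul_one]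
      exact q i
    · refine mkPt_CovK hc hF h0 h1 d hd g hg (x 0 / x 3) (x 1 / x 3) (x 2 / x 3) ?_ ?_
      · have : d 0 * (x 0 / x 3) ^ 2 - d 1 * (x 1 / x 3) ^ 2 = (d 0 * x 0 ^ 2 - d 1 * x 1 ^ 2) / x 3 ^ 2 := by
          ring
        rw [this, div_eq_iff (pow_ne_zero 2 hz)]
        linear_combination e1
      · have : d 0 * (x 0 / x 3) ^ 2 - d 2 * (x 2 / x 3) ^ 2 = (d 0 * x 0 ^ 2 - d 2 * x 2 ^ 2) / x 3 ^ 2 := by
          ring
        rw [this, div_eq_iff (pow_ne_zero 2 hz)]
        linear_combination e2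
  · rintro ⟨P, hP⟩
    obtain ⟨g0, hg0⟩ := hP 0
    obtain ⟨g1, hg1⟩ := hP 1
    obtain ⟨g2, hg2⟩ := hP 2
    have hd0 := hd 0
    have hd1 := hd 1
    have hd2 := hd 2
    rcases P with _ | ⟨x, y, hxy⟩
    · change F * 1 * d 0 = _ at hg0
      change F * 1 * d 1 = _ at hg1
      change F * 1 * d 2 = _ at hg2
      rw [mul_one] at hg0 hg1 hg2
      have n0 : g0 ≠ 0 := sq_ne_CovK hg0 (mul_ne_zero hF hd0)
      have n1 : g1 ≠ 0 := sq_ne_CovK hg1 (mul_ne_zero hF hd1)
      have n2 : g2 ≠ 0 := sq_ne_CovK hg2 (mul_ne_zero hF hd2)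
      have t0 : d 0 * (F / g0) ^ 2 = F := by
        rw [div_pow, ← mul_div_assoc, div_eq_iff (pow_ne_zero 2 n0)]
        linear_combination F * hg0
      have t1 : d 1 * (F / g1) ^ 2 = F := by
        rw [div_pow, ← mul_div_assoc, div_eq_iff (pow_ne_zero 2 n1)]
        linear_combination F * hg1
      have t2 : d 2 * (F / g2) ^ 2 = F := by
        rw [div_pow, ← mul_div_assoc, div_eq_iff (pow_ne_zero 2 n2)]
        linear_combination F * hg2
      refine ⟨![F / g0, F / g1, F / g2, 0], ?_, ?_, ?_⟩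
      · intro h
        have := congrFun h 0
        exact div_ne_zero hF n0 this
      · rw [qf4_CovK]
        show d 0 * (F / g0) ^ 2 + -d 1 * (F / g1) ^ 2 + 0 * (F / g2) ^ 2 + -1 * 0 ^ 2 = 0
        linear_combination t0 - t1
      · rw [qf4_CovK]
        show d 0 * (F / g0) ^ 2 + 0 * (F / g1) ^ 2 + -d 2 * (F / g2) ^ 2 + -m * 0 ^ 2 = 0
        linear_combination t0 - t2
    · simp only [dl] at hg0 hg1 hg2
      have i10 : (1 : Fin 3) + 1 = 2 := rfl
      have i11 : (1 : Fin 3) + 2 = 0 := rfl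
      have i20 : (2 : Fin 3) + 1 = 0 := rfl
      have i21 : (2 : Fin 3) + 2 = 1 := rfl
      rw [zero_add, zero_add, a0, a1, a2] at hg0
      rw [i10, i11, a0, a1, a2] at hg1
      rw [i20, i21, a0, a1, a2] at hg2
      have hmF : m * F ≠ 0 := mul_ne_zero h0 hF
      have hne : F ≠ m * F := by
        intro h
        have : (1 - m) * F = 0 := by linear_combination h
        exact (mul_ne_zero h1' hF) this
      by_cases x0 : x = 0
      · subst x0
        rw [if_neg (Ne.symm hF)] at hg1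
        rw [if_neg (Ne.symm hmF)] at hg2
        have n1 : g1 ≠ 0 := sq_ne_CovK hg1 (mul_ne_zero (mul_ne_zero hF (by rw [zero_sub]; exact neg_ne_zero.2 hF)) hd1)
        have n2 : g2 ≠ 0 := sq_ne_CovK hg2 (mul_ne_zero (mul_ne_zero hF (by rw [zero_sub]; exact neg_ne_zero.2 hmF)) hd2)
        have t1 : d 1 * (F / g1) ^ 2 = -1 := by
          rw [div_pow, ← mul_div_assoc, div_eq_iff (pow_ne_zero 2 n1)]
          linear_combination - hg1
        have t2 : d 2 * (m * F / g2) ^ 2 = -m := by
          rw [div_pow, ← mul_div_assoc, div_eq_iff (pow_ne_zero 2 n2)]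
          linear_combination - m * hg2
        refine ⟨![0, F / g1, m * F / g2, 1], ?_, ?_, ?_⟩
        · intro h
          have := congrFun h 3
          exact one_ne_zero this
        · rw [qf4_CovK]
          show d 0 * 0 ^ 2 + -d 1 * (F / g1) ^ 2 + 0 * (m * F / g2) ^ 2 + -1 * 1 ^ 2 = 0
          linear_combination - t1
        · rw [qf4_CovK]
          show d 0 * 0 ^ 2 + 0 * (F / g1) ^ 2 + -d 2 * (m * F / g2) ^ 2 + -m * 1 ^ 2 = 0
          linear_combination - t2
      by_cases x1 : x = F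
      · subst x1
        rw [if_neg hF] at hg0
        rw [if_neg hne] at hg2
        have n0 : g0 ≠ 0 := sq_ne_CovK hg0 (mul_ne_zero (mul_ne_zero hF (by rw [sub_zero]; exact hF)) hd0)
        have n2 : g2 ≠ 0 := sq_ne_CovK hg2 (mul_ne_zero (mul_ne_zero hF (sub_ne_zero.2 hne)) hd2)
        have t0 : d 0 * (x / g0) ^ 2 = 1 := by
          rw [div_pow, ← mul_div_assoc, div_eq_iff (pow_ne_zero 2 n0)]
          linear_combination hg0
        have t2 : d 2 * ((1 - m) * x / g2) ^ 2 = 1 - m := by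
          rw [div_pow, ← mul_div_assoc, div_eq_iff (pow_ne_zero 2 n2)]
          linear_combination (1 - m) * hg2
        refine ⟨![x / g0, 0, (1 - m) * x / g2, 1], ?_, ?_, ?_⟩
        · intro h
          have := congrFun h 3
          exact one_ne_zero this
        · rw [qf4_CovK]
          show d 0 * (x / g0) ^ 2 + -d 1 * 0 ^ 2 + 0 * ((1 - m) * x / g2) ^ 2 + -1 * 1 ^ 2 = 0
          linear_combination t0
        · rw [qf4_CovK]
          show d 0 * (x / g0) ^ 2 + 0 * 0 ^ 2 + -d 2 * ((1 - m) * x / g2) ^ 2 + -m * 1 ^ 2 = 0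
          linear_combination t0 - t2
      by_cases x2 : x = m * F
      · subst x2
        rw [if_neg hmF] at hg0
        rw [if_neg (Ne.symm hne)] at hg1
        have n0 : g0 ≠ 0 := sq_ne_CovK hg0 (mul_ne_zero (mul_ne_zero hF (by rw [sub_zero]; exact hmF)) hd0)
        have n1 : g1 ≠ 0 := sq_ne_CovK hg1 (mul_ne_zero (mul_ne_zero hF (sub_ne_zero.2 (Ne.symm hne))) hd1)
        have t0 : d 0 * (m * F / g0) ^ 2 = m := by
          rw [div_pow, ← mul_div_assoc, div_eq_iff (pow_ne_zero 2 n0)]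
          linear_combination m * hg0
        have t1 : d 1 * ((m - 1) * F / g1) ^ 2 = m - 1 := by
          rw [div_pow, ← mul_div_assoc, div_eq_iff (pow_ne_zero 2 n1)]
          linear_combination (m - 1) * hg1
        refine ⟨![m * F / g0, (m - 1) * F / g1, 0, 1], ?_, ?_, ?_⟩
        · intro h
          have := congrFun h 3
          exact one_ne_zero this
        · rw [qf4_CovK]
          show d 0 * (m * F / g0) ^ 2 + -d 1 * ((m - 1) * F / g1) ^ 2 + 0 * 0 ^ 2 + -1 * 1 ^ 2 = 0
          linear_combination t0 - t1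
        · rw [qf4_CovK]
          show d 0 * (m * F / g0) ^ 2 + 0 * ((m - 1) * F / g1) ^ 2 + -d 2 * 0 ^ 2 + -m * 1 ^ 2 = 0
          linear_combination t0
      rw [if_neg x0] at hg0
      rw [if_neg x1] at hg1
      rw [if_neg x2] at hg2
      have t0 : d 0 * (g0 / (F * d 0)) ^ 2 = x / F := by
        rw [div_pow, pow_two g0, ← hg0]
        field_simp
        ring
      have t1 : d 1 * (g1 / (F * d 1)) ^ 2 = (x - F) / F := by
        rw [div_pow, pow_two g1, ← hg1]
        field_simp
      have t2 : d 2 * (g2 / (F * d 2)) ^ 2 = (x - m * F) / F := by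
        rw [div_pow, pow_two g2, ← hg2]
        field_simp
      have s1 : (x - F) / F = x / F - 1 := by rw [sub_div, div_self hF]
      have s2 : (x - m * F) / F = x / F - m := by rw [sub_div, mul_div_assoc, div_self hF, mul_one]
      refine ⟨![g0 / (F * d 0), g1 / (F * d 1), g2 / (F * d 2), 1], ?_, ?_, ?_⟩
      · intro h
        have := congrFun h 3
        exact one_ne_zero this
      · rw [qf4_CovK]
        show d 0 * (g0 / (F * d 0)) ^ 2 + -d 1 * (g1 / (F * d 1)) ^ 2 + 0 * (g2 / (F * d 2)) ^ 2 + -1 * 1 ^ 2 = 0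
        linear_combination t0 - t1 - s1
      · rw [qf4_CovK]
        show d 0 * (g0 / (F * d 0)) ^ 2 + 0 * (g1 / (F * d 1)) ^ 2 + -d 2 * (g2 / (F * d 2)) ^ 2 + -m * 1 ^ 2 = 0
        linear_combination t0 - t2 - s2

end Pool.Agent.Helper44.CMF
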