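import Pool.Agent.Helper44.CMF.StN

set_option autoImplicit false

open MvPolynomial

namespace Pool.Agent.Helper44.CMF

open Pool.Agent.Helper44.RED

private theorem sq_cancel_DatN {F : Type} [Field F] {a b : F} (ha : a ≠ 0) (h : IsSquare (a ^ 2 * b)) :
    IsSquare b := by
  obtain ⟨r, hr⟩ := h
  refine ⟨r / a, ?_⟩
  field_simp
  linear_combination hr

private theorem sq_cancel'_DatN {F : Type} [Field F] {a b : F} (ha : a ≠ 0) (hs : IsSquare a)
    (h : IsSquare (a * b)) : IsSquare b := by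
  obtain ⟨s, rfl⟩ := hs
  have hs0 : s ≠ 0 := fun h0 => ha (by rw [h0, mul_zero])
  refine sq_cancel_DatN hs0 ?_
  rw [pow_two]
  exact h

private theorem fN_ne_DatN {n s : ℕ} {k : Type} [Field k] (p : Fin s → AN n k) (hp : Irr p) :
    fN p ≠ 0 := by
  unfold fN
  refine Finset.prod_ne_zero_iff.2 fun j _ h => (hp.1 j).ne_zero ?_
  exact IsFractionRing.injective (AN n k) (KN n k) (by rw [h, map_zero])

private theorem fN_eq_DatN {n s : ℕ} {k : Type} [Field k] (p : Fin s → AN n k) :
    fN p = dN p (fun _ => true) := by simp [fN, dN]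

private theorem dN_false_DatN {n s : ℕ} {k : Type} [Field k] (p : Fin s → AN n k) :
    dN p (fun _ => false) = 1 := by simp [dN]

private theorem cN_inj_DatN (n : ℕ) {k : Type} [Field k] : Function.Injective (cN n (k := k)) := by
  intro a b h
  unfold cN at h
  exact C_injective (Fin n) k (IsFractionRing.injective (AN n k) (KN n k) h)

private theorem eK_inj_DatN {K : Type} [Field K] {F m : K} (hF : F ≠ 0) (h0 : m ≠ 0) (h1 : m ≠ 1) :
    Function.Injective (eK F m) := by
  intro i j h
  have a1 : m * F ≠ 0 := mul_ne_zero h0 hF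
  have a2 : m * F ≠ F := fun h => h1 (mul_right_cancel₀ hF (by rw [h, one_mul]))
  fin_cases i <;> fin_cases j <;> simp_all [eK]

theorem pDatN : StSupN → StIndN → StParN → StHzeN → StPrd → StHom → StKer → StDatN := by
  intro hSup hInd hPar hHze hPrd hHom hKer k _ _ n s _ h2 hs p hp m hm0 hm1
  have hcN0 : cN n (0 : k) = 0 := by unfold cN; rw [map_zero, map_zero]
  have hcN1 : cN n (1 : k) = 1 := by unfold cN; rw [map_one, map_one]
  have h2K : (2 : KN n k) ≠ 0 := by
    intro h
    apply h2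
    apply cN_inj_DatN n
    rw [hcN0]
    unfold cN
    rw [map_ofNat, map_ofNat]
    exact h
  have hm0' : cN n m ≠ 0 := fun h => hm0 (cN_inj_DatN n (by rw [h, hcN0]))
  have hm1' : cN n m ≠ 1 := fun h => hm1 (cN_inj_DatN n (by rw [h, hcN1]))
  have hf : fN p ≠ 0 := fN_ne_DatN p hp
  have hinj : Function.Injective (eK (fN p) (cN n m)) := eK_inj_DatN hf hm0' hm1'
  have hne : ∀ (P : (W (eK (fN p) (cN n m))).Point) (i : Fin 3), dl (eK (fN p) (cN n m)) i P ≠ 0 :=
    fun P i => (hPrd (KN n k) (eK (fN p) (cN n m)) hinj P).1 i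
  choose c hc using fun P i => hSup k n s h2 p hp m hm0 hm1 P i
  have huniq : ∀ (P : (W (eK (fN p) (cN n m))).Point) (M : Fin 3 → Fin s → Bool),
      ClassN p m P M → c P = M := by
    intro P M hM
    funext i j
    have h1 := hM i
    have h3 := hc P i
    have h4 : IsSquare ((fN p * dl (eK (fN p) (cN n m)) i P) ^ 2 * (dN p (M i) * dN p (c P i))) := by
      have := h1.mul h3
      have e : fN p * dl (eK (fN p) (cN n m)) i P * dN p (M i) *
          (fN p * dl (eK (fN p) (cN n m)) i P * dN p (c P i)) =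
          (fN p * dl (eK (fN p) (cN n m)) i P) ^ 2 * (dN p (M i) * dN p (c P i)) := by ring
      rwa [e] at this
    have h5 := sq_cancel_DatN (mul_ne_zero hf (hne P i)) h4
    have h6 := (hInd k n s p hp (M i) (c P i) (fun _ => false) (fun _ => false)).1
      (by rw [dN_false_DatN, mul_one, mul_one]; exact h5) j
    revert h6
    cases M i j <;> cases c P i j <;> simp
  refine ⟨c, ⟨?_, ?_, ?_, ?_, ?_, ?_, ?_⟩, ?_⟩
  · intro P Q
    exact hPar k n h2 (fN p) m hf hm0 hm1 P Q
  · intro P hP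
    exact ((hHze k n s h2 hs p hp m hm0 hm1).1 P hP).1
  · intro P hP
    obtain ⟨-, M, hR, -, hM⟩ := (hHze k n s h2 hs p hp m hm0 hm1).1 P hP
    rw [huniq P M hM]
    exact hR
  · intro P j
    obtain ⟨-, hs⟩ := hPrd (KN n k) (eK (fN p) (cN n m)) hinj P
    rw [Fin.prod_univ_three] at hs
    have h1 := ((hc P 0).mul (hc P 1)).mul (hc P 2)
    have e : fN p * dl (eK (fN p) (cN n m)) 0 P * dN p (c P 0) *
        (fN p * dl (eK (fN p) (cN n m)) 1 P * dN p (c P 1)) *
        (fN p * dl (eK (fN p) (cN n m)) 2 P * dN p (c P 2)) =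
        (fN p) ^ 2 * ((dl (eK (fN p) (cN n m)) 0 P * dl (eK (fN p) (cN n m)) 1 P *
          dl (eK (fN p) (cN n m)) 2 P) *
          (fN p * dN p (c P 0) * dN p (c P 1) * dN p (c P 2))) := by ring
    rw [e] at h1
    have h3 := sq_cancel_DatN hf h1
    have h4 := sq_cancel'_DatN (mul_ne_zero (mul_ne_zero (hne P 0) (hne P 1)) (hne P 2)) hs h3
    have h4' : IsSquare (dN p (fun _ => true) * dN p (c P 0) * dN p (c P 1) * dN p (c P 2)) := by
      rw [← fN_eq_DatN]; exact h4
    have h6 := (hInd k n s p hp (fun _ => true) (c P 0) (c P 1) (c P 2)).1 h4' j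
    revert h6
    show _ → xor (xor (c P 0 j) (c P 1 j)) (c P 2 j) = true
    cases c P 0 j <;> cases c P 1 j <;> cases c P 2 j <;> simp
  · intro P Q i j
    have hs := hHom (KN n k) h2K (eK (fN p) (cN n m)) hinj i P Q
    have h1 := ((hc P i).mul (hc Q i)).mul (hc (P + Q) i)
    have e : fN p * dl (eK (fN p) (cN n m)) i P * dN p (c P i) *
        (fN p * dl (eK (fN p) (cN n m)) i Q * dN p (c Q i)) *
        (fN p * dl (eK (fN p) (cN n m)) i (P + Q) * dN p (c (P + Q) i)) =
        (fN p) ^ 2 * ((dl (eK (fN p) (cN n m)) i P * dl (eK (fN p) (cN n m)) i Q *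
          dl (eK (fN p) (cN n m)) i (P + Q)) *
          (fN p * dN p (c P i) * dN p (c Q i) * dN p (c (P + Q) i))) := by ring
    rw [e] at h1
    have h3 := sq_cancel_DatN hf h1
    have h4 := sq_cancel'_DatN (mul_ne_zero (mul_ne_zero (hne P i) (hne Q i)) (hne (P + Q) i)) hs h3
    have h4' : IsSquare (dN p (fun _ => true) * dN p (c P i) * dN p (c Q i) * dN p (c (P + Q) i)) := by
      rw [← fN_eq_DatN]; exact h4
    have h6 := (hInd k n s p hp (fun _ => true) (c P i) (c Q i) (c (P + Q) i)).1 h4' j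
    revert h6
    cases c P i j <;> cases c Q i j <;> cases c (P + Q) i j <;> simp
  · intro P hP
    refine hKer (KN n k) h2K (eK (fN p) (cN n m)) hinj P fun i => ?_
    have h1 := hc P i
    have h3 : c P i = fun _ => true := funext fun j => hP i j
    rw [h3, ← fN_eq_DatN] at h1
    have e : fN p * dl (eK (fN p) (cN n m)) i P * fN p = (fN p) ^ 2 * dl (eK (fN p) (cN n m)) i P := by
      ring
    rw [e] at h1
    exact sq_cancel_DatN hf h1
  · intro M hO hR
    obtain ⟨P, hP, hM⟩ := (hHze k n s h2 hs p hp m hm0 hm1).2 M hR hO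
    exact ⟨P, hP, huniq P M hM⟩
  · intro P M
    exact ⟨fun h => huniq P M h, fun h => h ▸ fun i => hc P i⟩

end Pool.Agent.Helper44.CMF
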