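import Pool.Agent.Helper44.CMF.StN

/-!
# Project CMF, module HZEN
-/

set_option autoImplicit false

open MvPolynomial

namespace Pool.Agent.Helper44.CMF

open Pool.Agent.Helper44.RED

variable {k : Type} [Field k]

private theorem cNmul_HzeN (n : ℕ) (a b : k) : cN n (a * b) = cN n a * cN n b := by
  simp [cN, map_mul]

private theorem cNsub_HzeN (n : ℕ) (a b : k) : cN n (a - b) = cN n a - cN n b := by
  simp [cN, map_sub]

private theorem cN0_HzeN (n : ℕ) : cN n (0 : k) = 0 := by
  simp [cN]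

private theorem cN1_HzeN (n : ℕ) : cN n (1 : k) = 1 := by
  simp [cN]

private theorem cNinj_HzeN (n : ℕ) : Function.Injective (cN n : k → KN n k) := by
  intro a b h
  unfold cN at h
  exact C_injective (Fin n) k (IsFractionRing.injective (AN n k) (KN n k) h)

private theorem two_HzeN (n : ℕ) (h2 : (2 : k) ≠ 0) : (2 : KN n k) ≠ 0 := by
  intro h
  apply h2
  apply cNinj_HzeN n
  rw [cN0_HzeN, ← h]
  simp only [cN, map_ofNat]

private theorem csq_HzeN [IsAlgClosed k] (n : ℕ) (c : k) : ∃ s : KN n k, cN n c = s * s := by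
  obtain ⟨z, hz⟩ := IsAlgClosed.exists_pow_nat_eq c (n := 2) (by norm_num)
  exact ⟨cN n z, by rw [← cNmul_HzeN, ← hz, sq]⟩

private theorem dN_ne_HzeN {n s : ℕ} {p : Fin s → AN n k} (hp : Irr p) (r : Fin s → Bool) :
    dN p r ≠ 0 := by
  unfold dN
  refine Finset.prod_ne_zero_iff.2 fun j _ => ?_
  split
  · intro h
    exact (hp.1 j).ne_zero (IsFractionRing.injective (AN n k) (KN n k) (by rw [h, map_zero]))
  · exact one_ne_zero

private theorem fN_eq_HzeN {n s : ℕ} (p : Fin s → AN n k) : fN p = dN p (fun _ => true) := by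
  simp [fN, dN]

private theorem dN_false_HzeN {n s : ℕ} (p : Fin s → AN n k) : dN p (fun _ => false) = 1 := by
  simp [dN]

private theorem fN_ne_HzeN {n s : ℕ} {p : Fin s → AN n k} (hp : Irr p) : fN p ≠ 0 := by
  rw [fN_eq_HzeN]
  exact dN_ne_HzeN hp _

private theorem eK_HzeN (n : ℕ) (F : KN n k) (m : k) (i : Fin 3) :
    eK F (cN n m) i = cN n (rt m i) * F := by
  fin_cases i <;> simp [eK, rt, cN0_HzeN, cN1_HzeN]

private theorem eKinj_HzeN (n : ℕ) {F : KN n k} (hF : F ≠ 0) {m : k} (h0 : m ≠ 0) (h1 : m ≠ 1) :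
    Function.Injective (eK F (cN n m)) := by
  intro i j h
  rw [eK_HzeN, eK_HzeN] at h
  exact rt_inj h0 h1 (cNinj_HzeN n (mul_right_cancel₀ hF h))

private theorem prod0_HzeN {K : Type} [Field K] (e : Fin 3 → K) (i : Fin 3) :
    (e i - e 0) * (e i - e 1) * (e i - e 2) = 0 := by
  fin_cases i <;> simp

private theorem ns_HzeN {n : ℕ} {F : KN n k} (hF : F ≠ 0) {m : k} (h2 : (2 : k) ≠ 0) (h0 : m ≠ 0)
    (h1 : m ≠ 1) (i : Fin 3) : (W (eK F (cN n m))).Nonsingular (eK F (cN n m) i) 0 :=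
  (W_nonsingular (two_HzeN n h2) _ (eKinj_HzeN n hF h0 h1) _ 0).2 (by
    rw [prod0_HzeN]; ring)

/-- class of a point of order two -/
private theorem cls_HzeN [IsAlgClosed k] {n s : ℕ} [DecidableEq (KN n k)] {p : Fin s → AN n k}
    (hp : Irr p) {m : k} (h0 : m ≠ 0) (h1 : m ≠ 1) (i : Fin 3) (y : KN n k)
    (hn : (W (eK (fN p) (cN n m))).Nonsingular (eK (fN p) (cN n m) i) y) :
    ClassN p m (.some (eK (fN p) (cN n m) i) y hn) (fun a _ => decide (a = i)) := by
  intro a
  by_cases ha : a = i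
  · subst ha
    have e1 : dl (eK (fN p) (cN n m)) a (.some (eK (fN p) (cN n m) a) y hn) =
        cN n ((rt m a - rt m (a + 1)) * (rt m a - rt m (a + 2))) * fN p ^ 2 := by
      show (if eK (fN p) (cN n m) a = eK (fN p) (cN n m) a then _ else _) = _
      rw [if_pos rfl]
      simp only [eK_HzeN, cNmul_HzeN, cNsub_HzeN]
      ring
    have e2 : dN p (fun _ => decide (a = a)) = fN p := by
      rw [decide_eq_true rfl]
      exact (fN_eq_HzeN p).symm
    rw [e1, e2]
    obtain ⟨s, hs⟩ := csq_HzeN n ((rt m a - rt m (a + 1)) * (rt m a - rt m (a + 2)))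
    rw [hs]
    exact ⟨s * fN p ^ 2, by ring⟩
  · have hne : eK (fN p) (cN n m) i ≠ eK (fN p) (cN n m) a :=
      fun h => ha (eKinj_HzeN n (fN_ne_HzeN hp) h0 h1 h).symm
    have e1 : dl (eK (fN p) (cN n m)) a (.some (eK (fN p) (cN n m) i) y hn) =
        cN n (rt m i - rt m a) * fN p := by
      show (if eK (fN p) (cN n m) i = eK (fN p) (cN n m) a then _ else _) = _
      rw [if_neg hne]
      simp only [eK_HzeN, cNsub_HzeN]
      ring
    have e2 : dN p (fun _ => decide (a = i)) = 1 := by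
      rw [decide_eq_false ha]
      exact dN_false_HzeN p
    rw [e1, e2]
    obtain ⟨s, hs⟩ := csq_HzeN n (rt m i - rt m a)
    rw [hs]
    exact ⟨s * fN p, by ring⟩

private theorem cls0_HzeN {n s : ℕ} [DecidableEq (KN n k)] (p : Fin s → AN n k) (m : k) :
    ClassN p m (0 : (W (eK (fN p) (cN n m))).Point) (fun _ _ => true) := by
  intro i
  have e1 : dl (eK (fN p) (cN n m)) i (0 : (W (eK (fN p) (cN n m))).Point) = 1 := rfl
  rw [e1, ← fN_eq_HzeN p]
  exact ⟨fN p, by ring⟩

private theorem mat_HzeN {s : ℕ} (i : Fin 3) :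
    RowN (fun (a : Fin 3) (_ : Fin s) => decide (a = i)) ∧
    OddN (fun (a : Fin 3) (_ : Fin s) => decide (a = i)) := by
  refine ⟨fun _ _ _ => rfl, fun _ => ?_⟩
  show xor (xor (decide (0 = i)) (decide (1 = i))) (decide (2 = i)) = true
  revert i
  decide

private theorem mat2_HzeN {s : ℕ} (j0 : Fin s) (M : Fin 3 → Fin s → Bool) (hr : RowN M)
    (ho : OddN M) : M = (fun _ _ => true) ∨ ∃ i : Fin 3, M = fun a _ => decide (a = i) := by
  have hM : M = fun a _ => M a j0 := by
    funext a b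
    exact hr a b j0
  have ho0 := ho j0
  have key : ∀ v : Fin 3 → Bool, xor (xor (v 0) (v 1)) (v 2) = true →
      v = (fun _ => true) ∨ ∃ i : Fin 3, v = fun a => decide (a = i) := by decide
  rcases key (fun a => M a j0) ho0 with h | ⟨i, h⟩
  · left
    rw [hM]
    funext a b
    exact congrFun h a
  · right
    refine ⟨i, ?_⟩
    rw [hM]
    funext a b
    exact congrFun h a

theorem pHzeN : StIndN → StRdegN → StHzeN := by
  intro hInd hRdeg k _ _ n s _ h2 hs1 p hp m hm0 hm1
  have hF := fN_ne_HzeN hp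
  have j0 : Fin s := ⟨0, hs1⟩
  constructor
  · intro P hP
    rcases P with _ | ⟨x, y, hn⟩
    · refine ⟨add_zero _, fun _ _ => true, fun _ _ _ => rfl, fun _ => rfl, cls0_HzeN p m⟩
    · obtain ⟨c, hc⟩ := (hRdeg k n (x / fN p)).1 hP
      have hx : x = cN n c * fN p := by
        rw [← hc, div_mul_cancel₀ _ hF]
      have heq := (W_nonsingular (two_HzeN n h2) _ (eKinj_HzeN n hF hm0 hm1) x y).1 hn
      have hcr : ∃ i, c = rt m i := by
        by_contra hcon
        push Not at hcon
        have hκ : (c - rt m 0) * (c - rt m 1) * (c - rt m 2) ≠ 0 :=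
          mul_ne_zero (mul_ne_zero (sub_ne_zero.2 (hcon 0)) (sub_ne_zero.2 (hcon 1)))
            (sub_ne_zero.2 (hcon 2))
        obtain ⟨s', hs⟩ := csq_HzeN n ((c - rt m 0) * (c - rt m 1) * (c - rt m 2))
        have hs0 : s' ≠ 0 := by
          rintro rfl
          rw [mul_zero] at hs
          exact hκ (cNinj_HzeN n (by rw [hs, cN0_HzeN]))
        have hy : y ^ 2 = s' * s' * fN p ^ 3 := by
          rw [heq, ← hs, hx]
          simp only [eK_HzeN, cNmul_HzeN, cNsub_HzeN]
          ring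
        have hsq : IsSquare (fN p) := by
          refine ⟨y / (s' * fN p), ?_⟩
          field_simp
          rw [hy]
          ring
        have h3 := (hInd k n s p hp (fun _ => true) (fun _ => false) (fun _ => false)
          (fun _ => false)).1 (by
            rw [dN_false_HzeN, ← fN_eq_HzeN, mul_one, mul_one, mul_one]
            exact hsq)
        exact absurd (h3 j0) (by decide)
      obtain ⟨i, rfl⟩ := hcr
      have hxe : x = eK (fN p) (cN n m) i := by rw [eK_HzeN]; exact hx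
      subst hxe
      have hy : y = 0 := by
        rw [prod0_HzeN] at heq
        exact pow_eq_zero_iff (two_ne_zero) |>.1 heq
      subst hy
      refine ⟨?_, _, (mat_HzeN i).1, (mat_HzeN i).2, cls_HzeN hp hm0 hm1 i 0 hn⟩
      rw [add_eq_zero_iff_eq_neg, WeierstrassCurve.Affine.Point.neg_some]
      congr 1
      rw [W_neg, neg_zero]
  · intro M hr ho
    rcases mat2_HzeN j0 M hr ho with rfl | ⟨i, rfl⟩
    · exact ⟨0, rfl, cls0_HzeN p m⟩
    · refine ⟨.some (eK (fN p) (cN n m) i) 0 (ns_HzeN hF h2 hm0 hm1 i), ?_,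
        cls_HzeN hp hm0 hm1 i 0 _⟩
      show degN (eK (fN p) (cN n m) i / fN p) = 0
      refine (hRdeg k n _).2 ⟨rt m i, ?_⟩
      rw [eK_HzeN, mul_div_cancel_right₀ _ hF]

end Pool.Agent.Helper44.CMF
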