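import Pool.Agent.Helper44.CMF.StN

/-!
# Project CMF, module INDN: the `p_j` are independent modulo squares
-/

set_option autoImplicit false

open MvPolynomial

namespace Pool.Agent.Helper44.CMF

open Pool.Agent.Helper44.RED

/-- exponent of the `j`-th factor -/
private def nn_IndN {s : ℕ} (m1 m2 m3 m4 : Fin s → Bool) (j : Fin s) : ℕ :=
  (m1 j).toNat + (m2 j).toNat + (m3 j).toNat + (m4 j).toNat

private theorem even_IndN (a b c d : Bool) :
    Even (a.toNat + b.toNat + c.toNat + d.toNat) ↔ xor (xor a b) (xor c d) = false := by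
  revert a b c d
  decide

private theorem dN_pow_IndN {k : Type} [Field k] {n s : ℕ} (p : Fin s → AN n k) (m : Fin s → Bool) :
    dN p m = ∏ j, algebraMap (AN n k) (KN n k) (p j) ^ (m j).toNat := by
  unfold dN
  refine Finset.prod_congr rfl (fun j _ => ?_)
  cases m j <;> simp

private theorem prod_IndN {k : Type} [Field k] {n s : ℕ} (p : Fin s → AN n k)
    (m1 m2 m3 m4 : Fin s → Bool) :
    dN p m1 * dN p m2 * dN p m3 * dN p m4 =
      ∏ j, algebraMap (AN n k) (KN n k) (p j) ^ (nn_IndN m1 m2 m3 m4 j) := by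
  simp only [dN_pow_IndN, ← Finset.prod_mul_distrib, nn_IndN, pow_add]

private theorem mult_IndN {k : Type} [Field k] {n s : ℕ} {p : Fin s → AN n k} (hp : Irr p)
    (e : Fin s → ℕ) (i : Fin s) :
    emultiplicity (p i) (∏ j, p j ^ e j) = (e i : ℕ∞) := by
  classical
  have hpi : Prime (p i) := (hp.1 i).prime
  rw [Finset.emultiplicity_prod hpi, Finset.sum_eq_single i]
  · rw [emultiplicity_pow hpi]
    have h1 : emultiplicity (p i) (p i) = 1 :=
      (FiniteMultiplicity.of_not_isUnit hpi.not_isUnit hpi.ne_zero).emultiplicity_self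
    rw [h1, mul_one]
  · intro j _ hj
    rw [emultiplicity_pow hpi]
    have h0 : emultiplicity (p i) (p j) = 0 := by
      rw [emultiplicity_eq_zero]
      intro hd
      exact hp.2 i j (Ne.symm hj) ((hp.1 i).associated_of_dvd (hp.1 j) hd)
    rw [h0, mul_zero]
  · intro h
    exact (h (Finset.mem_univ i)).elim

theorem pIndN : StIndN := by
  intro k _ n s p hp m1 m2 m3 m4
  classical
  rw [prod_IndN]
  have hev : (∀ j, xor (xor (m1 j) (m2 j)) (xor (m3 j) (m4 j)) = false) ↔
      ∀ j, Even (nn_IndN m1 m2 m3 m4 j) := by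
    refine forall_congr' (fun j => ?_)
    rw [nn_IndN, even_IndN]
  rw [hev]
  constructor
  · rintro ⟨t, ht⟩ i
    set e := nn_IndN m1 m2 m3 m4 with he
    obtain ⟨u, v, hv, hs⟩ := IsFractionRing.div_surjective (A := AN n k) t
    have hv0 : v ≠ 0 := nonZeroDivisors.ne_zero hv
    have hvK : algebraMap (AN n k) (KN n k) v ≠ 0 := by
      intro h
      exact hv0 (IsFractionRing.injective (AN n k) (KN n k) (by rw [h, map_zero]))
    have h2 : algebraMap (AN n k) (KN n k) ((∏ j, p j ^ e j) * v ^ 2) =
        algebraMap (AN n k) (KN n k) (u ^ 2) := by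
      rw [map_mul, map_pow, map_pow, map_prod]
      have h3 : (∏ j, algebraMap (AN n k) (KN n k) (p j ^ e j)) = t * t := by
        rw [← ht]
        refine Finset.prod_congr rfl (fun j _ => ?_)
        rw [map_pow]
      rw [h3, ← hs]
      field_simp
    have h5 := IsFractionRing.injective (AN n k) (KN n k) h2
    have hP : (∏ j, p j ^ e j) ≠ 0 :=
      Finset.prod_ne_zero_iff.2 fun j _ => pow_ne_zero _ (hp.1 j).ne_zero
    have hu0 : u ≠ 0 := by
      rintro rfl
      have : (∏ j, p j ^ e j) * v ^ 2 = 0 := by rw [h5]; simp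
      exact (mul_ne_zero hP (pow_ne_zero 2 hv0)) this
    have hpi : Prime (p i) := (hp.1 i).prime
    have h6 : emultiplicity (p i) ((∏ j, p j ^ e j) * v ^ 2) = emultiplicity (p i) (u ^ 2) := by
      rw [h5]
    rw [emultiplicity_mul hpi, mult_IndN hp, emultiplicity_pow hpi, emultiplicity_pow hpi,
      (FiniteMultiplicity.of_not_isUnit hpi.not_isUnit hv0).emultiplicity_eq_multiplicity,
      (FiniteMultiplicity.of_not_isUnit hpi.not_isUnit hu0).emultiplicity_eq_multiplicity] at h6
    have h7 : e i + 2 * multiplicity (p i) v = 2 * multiplicity (p i) u := by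
      exact_mod_cast h6
    rw [Nat.even_iff]
    omega
  · intro h
    choose r hr using h
    refine ⟨∏ j, algebraMap (AN n k) (KN n k) (p j) ^ r j, ?_⟩
    rw [← Finset.prod_mul_distrib]
    refine Finset.prod_congr rfl (fun j _ => ?_)
    rw [hr j, pow_add]

end Pool.Agent.Helper44.CMF
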