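import Pool.Agent.Helper44.CMF.StN

/-!
# Project CMF, module PD1N: the degree of a vector of rational functions in several variables is well defined
-/

set_option autoImplicit false

open MvPolynomial

namespace Pool.Agent.Helper44.CMF

open Pool.Agent.Helper44.RED

private theorem const_of_no_prime_PD1N {k : Type} [Field k] {n : ℕ} (A : AN n k) (hA : A ≠ 0)
    (h : ∀ π : AN n k, Prime π → ¬ π ∣ A) : ∃ α : k, α ≠ 0 ∧ A = C α := by
  have hu : IsUnit A := by
    by_contra hu
    obtain ⟨π, hπ, hd⟩ := WfDvdMonoid.exists_irreducible_factor hu hA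
    exact h π hπ.prime hd
  obtain ⟨h1, h2⟩ := MvPolynomial.isUnit_iff_eq_C_of_isReduced.1 hu
  exact ⟨h1, h2.1.ne_zero, h2.2⟩

private theorem le_PD1N {k : Type} [Field k] {n r : ℕ} (p p' : Fin r → AN n k) (d d' : ℕ) (α β : k)
    (hα : α ≠ 0) (h : ∀ i, C β * p' i = C α * p i)
    (hd' : ∀ i, (p' i).totalDegree ≤ d') (i : Fin r) (hi : homogeneousComponent d (p i) ≠ 0) : d ≤ d' := by
  have h1 : (C β : AN n k) * homogeneousComponent d (p' i) = C α * homogeneousComponent d (p i) := by
    rw [← homogeneousComponent_C_mul, h i, homogeneousComponent_C_mul]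
  have h2 : homogeneousComponent d (p' i) ≠ 0 := by
    intro h0
    rw [h0, mul_zero] at h1
    exact mul_ne_zero (by rwa [Ne, C_eq_zero]) hi h1.symm
  by_contra hlt
  exact h2 (homogeneousComponent_eq_zero _ _ (lt_of_le_of_lt (hd' i) (not_le.1 hlt)))

theorem pPD1N : StPD1N := by
  rintro k _ n r v d ⟨c, hc, p, hp, hz, hd, i0, hi0⟩
  refine ⟨?_, ?_⟩
  · rintro d' ⟨c', hc', p', hp', hz', hd', i1, hi1⟩
    have hr : c' / c ≠ 0 := div_ne_zero hc' hc
    obtain ⟨A, B, hAB, hB0, hcr⟩ : ∃ A B : AN n k, IsRelPrime A B ∧ B ≠ 0 ∧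
        algebraMap (AN n k) (KN n k) B * c' = algebraMap (AN n k) (KN n k) A * c := by
      refine ⟨IsFractionRing.num (AN n k) (c' / c), (IsFractionRing.den (AN n k) (c' / c) : AN n k),
        IsFractionRing.num_den_reduced (AN n k) (c' / c), nonZeroDivisors.coe_ne_zero _, ?_⟩
      have h1 := IsFractionRing.mk'_num_den' (AN n k) (c' / c)
      have hB1 : algebraMap (AN n k) (KN n k) (IsFractionRing.den (AN n k) (c' / c) : AN n k) ≠ 0 := by
        intro h0
        exact nonZeroDivisors.coe_ne_zero (IsFractionRing.den (AN n k) (c' / c))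
          ((map_eq_zero_iff _ (IsFractionRing.injective (AN n k) (KN n k))).1 h0)
      rw [div_eq_div_iff hB1 hc] at h1
      rw [h1, mul_comm]
    have hA0 : A ≠ 0 := by
      rintro rfl
      rw [map_zero, zero_mul] at hcr
      rcases mul_eq_zero.1 hcr with h1 | h1
      · exact hB0 ((map_eq_zero_iff _ (IsFractionRing.injective (AN n k) (KN n k))).1 h1)
      · exact hc' h1
    have key : ∀ i, B * p' i = A * p i := by
      intro i
      apply IsFractionRing.injective (AN n k) (KN n k)
      rw [map_mul, map_mul, ← hp' i, ← hp i, ← mul_assoc, ← mul_assoc, hcr]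
    obtain ⟨α, hα, hAα⟩ := const_of_no_prime_PD1N A hA0 (by
      intro π hπ hdA
      obtain ⟨i, hi⟩ := hz' π hπ
      have h2 : π ∣ B * p' i := by
        rw [key i]
        exact Dvd.dvd.mul_right hdA _
      rcases hπ.dvd_or_dvd h2 with h3 | h3
      · exact hπ.not_isUnit (hAB hdA h3)
      · exact hi h3)
    obtain ⟨β, hβ, hBβ⟩ := const_of_no_prime_PD1N B hB0 (by
      intro π hπ hdB
      obtain ⟨i, hi⟩ := hz π hπ
      have h2 : π ∣ A * p i := by
        rw [← key i]
        exact Dvd.dvd.mul_right hdB _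
      rcases hπ.dvd_or_dvd h2 with h3 | h3
      · exact hπ.not_isUnit (hAB h3 hdB)
      · exact hi h3)
    rw [hAα, hBβ] at key
    exact le_antisymm (le_PD1N p p' d d' α β hα key hd' i0 hi0)
      (le_PD1N p' p d' d β α hβ (fun i => (key i).symm) hd i1 hi1)
  · intro a ha
    refine ⟨c / a, div_ne_zero hc ha, p, fun i => ?_, hz, hd, i0, hi0⟩
    rw [← hp i, ← mul_assoc, div_mul_cancel₀ _ ha]

end Pool.Agent.Helper44.CMF
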