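import Pool.Agent.Helper44.CMF.StN

/-!
# Project CMF (MP_1dc56d), module PD2N: the degree of the vector of the `x`-coordinate
-/

set_option autoImplicit false

open MvPolynomial

namespace Pool.Agent.Helper44.CMF

open Pool.Agent.Helper44.RED

private theorem hc_PD2N {k : Type} [Field k] {n : ℕ} {f : AN n k} (hf : f ≠ 0) :
    homogeneousComponent f.totalDegree f ≠ 0 := by
  have hne : f.support.Nonempty := by
    rw [Finset.nonempty_iff_ne_empty, Ne, MvPolynomial.support_eq_empty]
    exact hf
  obtain ⟨m, hm, hmax⟩ := Finset.exists_mem_eq_sup f.support hne (fun s => s.sum fun _ e => e)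
  have hdeg : m.degree = f.totalDegree := by
    rw [MvPolynomial.totalDegree, hmax]
    rfl
  intro h0
  have h1 := congrArg (coeff m) h0
  rw [coeff_homogeneousComponent, if_pos hdeg, coeff_zero] at h1
  exact (mem_support_iff.1 hm) h1

private theorem pd_u_PD2N {k : Type} [Field k] {n : ℕ} (u : KN n k) :
    PDN (![u, 1] : Fin 2 → KN n k) (degN u) := by
  have hd : (IsFractionRing.den (AN n k) u : AN n k) ≠ 0 :=
    nonZeroDivisors.coe_ne_zero _
  have hd0 : algebraMap (AN n k) (KN n k) (IsFractionRing.den (AN n k) u : AN n k) ≠ 0 := by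
    rw [Ne, map_eq_zero_iff _ (IsFractionRing.injective (AN n k) (KN n k))]
    exact hd
  refine ⟨algebraMap (AN n k) (KN n k) (IsFractionRing.den (AN n k) u : AN n k), hd0,
    ![IsFractionRing.num (AN n k) u, (IsFractionRing.den (AN n k) u : AN n k)], ?_, ?_, ?_, ?_⟩
  · intro i
    fin_cases i
    · change algebraMap (AN n k) (KN n k) (IsFractionRing.den (AN n k) u : AN n k) * u =
        algebraMap (AN n k) (KN n k) (IsFractionRing.num (AN n k) u)
      have h := IsFractionRing.mk'_num_den' (AN n k) u
      rw [div_eq_iff hd0] at h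
      rw [h]
      ring
    · change algebraMap (AN n k) (KN n k) (IsFractionRing.den (AN n k) u : AN n k) * 1 =
        algebraMap (AN n k) (KN n k) (IsFractionRing.den (AN n k) u : AN n k)
      rw [mul_one]
  · intro π hπ
    by_contra hcon
    push Not at hcon
    have h0 : π ∣ IsFractionRing.num (AN n k) u := hcon 0
    have h1 : π ∣ (IsFractionRing.den (AN n k) u : AN n k) := hcon 1
    exact hπ.not_isUnit (IsFractionRing.num_den_reduced (AN n k) u h0 h1)
  · intro i
    fin_cases i
    · exact le_max_left _ _
    · exact le_max_right _ _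
  · by_cases h : (IsFractionRing.num (AN n k) u).totalDegree ≤
        (IsFractionRing.den (AN n k) u : AN n k).totalDegree
    · refine ⟨1, ?_⟩
      change homogeneousComponent (max (IsFractionRing.num (AN n k) u).totalDegree
        (IsFractionRing.den (AN n k) u : AN n k).totalDegree)
        (IsFractionRing.den (AN n k) u : AN n k) ≠ 0
      rw [max_eq_right h]
      exact hc_PD2N hd
    · refine ⟨0, ?_⟩
      change homogeneousComponent (max (IsFractionRing.num (AN n k) u).totalDegree
        (IsFractionRing.den (AN n k) u : AN n k).totalDegree)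
        (IsFractionRing.num (AN n k) u) ≠ 0
      rw [max_eq_left (by omega)]
      apply hc_PD2N
      intro h0
      rw [h0, totalDegree_zero] at h
      omega

theorem pPD2N : StPD2N := by
  intro k _ n F m P
  cases P with
  | zero =>
    refine ⟨1, one_ne_zero, ![1, 0], ?_, ?_, ?_, ?_⟩
    · intro i
      fin_cases i
      · change (1 : KN n k) * 1 = algebraMap (AN n k) (KN n k) 1
        rw [map_one, mul_one]
      · change (1 : KN n k) * 0 = algebraMap (AN n k) (KN n k) 0
        rw [map_zero, mul_zero]
    · intro π hπ
      refine ⟨0, ?_⟩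
      change ¬ π ∣ (1 : AN n k)
      intro h
      exact hπ.not_isUnit (isUnit_of_dvd_one h)
    · intro i
      fin_cases i
      · change (1 : AN n k).totalDegree ≤ 0
        rw [totalDegree_one]
      · change (0 : AN n k).totalDegree ≤ 0
        rw [totalDegree_zero]
    · refine ⟨0, ?_⟩
      change homogeneousComponent 0 (1 : AN n k) ≠ 0
      have h := hc_PD2N (k := k) (n := n) (f := 1) one_ne_zero
      rwa [totalDegree_one] at h
  | some x y h => exact pd_u_PD2N (x / F)

end Pool.Agent.Helper44.CMF
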