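import Pool.Agent.Helper44.CMF.StN

/-!
# Project CMF (MP_1dc56d), module PD3N: degree of the symmetric product of two vectors
-/

set_option autoImplicit false

open MvPolynomial

namespace Pool.Agent.Helper44.CMF

open Pool.Agent.Helper44.RED

/-- abstract form: `Z` is a prime property (closed under sums) -/
private theorem key_PD3N {A : Type} [CommRing A] (Z : A → Prop)
    (hmul : ∀ x y, Z (x * y) → Z x ∨ Z y) (habs : ∀ x y, Z x → Z (x * y))
    (hsub : ∀ x y, Z (x + y) → Z x → Z y)
    (a b : Fin 2 → A) (ha : ∃ i, ¬ Z (a i))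
    (hb : ∃ i, ¬ Z (b i)) : ∃ i, ¬ Z (sm2 a b i) := by
  by_contra hc
  push Not at hc
  have h0 : Z (a 1 * b 1) := by simpa [sm2] using hc 0
  have h1 : Z (a 0 * b 1 + a 1 * b 0) := by simpa [sm2] using hc 1
  have h2 : Z (a 0 * b 0) := by simpa [sm2] using hc 2
  have ha' : ¬ Z (a 0) ∨ ¬ Z (a 1) := by
    obtain ⟨i, hi⟩ := ha
    fin_cases i
    · exact Or.inl hi
    · exact Or.inr hi
  have hb' : ¬ Z (b 0) ∨ ¬ Z (b 1) := by
    obtain ⟨i, hi⟩ := hb
    fin_cases i
    · exact Or.inl hi
    · exact Or.inr hi
  rcases hmul _ _ h0 with h | h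
  · -- `Z (a 1)`
    have h3 : Z (a 0 * b 1) := by
      have e : a 0 * b 1 + a 1 * b 0 = a 1 * b 0 + a 0 * b 1 := by ring
      rw [e] at h1
      exact hsub _ _ h1 (habs _ _ h)
    rcases ha' with h' | h'
    · rcases hmul _ _ h2 with h4 | h4
      · exact h' h4
      · rcases hmul _ _ h3 with h5 | h5
        · exact h' h5
        · rcases hb' with h6 | h6
          · exact h6 h4
          · exact h6 h5
    · exact h' h
  · -- `Z (b 1)`
    have h3 : Z (a 1 * b 0) := by
      have h4 : Z (a 0 * b 1) := by
        rw [mul_comm]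
        exact habs _ _ h
      exact hsub _ _ h1 h4
    rcases hb' with h' | h'
    · rcases hmul _ _ h2 with h4 | h4
      · rcases hmul _ _ h3 with h5 | h5
        · rcases ha' with h6 | h6
          · exact h6 h4
          · exact h6 h5
        · exact h' h5
      · exact h' h4
    · exact h' h

private theorem hcmul_PD3N {k : Type} [Field k] {n d d' : ℕ} {f g : AN n k}
    (hf : f.totalDegree ≤ d) (hg : g.totalDegree ≤ d') :
    homogeneousComponent (d + d') (f * g) =
      homogeneousComponent d f * homogeneousComponent d' g := by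
  classical
  ext m
  rw [coeff_homogeneousComponent, coeff_mul, coeff_mul]
  by_cases hm : m.degree = d + d'
  · rw [if_pos hm]
    refine Finset.sum_congr rfl fun x hx => ?_
    have hx' : x.1 + x.2 = m := Finset.HasAntidiagonal.mem_antidiagonal.1 hx
    have hs : x.1.degree + x.2.degree = d + d' := by
      rw [← map_add, hx', hm]
    rw [coeff_homogeneousComponent, coeff_homogeneousComponent]
    by_cases h1 : x.1.degree = d
    · rw [if_pos h1, if_pos (by omega)]
    · rw [if_neg h1, zero_mul]
      rcases lt_or_gt_of_ne h1 with h2 | h2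
      · have h3 : coeff x.2 g = 0 := by
          apply coeff_eq_zero_of_totalDegree_lt
          rw [← Finsupp.degree_apply]
          omega
        rw [h3, mul_zero]
      · have h3 : coeff x.1 f = 0 := by
          apply coeff_eq_zero_of_totalDegree_lt
          rw [← Finsupp.degree_apply]
          omega
        rw [h3, zero_mul]
  · rw [if_neg hm]
    symm
    apply Finset.sum_eq_zero
    intro x hx
    have hx' : x.1 + x.2 = m := Finset.HasAntidiagonal.mem_antidiagonal.1 hx
    rw [coeff_homogeneousComponent, coeff_homogeneousComponent]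
    by_cases h1 : x.1.degree = d
    · by_cases h2 : x.2.degree = d'
      · exfalso
        apply hm
        rw [← hx', map_add, h1, h2]
      · rw [if_neg h2, mul_zero]
    · rw [if_neg h1, zero_mul]

theorem pPD3N : StPD3N := by
  intro k _ n u v d d' hu hv
  obtain ⟨c, hc, p, hp, hpz, hpd, hpt⟩ := hu
  obtain ⟨c', hc', p', hp', hpz', hpd', hpt'⟩ := hv
  have cf : ∀ i j, homogeneousComponent (d + d') (p i * p' j) =
      homogeneousComponent d (p i) * homogeneousComponent d' (p' j) := fun i j =>
    hcmul_PD3N (hpd i) (hpd' j)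
  have dg : ∀ i j, (p i * p' j).totalDegree ≤ d + d' := fun i j =>
    (totalDegree_mul _ _).trans (add_le_add (hpd i) (hpd' j))
  refine ⟨c * c', mul_ne_zero hc hc', sm2 p p', ?_, ?_, ?_, ?_⟩
  · intro i
    fin_cases i
    · simp only [sm2, Fin.zero_eta, Matrix.cons_val_zero, map_mul, ← hp, ← hp']
      ring
    · simp only [sm2, Fin.mk_one, Matrix.cons_val_one, Matrix.cons_val_zero, map_mul, map_add,
        ← hp, ← hp']
      ring
    · simp only [sm2, Fin.reduceFinMk, Matrix.cons_val, map_mul, ← hp, ← hp']
      ring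
  · intro π hπ
    exact key_PD3N (fun x => π ∣ x) (fun x y h => hπ.dvd_or_dvd h)
      (fun x y h => Dvd.dvd.mul_right h y) (fun x y h hx => (dvd_add_right hx).1 h) p p'
      (hpz π hπ) (hpz' π hπ)
  · intro i
    fin_cases i
    · exact dg 1 1
    · exact (totalDegree_add _ _).trans (max_le (dg 0 1) (dg 1 0))
    · exact dg 0 0
  · obtain ⟨i, hi⟩ := key_PD3N (fun x : AN n k => x = 0) (fun x y h => mul_eq_zero.1 h)
      (fun x y h => by rw [h, zero_mul]) (fun x y h hx => by rwa [hx, zero_add] at h)
      (fun i => homogeneousComponent d (p i)) (fun i => homogeneousComponent d' (p' i)) hpt hpt'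
    refine ⟨i, ?_⟩
    have : homogeneousComponent (d + d') (sm2 p p' i) =
        sm2 (fun i => homogeneousComponent d (p i)) (fun i => homogeneousComponent d' (p' i)) i := by
      fin_cases i
      · simpa [sm2] using cf 1 1
      · simp only [sm2, Fin.mk_one, Matrix.cons_val_one, Matrix.cons_val_zero, map_add, cf]
      · simpa [sm2] using cf 0 0
    rw [this]
    exact hi

end Pool.Agent.Helper44.CMF
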