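import Pool.Agent.Helper44.CMF.StN

/-!
# Project CMF, part N: module PairsN
-/

set_option autoImplicit false

open MvPolynomial

namespace Pool.Agent.Helper44.CMF

open Pool.Agent.Helper44.RED

private lemma lin_ne_PairsN {K : Type} [Field K] {a b : K} (h : a ≠ 0 ∨ b ≠ 0) :
    (RatFunc.C b + RatFunc.X * RatFunc.C a : RatFunc K) ≠ 0 := by
  intro h0
  have h1 : (algebraMap (Polynomial K) (RatFunc K))
      (Polynomial.C b + Polynomial.X * Polynomial.C a) = 0 := by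
    rw [map_add, map_mul, RatFunc.algebraMap_C, RatFunc.algebraMap_C, RatFunc.algebraMap_X]
    exact h0
  have h2 : (Polynomial.C b + Polynomial.X * Polynomial.C a : Polynomial K) = 0 :=
    (map_eq_zero_iff _ (RatFunc.algebraMap_injective K)).1 h1
  have hb : b = 0 := by
    have := congrArg (fun p : Polynomial K => p.coeff 0) h2
    simpa using this
  have ha : a = 0 := by
    have := congrArg (fun p : Polynomial K => p.coeff 1) h2
    simpa [Polynomial.coeff_X_mul, Polynomial.coeff_C] using this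
  rcases h with h | h
  · exact h ha
  · exact h hb

private lemma two_ne_KN_PairsN {k : Type} [Field k] (n : ℕ) (h2 : (2 : k) ≠ 0) :
    (2 : KN n k) ≠ 0 := by
  intro h
  have h3 : (algebraMap (AN n k) (KN n k)) (C (2 : k)) = 0 := by
    rw [map_ofNat, map_ofNat]; exact h
  have h4 : (C (2 : k) : AN n k) = 0 :=
    (map_eq_zero_iff _ (IsFractionRing.injective (AN n k) (KN n k))).1 h3
  exact h2 ((map_eq_zero_iff _ (C_injective (Fin n) k)).1 h4)

/-- the family -/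
private noncomputable def ePairsN {R Ξ ι : Type} [CommRing R] {n : ℕ}
    (a b : Ξ → ι → MvPolynomial (Fin n) R) (p : Ξ × ι) :
    MvPolynomial ((Fin n ⊕ Unit) ⊕ Ξ) R :=
  X (Sum.inr p.1) *
    (rename (fun i => Sum.inl (Sum.inl i)) (b p.1 p.2) +
      X (Sum.inl (Sum.inr ())) * rename (fun i => Sum.inl (Sum.inl i)) (a p.1 p.2))

private lemma map_ePairsN {R k Ξ ι : Type} [CommRing R] [CommRing k] (φ : R →+* k) {n : ℕ}
    (a b : Ξ → ι → MvPolynomial (Fin n) R) (p : Ξ × ι) :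
    map φ (ePairsN a b p) =
      ePairsN (fun ξ i => map φ (a ξ i)) (fun ξ i => map φ (b ξ i)) p := by
  unfold ePairsN
  rw [map_mul, map_add, map_mul, map_rename, map_rename, map_X, map_X]

theorem pPairsN : StFamT → StOrt → StBru → StTrkN → StPairsN := by
  intro hF hO hB hT R Ξ ι _ _ _ _ _ n a b
  obtain ⟨P, v, q, g, hP, hg⟩ := hF R (Ξ × ι) ((Fin n ⊕ Unit) ⊕ Ξ) (ePairsN a b)
  refine ⟨P, v, q, g, hP, ?_⟩
  intro k _ _ hBig φ hab
  have h2 : (2 : k) ≠ 0 := Big.two hBig hP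
  obtain ⟨ψ, hψ1, hψ2, hψ3, hψ4⟩ := hT k Ξ n
  set T : Ξ → FractionRing (MvPolynomial ((Fin n ⊕ Unit) ⊕ Ξ) k) := fun ξ : Ξ =>
    algebraMap (MvPolynomial ((Fin n ⊕ Unit) ⊕ Ξ) k)
      (FractionRing (MvPolynomial ((Fin n ⊕ Unit) ⊕ Ξ) k)) (X (Sum.inr ξ)) with hTdef
  set qq : Ξ → ι → RatFunc (KN n k) := fun ξ i =>
    RatFunc.C (algebraMap (AN n k) (KN n k) (map φ (b ξ i))) +
      RatFunc.X * RatFunc.C (algebraMap (AN n k) (KN n k) (map φ (a ξ i))) with hqq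
  have hval : ∀ p : Ξ × ι, algebraMap (MvPolynomial ((Fin n ⊕ Unit) ⊕ Ξ) k)
      (FractionRing (MvPolynomial ((Fin n ⊕ Unit) ⊕ Ξ) k)) (map φ (ePairsN a b p)) =
      T p.1 * ψ (qq p.1 p.2) := by
    intro p
    rw [map_ePairsN]
    simp only [ePairsN, map_mul, map_add, hTdef, hqq, hψ1, hψ2]
  have hTne : ∀ ξ, T ξ ≠ 0 := fun ξ => by
    rw [hTdef]
    simp only [ne_eq]
    rw [map_eq_zero_iff _ (IsFractionRing.injective (MvPolynomial ((Fin n ⊕ Unit) ⊕ Ξ) k)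
      (FractionRing (MvPolynomial ((Fin n ⊕ Unit) ⊕ Ξ) k)))]
    exact X_ne_zero _
  have hαβ : ∀ (p : AN n k), p ≠ 0 → algebraMap (AN n k) (KN n k) p ≠ 0 := fun p hp h =>
    hp ((map_eq_zero_iff _ (IsFractionRing.injective (AN n k) (KN n k))).1 h)
  have hqne : ∀ p : Ξ × ι, qq p.1 p.2 ≠ 0 := by
    intro p
    refine lin_ne_PairsN ?_
    rcases hab p.1 p.2 with h | h
    · exact Or.inl (hαβ _ h)
    · exact Or.inr (hαβ _ h)
  have hgood := hg k hBig φ (by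
    intro p h0
    have h1 := hval p
    rw [h0, map_zero] at h1
    have h3 : ψ (qq p.1 p.2) ≠ 0 := by
      rw [ne_eq, map_eq_zero_iff _ ψ.injective]
      exact hqne p
    exact (mul_ne_zero (hTne p.1) h3) h1.symm)
  have hfun : (fun p : Ξ × ι => algebraMap (MvPolynomial ((Fin n ⊕ Unit) ⊕ Ξ) k)
      (FractionRing (MvPolynomial ((Fin n ⊕ Unit) ⊕ Ξ) k)) (map φ (ePairsN a b p))) =
      fun p : Ξ × ι => T p.1 * ψ (qq p.1 p.2) :=
    funext hval
  have hiff : (¬ Aniso (fun p : Ξ × ι => algebraMap (MvPolynomial ((Fin n ⊕ Unit) ⊕ Ξ) k)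
      (FractionRing (MvPolynomial ((Fin n ⊕ Unit) ⊕ Ξ) k)) (map φ (ePairsN a b p)))) ↔
      (∃ ξ, ∃ x : ι → KN n k, x ≠ 0 ∧
        qf (fun i => algebraMap (AN n k) (KN n k) (map φ (a ξ i))) x = 0 ∧
        qf (fun i => algebraMap (AN n k) (KN n k) (map φ (b ξ i))) x = 0) := by
    rw [hfun, hO (RatFunc (KN n k)) _ Ξ ι ψ T hψ3 hψ4 qq]
    have hbru : ∀ ξ, Aniso (qq ξ) ↔ ∀ x : ι → KN n k,
        qf (fun i => algebraMap (AN n k) (KN n k) (map φ (a ξ i))) x = 0 →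
        qf (fun i => algebraMap (AN n k) (KN n k) (map φ (b ξ i))) x = 0 → x = 0 := fun ξ =>
      hB (KN n k) ι (two_ne_KN_PairsN n h2)
        (fun i => algebraMap (AN n k) (KN n k) (map φ (a ξ i)))
        (fun i => algebraMap (AN n k) (KN n k) (map φ (b ξ i)))
    constructor
    · intro h
      push Not at h
      obtain ⟨ξ, hξ⟩ := h
      rw [hbru ξ] at hξ
      push Not at hξ
      obtain ⟨x, h3, h4, h5⟩ := hξ
      exact ⟨ξ, x, h5, h3, h4⟩
    · rintro ⟨ξ, x, h3, h4, h5⟩ h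
      exact h3 ((hbru ξ).1 (h ξ) x h4 h5)
  exact ⟨hgood.1, hgood.2.1.trans hiff, hgood.2.2.trans hiff⟩

end Pool.Agent.Helper44.CMF
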