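import Pool.Agent.Helper44.CMF.StN

/-!
# Project CMF, part N, module ParN: the exact parallelogram law
-/

set_option autoImplicit false

open MvPolynomial

namespace Pool.Agent.Helper44.CMF

open Pool.Agent.Helper44.RED

private theorem cN_inj_ParN (n : ℕ) {k : Type} [Field k] : Function.Injective (cN n : k → KN n k) := by
  intro a b h
  unfold cN at h
  exact C_injective (Fin n) k (IsFractionRing.injective (AN n k) (KN n k) h)

theorem pParN : StPD1N → StPD2N → StPD3N → StPD4N → StAdsK → StParN := by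
  intro h1 h2 h3 h4 hads k _ n _ hk2 F m hF hm0 hm1 P Q
  have c0 : cN n (0 : k) = 0 := by unfold cN; rw [C_0, map_zero]
  have c1 : cN n (1 : k) = 1 := by unfold cN; rw [C_1, map_one]
  have c2 : cN n (2 : k) = 2 := by
    unfold cN
    have : (C (2 : k) : AN n k) = 2 := map_ofNat C 2
    rw [this]
    exact map_ofNat (algebraMap (AN n k) (KN n k)) 2
  have k2 : (2 : KN n k) ≠ 0 := by
    rw [← c2, ← c0]
    exact fun h => hk2 (cN_inj_ParN n h)
  have m0 : cN n m ≠ 0 := by
    rw [← c0]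
    exact fun h => hm0 (cN_inj_ParN n h)
  have m1 : cN n m ≠ 1 := by
    rw [← c1]
    exact fun h => hm1 (cN_inj_ParN n h)
  obtain ⟨c, hc, hcs⟩ := hads (KN n k) k2 F (cN n m) hF m0 m1 P Q
  have e1 : PDN (sgm (cN n m) (sm2 (xK F (cN n m) P) (xK F (cN n m) Q)))
      (2 * (htN F (cN n m) P + htN F (cN n m) Q)) :=
    h4 k n hk2 m hm0 hm1 _ _ (h3 k n _ _ _ _ (h2 k n F (cN n m) P) (h2 k n F (cN n m) Q))
  have e2 : PDN (fun i => c * sm2 (xK F (cN n m) (P + Q)) (xK F (cN n m) (P - Q)) i)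
      (htN F (cN n m) (P + Q) + htN F (cN n m) (P - Q)) :=
    (h1 k n 3 _ _ (h3 k n _ _ _ _ (h2 k n F (cN n m) (P + Q)) (h2 k n F (cN n m) (P - Q)))).2 c hc
  have e3 : (fun i => c * sm2 (xK F (cN n m) (P + Q)) (xK F (cN n m) (P - Q)) i) =
      sgm (cN n m) (sm2 (xK F (cN n m) P) (xK F (cN n m) Q)) := by
    funext i; exact (hcs i).symm
  rw [e3] at e2
  have := (h1 k n 3 _ _ e2).1 _ e1
  omega

end Pool.Agent.Helper44.CMF
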