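import Pool.Agent.Helper44.CMF.StN

/-! # Project CMF, module RdegN -/

set_option autoImplicit false

open MvPolynomial

namespace Pool.Agent.Helper44.CMF

open Pool.Agent.Helper44.RED

theorem pRdegN : StRdegN := by
  intro k _ n u
  unfold degN
  constructor
  · intro h
    have h1 : (IsFractionRing.num (AN n k) u).totalDegree = 0 := by
      have := le_max_left (IsFractionRing.num (AN n k) u).totalDegree
        ((IsFractionRing.den (AN n k) u : AN n k)).totalDegree
      omega
    have h2 : ((IsFractionRing.den (AN n k) u : AN n k)).totalDegree = 0 := by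
      have := le_max_right (IsFractionRing.num (AN n k) u).totalDegree
        ((IsFractionRing.den (AN n k) u : AN n k)).totalDegree
      omega
    rw [totalDegree_eq_zero_iff_eq_C] at h1 h2
    set a := coeff 0 (IsFractionRing.num (AN n k) u) with ha
    set b := coeff 0 (IsFractionRing.den (AN n k) u : AN n k) with hb
    have hd : (IsFractionRing.den (AN n k) u : AN n k) ≠ 0 :=
      nonZeroDivisors.coe_ne_zero _
    have hb0 : b ≠ 0 := by
      intro h0
      rw [h0, C_0] at h2
      exact hd h2
    refine ⟨a / b, ?_⟩
    have h3 : algebraMap (AN n k) (KN n k) (IsFractionRing.num (AN n k) u) /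
        algebraMap (AN n k) (KN n k) (IsFractionRing.den (AN n k) u : AN n k) = u :=
      IsFractionRing.mk'_num_den' (AN n k) u
    rw [h1, h2] at h3
    have hC : algebraMap (AN n k) (KN n k) (C b) ≠ 0 := by
      intro h0
      rw [map_eq_zero_iff _ (IsFractionRing.injective (AN n k) (KN n k)), C_eq_zero] at h0
      exact hb0 h0
    rw [← h3]
    unfold cN
    rw [div_eq_iff hC, ← map_mul, ← C_mul, div_mul_cancel₀ _ hb0]
  · rintro ⟨c, rfl⟩
    have hU : IsUnit (IsFractionRing.den (AN n k) (cN n c) : AN n k) := by
      rw [IsFractionRing.isUnit_den_iff]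
      exact ⟨C c, rfl⟩
    rw [isUnit_iff_totalDegree_of_isReduced] at hU
    have h1 : (IsFractionRing.num (AN n k) (cN n c)) =
        C c * (IsFractionRing.den (AN n k) (cN n c) : AN n k) := by
      apply IsFractionRing.injective (AN n k) (KN n k)
      rw [map_mul]
      exact ((IsFractionRing.num_mul_den_eq_num_iff_eq (A := AN n k)).2 rfl).symm
    have h2 := hU.2
    rw [totalDegree_eq_zero_iff_eq_C] at h2
    rw [h1, hU.2]
    rw [h2, ← C_mul, totalDegree_C]
    rfl

end Pool.Agent.Helper44.CMF
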