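import Pool.Agent.Helper44.CMF.StN

/-! Module SOLN of project CMF: points and maps. -/

set_option autoImplicit false

open MvPolynomial

namespace Pool.Agent.Helper44.CMF

open Pool.Agent.Helper44.RED

private theorem cN_inj_SolN (n : ℕ) {k : Type} [Field k] :
    Function.Injective (fun c : k => cN n c) := by
  intro a b h
  unfold cN at h
  exact C_injective (Fin n) k (IsFractionRing.injective (AN n k) (KN n k) h)

private theorem cN_zero_SolN (n : ℕ) {k : Type} [Field k] : cN n (0 : k) = 0 := by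
  unfold cN
  rw [C_0, map_zero]

private theorem cN_one_SolN (n : ℕ) {k : Type} [Field k] : cN n (1 : k) = 1 := by
  unfold cN
  rw [C_1, map_one]

private theorem two_SolN (n : ℕ) {k : Type} [Field k] (h2 : (2 : k) ≠ 0) : (2 : KN n k) ≠ 0 := by
  have h : cN n (2 : k) = 2 := by
    unfold cN
    rw [map_ofNat, map_ofNat]
  rw [← h, ← cN_zero_SolN n]
  intro h'
  exact h2 (cN_inj_SolN n h')

private theorem fN_ne_SolN {k : Type} [Field k] {n s : ℕ} (p : Fin s → AN n k) (hp : Irr p) :
    fN p ≠ 0 := by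
  unfold fN
  refine Finset.prod_ne_zero_iff.2 fun j _ => ?_
  intro h
  rw [map_eq_zero_iff _ (IsFractionRing.injective (AN n k) (KN n k))] at h
  exact (hp.1 j).ne_zero h

private theorem eK_inj_SolN {K : Type} [Field K] {F m : K} (hF : F ≠ 0) (h0 : m ≠ 0)
    (h1 : m ≠ 1) : Function.Injective (eK F m) := by
  have hm : m * F ≠ 0 := mul_ne_zero h0 hF
  have hm1 : m * F ≠ F := by
    intro h
    apply h1
    have : (m - 1) * F = 0 := by linear_combination h
    exact sub_eq_zero.1 ((mul_eq_zero.1 this).resolve_right hF)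
  intro i j h
  fin_cases i <;> fin_cases j <;> simp_all [eK, eq_comm]

theorem pSolN : StRdegN → StSolN := by
  intro hR k _ n s _ h2 p hp m hm0 hm1
  have hF : fN p ≠ 0 := fN_ne_SolN p hp
  have hc0 : cN n m ≠ 0 := by
    rw [← cN_zero_SolN n]
    exact fun h => hm0 (cN_inj_SolN n h)
  have hc1 : cN n m ≠ 1 := by
    rw [← cN_one_SolN n]
    exact fun h => hm1 (cN_inj_SolN n h)
  have hinj := eK_inj_SolN hF hc0 hc1
  have e0 : eK (fN p) (cN n m) 0 = 0 := rfl
  have e1 : eK (fN p) (cN n m) 1 = fN p := rfl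
  have e2 : eK (fN p) (cN n m) 2 = cN n m * fN p := rfl
  constructor
  · rintro ⟨P, hP⟩
    rcases P with _ | ⟨x, y, h⟩
    · exact absurd rfl hP
    · have he := (W_nonsingular (two_SolN n h2) _ hinj x y).1 h
      rw [e0, e1, e2, sub_zero] at he
      refine ⟨x / fN p, y / fN p ^ 2, ?_, ?_⟩
      · field_simp
        linear_combination he
      · intro c hc
        apply hP
        exact (hR k n (x / fN p)).2 ⟨c, hc⟩
  · rintro ⟨u, w, he, hn'⟩
    refine ⟨.some (fN p * u) (fN p ^ 2 * w) ((W_nonsingular (two_SolN n h2) _ hinj _ _).2 ?_), ?_⟩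
    · rw [e0, e1, e2, sub_zero]
      linear_combination fN p ^ 3 * he
    · intro h
      have h' : degN (fN p * u / fN p) = 0 := h
      rw [mul_div_cancel_left₀ u hF] at h'
      obtain ⟨c, hc⟩ := (hR k n u).1 h'
      exact hn' c hc

end Pool.Agent.Helper44.CMF
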