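import Pool.Agent.Helper44.CMF.StN

/-!
# Project CMF, module SQN
-/

set_option autoImplicit false

open MvPolynomial

namespace Pool.Agent.Helper44.CMF

open Pool.Agent.Helper44.RED

private theorem even_sq_SqN {α : Type} [CommMonoidWithZero α] [UniqueFactorizationMonoid α] (a : α) :
    a ≠ 0 → (∀ π : α, Prime π → Even (multiplicity π a)) → ∃ u y : α, IsUnit u ∧ a = u * y ^ 2 := by
  induction a using UniqueFactorizationMonoid.induction_on_coprime with
  | h0 => intro h; exact absurd rfl h
  | h1 hx => intro _ _; exact ⟨_, 1, hx, by simp⟩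
  | hpr i hp =>
    rename_i p
    intro _ h
    have h1 := h p hp
    rw [multiplicity_pow_self hp.ne_zero hp.not_isUnit] at h1
    obtain ⟨j, hj⟩ := h1
    refine ⟨1, p ^ j, isUnit_one, ?_⟩
    rw [one_mul, ← pow_mul, hj]
    congr 1
    ring
  | hcp hxy hx hy =>
    rename_i x y
    intro h0 h
    have hx0 : x ≠ 0 := left_ne_zero_of_mul h0
    have hy0 : y ≠ 0 := right_ne_zero_of_mul h0
    have key : ∀ π : α, Prime π → Even (multiplicity π x) ∧ Even (multiplicity π y) := by
      intro π hπ
      have h1 := h π hπ
      rw [multiplicity_mul hπ (FiniteMultiplicity.of_prime_left hπ h0)] at h1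
      by_cases hd : π ∣ x
      · have hd2 : ¬ π ∣ y := fun h2 => hπ.not_isUnit (hxy hd h2)
        rw [multiplicity_eq_zero.2 hd2, add_zero] at h1
        rw [multiplicity_eq_zero.2 hd2]
        exact ⟨h1, by simp⟩
      · rw [multiplicity_eq_zero.2 hd, zero_add] at h1
        rw [multiplicity_eq_zero.2 hd]
        exact ⟨by simp, h1⟩
    obtain ⟨u, z, hu, hz⟩ := hx hx0 fun π hπ => (key π hπ).1
    obtain ⟨v, w, hv, hw⟩ := hy hy0 fun π hπ => (key π hπ).2
    refine ⟨u * v, z * w, hu.mul hv, ?_⟩
    rw [hz, hw, mul_pow]
    exact mul_mul_mul_comm _ _ _ _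

private theorem mult_mul_SqN {α : Type} [CommMonoidWithZero α] [UniqueFactorizationMonoid α] {π a b : α}
    (hπ : Prime π) (ha : a ≠ 0) (hb : b ≠ 0) :
    multiplicity π (a * b) = multiplicity π a + multiplicity π b :=
  multiplicity_mul hπ (FiniteMultiplicity.of_prime_left hπ (mul_ne_zero ha hb))

private theorem mult_prod_SqN {α : Type} [CommMonoidWithZero α] [Nontrivial α] [UniqueFactorizationMonoid α]
    {π : α} (hπ : Prime π) {ι : Type} (s : Finset ι) (f : ι → α) (hf : ∀ i ∈ s, f i ≠ 0) :
    multiplicity π (∏ i ∈ s, f i) = ∑ i ∈ s, multiplicity π (f i) := by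
  classical
  induction s using Finset.induction with
  | empty =>
    rw [Finset.prod_empty, Finset.sum_empty]
    exact multiplicity_eq_zero.2 fun h => hπ.not_isUnit (isUnit_of_dvd_one h)
  | insert a s has ih =>
    rw [Finset.prod_insert has, Finset.sum_insert has, mult_mul_SqN hπ (hf a (Finset.mem_insert_self _ _))
      (Finset.prod_ne_zero_iff.2 fun i hi => hf i (Finset.mem_insert_of_mem hi)),
      ih fun i hi => hf i (Finset.mem_insert_of_mem hi)]

theorem pSqN : StSqN := by
  classical
  intro k _ _ n s p hp G hG hπ
  have hirr : ∀ j, Prime (p j) := fun j => (hp.1 j).prime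
  let r : Fin s → Bool := fun j => decide (¬ Even (multiplicity (p j) G))
  refine ⟨r, ?_⟩
  have hD : dN p r = algebraMap (AN n k) (KN n k) (∏ j, if r j then p j else 1) := by
    unfold dN
    rw [map_prod]
    refine Finset.prod_congr rfl fun j _ => ?_
    split
    · rfl
    · rw [map_one]
  have hne : ∀ j, (if r j then p j else 1 : AN n k) ≠ 0 := by
    intro j
    split
    · exact (hirr j).ne_zero
    · exact one_ne_zero
  have hne2 : (∏ j, if r j then p j else 1 : AN n k) ≠ 0 :=
    Finset.prod_ne_zero_iff.2 fun j _ => hne j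
  have hev : ∀ π : AN n k, Prime π → Even (multiplicity π (G * ∏ j, if r j then p j else 1)) := by
    intro π hπ1
    rw [mult_mul_SqN hπ1 hG hne2, mult_prod_SqN hπ1 _ _ fun j _ => hne j]
    by_cases hex : ∃ j, Associated π (p j)
    · obtain ⟨j, hj⟩ := hex
      rw [Finset.sum_eq_single j]
      · have e1 : multiplicity π G = multiplicity (p j) G := by
          exact multiplicity_eq_of_associated_left hj.symm
        have e2 : multiplicity π (if r j then p j else 1 : AN n k) = if r j then 1 else 0 := by
          by_cases hr : r j = true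
          · rw [if_pos hr, if_pos hr]
            rw [multiplicity_eq_of_associated_left hj.symm]
            have := multiplicity_pow_self (hirr j).ne_zero (hirr j).not_isUnit 1
            rwa [pow_one] at this
          · rw [if_neg hr, if_neg hr]
            exact multiplicity_eq_zero.2 fun h => hπ1.not_isUnit (isUnit_of_dvd_one h)
        rw [e1, e2]
        by_cases he : Even (multiplicity (p j) G)
        · have : r j = false := decide_eq_false (not_not.2 he)
          rw [this]
          simpa using he
        · have : r j = true := decide_eq_true he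
          rw [this]
          simp only [if_true]
          exact Nat.even_add_one.2 he
      · intro i _ hij
        refine multiplicity_eq_zero.2 fun h => ?_
        split at h
        · have h2 := (hπ1.irreducible.dvd_irreducible_iff_associated (hp.1 i)).1 h
          exact hp.2 i j hij (h2.symm.trans hj)
        · exact hπ1.not_isUnit (isUnit_of_dvd_one h)
      · intro h; exact absurd (Finset.mem_univ _) h
    · push Not at hex
      rw [Finset.sum_eq_zero, add_zero]
      · exact hπ π hπ1 hex
      · intro i _
        refine multiplicity_eq_zero.2 fun h => ?_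
        split at h
        · exact hex i ((hπ1.irreducible.dvd_irreducible_iff_associated (hp.1 i)).1 h)
        · exact hπ1.not_isUnit (isUnit_of_dvd_one h)
  obtain ⟨u, y, hu, hy⟩ := even_sq_SqN _ (mul_ne_zero hG hne2) hev
  obtain ⟨c, hc, rfl⟩ := (MvPolynomial.isUnit_iff_eq_C_of_isReduced).1 hu
  obtain ⟨d, hd⟩ := IsAlgClosed.exists_pow_nat_eq c (n := 2) (by norm_num)
  rw [hD, ← map_mul, hy]
  refine ⟨algebraMap (AN n k) (KN n k) (C d * y), ?_⟩
  rw [← map_mul]
  congr 1
  rw [← hd, C_pow]
  ring

end Pool.Agent.Helper44.CMF
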