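import Pool.Agent.Helper44.CMF.StN

/-!
# Project CMF, module SUPN
-/

set_option autoImplicit false

open MvPolynomial

namespace Pool.Agent.Helper44.CMF

open Pool.Agent.Helper44.RED

private theorem cN_ne_SupN {n : ℕ} {k : Type} [Field k] {c : k} (hc : c ≠ 0) : cN n c ≠ 0 := by
  unfold cN
  intro h
  apply hc
  have h1 := IsFractionRing.injective (AN n k) (KN n k) (h.trans (map_zero _).symm)
  rwa [C_eq_zero] at h1

private theorem cN_sub_SupN {n : ℕ} {k : Type} [Field k] (a b : k) : cN n a - cN n b = cN n (a - b) := by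
  unfold cN
  rw [C_sub, map_sub]

private theorem cN_sq_SupN {n : ℕ} {k : Type} [Field k] [IsAlgClosed k] (c : k) : IsSquare (cN n c) := by
  obtain ⟨d, hd⟩ := IsAlgClosed.exists_pow_nat_eq c (n := 2) (by norm_num)
  refine ⟨cN n d, ?_⟩
  unfold cN
  rw [← map_mul, ← C_mul, ← hd, sq]

/-- the three constants `0, 1, m` -/
private def rho_SupN {k : Type} [Field k] (m : k) : Fin 3 → k := ![0, 1, m]

private theorem rho_inj_SupN {k : Type} [Field k] {m : k} (h0 : m ≠ 0) (h1 : m ≠ 1) :
    Function.Injective (rho_SupN m) := by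
  intro i j h
  fin_cases i <;> fin_cases j <;> simp_all [rho_SupN]

private theorem eK_eq_SupN {n : ℕ} {k : Type} [Field k] (F : KN n k) (m : k) (i : Fin 3) :
    eK F (cN n m) i = cN n (rho_SupN m i) * F := by
  have h0 : cN n (0 : k) = 0 := by unfold cN; rw [C_0, map_zero]
  have h1 : cN n (1 : k) = 1 := by unfold cN; rw [C_1, map_one]
  fin_cases i
  · simp [eK, rho_SupN, h0]
  · simp [eK, rho_SupN, h1]
  · simp [eK, rho_SupN]

private theorem mult_mul_SupN {α : Type} [CommMonoidWithZero α] [UniqueFactorizationMonoid α] {π a b : α}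
    (hπ : Prime π) (ha : a ≠ 0) (hb : b ≠ 0) :
    multiplicity π (a * b) = multiplicity π a + multiplicity π b :=
  multiplicity_mul hπ (FiniteMultiplicity.of_prime_left hπ (mul_ne_zero ha hb))

/-- if at most one of the four factors is divisible by `π` and the product is a square, then every factor has
even multiplicity -/
private theorem four_SupN {α : Type} [CommMonoidWithZero α] [UniqueFactorizationMonoid α] {π g : α}
    (hπ : Prime π) (f : Fin 4 → α) (hf : ∀ i, f i ≠ 0) (hg : f 0 * f 1 * f 2 * f 3 = g * g)
    (hd : ∀ i j, i ≠ j → π ∣ f i → ¬ π ∣ f j) (i : Fin 4) : Even (multiplicity π (f i)) := by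
  have hg0 : g ≠ 0 := by
    rintro rfl
    rw [mul_zero] at hg
    exact (mul_ne_zero (mul_ne_zero (mul_ne_zero (hf 0) (hf 1)) (hf 2)) (hf 3)) hg
  have h1 : multiplicity π (f 0) + multiplicity π (f 1) + multiplicity π (f 2) + multiplicity π (f 3) =
      multiplicity π g + multiplicity π g := by
    rw [← mult_mul_SupN hπ hg0 hg0, ← hg, mult_mul_SupN hπ (mul_ne_zero (mul_ne_zero (hf 0) (hf 1)) (hf 2)) (hf 3),
      mult_mul_SupN hπ (mul_ne_zero (hf 0) (hf 1)) (hf 2), mult_mul_SupN hπ (hf 0) (hf 1)]
  by_cases hi : π ∣ f i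
  · have hz : ∀ j, j ≠ i → multiplicity π (f j) = 0 := fun j hj =>
      multiplicity_eq_zero.2 (hd i j (Ne.symm hj) hi)
    have h2 : multiplicity π (f i) = multiplicity π g + multiplicity π g := by
      rw [← h1]
      fin_cases i
      · have a1 := hz 1 (by decide)
        have a2 := hz 2 (by decide)
        have a3 := hz 3 (by decide)
        simp [a1, a2, a3]
      · have a1 := hz 0 (by decide)
        have a2 := hz 2 (by decide)
        have a3 := hz 3 (by decide)
        simp [a1, a2, a3]
      · have a1 := hz 0 (by decide)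
        have a2 := hz 1 (by decide)
        have a3 := hz 3 (by decide)
        simp [a1, a2, a3]
      · have a1 := hz 0 (by decide)
        have a2 := hz 1 (by decide)
        have a3 := hz 2 (by decide)
        simp [a1, a2, a3]
    exact ⟨_, h2⟩
  · rw [multiplicity_eq_zero.2 hi]
    exact ⟨0, rfl⟩

theorem pSupN : StSqN → StSupN := by
  intro hSq k _ _ n s _ h2 p hp m hm0 hm1 P i
  classical
  set F₀ : AN n k := ∏ j, p j with hF₀
  have hF : fN p = algebraMap (AN n k) (KN n k) F₀ := by
    unfold fN
    rw [hF₀, map_prod]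
  have hF0 : F₀ ≠ 0 := Finset.prod_ne_zero_iff.2 fun j _ => (hp.1 j).ne_zero
  have hinj := IsFractionRing.injective (AN n k) (KN n k)
  have hFne : fN p ≠ 0 := by
    rw [hF]
    intro h
    exact hF0 (hinj (h.trans (map_zero _).symm))
  have hT : dN p (fun _ => true) = fN p := by
    unfold dN fN
    simp
  have hFa : dN p (fun _ => false) = 1 := by
    unfold dN
    simp
  cases P with
  | zero =>
    refine ⟨fun _ => true, fN p, ?_⟩
    rw [hT]
    simp [dl]
  | some x y hxy =>
    have heq := (W_equation (eK (fN p) (cN n m)) x y).1 hxy.1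
    by_cases hex : ∃ j, x = eK (fN p) (cN n m) j
    · obtain ⟨j, hj⟩ := hex
      by_cases hji : j = i
      · subst hji
        refine ⟨fun _ => true, ?_⟩
        have h3 : dl (eK (fN p) (cN n m)) j (.some x y hxy) =
            (eK (fN p) (cN n m) j - eK (fN p) (cN n m) (j + 1)) *
              (eK (fN p) (cN n m) j - eK (fN p) (cN n m) (j + 2)) := by
          simp only [dl]
          rw [if_pos hj]
        rw [h3, hT, eK_eq_SupN, eK_eq_SupN, eK_eq_SupN]
        obtain ⟨d, hd⟩ := cN_sq_SupN (n := n) ((rho_SupN m j - rho_SupN m (j + 1)) *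
          (rho_SupN m j - rho_SupN m (j + 2)))
        refine ⟨fN p * fN p * d, ?_⟩
        have h4 : cN n ((rho_SupN m j - rho_SupN m (j + 1)) * (rho_SupN m j - rho_SupN m (j + 2))) =
            (cN n (rho_SupN m j) - cN n (rho_SupN m (j + 1))) *
              (cN n (rho_SupN m j) - cN n (rho_SupN m (j + 2))) := by
          rw [cN_sub_SupN, cN_sub_SupN]
          unfold cN
          rw [C_mul, map_mul]
        rw [h4] at hd
        linear_combination (fN p) ^ 4 * hd
      · refine ⟨fun _ => false, ?_⟩
        have hne : x ≠ eK (fN p) (cN n m) i := by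
          rw [hj, eK_eq_SupN, eK_eq_SupN]
          intro h
          have h5 := mul_right_cancel₀ hFne h
          have h6 : rho_SupN m j = rho_SupN m i := by
            by_contra h7
            have h8 := cN_ne_SupN (n := n) (sub_ne_zero.2 h7)
            rw [← cN_sub_SupN] at h8
            exact h8 (sub_eq_zero.2 h5)
          exact hji (rho_inj_SupN hm0 hm1 h6)
        have h3 : dl (eK (fN p) (cN n m)) i (.some x y hxy) = x - eK (fN p) (cN n m) i := by
          simp only [dl]
          rw [if_neg hne]
        rw [h3, hFa, hj, eK_eq_SupN, eK_eq_SupN]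
        obtain ⟨d, hd⟩ := cN_sq_SupN (n := n) (rho_SupN m j - rho_SupN m i)
        rw [← cN_sub_SupN] at hd
        refine ⟨fN p * d, ?_⟩
        linear_combination (fN p) ^ 2 * hd
    · push Not at hex
      have h3 : dl (eK (fN p) (cN n m)) i (.some x y hxy) = x - eK (fN p) (cN n m) i := by
        simp only [dl]
        rw [if_neg (hex i)]
      set A : AN n k := IsFractionRing.num (AN n k) x with hA
      set B : AN n k := (IsFractionRing.den (AN n k) x : AN n k) with hB
      have hB0 : B ≠ 0 := nonZeroDivisors.coe_ne_zero _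
      have hBK : algebraMap (AN n k) (KN n k) B ≠ 0 := fun h => hB0 (hinj (h.trans (map_zero _).symm))
      have hx : x * algebraMap (AN n k) (KN n k) B = algebraMap (AN n k) (KN n k) A := by
        have h5 := IsFractionRing.mk'_num_den' (AN n k) x
        exact ((div_eq_iff hBK).1 h5).symm
      have hrel : IsRelPrime A B := IsFractionRing.num_den_reduced (AN n k) x
      let N : Fin 3 → AN n k := fun j => A - C (rho_SupN m j) * F₀ * B
      have hN : ∀ j, algebraMap (AN n k) (KN n k) (N j) =
          (x - eK (fN p) (cN n m) j) * algebraMap (AN n k) (KN n k) B := by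
        intro j
        simp only [N]
        rw [map_sub, map_mul, map_mul, ← hx, eK_eq_SupN, ← hF]
        unfold cN
        ring
      have hN0 : ∀ j, N j ≠ 0 := by
        intro j h
        have h5 := hN j
        rw [h, map_zero] at h5
        rcases mul_eq_zero.1 h5.symm with h6 | h6
        · exact hex j (sub_eq_zero.1 h6)
        · exact hBK h6
      let f : Fin 4 → AN n k := ![N 0, N 1, N 2, B]
      have hf0 : ∀ j, f j ≠ 0 := by
        intro j
        fin_cases j
        · exact hN0 0
        · exact hN0 1
        · exact hN0 2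
        · exact hB0
      -- the product is a square
      obtain ⟨g, hg⟩ : ∃ g : AN n k, N 0 * N 1 * N 2 * B = g * g := by
        have h5 : (y * algebraMap (AN n k) (KN n k) B ^ 2) ^ 2 =
            algebraMap (AN n k) (KN n k) (N 0 * N 1 * N 2 * B) := by
          rw [map_mul, map_mul, map_mul, hN, hN, hN]
          linear_combination (algebraMap (AN n k) (KN n k) B) ^ 4 * heq
        obtain ⟨g, hg⟩ := IsIntegrallyClosed.exists_algebraMap_eq_of_isIntegral_pow (R := AN n k)
          (x := y * algebraMap (AN n k) (KN n k) B ^ 2) (n := 2) (by norm_num)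
          (by rw [h5]; exact isIntegral_algebraMap)
        refine ⟨g, hinj ?_⟩
        rw [← h5, map_mul, hg]
        ring
      have hev : ∀ π : AN n k, Prime π → (∀ j, ¬ Associated π (p j)) → ∀ j, Even (multiplicity π (f j)) := by
        intro π hπ hπp
        have hπF : ¬ π ∣ F₀ := by
          intro h
          obtain ⟨j, -, hj⟩ := (hπ.dvd_finsetProd_iff _).1 h
          exact hπp j ((hπ.irreducible.dvd_irreducible_iff_associated (hp.1 j)).1 hj)
        have hAB : ¬ (π ∣ A ∧ π ∣ B) := fun h => hπ.not_isUnit (hrel h.1 h.2)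
        have hNB : ∀ j, π ∣ N j → ¬ π ∣ B := by
          intro j h1 h2
          refine hAB ⟨?_, h2⟩
          have h5 : A = N j + C (rho_SupN m j) * F₀ * B := by simp only [N]; ring
          rw [h5]
          exact dvd_add h1 (Dvd.dvd.mul_left h2 _)
        have hNN : ∀ j j', j ≠ j' → π ∣ N j → ¬ π ∣ N j' := by
          intro j j' hjj h1 h2
          have h5 : N j - N j' = C (rho_SupN m j' - rho_SupN m j) * F₀ * B := by
            simp only [N]
            rw [C_sub]
            ring
          have h6 : π ∣ C (rho_SupN m j' - rho_SupN m j) * F₀ * B := h5 ▸ dvd_sub h1 h2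
          rcases hπ.dvd_or_dvd h6 with h7 | h7
          · rcases hπ.dvd_or_dvd h7 with h8 | h8
            · have h9 : IsUnit (C (rho_SupN m j' - rho_SupN m j) : AN n k) :=
                (isUnit_iff_ne_zero.2 (sub_ne_zero.2 fun h => hjj (rho_inj_SupN hm0 hm1 h).symm)).map C
              exact hπ.not_isUnit (isUnit_of_dvd_unit h8 h9)
            · exact hπF h8
          · exact hNB j h1 h7
        refine four_SupN (g := g) hπ f hf0 hg ?_
        intro a b hab
        fin_cases a <;> fin_cases b <;> first
          | exact absurd rfl hab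
          | exact hNN _ _ (by decide)
          | exact hNB _
          | exact fun h1 h2 => hNB _ h2 h1
      have hG0 : F₀ * N i * B ≠ 0 := mul_ne_zero (mul_ne_zero hF0 (hN0 i)) hB0
      obtain ⟨r, z, hz⟩ := hSq k n s p hp (F₀ * N i * B) hG0 (by
        intro π hπ hπp
        have hπF : ¬ π ∣ F₀ := by
          intro h
          obtain ⟨j, -, hj⟩ := (hπ.dvd_finsetProd_iff _).1 h
          exact hπp j ((hπ.irreducible.dvd_irreducible_iff_associated (hp.1 j)).1 hj)
        rw [mult_mul_SupN hπ (mul_ne_zero hF0 (hN0 i)) hB0, mult_mul_SupN hπ hF0 (hN0 i),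
          multiplicity_eq_zero.2 hπF, zero_add]
        have h5 := hev π hπ hπp
        refine Even.add ?_ (h5 3)
        fin_cases i
        · exact h5 0
        · exact h5 1
        · exact h5 2)
      refine ⟨r, z / algebraMap (AN n k) (KN n k) B, ?_⟩
      rw [h3]
      rw [map_mul, map_mul, hN, ← hF] at hz
      rw [div_mul_div_comm, eq_div_iff (mul_ne_zero hBK hBK), ← hz]
      ring

end Pool.Agent.Helper44.CMF
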