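import Pool.Agent.Helper44.CMF.StN

/-! # Project CMF, part N: module T3N, by helper93 -/

set_option autoImplicit false

open MvPolynomial

namespace Pool.Agent.Helper44.CMF

open Pool.Agent.Helper44.RED

/-- the polynomial `d_i` over `R` -/
private noncomputable def dp_T3N {R : Type} [CommRing R] {n s : ℕ} (p : Fin s → MvPolynomial (Fin n) R)
    (r : Fin s → Bool) : MvPolynomial (Fin n) R := ∏ j, if r j then p j else 1

private theorem map_dp_T3N {R k : Type} [CommRing R] [Field k] (φ : R →+* k) {n s : ℕ}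
    (p : Fin s → MvPolynomial (Fin n) R) (r : Fin s → Bool) :
    algebraMap (AN n k) (KN n k) (map φ (dp_T3N p r)) = dN (fun j => map φ (p j)) r := by
  unfold dp_T3N dN
  rw [map_prod, map_prod]
  refine Finset.prod_congr rfl fun j _ => ?_
  split_ifs
  · rfl
  · rw [map_one, map_one]

private theorem dN_ne_T3N {n s : ℕ} {k : Type} [Field k] {p : Fin s → AN n k} (hp : Irr p)
    (r : Fin s → Bool) : dN p r ≠ 0 := by
  unfold dN
  refine Finset.prod_ne_zero_iff.2 fun j _ => ?_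
  split_ifs
  · intro h
    exact (hp.1 j).ne_zero ((IsFractionRing.injective (AN n k) (KN n k)) (by rw [h, map_zero]))
  · exact one_ne_zero

private theorem fN_eq_T3N {n s : ℕ} {k : Type} [Field k] (p : Fin s → AN n k) :
    fN p = dN p (fun _ => true) := by
  simp [fN, dN]

private theorem nonempty_T3N {s : ℕ} (hs : 2 ≤ s) :
    Nonempty {M : Fin 3 → Fin s → Bool // OddN M ∧ ¬ RowN M} := by
  refine ⟨⟨![fun j => decide (j.1 = 0), fun j => !decide (j.1 = 0), fun _ => false], ?_, ?_⟩⟩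
  · intro j
    by_cases h : j.1 = 0 <;> simp [h]
  · intro h
    have := h 0 ⟨0, by omega⟩ ⟨1, by omega⟩
    simp at this

theorem pT3N : StPairsN → StIndN → StCovK → StDatN → StT3AN → StSolN → StT3N := by
  intro hPairs hInd hCov hDat hT3A hSol R _ n s hs p μ
  classical
  haveI : Nonempty {M : Fin 3 → Fin s → Bool // OddN M ∧ ¬ RowN M} := nonempty_T3N hs
  obtain ⟨P, v, q, g, hP, h⟩ := hPairs R {M : Fin 3 → Fin s → Bool // OddN M ∧ ¬ RowN M} (Fin 4) n
    (fun M => ![dp_T3N p (M.1 0), -dp_T3N p (M.1 1), 0, -1])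
    (fun M => ![dp_T3N p (M.1 0), 0, -dp_T3N p (M.1 2), -C μ])
  refine ⟨P, v, q, g, hP, ?_⟩
  intro k _ _ hB φ hI hm0 hm1
  have h2k : (2 : k) ≠ 0 := hB.two hP
  have hinj : Function.Injective (algebraMap (AN n k) (KN n k)) := IsFractionRing.injective _ _
  have h2K : (2 : KN n k) ≠ 0 := by
    intro h0
    apply h2k
    have h1 : algebraMap (AN n k) (KN n k) (C (2 : k)) = 0 := by
      rw [map_ofNat, map_ofNat]; exact h0
    have h3 := hinj (h1.trans (map_zero _).symm)
    exact (C_eq_zero).1 h3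
  have hc0 : ∀ c : k, c ≠ 0 → cN n c ≠ 0 := by
    intro c hc h0
    have h3 := hinj (h0.trans (map_zero _).symm)
    exact hc ((C_eq_zero).1 h3)
  have hc1 : ∀ c : k, c ≠ 1 → cN n c ≠ 1 := by
    intro c hc h0
    have h3 := hinj (h0.trans (map_one _).symm)
    exact hc (C_injective _ _ (h3.trans C_1.symm))
  have hdp : ∀ r, map φ (dp_T3N p r) ≠ 0 := by
    intro r h0
    have h1 := map_dp_T3N φ p r
    rw [h0, map_zero] at h1
    exact dN_ne_T3N hI r h1.symm
  have h1 := h k hB φ (by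
    intro ξ i
    fin_cases i
    · left
      simpa using hdp (ξ.1 0)
    · left
      simpa using hdp (ξ.1 1)
    · right
      simpa using hdp (ξ.1 2)
    · left
      simp)
  obtain ⟨c, hc, hcM⟩ := hDat k n s h2k (by omega) (fun j => map φ (p j)) hI (φ μ) hm0 hm1
  have key : (∃ ξ : {M : Fin 3 → Fin s → Bool // OddN M ∧ ¬ RowN M}, ∃ x : Fin 4 → KN n k, x ≠ 0 ∧
        qf (fun i => algebraMap (AN n k) (KN n k)
          (map φ ((![dp_T3N p (ξ.1 0), -dp_T3N p (ξ.1 1), 0, -1] : Fin 4 → MvPolynomial (Fin n) R) i))) x = 0 ∧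
        qf (fun i => algebraMap (AN n k) (KN n k)
          (map φ ((![dp_T3N p (ξ.1 0), 0, -dp_T3N p (ξ.1 2), -C μ] : Fin 4 → MvPolynomial (Fin n) R) i))) x = 0) ↔
      MapN (fun j => map φ (p j)) (φ μ) := by
    rw [← hSol k n s h2k (fun j => map φ (p j)) hI (φ μ) hm0 hm1, hT3A _ s _ c hc]
    have hq : ∀ ξ : {M : Fin 3 → Fin s → Bool // OddN M ∧ ¬ RowN M},
        (∃ x : Fin 4 → KN n k, x ≠ 0 ∧
        qf (fun i => algebraMap (AN n k) (KN n k)
          (map φ ((![dp_T3N p (ξ.1 0), -dp_T3N p (ξ.1 1), 0, -1] : Fin 4 → MvPolynomial (Fin n) R) i))) x = 0 ∧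
        qf (fun i => algebraMap (AN n k) (KN n k)
          (map φ ((![dp_T3N p (ξ.1 0), 0, -dp_T3N p (ξ.1 2), -C μ] : Fin 4 → MvPolynomial (Fin n) R) i))) x = 0) ↔
        ∃ Q, ClassN (fun j => map φ (p j)) (φ μ) Q ξ.1 := by
      intro ξ
      have e1 : (fun i => algebraMap (AN n k) (KN n k)
          (map φ ((![dp_T3N p (ξ.1 0), -dp_T3N p (ξ.1 1), 0, -1] : Fin 4 → MvPolynomial (Fin n) R) i))) =
          ![dN (fun j => map φ (p j)) (ξ.1 0), -dN (fun j => map φ (p j)) (ξ.1 1), 0, -1] := by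
        funext i
        fin_cases i
        · simp [map_dp_T3N]
        · simp [map_dp_T3N]
        · simp
        · simp
      have e2 : (fun i => algebraMap (AN n k) (KN n k)
          (map φ ((![dp_T3N p (ξ.1 0), 0, -dp_T3N p (ξ.1 2), -C μ] : Fin 4 → MvPolynomial (Fin n) R) i))) =
          ![dN (fun j => map φ (p j)) (ξ.1 0), 0, -dN (fun j => map φ (p j)) (ξ.1 2), -cN n (φ μ)] := by
        funext i
        fin_cases i
        · simp [map_dp_T3N]
        · simp
        · simp [map_dp_T3N]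
        · simp [cN]
      rw [e1, e2]
      have hF : fN (fun j => map φ (p j)) ≠ 0 := by
        rw [fN_eq_T3N]; exact dN_ne_T3N hI _
      have hsq : IsSquare (fN (fun j => map φ (p j)) * dN (fun j => map φ (p j)) (ξ.1 0) *
          dN (fun j => map φ (p j)) (ξ.1 1) * dN (fun j => map φ (p j)) (ξ.1 2)) := by
        rw [fN_eq_T3N, hInd k n s _ hI]
        intro j
        have h3 := ξ.2.1 j
        revert h3
        cases ξ.1 0 j <;> cases ξ.1 1 j <;> cases ξ.1 2 j <;> simp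
      exact hCov (KN n k) h2K (fN (fun j => map φ (p j))) (cN n (φ μ)) hF (hc0 _ hm0) (hc1 _ hm1)
        (fun i => dN (fun j => map φ (p j)) (ξ.1 i)) (fun i => dN_ne_T3N hI _) hsq
    constructor
    · rintro ⟨ξ, hξ⟩
      obtain ⟨Q, hQ⟩ := (hq ξ).1 hξ
      have := (hcM Q ξ.1).1 hQ
      exact ⟨Q, by rw [this]; exact ξ.2.2⟩
    · rintro ⟨Q, hQ⟩
      refine ⟨⟨c Q, hc.odd Q, hQ⟩, ?_⟩
      exact (hq ⟨c Q, hc.odd Q, hQ⟩).2 ⟨Q, (hcM Q (c Q)).2 rfl⟩
  rw [← propext key]
  exact h1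

end Pool.Agent.Helper44.CMF
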