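import Pool.Agent.Helper44.CMF.StN
import Pool.Agent.Helper44.RED.Fld

/-!
# Project CMF, part N: module TrkN
-/

set_option autoImplicit false

open Polynomial

namespace Pool.Agent.Helper44.CMF

open Pool.Agent.Helper44.RED

/-- independence is not changed by an injective map of the base -/
private theorem indep_comp_TrkN {E E' F ι : Type} [CommRing E] [CommRing E'] [CommRing F]
    {φ : E' →+* F} {y : ι → F} (h : Indep φ y) (e : E →+* E') (he : Function.Injective e) :
    Indep (φ.comp e) y := by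
  have key : ∀ p, MvPolynomial.eval₂Hom (φ.comp e) y p =
      MvPolynomial.eval₂Hom φ y (MvPolynomial.map e p) := by
    intro p
    rw [MvPolynomial.coe_eval₂Hom, MvPolynomial.coe_eval₂Hom, MvPolynomial.eval₂_map]
  intro p q hpq
  rw [key, key] at hpq
  exact MvPolynomial.map_injective e he (h hpq)

private theorem genBy_comp_TrkN {E E' F : Type} [Field E] [Field E'] [Field F]
    {φ : E' →+* F} {S : Set F} (h : GenBy φ S) (e : E →+* E') (he : Function.Surjective e) :
    GenBy (φ.comp e) S := by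
  have h1 : Set.range (φ.comp e) = Set.range φ := by
    rw [RingHom.coe_comp]
    exact he.range_comp φ
  unfold GenBy at *
  rw [h1]
  exact h

/-- one step: first variable split off -/
private theorem step_TrkN {E F κ : Type} [Field E] [Field F] {φ : E →+* F} {z : Unit ⊕ κ → F}
    (h : Indep φ z) (hg : GenBy φ (Set.range z)) :
    ∃ ψ : RatFunc E →+* F, (∀ p : E[X], ψ (algebraMap E[X] (RatFunc E) p) =
        Polynomial.eval₂ φ (z (Sum.inl ())) p) ∧
      ψ RatFunc.X = z (Sum.inl ()) ∧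
      Indep ψ (fun j : κ => z (Sum.inr j)) ∧
      GenBy ψ (Set.range fun j : κ => z (Sum.inr j)) := by
  obtain ⟨L, ψ, z', hψ, hz', h1, h2, h3, h4⟩ := peelSum h hg
  have hz0 : z' = fun _ : Unit => z' () := rfl
  have h2' : GenBy ψ {z' ()} := by
    have : Set.range z' = {z' ()} := by
      rw [hz0, Set.range_const]
    rw [← this]
    exact h2
  obtain ⟨j, hj1, hj2, hj3⟩ := Indep.isoRat (z := z' ()) h1 h2'
  refine ⟨L.subtype.comp (j : RatFunc E →+* L), ?_, ?_, ?_, ?_⟩
  · intro p
    have e1 : (L.subtype.comp (j : RatFunc E →+* L)) (algebraMap E[X] (RatFunc E) p) =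
        L.subtype (j (algebraMap E[X] (RatFunc E) p)) := rfl
    rw [e1, hj3, Polynomial.hom_eval₂]
    have e2 : L.subtype.comp ψ = φ := RingHom.ext hψ
    rw [e2]
    congr 1
    exact hz' ()
  · have e1 : (L.subtype.comp (j : RatFunc E →+* L)) RatFunc.X = L.subtype (j RatFunc.X) := rfl
    rw [e1, hj2]
    exact hz' ()
  · exact indep_comp_TrkN h3 _ j.injective
  · exact genBy_comp_TrkN h4 _ j.surjective

/-- one step: a family of variables split off -/
private theorem stepF_TrkN {E F ι κ : Type} [Field E] [Field F] {φ : E →+* F} {z : ι ⊕ κ → F}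
    (h : Indep φ z) (hg : GenBy φ (Set.range z)) :
    ∃ ψ : FractionRing (MvPolynomial ι E) →+* F,
      (∀ p : MvPolynomial ι E, ψ (algebraMap (MvPolynomial ι E) _ p) =
        MvPolynomial.eval₂Hom φ (fun i => z (Sum.inl i)) p) ∧
      Indep ψ (fun j : κ => z (Sum.inr j)) ∧
      GenBy ψ (Set.range fun j : κ => z (Sum.inr j)) := by
  obtain ⟨L, ψ, z', hψ, hz', h1, h2, h3, h4⟩ := peelSum h hg
  obtain ⟨j, hj1, hj2, hj3⟩ := h1.iso h2
  refine ⟨L.subtype.comp (j : FractionRing (MvPolynomial ι E) →+* L), ?_, ?_, ?_⟩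
  · intro p
    have e1 : (L.subtype.comp (j : FractionRing (MvPolynomial ι E) →+* L))
        (algebraMap (MvPolynomial ι E) _ p) =
        L.subtype (j (algebraMap (MvPolynomial ι E) _ p)) := rfl
    rw [e1, hj3, MvPolynomial.coe_eval₂Hom, MvPolynomial.coe_eval₂Hom,
      MvPolynomial.eval₂_comp_left]
    have e2 : L.subtype.comp ψ = φ := RingHom.ext hψ
    rw [e2]
    congr 1
    funext i
    exact hz' i
  · exact indep_comp_TrkN h3 _ j.injective
  · exact genBy_comp_TrkN h4 _ j.surjective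

theorem pTrkN : StTrkN := by
  intro k Ξ _ _ n
  set F := FractionRing (MvPolynomial ((Fin n ⊕ Unit) ⊕ Ξ) k) with hF
  set y : (Fin n ⊕ Unit) ⊕ Ξ → F :=
    fun i => algebraMap (MvPolynomial ((Fin n ⊕ Unit) ⊕ Ξ) k) F (MvPolynomial.X i) with hy
  have hi : Indep (algebraMap k F) y := indep_frac
  have hg : GenBy (algebraMap k F) (Set.range y) := genBy_frac
  let e : Fin n ⊕ (Unit ⊕ Ξ) ≃ (Fin n ⊕ Unit) ⊕ Ξ := (Equiv.sumAssoc (Fin n) Unit Ξ).symm
  have hi' : Indep (algebraMap k F) (fun i => y (e i)) := hi.equiv e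
  have hg' : GenBy (algebraMap k F) (Set.range fun i => y (e i)) := hg.equiv e
  obtain ⟨ψ1, h1, h3, h4⟩ := stepF_TrkN hi' hg'
  obtain ⟨ψ2, h5, h6, h7, h8⟩ := step_TrkN h3 h4
  refine ⟨ψ2, ?_, ?_, ?_, ?_⟩
  · intro p
    have e1 : (RatFunc.C (algebraMap (AN n k) (KN n k) p) : RatFunc (KN n k)) =
        algebraMap (KN n k)[X] (RatFunc (KN n k)) (C (algebraMap (AN n k) (KN n k) p)) := by
      rw [RatFunc.algebraMap_C]
    rw [e1, h5, Polynomial.eval₂_C, h1]
    have e2 : MvPolynomial.eval₂Hom (algebraMap k F) (fun i : Fin n => y (e (Sum.inl i))) =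
        (algebraMap (MvPolynomial ((Fin n ⊕ Unit) ⊕ Ξ) k) F).comp
          (MvPolynomial.rename (R := k) (fun i : Fin n => (Sum.inl (Sum.inl i) :
            (Fin n ⊕ Unit) ⊕ Ξ)) : MvPolynomial (Fin n) k →+*
              MvPolynomial ((Fin n ⊕ Unit) ⊕ Ξ) k) := by
      apply MvPolynomial.ringHom_ext
      · intro a
        simp only [MvPolynomial.coe_eval₂Hom, MvPolynomial.eval₂_C, RingHom.comp_apply,
          RingHom.coe_coe, MvPolynomial.rename_C]
        rw [IsScalarTower.algebraMap_apply k (MvPolynomial ((Fin n ⊕ Unit) ⊕ Ξ) k) F,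
          MvPolynomial.algebraMap_eq]
      · intro i
        simp only [MvPolynomial.coe_eval₂Hom, MvPolynomial.eval₂_X, RingHom.comp_apply,
          RingHom.coe_coe, MvPolynomial.rename_X]
        rfl
    rw [e2]
    rfl
  · exact h6
  · exact h7
  · exact h8

end Pool.Agent.Helper44.CMF
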