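import Pool.Agent.Helper44.RED.All
import Pool.Agent.Helper44.RED.M_HomD
import Pool.Agent.Helper44.RED.M_Trans
import Pool.Agent.Helper44.CMF.M_SigB
import Pool.Agent.Helper44.CMF.M_FinB
import Pool.Agent.Helper44.CMF.M_EqM
import Pool.Agent.Helper44.CMF.M_HzM
import Pool.Agent.Helper44.CMF.M_Sca
import Pool.Agent.Helper44.CMF.M_Fam
import Pool.Agent.Helper44.CMF.M_FamT
import Pool.Agent.Helper44.CMF.M_Ort
import Pool.Agent.Helper44.CMF.M_Bru
import Pool.Agent.Helper44.CMF.M_Hom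
import Pool.Agent.Helper44.CMF.M_Ker
import Pool.Agent.Helper44.CMF.M_Prd
import Pool.Agent.Helper44.CMF.M_TrkN
import Pool.Agent.Helper44.CMF.M_PairsN
import Pool.Agent.Helper44.CMF.M_IndN
import Pool.Agent.Helper44.CMF.M_SqN
import Pool.Agent.Helper44.CMF.M_SupN
import Pool.Agent.Helper44.CMF.M_CovK
import Pool.Agent.Helper44.CMF.M_AdsK
import Pool.Agent.Helper44.CMF.M_PD1N
import Pool.Agent.Helper44.CMF.M_PD2N
import Pool.Agent.Helper44.CMF.M_PD3N
import Pool.Agent.Helper44.CMF.M_PD4N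
import Pool.Agent.Helper44.CMF.M_ParN
import Pool.Agent.Helper44.CMF.M_RdegN
import Pool.Agent.Helper44.CMF.M_HzeN
import Pool.Agent.Helper44.CMF.M_DatN
import Pool.Agent.Helper44.CMF.M_T3AN
import Pool.Agent.Helper44.CMF.M_SolN
import Pool.Agent.Helper44.CMF.M_T3N

/-!
# Project CMF, part N: assembly
-/

set_option autoImplicit false

namespace Pool.Agent.Helper44.CMF

open Pool.Agent.Helper44.RED

theorem aPairsN : StPairsN := pPairsN (pFamT (pFam pSigB (pFinB aXVar aXRat aXNot aPureIso) pEqM pHzM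
  pSca (pHomD aPT) pTrans)) pOrt pBru pTrkN

theorem aDatN : StDatN := pDatN (pSupN pSqN) pIndN (pParN pPD1N pPD2N pPD3N pPD4N pAdsK)
  (pHzeN pIndN pRdegN) pPrd pHom pKer

theorem aT3N : StT3N := pT3N aPairsN pIndN pCovK aDatN pT3AN (pSolN pRdegN)

end Pool.Agent.Helper44.CMF
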