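import Pool.Agent.Helper44.CMF.St

/-!
# Project CMF: module Ads
-/

set_option autoImplicit false
set_option linter.unusedSimpArgs false

open Polynomial

namespace Pool.Agent.Helper44.CMF

open Pool.Agent.Helper44.RED

private theorem fin3_Ads {R : Type} [CommRing R] (c : R) (u v : Fin 3 → R) (h0 : u 0 = c * v 0)
    (h1 : u 1 = c * v 1) (h2 : u 2 = c * v 2) : ∀ i, u i = c * v i := by
  intro i
  fin_cases i
  · exact h0
  · exact h1
  · exact h2

section
variable {k : Type} [Field k]

private theorem xx_zero_Ads (l m : k) : xx l m (0 : (W (ee l m)).Point) = ![1, 0] := rfl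

private theorem xx_some_Ads (l m : k) (x y : RatFunc k) (h : (W (ee l m)).Nonsingular x y) :
    xx l m (.some x y h) = ![x / ff l, 1] := rfl

private theorem xx_neg_Ads (l m : k) (P : (W (ee l m)).Point) : xx l m (-P) = xx l m P := by
  rcases P with _ | ⟨x, y, h⟩
  · rfl
  · rw [WeierstrassCurve.Affine.Point.neg_some]
    rfl

private theorem sm2_comm_Ads (u v : Fin 2 → RatFunc k) : sm2 u v = sm2 v u := by
  unfold sm2
  simp only [mul_comm, add_comm]

/-- the equation in terms of `ξ = x / f` -/
private theorem eqn_Ads (h2 : (2 : k) ≠ 0) {l m : k} (hm0 : m ≠ 0) (hm1 : m ≠ 1) {x y : RatFunc k}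
    (h : (W (ee l m)).Nonsingular x y) :
    y ^ 2 = ff l ^ 3 * ((x / ff l) * (x / ff l - 1) * (x / ff l - RatFunc.C m)) := by
  have h3 := (W_nonsingular (two_ne_rat h2) _ (ee_inj hm0 hm1) x y).1 h
  rw [ee0, ee1, ee2] at h3
  have hf := ff_ne l
  rw [h3]
  field_simp
  ring

private theorem addX_Ads {l m : k} (x₁ x₂ s : RatFunc k) :
    (W (ee l m)).addX x₁ x₂ s = s ^ 2 + (1 + RatFunc.C m) * ff l - x₁ - x₂ := by
  unfold WeierstrassCurve.Affine.addX W
  simp only [ee0, ee1, ee2]
  ring

end

/-- the sum of two different `x`-coordinates, after clearing denominators -/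
private theorem ne_Ads {K : Type} [Field K] (m f a b y z : K) (hf : f ≠ 0) (hab : a ≠ b)
    (hy : y ^ 2 = f ^ 3 * (a * (a - 1) * (a - m))) (hz : z ^ 2 = f ^ 3 * (b * (b - 1) * (b - m))) :
    2 * ((a + b) * (a * b + m)) - 4 * ((1 + m) * (a * b)) =
      (a - b) ^ 2 * ((((y - z) / (f * a - f * b)) ^ 2 + (1 + m) * f - f * a - f * b) / f +
        (((y + z) / (f * a - f * b)) ^ 2 + (1 + m) * f - f * a - f * b) / f) ∧
    (a * b - m) ^ 2 =
      (a - b) ^ 2 * ((((y - z) / (f * a - f * b)) ^ 2 + (1 + m) * f - f * a - f * b) / f *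
        ((((y + z) / (f * a - f * b)) ^ 2 + (1 + m) * f - f * a - f * b) / f)) := by
  have hd : a - b ≠ 0 := sub_ne_zero.2 hab
  have hfab : f * a - f * b = f * (a - b) := by ring
  rw [hfab]
  have e1 : (((y - z) / (f * (a - b))) ^ 2 + (1 + m) * f - f * a - f * b) / f =
      (a * (a - 1) * (a - m) + b * (b - 1) * (b - m) - 2 * (y * z / f ^ 3)) / (a - b) ^ 2 +
        (1 + m - a - b) := by
    have : (y - z) ^ 2 = f ^ 3 * (a * (a - 1) * (a - m)) + f ^ 3 * (b * (b - 1) * (b - m)) -
        2 * (y * z) := by rw [← hy, ← hz]; ring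
    rw [div_pow, this]
    field_simp
    ring
  have e2 : (((y + z) / (f * (a - b))) ^ 2 + (1 + m) * f - f * a - f * b) / f =
      (a * (a - 1) * (a - m) + b * (b - 1) * (b - m) + 2 * (y * z / f ^ 3)) / (a - b) ^ 2 +
        (1 + m - a - b) := by
    have : (y + z) ^ 2 = f ^ 3 * (a * (a - 1) * (a - m)) + f ^ 3 * (b * (b - 1) * (b - m)) +
        2 * (y * z) := by rw [← hy, ← hz]; ring
    rw [div_pow, this]
    field_simp
    ring
  have e3 : (y * z / f ^ 3) ^ 2 = (a * (a - 1) * (a - m)) * (b * (b - 1) * (b - m)) := by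
    rw [div_pow, mul_pow, hy, hz]
    field_simp
  rw [e1, e2]
  generalize y * z / f ^ 3 = p at e3
  constructor
  · field_simp
    ring
  · have h4 : (a - b) ^ 2 * (((a * (a - 1) * (a - m) + b * (b - 1) * (b - m) - 2 * p) / (a - b) ^ 2 +
        (1 + m - a - b)) * ((a * (a - 1) * (a - m) + b * (b - 1) * (b - m) + 2 * p) / (a - b) ^ 2 +
        (1 + m - a - b))) = ((a * (a - 1) * (a - m) + b * (b - 1) * (b - m) +
          (1 + m - a - b) * (a - b) ^ 2) ^ 2 - 4 * p ^ 2) / (a - b) ^ 2 := by
      field_simp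
      ring
    rw [h4, e3]
    field_simp
    ring

/-- doubling -/
private theorem dbl_Ads {K : Type} [Field K] (m f a y : K) (hf : f ≠ 0) (h2 : (2 : K) ≠ 0)
    (hy0 : y ≠ 0) (hy : y ^ 2 = f ^ 3 * (a * (a - 1) * (a - m))) :
    (a ^ 2 - m) ^ 2 = (4 * (a * (a - 1) * (a - m))) *
      ((((3 * (f * a) ^ 2 - 2 * (f + m * f) * (f * a) + f * (m * f)) / (2 * y)) ^ 2 +
        (1 + m) * f - f * a - f * a) / f) := by
  have hg : a * (a - 1) * (a - m) ≠ 0 := by
    intro h
    rw [h, mul_zero] at hy
    exact hy0 (pow_eq_zero_iff (by norm_num) |>.1 hy)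
  have e1 : ((3 * (f * a) ^ 2 - 2 * (f + m * f) * (f * a) + f * (m * f)) / (2 * y)) ^ 2 =
      f * (3 * a ^ 2 - 2 * (1 + m) * a + m) ^ 2 / (4 * (a * (a - 1) * (a - m))) := by
    rw [div_pow, mul_pow 2 y, hy]
    have h4 : (4 : K) = 2 ^ 2 := by norm_num
    rw [h4]
    have := hg
    rw [div_eq_div_iff (mul_ne_zero (pow_ne_zero 2 h2) (mul_ne_zero (pow_ne_zero 3 hf) hg)) (mul_ne_zero (pow_ne_zero 2 h2) hg)]
    ring
  rw [e1]
  have h4 : (4 : K) ≠ 0 := by
    have : (4 : K) = 2 * 2 := by norm_num
    rw [this]; exact mul_ne_zero h2 h2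
  have h5 : (f * (3 * a ^ 2 - 2 * (1 + m) * a + m) ^ 2 / (4 * (a * (a - 1) * (a - m))) +
        (1 + m) * f - f * a - f * a) / f =
      (3 * a ^ 2 - 2 * (1 + m) * a + m) ^ 2 / (4 * (a * (a - 1) * (a - m))) + (1 + m - 2 * a) := by
    generalize a * (a - 1) * (a - m) = g at hg
    field_simp
    ring
  rw [h5, mul_add, mul_div_cancel₀ _ (mul_ne_zero h4 hg)]
  ring

theorem pAds : StAds := by
  intro k _ _ h2 l m hm0 hm1 P Q
  have hf := ff_ne l
  have h2r := two_ne_rat h2
  have hmr0 : (RatFunc.C m : RatFunc k) ≠ 0 := fun h =>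
    hm0 ((RatFunc.C : k →+* RatFunc k).injective (by rw [h, map_zero]))
  have hmr1 : (RatFunc.C m : RatFunc k) ≠ 1 := fun h =>
    hm1 ((RatFunc.C : k →+* RatFunc k).injective (by rw [h, map_one]))
  -- the case of two equal points
  have same : ∀ P : (W (ee l m)).Point, ∃ c : RatFunc k, c ≠ 0 ∧
      ∀ i, sgm (RatFunc.C m) (sm2 (xx l m P) (xx l m P)) i =
        c * sm2 (xx l m (P + P)) (xx l m 0) i := by
    intro P
    rcases P with _ | ⟨x, y, h⟩
    · refine ⟨1, one_ne_zero, ?_⟩
      rw [← WeierstrassCurve.Affine.Point.zero_def, add_zero, xx_zero_Ads]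
      apply fin3_Ads <;> simp [sgm, sm2]
    · have hy := eqn_Ads h2 hm0 hm1 h
      have hx : x = ff l * (x / ff l) := by field_simp
      rw [xx_some_Ads, xx_zero_Ads]
      generalize hA : x / ff l = A at hy hx
      by_cases hy0 : y = 0
      · have hneg : y = (W (ee l m)).negY x y := by rw [W_neg, hy0, neg_zero]
        rw [WeierstrassCurve.Affine.Point.add_self_of_Y_eq hneg, xx_zero_Ads]
        have hg : A * (A - 1) * (A - RatFunc.C m) = 0 := by
          rw [hy0] at hy
          have : ff l ^ 3 * (A * (A - 1) * (A - RatFunc.C m)) = 0 := by rw [← hy]; ring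
          exact (mul_eq_zero.1 this).resolve_left (pow_ne_zero 3 hf)
        have hc : A ^ 2 - RatFunc.C m ≠ 0 := by
          intro hc
          rcases mul_eq_zero.1 hg with h3 | h3
          · rcases mul_eq_zero.1 h3 with h3 | h3
            · rw [h3] at hc
              apply hmr0
              linear_combination -hc
            · have h4 : A = 1 := by linear_combination h3
              rw [h4] at hc
              apply hmr1
              linear_combination -hc
          · have h4 : A = RatFunc.C m := by linear_combination h3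
            rw [h4] at hc
            have h5 : (RatFunc.C m : RatFunc k) * (RatFunc.C m - 1) = 0 := by linear_combination hc
            rcases mul_eq_zero.1 h5 with h6 | h6
            · exact hmr0 h6
            · exact hmr1 (sub_eq_zero.1 h6)
        refine ⟨(A ^ 2 - RatFunc.C m) ^ 2, pow_ne_zero 2 hc, ?_⟩
        apply fin3_Ads
        · simp [sgm, sm2]
          ring
        · simp [sgm, sm2]
          linear_combination 4 * hg
        · simp [sgm, sm2]
          ring
      · have hneg : y ≠ (W (ee l m)).negY x y := by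
          rw [W_neg]
          intro h3
          apply hy0
          have : 2 * y = 0 := by linear_combination h3
          exact (mul_eq_zero.1 this).resolve_left h2r
        rw [WeierstrassCurve.Affine.Point.add_self_of_Y_ne hneg, xx_some_Ads, addX_Ads,
          WeierstrassCurve.Affine.slope_of_Y_ne rfl hneg]
        have hsl : (3 * x ^ 2 + 2 * (W (ee l m)).a₂ * x + (W (ee l m)).a₄ - (W (ee l m)).a₁ * y) /
            (y - (W (ee l m)).negY x y) =
            (3 * (ff l * A) ^ 2 - 2 * (ff l + RatFunc.C m * ff l) * (ff l * A) +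
              ff l * (RatFunc.C m * ff l)) / (2 * y) := by
          rw [W_neg, ← hx]
          simp only [W, ee0, ee1, ee2]
          congr 1 <;> ring
        rw [hsl]
        have key := dbl_Ads (RatFunc.C m) (ff l) A y hf h2r hy0 hy
        rw [← hx] at key ⊢
        have hg : A * (A - 1) * (A - RatFunc.C m) ≠ 0 := by
          intro h
          rw [h, mul_zero] at hy
          exact hy0 (pow_eq_zero_iff (by norm_num) |>.1 hy)
        have h4 : (4 : RatFunc k) ≠ 0 := by
          have : (4 : RatFunc k) = 2 * 2 := by norm_num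
          rw [this]; exact mul_ne_zero h2r h2r
        refine ⟨4 * (A * (A - 1) * (A - RatFunc.C m)), mul_ne_zero h4 hg, ?_⟩
        apply fin3_Ads
        · simp [sgm, sm2]
          ring
        · simp [sgm, sm2]
          ring
        · simp only [sgm, sm2, Matrix.cons_val_zero, Matrix.cons_val_one, Matrix.cons_val,
            mul_one, one_mul, mul_zero, zero_mul, add_zero, zero_add]
          linear_combination key
  rcases P with _ | ⟨x₁, y₁, h₁⟩
  · refine ⟨1, one_ne_zero, ?_⟩
    rw [← WeierstrassCurve.Affine.Point.zero_def, zero_add, zero_sub, xx_neg_Ads, xx_zero_Ads]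
    rcases Q with _ | ⟨x₂, y₂, h₂⟩
    · rw [← WeierstrassCurve.Affine.Point.zero_def, xx_zero_Ads]
      apply fin3_Ads <;> simp [sgm, sm2]
    · rw [xx_some_Ads]
      apply fin3_Ads <;> simp [sgm, sm2] <;> ring
  · rcases Q with _ | ⟨x₂, y₂, h₂⟩
    · refine ⟨1, one_ne_zero, ?_⟩
      rw [← WeierstrassCurve.Affine.Point.zero_def, add_zero, sub_zero, xx_zero_Ads, xx_some_Ads]
      apply fin3_Ads <;> simp [sgm, sm2] <;> ring
    · by_cases hx : x₁ = x₂
      · subst hx
        have e1 := (W_nonsingular h2r _ (ee_inj hm0 hm1) _ _).1 h₁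
        have e2 := (W_nonsingular h2r _ (ee_inj hm0 hm1) _ _).1 h₂
        have e3 : (y₁ - y₂) * (y₁ + y₂) = 0 := by linear_combination e1 - e2
        rcases mul_eq_zero.1 e3 with e4 | e4
        · have e5 : y₁ = y₂ := sub_eq_zero.1 e4
          subst e5
          rw [sub_self]
          exact same _
        · have e5 : (WeierstrassCurve.Affine.Point.some x₁ y₂ h₂ : (W (ee l m)).Point) =
              -(WeierstrassCurve.Affine.Point.some x₁ y₁ h₁) := by
            rw [WeierstrassCurve.Affine.Point.neg_some]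
            congr 1
            rw [W_neg]
            linear_combination e4
          rw [e5, xx_neg_Ads, add_neg_cancel, sub_neg_eq_add, sm2_comm_Ads (xx l m 0)]
          exact same _
      · have hy1 := eqn_Ads h2 hm0 hm1 h₁
        have hy2 := eqn_Ads h2 hm0 hm1 h₂
        have hx1 : x₁ = ff l * (x₁ / ff l) := by field_simp
        have hx2 : x₂ = ff l * (x₂ / ff l) := by field_simp
        have hne : x₁ / ff l ≠ x₂ / ff l := by
          intro h
          apply hx
          rw [hx1, h, ← hx2]
        rw [sub_eq_add_neg, WeierstrassCurve.Affine.Point.neg_some,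
          WeierstrassCurve.Affine.Point.add_of_X_ne hx, WeierstrassCurve.Affine.Point.add_of_X_ne hx,
          xx_some_Ads, xx_some_Ads, xx_some_Ads, xx_some_Ads, addX_Ads, addX_Ads,
          WeierstrassCurve.Affine.slope_of_X_ne hx, WeierstrassCurve.Affine.slope_of_X_ne hx, W_neg,
          sub_neg_eq_add]
        generalize hA : x₁ / ff l = A at hy1 hx1 hne
        generalize hB : x₂ / ff l = B at hy2 hx2 hne
        obtain ⟨k1, k2⟩ := ne_Ads (RatFunc.C m) (ff l) A B y₁ y₂ hf hne hy1 hy2
        rw [← hx1, ← hx2] at k1 k2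
        refine ⟨(A - B) ^ 2, pow_ne_zero 2 (sub_ne_zero.2 hne), ?_⟩
        apply fin3_Ads
        · simp [sgm, sm2]
          ring
        · simp only [sgm, sm2, Matrix.cons_val_zero, Matrix.cons_val_one, Matrix.cons_val,
            mul_one, one_mul]
          linear_combination k1
        · simp only [sgm, sm2, Matrix.cons_val_zero, Matrix.cons_val_one, Matrix.cons_val,
            mul_one, one_mul]
          linear_combination k2

end Pool.Agent.Helper44.CMF
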