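import Pool.Agent.Helper44.CMF.Lib

/-!
# Project CMF (MP_1dc56d): all statements with complete proofs

Overview of the mathematics: team-store file `MP_1dc56d-CMF.md`. Every statement is a `def St… : Prop`; a
module proves one of them from the others (as hypotheses).
-/

set_option autoImplicit false

open Polynomial

namespace Pool.Agent.Helper44.CMF

open Pool.Agent.Helper44.RED

/-! ## F: the uniform family theorem -/

/-- SIGB. The explicit translations are in general position and have no common zero, characteristic `0` or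
large. PROOF. Take `P = (2 M + 3) ^ (B ^ (t' + 2 + e)) + 3` (or any larger number) and copy
`Helper44/RED/M_SigX.lean` (statement `StSigX`, characteristic `0`); characteristic `0` is used there only in
the form that differences of two different natural numbers `(M + 2 + q) ^ (B ^ i)` (`q < M`, `i < t' + 1 + e`), of
two different numbers `M + 2 + q`, and powers of these numbers, are nonzero in `k` (`Nat.cast_injective`, two
places). Two natural numbers `a < b < P` have different images in `k` because `b - a` is nonzero in `k`; powers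
of nonzero elements are nonzero. (The degree argument for NC is over an arbitrary field.) -/
def StSigB : Prop := ∀ (t' e B M : ℕ), ∃ P : ℕ, ∀ (k : Type) [Field k], Big k P → ∀ (c : ℕ)
  (C : Fin c → MvPolynomial (Fin (t' + 1)) k) (D : Fin c → ℕ), 1 ≤ e → (∀ l, C l ≠ 0) →
  (∀ l, (C l).IsHomogeneous (2 * D l)) → (∑ l, 2 * D l) + 2 * e < B →
  ((∑ l, 2 * D l) + 2 * e) * (t' + 1 + e) * B ^ (t' + 1 + e) < M →
  (∀ q, (sgx k (t' + 1 + e) B M q).det ≠ 0) ∧
  GP (bfam e C) (sgx k (t' + 1 + e) B M) ∧ NC (bfam e C) (sgx k (t' + 1 + e) B M)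

/-- FINB. FIN1 without the hypothesis of characteristic zero. PROOF. Copy `Helper44/RED/M_Fin1.lean`; the
hypothesis `CharZero k` is used there only for `(2 : k) ≠ 0`. -/
def StFinB : Prop := ∀ (k : Type) [Field k] [IsAlgClosed k], (2 : k) ≠ 0 → ∀ (t' c e n M : ℕ), 3 ≤ n →
  c + e = 2 ^ (n - 1) → c ≤ 2 ^ (n - 2) →
  ∀ (C : Fin c → MvPolynomial (Fin (t' + 1)) k)
    (σ : Fin M → Matrix (Fin (t' + 1 + e)) (Fin (t' + 1 + e)) k),
    (∀ l, C l ≠ 0) → (∀ l, ∃ D, (C l).IsHomogeneous (2 * D)) → (∀ i, (σ i).det ≠ 0) →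
    GP (bfam e C) σ → NC (bfam e C) σ →
    (XI n (bfam e C) σ).IsPrime ∧
    (Rational k (MvPolynomial (VI (t' + 1 + e) n (c + e) M) k ⧸ XI n (bfam e C) σ) ↔
      ¬ Aniso (one (toKT C))) ∧
    (StRational k (MvPolynomial (VI (t' + 1 + e) n (c + e) M) k ⧸ XI n (bfam e C) σ) ↔
      ¬ Aniso (one (toKT C)))

/-- EQM. The equations commute with ring homomorphisms. PROOF. `MvPolynomial.map φ` is a ring homomorphism;
`bs`, `gd`, `ppf`, `ext0` commute with ring homomorphisms (lemmas in `Helper78` used by `RED/M_Iso.lean`, or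
directly: `bs` is `aeval` of a linear substitution, `gd` a determinant of sums of products). -/
def StEqM : Prop := ∀ (R k : Type) [CommRing R] [Field k] (φ : R →+* k) (t n s M : ℕ)
  (b : Fin s → MvPolynomial (Fin t) R) (σ : Fin M → Matrix (Fin t) (Fin t) R) (p : Fin M × Fin s),
  MvPolynomial.map φ (eqR (n := n) b σ p) =
    eqn (fun l => MvPolynomial.map φ (b l)) (fun q => (σ q).map φ) p

/-- HZM. The same for the homogenisation, `bfam` and the translations.
PROOF. Coefficients (`coeff_homogeneousComponent`, `coeff_map`); `Fin.append`. -/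
def StHzM : Prop := ∀ (R k : Type) [CommRing R] [Field k] (φ : R →+* k),
  (∀ (m D : ℕ) (c : MvPolynomial (Fin m) R),
    MvPolynomial.map φ (hzR D c) = hzD D (MvPolynomial.map φ c)) ∧
  (∀ (t' c e : ℕ) (C : Fin c → MvPolynomial (Fin (t' + 1)) R) (l : Fin (c + e)),
    MvPolynomial.map φ (bfam e C l) = bfam e (fun j => MvPolynomial.map φ (C j)) l) ∧
  (∀ (t B M : ℕ) (q : Fin M), (sgR R t B M q).map φ = sgx k t B M q)

/-- SCA. Scaling of a diagonal form. PROOF. `e₀ · <e₀, …, e_N> = <e₀², e₀ e₁, …>`: if `qf e x = 0` then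
`y = (e₀ x₀, x₁, …)` is a zero of `<1, e₀ e₁, …>`, and conversely with `x₀ = y₀ / e₀`. -/
def StSca : Prop := ∀ (F : Type) [Field F] (N : ℕ) (e : Fin (N + 1) → F), (∀ i, e i ≠ 0) →
  (Aniso e ↔ Aniso (one (fun l : Fin N => e 0 * e l.succ)))

/-- FAM. The uniform family theorem.
PROOF. `c_l = e 0 * e l.succ`, `D_l = (c_l).totalDegree`, `C_l = hzR (D l) (c_l)`, `n = N + 3`,
`e' = 2^(N+2) - N`, `b = bfam e' C`, `t = m + 1 + e'`, `B = Σ 2 D_l + 2 e' + 1`,
`M = (Σ 2 D_l + 2 e') * t * B ^ t + 1`, `P` = maximum of `3` and the number of SIGB for `(m, e', B, M)`; `g` =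
the polynomials `eqR b (sgR R t B M) p`, `p : Fin M × Fin (N + e')`, renamed by an equivalence
`VI t n (N + e') M ≃ Fin v` (`Fintype.equivFin`) and numbered by `Fin q`. Over `k`: `map φ (g j)` is the renamed
`eqn (bfam e' (C over k)) (sgx k t B M)` (EQM, HZM; `MvPolynomial.map_rename`), so `spI φ g` is the image of
`XI` under `renameEquiv` and TRANS (`pTrans` of `RED/M_Trans.lean`) transports primality and (stable)
rationality (quotients by corresponding ideals are isomorphic). `C_l` over `k` is `hzD (D_l) (map φ c_l)`,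
`deg (map φ c_l) ≤ D_l` (`MvPolynomial.totalDegree_map_le` or by coefficients), `map φ c_l ≠ 0`. HOMD: `C_l ≠ 0`
homogeneous of degree `2 D_l`, and `<1, C>` anisotropic iff `<1, map φ c>` is; SCA over `KT k m`. SIGB, FINB with
`t' = m`, `c = N`. -/
def StFam : Prop := ∀ (R : Type) [CommRing R] (m N : ℕ) (e : Fin (N + 1) → MvPolynomial (Fin m) R),
  ∃ (P v q : ℕ) (g : Fin q → MvPolynomial (Fin v) R), 3 ≤ P ∧
    ∀ (k : Type) [Field k] [IsAlgClosed k], Big k P → ∀ φ : R →+* k,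
      (∀ i, MvPolynomial.map φ (e i) ≠ 0) →
      Good φ g (¬ Aniso (toKT fun i => MvPolynomial.map φ (e i)))

/-- FAMT. The same with arbitrary finite index sets. PROOF. Equivalences `Fin (N + 1) ≃ ι`, `Fin m ≃ κ`;
`FractionRing (MvPolynomial κ k) ≅ FractionRing (MvPolynomial (Fin m) k)` (`IsFractionRing.ringEquivOfRingEquiv`
or similar) and reindexing do not change anisotropy. -/
def StFamT : Prop := ∀ (R ι κ : Type) [CommRing R] [Fintype ι] [Nonempty ι] [Fintype κ]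
  (e : ι → MvPolynomial κ R),
  ∃ (P v q : ℕ) (g : Fin q → MvPolynomial (Fin v) R), 3 ≤ P ∧
    ∀ (k : Type) [Field k] [IsAlgClosed k], Big k P → ∀ φ : R →+* k,
      (∀ i, MvPolynomial.map φ (e i) ≠ 0) →
      Good φ g (¬ Aniso (fun i => algebraMap (MvPolynomial κ k) (FractionRing (MvPolynomial κ k))
        (MvPolynomial.map φ (e i))))

/-! ## Q: quadratic forms -/

/-- ORT. Orthogonal sum with independent coefficients.
PROOF. (⇒) If `q ξ` is isotropic put the vector (image under `φ`, injective) at `ξ`, zero elsewhere. (⇐) Let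
`Σ_ξ T_ξ q_ξ(x_ξ) = 0`, `x ≠ 0`. Every element of `F` is a quotient of values at `T` of polynomials over `E` (the
set of such quotients is a subfield containing `φ(E)` and the `T_ξ`; see `RED/M_PT.lean`, `RED/Fld.lean` for this
and for clearing denominators), so we may assume `x_{ξ,i} = f_{ξ,i}(T)`, `f_{ξ,i} ∈ E[T]`, and by independence
`Σ_ξ T_ξ q_ξ(f_ξ) = 0` in `MvPolynomial Ξ E`. Take a monomial order (`MonomialOrder.lex` after choosing a linear
order of `Ξ`, or `degLex`). For `f_ξ ≠ 0` let `a_ξ` be the largest exponent in the `f_{ξ,i}`, `c_ξ ≠ 0` the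
vector of coefficients: the coefficient of `q_ξ(f_ξ)` at `2 a_ξ` is `q_ξ(c_ξ) ≠ 0` and larger exponents do
not occur. So `T_ξ q_ξ(f_ξ)` has degree `2 a_ξ + e_ξ`; these exponents are different for different `ξ`
(parities of the coordinates), hence the largest one has nonzero coefficient in the sum. (Alternative:
induction on the number of variables with ODD of RED: `Aniso A`, `Aniso B` imply `Aniso (A ⊥ z B)`, and PT.) -/
def StOrt : Prop := ∀ (E F Ξ ι : Type) [Field E] [Field F] [Fintype Ξ] [Fintype ι] (φ : E →+* F)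
  (T : Ξ → F), Indep φ T → GenBy φ (Set.range T) → ∀ q : Ξ → ι → E,
    (Aniso (fun p : Ξ × ι => T p.1 * φ (q p.1 p.2)) ↔ ∀ ξ, Aniso (q ξ))

/-- BRU. Theorem of Brumer (two diagonal forms): `b + X a` is isotropic over `K(X)` iff `a` and `b` have a
common nontrivial zero in `K`.
PROOF. (right to left of the contrapositive is clear: a common zero `x` in `K` is a zero of `b + X a`.)
Suppose `b + X a` has a nontrivial zero over `K(X)`; clear denominators: a vector `v ∈ K[X]^ι`, `v ≠ 0`,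
`Σ (C b_i + X C a_i) v_i² = 0`; choose it with `m = max deg v_i` minimal; `v_j` = vector of the coefficients of
`X^j`. `a(v_m) = 0` (coefficient of `X^{2m+1}`). If `m = 0`: also `b(v_0) = 0`, done. If `m ≥ 1`, the
coefficient of `X^{2m}` is `b(v_m) + 2 B_a(v_m, v_{m-1}) = 0`. If `c = b(v_m) = 0`, `v_m ≠ 0` is a common zero.
Otherwise let `w = v_m` (constant vector), `q = b + X a`, `B = B_b + X B_a` its bilinear form: `q(w) = c`,
`v' = v - (2/c) B(v, w) w` satisfies `q(v') = 0` (reflection), `v' ≠ 0` (reflections are injective: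
`v = v' - (2/c) B(v', w) w`). `B(v,w)` has degree `≤ m + 1` with coefficient `B_a(v_m, v_m) = 0` at `X^{m+1}` and
`B_b(v_m,v_m) + B_a(v_{m-1},v_m) = c - c/2 = c/2` at `X^m`, so `v'` has degree `≤ m` and its coefficient at `X^m`
is `v_m - (2/c)(c/2) v_m = 0`. Contradiction to minimality. -/
def StBru : Prop := ∀ (K ι : Type) [Field K] [Fintype ι], (2 : K) ≠ 0 → ∀ a b : ι → K,
  (Aniso (fun i => RatFunc.C (b i) + RatFunc.X * RatFunc.C (a i)) ↔
    ∀ x : ι → K, qf a x = 0 → qf b x = 0 → x = 0)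

/-- TRK. The field `k(t, s, T)` as a rational function field over `k(t)(s)`. PROOF. `ψ` = composition of lifts
(`RatFunc.liftRingHom` / `IsFractionRing.lift`) of injective ring homomorphisms; independence: a polynomial
relation over `RatFunc (RatFunc k)` in the `T_ξ` becomes, after clearing denominators twice, a polynomial
relation over `k` in `t, s, T`; generation: the subfield contains `k`, `t`, `s` and `T`. (Alternatively use the
API `Indep.…`, `GenBy.…` of `RED/Fld.lean`.) -/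
def StTrk : Prop := ∀ (k Ξ : Type) [Field k] [Finite Ξ],
  ∃ ψ : RatFunc (RatFunc k) →+* FractionRing (MvPolynomial (Fin 2 ⊕ Ξ) k),
    (∀ p : k[X], ψ (RatFunc.C (algebraMap k[X] (RatFunc k) p)) =
      algebraMap (MvPolynomial (Fin 2 ⊕ Ξ) k) _
        (Polynomial.aeval (MvPolynomial.X (Sum.inl 0) : MvPolynomial (Fin 2 ⊕ Ξ) k) p)) ∧
    ψ RatFunc.X = algebraMap (MvPolynomial (Fin 2 ⊕ Ξ) k) _ (MvPolynomial.X (Sum.inl 1)) ∧
    Indep ψ (fun ξ : Ξ => algebraMap (MvPolynomial (Fin 2 ⊕ Ξ) k)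
      (FractionRing (MvPolynomial (Fin 2 ⊕ Ξ) k)) (MvPolynomial.X (Sum.inr ξ))) ∧
    GenBy ψ (Set.range fun ξ : Ξ => algebraMap (MvPolynomial (Fin 2 ⊕ Ξ) k)
      (FractionRing (MvPolynomial (Fin 2 ⊕ Ξ) k)) (MvPolynomial.X (Sum.inr ξ)))

/-- PAIRS. Families of pairs of diagonal quadratic forms over `k(t)`.
PROOF. FAMT for the index set `Ξ × ι`, the variables `Fin 2 ⊕ Ξ` (`t = X (inl 0)`, `s = X (inl 1)`,
`T_ξ = X (inr ξ)`) and `e (ξ, i) = X (inr ξ) * (aeval t (b ξ i) + s * aeval t (a ξ i))` (coefficients in `R`;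
`map φ` of it is the same expression with `(a ξ i).map φ`, `(b ξ i).map φ`, and it is nonzero because
`aeval t`, `s` are independent). By TRK, `algebraMap (map φ (e (ξ,i))) = T_ξ * ψ (C β + X C α)` with `α, β` the images of
`(a ξ i).map φ`, `(b ξ i).map φ` in `RatFunc k`. ORT with `E = RatFunc (RatFunc k)`: anisotropic iff for all `ξ`
`<C β_i + X C α_i>` is anisotropic over `RatFunc (RatFunc k)`; BRU with `K = RatFunc k`. `2 ≠ 0`: `Big.two`. -/
def StPairs : Prop := ∀ (R Ξ ι : Type) [CommRing R] [Fintype Ξ] [Nonempty Ξ] [Fintype ι] [Nonempty ι]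
  (a b : Ξ → ι → R[X]),
  ∃ (P v q : ℕ) (g : Fin q → MvPolynomial (Fin v) R), 3 ≤ P ∧
    ∀ (k : Type) [Field k] [IsAlgClosed k], Big k P → ∀ φ : R →+* k,
      (∀ ξ i, (a ξ i).map φ ≠ 0 ∨ (b ξ i).map φ ≠ 0) →
      Good φ g (∃ ξ, ∃ x : ι → RatFunc k, x ≠ 0 ∧
        qf (fun i => algebraMap k[X] (RatFunc k) ((a ξ i).map φ)) x = 0 ∧
        qf (fun i => algebraMap k[X] (RatFunc k) ((b ξ i).map φ)) x = 0)

/-! ## E: elliptic curves -/

/-- HOM. The 2-descent map is a homomorphism modulo squares.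
PROOF. `P = 0` or `Q = 0` or `P + Q = 0` (`Q = -P`, `dl (-P) = dl P`, `W_neg`): clear (`dl² `). Otherwise `P = (x₁,y₁)`, `Q = (x₂,y₂)`,
`P + Q = (x₃,y₃)` (`WeierstrassCurve.Affine.Point.add_some`, `addX`, `addY`, `slope`), `s` the slope,
`r = y₁ - s x₁`. Then `(X - e₀)(X - e₁)(X - e₂) - (s X + r)² = (X - x₁)(X - x₂)(X - x₃)` for all `X ∈ K` (use the
equations of the points; for `x₁ ≠ x₂`: `s (x₁ - x₂) = y₁ - y₂`, for `P = Q`: `2 y₁ s = ` derivative;
`x₃ = s² + e₀ + e₁ + e₂ - x₁ - x₂`). At `X = e_i`: `(x₁ - e_i)(x₂ - e_i)(x₃ - e_i) = (s e_i + r)²`. If no `x_j = e_i` done.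
If exactly one `x_j = e_i`: `s e_i + r = 0` and comparing the derivative at `e_i` (or the coefficients):
`(e_i - e_{i+1})(e_i - e_{i+2}) = ` product of the `(e_i - x_l)` of the other two, so the product of the three `dl` is
`((e_i - e_{i+1})(e_i - e_{i+2}))²`. If two of them are `e_i` the derivative gives
`(e_i - e_{i+1})(e_i - e_{i+2}) = 0`, contradiction to injectivity. -/
def StHom : Prop := ∀ (K : Type) [Field K] [DecidableEq K], (2 : K) ≠ 0 → ∀ e : Fin 3 → K,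
  Function.Injective e → ∀ (i : Fin 3) (P Q : (W e).Point),
    IsSquare (dl e i P * dl e i Q * dl e i (P + Q))

/-- KER. The kernel of the 2-descent map.
PROOF. `P = 0`: `Q = 0`. `P = (x, y)`: for every `i` there is `r_i` with `x - e_i = r_i²` (`r_i = 0` if `x = e_i`).
`y² = (r₀ r₁ r₂)²`; replacing `r₀` by `-r₀` we may assume `y = r₀ r₁ r₂`. `r_i ± r_j ≠ 0` for `i ≠ j`. Let
`x' = x + r₀ r₁ + r₀ r₂ + r₁ r₂`, `y' = (r₀ + r₁)(r₀ + r₂)(r₁ + r₂) ≠ 0`. `x' - e₀ = (r₀ + r₁)(r₀ + r₂)` etc., so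
`Q = (x', y')` is a point (`W_nonsingular`). The slope of the tangent at `Q` is `r₀ + r₁ + r₂` (derivative of the
cubic at `x'` is `2 (r₀ + r₁ + r₂) y'`), `x(2Q) = (r₀+r₁+r₂)² + (e₀+e₁+e₂) - 2 x' = x`,
`y(2Q) = -(y' + (r₀+r₁+r₂)(x - x')) = (r₀+r₁+r₂)(r₀r₁+r₀r₂+r₁r₂) - y' = r₀r₁r₂ = y`. -/
def StKer : Prop := ∀ (K : Type) [Field K] [DecidableEq K], (2 : K) ≠ 0 → ∀ e : Fin 3 → K,
  Function.Injective e → ∀ P : (W e).Point, (∀ i, IsSquare (dl e i P)) → ∃ Q, P = Q + Q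

/-- PRD. `dl` is nonzero and the product of the three values is a square. PROOF. Cases: `1`; `y²` (`W_equation`);
at `x = e_0`: `((e₀ - e₁)(e₀ - e₂))²`, same for `1, 2`. -/
def StPrd : Prop := ∀ (K : Type) [Field K] [DecidableEq K] (e : Fin 3 → K),
  Function.Injective e → ∀ P : (W e).Point, (∀ i, dl e i P ≠ 0) ∧ IsSquare (∏ i, dl e i P)

/-- IND. The elements `t, t - 1, t - l` are independent modulo squares.
PROOF. (right to left) up to a square the product is `∏_j (t - r_j)^{m1+m2+m3+m4}` with even exponents. (left to right)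
The square of `u/v` (`u, v ∈ k[X]`): `v² ∏_j (X - C r_j)^{n_j} = u²`, `n_j` = number of the `m_i j` which are `true`;
compare `rootMultiplicity` at `r_j` (`0, 1, l` are different). -/
def StInd : Prop := ∀ (k : Type) [Field k] (l : k), l ≠ 0 → l ≠ 1 →
  ∀ m1 m2 m3 m4 : Fin 3 → Bool, IsSquare (dm l m1 * dm l m2 * dm l m3 * dm l m4) ↔
    ∀ j, xor (xor (m1 j) (m2 j)) (xor (m3 j) (m4 j)) = false

/-- SQ. Squares in `k(t)` up to `t, t - 1, t - l`.
PROOF. It suffices to treat a polynomial `G ≠ 0` (`u = num * denom * (1/denom)²`); hypothesis: for every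
`c ≠ 0, 1, l` the root multiplicity of `c` in `G` is even. `G = a ∏ (X - c)^{n_c}` (splits), `a` is a square,
take `m j` = parity of `n_{r_j}`. (Formally: induction on the degree: if `G` has a root `c` of multiplicity
`≥ 2` divide by `(X - c)²`; if all roots are simple they are among `0, 1, l`.) -/
def StSq : Prop := ∀ (k : Type) [Field k] [IsAlgClosed k] (l : k) (G : k[X]), G ≠ 0 →
  (∀ c : k, c ≠ 0 → c ≠ 1 → c ≠ l → Even (G.rootMultiplicity c)) →
  ∃ m : Fin 3 → Bool, IsSquare (algebraMap k[X] (RatFunc k) G * dm l m)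

/-- SUP. Every point has a class (row by row).
PROOF. `P = 0`: `ff = dm (true, true, true)`. `P = (x, y)` with `x = e_i` for some `i`: each `dl` is a nonzero
constant times `f` or `f²`; constants are squares. Otherwise write `x = A/B` (num, denom, coprime),
`F = ` the polynomial `X (X-1) (X-l)`: `A (A - F B)(A - m F B) B = (y B²)²` is a square in `k(t)`, hence of a
polynomial `G` (`IsIntegrallyClosed`, or `y B² = ` quotient in lowest terms), all factors nonzero. Let `c ≠ 0,1,l`: `F(c) ≠ 0`.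
At most one of the four factors vanishes at `c` (`A, B` coprime; if two of `A, A - F B, A - m F B`
vanish at `c` then `F(c) B(c) = 0` (times `1`, `m` or `m - 1`), `B(c) = 0`, `A(c) = 0`), so its root multiplicity at
`c` is that of `G²`, even: every factor has even multiplicity at `c`. Now `dl i P = (A - C(rt m i) F B)/B` and
`F * (A - C(rt m i) F B) * B` has even multiplicity at all `c ≠ 0,1,l`: SQ. -/
def StSup : Prop := ∀ (k : Type) [Field k] [IsAlgClosed k] [DecidableEq (RatFunc k)], (2 : k) ≠ 0 →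
  ∀ l m : k, l ≠ 0 → l ≠ 1 → m ≠ 0 → m ≠ 1 → ∀ (P : (W (ee l m)).Point) (i : Fin 3),
    ∃ r : Fin 3 → Bool, IsSquare (ff l * dl (ee l m) i P * dm l r)

/-- COV. The coverings. Write `d_i = dm l (M i)`, `f = ff l`; a vector is `(u, v, w, z)`.
PROOF. `f d₀ d₁ d₂` is a nonzero square `g²` (IND or directly: all exponents are even by `OddCol`).
(right to left) `P = 0`: `f d_i = g_i²`, vector `(f/g₀, f/g₁, f/g₂, 0)`. `P = (x, y)`, `x ≠ e_i` for all `i`:
`f (x - e_i) d_i = g_i²`, vector `(g₀/(f d₀), g₁/(f d₁), g₂/(f d₂), 1)` (`e₁ = f`, `e₂ = m f`). `x = e₀ = 0`: then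
`-f² d₁ = g₁²`, `-m f² d₂ = g₂²`: `(0, f/g₁, m f/g₂, 1)`. `x = e₁ = f`: `dl 0 = f`, `dl 2 = (1 - m) f`:
`f² d₀ = g₀²`, `(1-m) f² d₂ = g₂²`: `(f/g₀, 0, (1-m) f/g₂, 1)`. `x = e₂ = m f`: `m f² d₀ = g₀²`,
`(m-1) f² d₁ = g₁²`: `(m f/g₀, (m-1) f/g₁, 0, 1)`.
(left to right) `z ≠ 0`, WLOG `z = 1` (divide): `x = f d₀ u²`, `x - f = f d₁ v²`, `x - m f = f d₂ w²`, the product
is `f³ d₀ d₁ d₂ (u v w)² = (f g u v w)²`: point `(x, f g u v w)` (`mkP`). If `u v w ≠ 0`: `f dl_i d_i = (f d_i u)²` etc.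
If `u = 0` (`x = 0`): `v, w ≠ 0` (`z = 1`, `m ≠ 0`); `-d₁ v² = 1`, `-d₂ w² = m`; `dl 1 = -f`: `f dl₁ d₁ = (f/v)²`, `dl 2 = -m f`:
`f dl₂ d₂ = (m f/w)²`; `dl 0 = m f²`, `f dl₀ d₀ = m f³ d₀ = (f g v w)²` since `g² = f d₀ d₁ d₂ = f d₀ m/(v w)²`.
Similarly `v = 0` (`x = f`, `dl 1 = (1-m) f²`) and `w = 0` (`x = m f`, `dl 2 = m(m-1) f²`). `z = 0`: `d₀ u² = d₁ v² = d₂ w²`
is nonzero (otherwise the vector is zero) and `f d_i` is a square since `f d₀ d₁ d₂` and the `d_i d_j` are: `P = 0`. -/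
def StCov : Prop := ∀ (k : Type) [Field k] [DecidableEq (RatFunc k)], (2 : k) ≠ 0 →
  ∀ l m : k, l ≠ 0 → l ≠ 1 → m ≠ 0 → m ≠ 1 → ∀ M : Fin 3 → Fin 3 → Bool, OddCol M →
    ((∃ x : Fin 4 → RatFunc k, x ≠ 0 ∧ qf (qa l M) x = 0 ∧ qf (qb l m M) x = 0) ↔
      ∃ P, HasClass l m P M)

/-- PD1. The degree of a vector is well defined. PROOF. `c v = p`, `c' v = p'`: with `c'/c = A/B`, `A, B` coprime
polynomials: `B p' = A p`. A root of `A` would be a zero of all `p'_i`; `k` is algebraically closed, so `A` is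
constant, and so is `B`: `p' = a p`, `a ∈ k^*`. Scaling: replace `c`. -/
def StPD1 : Prop := ∀ (k : Type) [Field k] [IsAlgClosed k] (n : ℕ) (v : Fin n → RatFunc k) (d : ℕ),
  PD v d → (∀ d', PD v d' → d = d') ∧ ∀ a : RatFunc k, a ≠ 0 → PD (fun i => a * v i) d

/-- PD2. The vector `xx P` has degree `ht P`. PROOF. `![u, 1]`, `u = num/denom` coprime: `c = denom`. `![1, 0]`:
constant. -/
def StPD2 : Prop := ∀ (k : Type) [Field k] (l m : k) (P : (W (ee l m)).Point),
  PD (xx l m P) (ht l m P)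

/-- PD3. Degrees of symmetric products. PROOF. For polynomial vectors `p, p'` with multipliers `c, c'`: multiplier
`c c'`, vector `sm2 p p'`. If `sm2 (a,b) (a',b') = (b b', a b' + b a', a a') = 0` in `k` then `(a,b) = 0` or
`(a',b') = 0`; apply this to the values at `z` and to the vectors of coefficients at `d`, `d'` (the coefficient of
`sm2 p p'` at `d + d'` is `sm2` of these vectors). -/
def StPD3 : Prop := ∀ (k : Type) [Field k] (u v : Fin 2 → RatFunc k) (d d' : ℕ),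
  PD u d → PD v d' → PD (sm2 u v) (d + d')

/-- PD4. The map `sgm` doubles degrees. PROOF. `sgm m` is quadratic and has no nontrivial zero over `k`:
`v₁² = 4 v₀ v₂`, `v₂ = m v₀`, so `v₁² = 4 m v₀²`, and `2 v₁ (2 m v₀) - 4 (1+m) m v₀² = 4 m v₀ (v₁ - (1+m) v₀) = 0`; if
`v₀ = 0` all are `0`, otherwise `v₁ = (1+m) v₀`, `(1+m)² = 4 m`, `(1-m)² = 0`. Multiplier `c²`, values at `z` and
coefficients at `2 d` (`sgm` of the vector of coefficients at `d`). -/
def StPD4 : Prop := ∀ (k : Type) [Field k], (2 : k) ≠ 0 → ∀ m : k, m ≠ 0 → m ≠ 1 →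
  ∀ (v : Fin 3 → RatFunc k) (d : ℕ), PD v d → PD (sgm (RatFunc.C m) v) (2 * d)

/-- ADS. Addition and subtraction of points on `x`-coordinates, for the curve with roots `0, f, m f`,
`x`-coordinates divided by `f`.
PROOF. `Q = 0`: `sm2 (xx P) (1:0) = (0, b, a)` for `xx P = (a : b)`, `sgm` of it is `(b², 2 a b, a²) = sm2 (a:b) (a:b)`. `P = 0` same
(`x(-Q) = x(Q)`). `P = Q = (x, y)`, put `ξ = x/f`: `sm2 = (1, 2ξ, ξ²)`, `sgm = (0, 4ξ(ξ² + m) - 4(1+m)ξ², (ξ² - m)²)
= (0, 4 ξ(ξ-1)(ξ-m), (ξ² - m)²)`; `4 ξ(ξ-1)(ξ-m) = 4 y²/f³`; if `y = 0`, `P + P = 0` and both sides are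
proportional to `(0,0,1)` (`ξ² ≠ m` at `ξ = 0, 1, m`), otherwise `x(2P) = f (ξ² - m)²/(4 ξ(ξ-1)(ξ-m))` (tangent
formula) and `sm2 (xx (2P)) (1:0) = (0, 1, x(2P)/f)`. `P = -Q`: same with `P + Q` and `P - Q` exchanged (`sm2` is
symmetric). `x₁ ≠ x₂`: slopes `(y₁ ∓ y₂)/(x₁ - x₂)`; with `ξ_i = x_i/f`, `A = -(1+m)`:
`ξ₃ + ξ₄ = 2 ((ξ₁+ξ₂)(ξ₁ξ₂+m) + 2 A ξ₁ξ₂)/(ξ₁-ξ₂)²`, `ξ₃ ξ₄ = (ξ₁ξ₂ - m)²/(ξ₁-ξ₂)²` (`ξ₃, ξ₄` for `P + Q`, `P - Q`), and
`sgm (1, ξ₁+ξ₂, ξ₁ξ₂) = ((ξ₁-ξ₂)², 2(ξ₁+ξ₂)(ξ₁ξ₂+m) - 4(1+m)ξ₁ξ₂, (ξ₁ξ₂-m)²)`. -/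
def StAds : Prop := ∀ (k : Type) [Field k] [DecidableEq (RatFunc k)], (2 : k) ≠ 0 →
  ∀ l m : k, m ≠ 0 → m ≠ 1 → ∀ P Q : (W (ee l m)).Point, ∃ c : RatFunc k, c ≠ 0 ∧
    ∀ i, sgm (RatFunc.C m) (sm2 (xx l m P) (xx l m Q)) i =
      c * sm2 (xx l m (P + Q)) (xx l m (P - Q)) i

/-- PAR. The exact parallelogram law. PROOF. PD2, PD3: `sm2 (xx P) (xx Q)` has degree `ht P + ht Q`, PD4: `sgm` of it
degree `2 (ht P + ht Q)`; it is proportional to `sm2 (xx (P+Q)) (xx (P-Q))` of degree `ht (P+Q) + ht (P-Q)`;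
PD1. -/
def StPar : Prop := ∀ (k : Type) [Field k] [IsAlgClosed k] [DecidableEq (RatFunc k)], (2 : k) ≠ 0 →
  ∀ l m : k, m ≠ 0 → m ≠ 1 → ∀ P Q : (W (ee l m)).Point,
    ht l m (P + Q) + ht l m (P - Q) = 2 * ht l m P + 2 * ht l m Q

/-- RDEG. Rational functions of degree `0` are constant. -/
def StRdeg : Prop := ∀ (k : Type) [Field k] (u : RatFunc k), rdeg u = 0 ↔ ∃ c : k, u = RatFunc.C c

/-- HZE. Points of height zero.
PROOF. `ht P = 0`, `P = (x, y)`: `x = C c * f` (RDEG), `y² = C (c (c-1)(c-m)) f³`; if `c ≠ 0, 1, m`, `f` would be a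
square (the constant is a square), against IND. So `P` is `0` or one of `T_i = (C (rt m i) f, 0)`: `P + P = 0`
(`-P = P` as `y = 0`). Classes: `0` has the class all ones; `T_i` has the class with row `i` ones, the rest zeros
(`dl` is a constant times `f` for the other rows and a constant times `f²` for row `i`; constants are
squares). These are exactly the four row constant `M` with odd columns. Heights: `rdeg (C c) = 0`. -/
def StHze : Prop := ∀ (k : Type) [Field k] [IsAlgClosed k] [DecidableEq (RatFunc k)], (2 : k) ≠ 0 →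
  ∀ l m : k, l ≠ 0 → l ≠ 1 → m ≠ 0 → m ≠ 1 →
    (∀ P : (W (ee l m)).Point, ht l m P = 0 → P + P = 0 ∧
      ∃ M, RowConst M ∧ OddCol M ∧ HasClass l m P M) ∧
    ∀ M, RowConst M → OddCol M → ∃ P : (W (ee l m)).Point, ht l m P = 0 ∧ HasClass l m P M

/-- DAT. Assembly. PROOF. `c P i` := the row of SUP. By IND the class is unique: if `HasClass P M` then
`(f δ)² d(M i) d(c P i)` is a square, so `M i = c P i`. `par`: PAR. `tor`, `zer`, `two`: HZE. `odd`: PRD and IND:
`f³ ∏ δ_i ∏ d(c P i)` is a square, so `f ∏ d(c P i)` is. `add`: HOM: `f δ(P) d(cP)`, `f δ(Q) d(cQ)`,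
`f δ(P+Q) d(c(P+Q))` and `δ(P) δ(Q) δ(P+Q)` are squares, so `f d(cP) d(cQ) d(c(P+Q))` is a square; IND
(`ff_eq_dm`). `dbl`: `d = f`, so `δ_i` are squares, KER. -/
def StDat : Prop := ∀ (k : Type) [Field k] [IsAlgClosed k] [DecidableEq (RatFunc k)], (2 : k) ≠ 0 →
  ∀ l m : k, l ≠ 0 → l ≠ 1 → m ≠ 0 → m ≠ 1 →
    ∃ c : (W (ee l m)).Point → Fin 3 → Fin 3 → Bool, Dat (ht l m) c ∧
      ∀ P M, HasClass l m P M ↔ c P = M

/-- T3A. PROOF. (right to left) `zer`. (left to right) First `h 0 = 0`, `h (-P) = h P` (par), `c 0` all ones (add).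
Take `P` with `h P ≠ 0` minimal and suppose all classes are row constant. By `two` (and `odd`) there is `T` with
`h T = 0`, `c T = c P`; `c (P + T)` is all ones, `P + T = R + R`. `T + T = 0` so `P - T = P + T` and by `par`
`h (P + T) = h P`; `par` for `R, R`: `h (P + T) = 4 h R`. So `0 < h R < h P`. -/
def StT3A : Prop := ∀ (G : Type) [AddCommGroup G] (h : G → ℕ) (c : G → Fin 3 → Fin 3 → Bool),
  Dat h c → ((∃ P, h P ≠ 0) ↔ ∃ P, ¬ RowConst (c P))

/-- NSQ. PROOF. `τ = 2 j + ε`, `ε ∈ {0, 1}`. For large `n`: `n² + τ n + N = (n + j)² + ε n + (N - j²)`. If `ε = 1` it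
lies strictly between `(n+j)²` and `(n+j+1)²` for large `n`, not a square. If `ε = 0` it is a square for large `n`
only if `N = j²`. -/
def StNsq : Prop := ∀ τ N : ℤ, (∀ n : ℤ, IsSquare (n ^ 2 + τ * n + N)) → ∃ j : ℤ, τ = 2 * j ∧ N = j ^ 2

/-- T1A. PROOF. As in T3A: `h 0 = 0`, `h (-P) = h P`, `c 0` all ones, `c (-P) = c P`, `h (2R) = 4 h R`,
`h (P + T) = h P` if `h T = 0`; `h (n I) = n²`, `c (2 n I)` all ones, `c ((2n+1) I) = c I`. Let
`G₀ = {P | ∃ n : ℤ, h (P - n I) = 0}` (closed under adding `I`; `P = n I + T`, `h T = 0`, `h P = n²`).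
(right to left) Let `¬ Spec8 (c P)` and suppose all heights are squares. `n ↦ h (P + n I)` has second
difference `2` (par), so it is `n² + τ n + N`; NSQ: it vanishes at `n = -j`, `T = P - j I`, `h T = 0`, so `c T` is row
constant with odd columns and `c P = c T` (`j` even) or `1 + c T + c I` (`j` odd): both satisfy `Spec8`. Contradiction.
(left to right) Suppose all `c P` satisfy `Spec8` and some height is not a square; then `G₀ ≠ G`; take
`P ∉ G₀` with `h P` minimal, `h P ≥ 1`. Let `a = c P 0 1`, `b = c P 1 0`, `d = c P 2 0`; by `OddCol`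
`c P 0 0 = 1+b+d`, `c P 1 1 = 1+a+d`, `c P 2 2 = 1+a+b`. If `a+b+d` is odd, `c P` is row constant: `T` with
`h T = 0`, `c T = c P`, `P + T = 2R`, `4 h R = h P`, `R ∉ G₀` (else `P + T = 2 n I + 2 T' = 2 n I`), `h R < h P`.
If `a+b+d` is even, `M' = 1 + c P + c I` is row constant with odd columns, `T` with `h T = 0`, `c T = M'`:
`c (P + T + I)` is all ones, `P + T + I = 2R`, `P + T - I = 2R'`, `R' = R - I`, `R, R' ∉ G₀`,
`4 h R + 4 h R' = 2 h (P + T) + 2 h I = 2 h P + 2`; minimality: `8 h P ≤ 2 h P + 2`, `h P = 0`. Contradiction. -/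
def StT1A : Prop := ∀ (G : Type) [AddCommGroup G] (h : G → ℕ) (c : G → Fin 3 → Fin 3 → Bool),
  Dat h c → ∀ I : G, h I = 1 → (∀ i j, c I i j = decide (i = j)) →
    ((∃ P, ¬ IsSquare (h P)) ↔ ∃ P, ¬ Spec8 (c P))

/-- SOL. Points and solutions. PROOF. `P = (x, y)`: `u = x/f`, `w = y/f²`; conversely `x = f u`, `y = f² w` (`mkP`). -/
def StSol : Prop := ∀ (k : Type) [Field k] [DecidableEq (RatFunc k)], (2 : k) ≠ 0 →
  ∀ l m : k, m ≠ 0 → m ≠ 1 → ∀ n : ℕ, n ≠ 0 → ((∃ P, ht l m P = n) ↔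
    ∃ u w : RatFunc k, ff l * w ^ 2 = u * (u - 1) * (u - RatFunc.C m) ∧ rdeg u = n)

/-- IDT. The identity. PROOF. `I = (f t, f²)` for `l = m`: `f t (f t - f)(f t - m f) = f³ t (t-1)(t-m) = f⁴`. `dl i = f (t - r_i)`,
`f dl_i (t - r_i) = (f (t - r_i))²`. Height `rdeg X = 1`. -/
def StIdt : Prop := ∀ (k : Type) [Field k] [DecidableEq (RatFunc k)], (2 : k) ≠ 0 →
  ∀ m : k, m ≠ 0 → m ≠ 1 → ∃ I : (W (ee m m)).Point, ht m m I = 1 ∧
    HasClass m m I (fun i j => decide (i = j))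

/-- FROB. PROOF. `u = X^p`, `w = f^((p-1)/2)` (`p` odd): `f w² = f^p = X^p (X-1)^p (X - C m)^p = u (u-1)(u - C m)` as
`m^p = m`. `rdeg (X^p) = p` is not a square. -/
def StFrob : Prop := ∀ (k : Type) [Field k] (p : ℕ) [CharP k p], p.Prime → p ≠ 2 → ∀ m : k, m ^ p = m →
  HasCM m

/-- T3. The isogeny family. PROOF. PAIRS for `R = MvPolynomial (Fin 2) ℤ` (`l = X 0`, `m = X 1`),
`Ξ = {M // OddCol M ∧ ¬ RowConst M}` (nonempty finite), `ι = Fin 4`, `a M = ![d₀, -d₁, 0, -1]`,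
`b M = ![d₀, 0, -d₂, -C m]` with `d_i = ∏_j if M i j then X - C r_j else 1` in `R[X]`, `r = ![0, 1, X 0]`. Under
`φ = eval₂Hom (Int.castRingHom k) ![l, m]` the images in `RatFunc k` are `qa l M`, `qb l m M` (all first or
second coefficients nonzero as `m ≠ 0`: indices `0, 1, 2, 3`). COV: the condition is
`∃ M ∈ Ξ, ∃ P, HasClass P M`, by DAT `∃ P, ¬ RowConst (c P)` (`OddCol (c P)` always), by T3A `∃ P, ht P ≠ 0`, by SOL and
RDEG `Isog l m`. -/
def StT3 : Prop := ∃ (P v q : ℕ) (g : Fin q → MvPolynomial (Fin v) (MvPolynomial (Fin 2) ℤ)), 3 ≤ P ∧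
  ∀ (k : Type) [Field k] [IsAlgClosed k], Big k P → ∀ l m : k, l ≠ 0 → l ≠ 1 → m ≠ 0 → m ≠ 1 →
    Good (MvPolynomial.eval₂Hom (Int.castRingHom k) ![l, m]) g (Isog l m)

/-- T1. The CM family. PROOF. As T3 with `R = ℤ[X]`, `l = m = X`, `Ξ = {M // OddCol M ∧ ¬ Spec8 M}`, IDT, T1A, SOL. -/
def StT1 : Prop := ∃ (P v q : ℕ) (g : Fin q → MvPolynomial (Fin v) ℤ[X]), 3 ≤ P ∧
  ∀ (k : Type) [Field k] [IsAlgClosed k], Big k P → ∀ m : k, m ≠ 0 → m ≠ 1 →
    Good (Polynomial.eval₂RingHom (Int.castRingHom k) m) g (HasCM m)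

end Pool.Agent.Helper44.CMF
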