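import Mathlib
import Pool.Agent.Helper44.CMF.St
import Pool.Agent.Helper44.CMF.M_CovK

/-!
# Project CMF, module Cov (from CovK)
-/

set_option autoImplicit false

namespace Pool.Agent.Helper44.CMF

open Pool.Agent.Helper44.RED

private theorem ee_eK_Cov {k : Type} [Field k] (l m : k) : ee l m = eK (ff l) (RatFunc.C m) := by
  funext i
  fin_cases i <;> simp [ee, eK, rt]

private theorem transp_Cov {K : Type} [Field K] [DecidableEq K] {e e' : Fin 3 → K} (h : e = e') (F : K)
    (d : Fin 3 → K) :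
    (∃ P : (W e).Point, ∀ i, IsSquare (F * dl e i P * d i)) ↔
      (∃ P : (W e').Point, ∀ i, IsSquare (F * dl e' i P * d i)) := by
  subst h
  exact Iff.rfl

private theorem sq_Cov {k : Type} [Field k] (l : k) (M : Fin 3 → Fin 3 → Bool) (hM : OddCol M) :
    IsSquare (ff l * dm l (M 0) * dm l (M 1) * dm l (M 2)) := by
  have key : ∀ j : Fin 3, ∃ s : RatFunc k, tm (rt l j) * (if M 0 j then tm (rt l j) else 1) *
      (if M 1 j then tm (rt l j) else 1) * (if M 2 j then tm (rt l j) else 1) = s * s := by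
    intro j
    have h := hM j
    cases h0 : M 0 j <;> cases h1 : M 1 j <;> cases h2 : M 2 j <;> simp [h0, h1, h2] at h ⊢
    · exact ⟨tm (rt l j), rfl⟩
    · exact ⟨tm (rt l j), rfl⟩
    · exact ⟨tm (rt l j), rfl⟩
    · exact ⟨tm (rt l j) * tm (rt l j), by ring⟩
  choose s hs using key
  refine ⟨∏ j, s j, ?_⟩
  rw [← Finset.prod_mul_distrib]
  unfold ff dm
  rw [← Finset.prod_mul_distrib, ← Finset.prod_mul_distrib, ← Finset.prod_mul_distrib]
  exact Finset.prod_congr rfl fun j _ => hs j

theorem pCov : StCov := by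
  intro k _ _ h2 l m _ _ hm0 hm1 M hM
  have h2' : (2 : RatFunc k) ≠ 0 := by
    intro h
    apply h2
    apply (RatFunc.C : k →+* RatFunc k).injective
    rw [map_zero, map_ofNat]
    exact h
  have c0 : RatFunc.C m ≠ 0 := fun h => hm0 ((RatFunc.C : k →+* RatFunc k).injective (by rw [h, map_zero]))
  have c1 : RatFunc.C m ≠ 1 := fun h => hm1 ((RatFunc.C : k →+* RatFunc k).injective (by rw [h, map_one]))
  have key := pCovK (RatFunc k) h2' (ff l) (RatFunc.C m) (ff_ne l) c0 c1 (fun i => dm l (M i))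
    (fun i => dm_ne l (M i)) (sq_Cov l M hM)
  exact key.trans (transp_Cov (ee_eK_Cov l m) (ff l) (fun i => dm l (M i))).symm

end Pool.Agent.Helper44.CMF
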