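import Pool.Agent.Helper44.CMF.St

/-!
# Project CMF: module Frob (complex multiplication by Frobenius)
-/

set_option autoImplicit false

open Polynomial

namespace Pool.Agent.Helper44.CMF

open Pool.Agent.Helper44.RED

theorem pFrob : StFrob := by
  intro k _ p _ hp hp2 m hm
  have : Fact p.Prime := ⟨hp⟩
  have hc : CharP (RatFunc k) p :=
    charP_of_injective_algebraMap (algebraMap k (RatFunc k)).injective p
  refine ⟨RatFunc.X ^ p, ff m ^ ((p - 1) / 2), ?_, ?_⟩
  · have h1 : ff m * (ff m ^ ((p - 1) / 2)) ^ 2 = ff m ^ p := by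
      rw [← pow_mul, ← pow_succ']
      congr 1
      have hodd := hp.odd_of_ne_two hp2
      obtain ⟨j, hj⟩ := hodd
      omega
    rw [h1, ff_eq, mul_pow, mul_pow, sub_pow_char, sub_pow_char, one_pow, ← map_pow, hm]
  · have h1 : rdeg (RatFunc.X ^ p : RatFunc k) = p := by
      unfold rdeg
      have h2 : (RatFunc.X ^ p : RatFunc k) = algebraMap k[X] (RatFunc k) (X ^ p) := by
        rw [map_pow, RatFunc.algebraMap_X]
      rw [h2, RatFunc.num_algebraMap, RatFunc.denom_algebraMap]
      simp
    rw [h1]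
    rintro ⟨r, hr⟩
    exact hp.prime.not_isSquare ⟨r, hr⟩

end Pool.Agent.Helper44.CMF
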