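import Pool.Agent.Helper44.CMF.StN

set_option autoImplicit false

open MvPolynomial

namespace Pool.Agent.Helper44.CMF

open Pool.Agent.Helper44.RED

private theorem key_PD4N {D : Type} [CommRing D] [IsDomain D] (h2 : (2 : D) ≠ 0) (m : D) (h0 : m ≠ 0)
    (h1 : m ≠ 1) (v : Fin 3 → D) (hv : ∀ i, sgm m v i = 0) : ∀ i, v i = 0 := by
  have e0 := hv 0
  have e1 := hv 1
  have e2 := hv 2
  simp only [sgm, Matrix.cons_val_zero, Matrix.cons_val_one, Matrix.cons_val] at e0 e1 e2
  have e3 : v 2 = m * v 0 := by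
    have := pow_eq_zero_iff (two_ne_zero) |>.1 e2
    linear_combination this
  have h4 : (4 : D) ≠ 0 := by
    have : (4 : D) = 2 * 2 := by norm_num
    rw [this]; exact mul_ne_zero h2 h2
  have hv0 : v 0 = 0 := by
    by_contra hne
    rw [e3] at e0 e1
    have e4 : (4 * m * v 0) * (v 1 - (1 + m) * v 0) = 0 := by linear_combination e1
    have e5 : v 1 - (1 + m) * v 0 = 0 :=
      (mul_eq_zero.1 e4).resolve_left (mul_ne_zero (mul_ne_zero h4 h0) hne)
    have e6 : v 1 = (1 + m) * v 0 := by linear_combination e5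
    rw [e6] at e0
    have e7 : (v 0) ^ 2 * (1 - m) ^ 2 = 0 := by linear_combination e0
    rcases mul_eq_zero.1 e7 with h | h
    · exact hne (pow_eq_zero_iff (two_ne_zero) |>.1 h)
    · exact h1 (by
        have := pow_eq_zero_iff (two_ne_zero) |>.1 h
        linear_combination -this)
  have hv2 : v 2 = 0 := by rw [e3, hv0, mul_zero]
  have hv1 : v 1 = 0 := by
    rw [hv0, hv2] at e0
    have : v 1 ^ 2 = 0 := by linear_combination e0
    exact pow_eq_zero_iff (two_ne_zero) |>.1 this
  intro i
  fin_cases i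
  · exact hv0
  · exact hv1
  · exact hv2

private theorem map_PD4N {R S : Type} [CommRing R] [CommRing S] (f : R →+* S) (m : R)
    (v : Fin 3 → R) (i : Fin 3) : f (sgm m v i) = sgm (f m) (fun j => f (v j)) i := by
  have e2 : f 2 = 2 := map_ofNat f 2
  have e4 : f 4 = 4 := map_ofNat f 4
  fin_cases i <;> simp [sgm, e2, e4]

private theorem smul_PD4N {R : Type} [CommRing R] (m c : R) (v : Fin 3 → R) (i : Fin 3) :
    c ^ 2 * sgm m v i = sgm m (fun j => c * v j) i := by
  fin_cases i
  · show c ^ 2 * sgm m v 0 = sgm m (fun j => c * v j) 0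
    simp only [sgm, Matrix.cons_val_zero]
    ring
  · show c ^ 2 * sgm m v 1 = sgm m (fun j => c * v j) 1
    simp only [sgm, Matrix.cons_val_one, Matrix.cons_val_zero]
    ring
  · show c ^ 2 * sgm m v 2 = sgm m (fun j => c * v j) 2
    simp only [sgm, Matrix.cons_val]
    ring

private theorem hsum_PD4N {σ R : Type} [CommRing R] (p : MvPolynomial σ R) (d : ℕ)
    (hp : p.totalDegree ≤ d) : p = ∑ i ∈ Finset.range (d + 1), homogeneousComponent i p := by
  conv_lhs => rw [← sum_homogeneousComponent p]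
  refine Finset.sum_subset (Finset.range_subset_range.2 (by omega)) fun i _ hi => ?_
  rw [Finset.mem_range, not_lt] at hi
  exact homogeneousComponent_eq_zero _ _ (by omega)

private theorem hmul_PD4N {σ R : Type} [CommRing R] (p q : MvPolynomial σ R) (d : ℕ)
    (hp : p.totalDegree ≤ d) (hq : q.totalDegree ≤ d) :
    homogeneousComponent (2 * d) (p * q) = homogeneousComponent d p * homogeneousComponent d q := by
  have h1 : p * q = ∑ i ∈ Finset.range (d + 1), ∑ j ∈ Finset.range (d + 1),
      homogeneousComponent i p * homogeneousComponent j q := by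
    conv_lhs => rw [hsum_PD4N p d hp, hsum_PD4N q d hq]
    rw [Finset.sum_mul_sum]
  have h2 : ∀ i j, homogeneousComponent (2 * d) (homogeneousComponent i p * homogeneousComponent j q)
      = if 2 * d = i + j then homogeneousComponent i p * homogeneousComponent j q else 0 := by
    intro i j
    refine homogeneousComponent_of_mem ?_
    rw [mem_homogeneousSubmodule]
    exact (homogeneousComponent_isHomogeneous i p).mul (homogeneousComponent_isHomogeneous j q)
  rw [h1, map_sum]
  simp only [map_sum, h2]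
  rw [Finset.sum_eq_single d]
  · rw [Finset.sum_eq_single d]
    · rw [if_pos (by omega)]
    · intro j hj hne
      rw [if_neg (by omega)]
    · intro h; exact absurd (Finset.mem_range.2 (by omega)) h
  · intro i hi hne
    rw [Finset.mem_range] at hi
    refine Finset.sum_eq_zero fun j hj => ?_
    rw [Finset.mem_range] at hj
    rw [if_neg (by omega)]
  · intro h; exact absurd (Finset.mem_range.2 (by omega)) h

private theorem forms_PD4N {σ R : Type} [CommRing R] (m : R) (p : Fin 3 → MvPolynomial σ R) :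
    sgm (C m) p 0 = p 1 * p 1 - C 4 * (p 0 * p 2) ∧
    sgm (C m) p 1 = C 2 * (p 1 * p 2) + C (2 * m) * (p 1 * p 0) - C (4 * (1 + m)) * (p 0 * p 2) ∧
    sgm (C m) p 2 = p 2 * p 2 - C (2 * m) * (p 2 * p 0) + C (m ^ 2) * (p 0 * p 0) := by
  refine ⟨?_, ?_, ?_⟩
  · simp only [sgm, Matrix.cons_val_zero, map_ofNat]
    ring
  · simp only [sgm, Matrix.cons_val_one, Matrix.cons_val_zero, map_ofNat, map_mul, map_add, map_one]
    ring
  · simp only [sgm, Matrix.cons_val, map_ofNat, map_mul, map_pow]
    ring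

private theorem deg_PD4N {σ R : Type} [CommRing R] (m : R) (p : Fin 3 → MvPolynomial σ R) (d : ℕ)
    (hp : ∀ i, (p i).totalDegree ≤ d) (i : Fin 3) : (sgm (C m) p i).totalDegree ≤ 2 * d := by
  have hm : ∀ i j, (p i * p j).totalDegree ≤ 2 * d := fun i j =>
    (totalDegree_mul _ _).trans (by have := hp i; have := hp j; omega)
  have hC : ∀ (c : R) (q : MvPolynomial σ R), q.totalDegree ≤ 2 * d →
      (C c * q).totalDegree ≤ 2 * d := fun c q hq =>
    (totalDegree_mul _ _).trans (by rw [totalDegree_C]; omega)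
  have hadd : ∀ (a b : MvPolynomial σ R), a.totalDegree ≤ 2 * d → b.totalDegree ≤ 2 * d →
      (a + b).totalDegree ≤ 2 * d := fun a b ha hb => (totalDegree_add a b).trans (max_le ha hb)
  have hsub : ∀ (a b : MvPolynomial σ R), a.totalDegree ≤ 2 * d → b.totalDegree ≤ 2 * d →
      (a - b).totalDegree ≤ 2 * d := fun a b ha hb => (totalDegree_sub a b).trans (max_le ha hb)
  obtain ⟨f0, f1, f2⟩ := forms_PD4N m p
  fin_cases i
  · show (sgm (C m) p 0).totalDegree ≤ _
    rw [f0]
    exact hsub _ _ (hm _ _) (hC _ _ (hm _ _))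
  · show (sgm (C m) p 1).totalDegree ≤ _
    rw [f1]
    exact hsub _ _ (hadd _ _ (hC _ _ (hm _ _)) (hC _ _ (hm _ _))) (hC _ _ (hm _ _))
  · show (sgm (C m) p 2).totalDegree ≤ _
    rw [f2]
    exact hadd _ _ (hsub _ _ (hm _ _) (hC _ _ (hm _ _))) (hC _ _ (hm _ _))

private theorem comp_PD4N {σ R : Type} [CommRing R] (m : R) (p : Fin 3 → MvPolynomial σ R) (d : ℕ)
    (hp : ∀ i, (p i).totalDegree ≤ d) (i : Fin 3) :
    homogeneousComponent (2 * d) (sgm (C m) p i)
      = sgm (C m) (fun j => homogeneousComponent d (p j)) i := by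
  have hm : ∀ i j, homogeneousComponent (2 * d) (p i * p j)
      = homogeneousComponent d (p i) * homogeneousComponent d (p j) := fun i j =>
    hmul_PD4N _ _ d (hp i) (hp j)
  obtain ⟨f0, f1, f2⟩ := forms_PD4N m p
  obtain ⟨g0, g1, g2⟩ := forms_PD4N m (fun j => homogeneousComponent d (p j))
  fin_cases i
  · show homogeneousComponent (2 * d) (sgm (C m) p 0)
      = sgm (C m) (fun j => homogeneousComponent d (p j)) 0
    rw [f0, g0, map_sub, homogeneousComponent_C_mul, hm, hm]
  · show homogeneousComponent (2 * d) (sgm (C m) p 1)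
      = sgm (C m) (fun j => homogeneousComponent d (p j)) 1
    rw [f1, g1, map_sub, map_add, homogeneousComponent_C_mul, homogeneousComponent_C_mul,
      homogeneousComponent_C_mul, hm, hm, hm]
  · show homogeneousComponent (2 * d) (sgm (C m) p 2)
      = sgm (C m) (fun j => homogeneousComponent d (p j)) 2
    rw [f2, g2, map_add, map_sub, homogeneousComponent_C_mul, homogeneousComponent_C_mul,
      hm, hm, hm]

/-- the key lemma over a domain which contains the field `k` -/
private theorem keyk_PD4N {k : Type} [Field k] {D : Type} [CommRing D] [IsDomain D] (f : k →+* D)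
    (h2 : (2 : k) ≠ 0) (m : k) (h0 : m ≠ 0) (h1 : m ≠ 1) (v : Fin 3 → D)
    (hv : ∀ i, sgm (f m) v i = 0) : ∀ i, v i = 0 := by
  refine key_PD4N ?_ (f m) ?_ ?_ v hv
  · have : f 2 ≠ 0 := (map_ne_zero f).2 h2
    rwa [map_ofNat] at this
  · exact (map_ne_zero f).2 h0
  · intro h
    exact h1 (f.injective (by rw [h, map_one]))

theorem pPD4N : StPD4N := by
  intro k _ n h2 m h0 h1 v d ⟨c, hc, p, hp, hz, hd, i0, hi0⟩
  refine ⟨c ^ 2, pow_ne_zero _ hc, fun i => sgm (C m) p i, fun i => ?_, fun π hπ => ?_,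
    fun i => deg_PD4N m p d hd i, ?_⟩
  · rw [smul_PD4N, map_PD4N]
    congr 1
    funext j
    exact hp j
  · by_contra hcon
    push Not at hcon
    have hP : (Ideal.span {π}).IsPrime := (Ideal.span_singleton_prime hπ.ne_zero).2 hπ
    have : IsDomain (AN n k ⧸ Ideal.span {π}) := Ideal.Quotient.isDomain _
    have h3 : ∀ i, sgm (((Ideal.Quotient.mk (Ideal.span {π})).comp C) m)
        (fun j => Ideal.Quotient.mk (Ideal.span {π}) (p j)) i = 0 := by
      intro i
      have h4 := map_PD4N (Ideal.Quotient.mk (Ideal.span {π})) (C m) p i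
      rw [RingHom.comp_apply, ← h4, Ideal.Quotient.eq_zero_iff_mem, Ideal.mem_span_singleton]
      exact hcon i
    obtain ⟨j, hj⟩ := hz π hπ
    have h5 := keyk_PD4N ((Ideal.Quotient.mk (Ideal.span {π})).comp C) h2 m h0 h1 _ h3 j
    rw [Ideal.Quotient.eq_zero_iff_mem, Ideal.mem_span_singleton] at h5
    exact hj h5
  · by_contra hcon
    push Not at hcon
    have h3 : ∀ i, sgm (C m) (fun j => homogeneousComponent d (p j)) i = 0 := by
      intro i
      rw [← comp_PD4N m p d hd i]
      exact hcon i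
    exact hi0 (keyk_PD4N (C : k →+* AN n k) h2 m h0 h1 _ h3 i0)

end Pool.Agent.Helper44.CMF
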